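import Mathlib

/-!
Normal (depth first search) spanning trees of finite connected graphs, described by root paths.
-/

set_option linter.unusedSectionVars false
set_option linter.unusedVariables false

namespace Pool.Agent.H62.PathTuran

open Finset

variable {V : Type*} [DecidableEq V] (G : SimpleGraph V)

/-- A normal tree on the vertex set `S` rooted at `r`; `p v` is the list of vertices on the tree
path from `v` to the root. -/
structure NTree (S : Finset V) (r : V) (p : V → List V) : Prop where
  head : ∀ v ∈ S, (p v).head? = some v
  last : ∀ v ∈ S, (p v).getLast? = some r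
  chain : ∀ v ∈ S, (p v).IsChain G.Adj
  nodup : ∀ v ∈ S, (p v).Nodup
  mem : ∀ v ∈ S, ∀ u ∈ p v, u ∈ S
  suff : ∀ v ∈ S, ∀ u ∈ p v, p u <:+ p v
  adj : ∀ u ∈ S, ∀ v ∈ S, G.Adj u v → u ∈ p v ∨ v ∈ p u

lemma NTree.root {S : Finset V} {r : V} {p : V → List V} (h : NTree G S r p) (hr : r ∈ S) :
    p r = [r] := by
  have h1 := h.head r hr
  have h2 := h.last r hr
  have h3 := h.nodup r hr
  cases hp : p r with
  | nil => rw [hp] at h1; simp at h1
  | cons a l =>
    rw [hp] at h1 h2 h3
    simp only [List.head?_cons, Option.some.injEq] at h1
    subst h1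
    cases l with
    | nil => rfl
    | cons b l =>
      exfalso
      rw [List.getLast?_cons_cons] at h2
      have : a ∈ b :: l := List.mem_of_getLast? h2
      exact (List.nodup_cons.1 h3).1 this

/-- adjacency inside `S` -/
def RS (S : Finset V) (a b : V) : Prop := G.Adj a b ∧ a ∈ S ∧ b ∈ S

theorem exists_ntree (n : ℕ) : ∀ (S : Finset V) (r : V), S.card ≤ n → r ∈ S →
    (∀ v ∈ S, Relation.ReflTransGen (RS G S) r v) → ∃ p, NTree G S r p := by
  induction n with
  | zero =>
    intro S r hS hr
    have : S = ∅ := by rw [← card_eq_zero]; omega
    subst this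
    simp at hr
  | succ n ih =>
    intro S r hS hr hconn
    by_cases hu : ∃ u ∈ S, G.Adj r u
    · obtain ⟨u, huS, hru⟩ := hu
      have hur : u ≠ r := fun e => G.irrefl (e ▸ hru)
      classical
      set C := S.filter (fun v => v ≠ r ∧ Relation.ReflTransGen (RS G (S.erase r)) u v) with hC
      have huC : u ∈ C := by
        rw [hC, mem_filter]; exact ⟨huS, hur, Relation.ReflTransGen.refl⟩
      have hrC : r ∉ C := by
        rw [hC, mem_filter]; rintro ⟨-, h, -⟩; exact h rfl
      have hCS : C ⊆ S := filter_subset _ _
      have hCcard : C.card ≤ n := by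
        have : C.card < S.card := card_lt_card ⟨hCS, fun h => hrC (h hr)⟩
        omega
      have hrS' : r ∈ S \ C := mem_sdiff.2 ⟨hr, hrC⟩
      have hS'card : (S \ C).card ≤ n := by
        have : (S \ C).card < S.card :=
          card_lt_card ⟨sdiff_subset, fun h => (mem_sdiff.1 (h huS)).2 huC⟩
        omega
      have hclosed : ∀ a b, a ∈ C → b ∈ S → b ≠ r → G.Adj a b → b ∈ C := by
        intro a b ha hb hbr hab
        rw [hC, mem_filter] at ha ⊢
        refine ⟨hb, hbr, ha.2.2.tail ⟨hab, mem_erase.2 ⟨ha.2.1, ha.1⟩, mem_erase.2 ⟨hbr, hb⟩⟩⟩
      have hconnC : ∀ v ∈ C, Relation.ReflTransGen (RS G C) u v := by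
        intro v hv
        have h1 := (mem_filter.1 hv).2.2
        clear hv
        induction h1 with
        | refl => exact Relation.ReflTransGen.refl
        | @tail a b hab hstep ih' =>
          have haC : a ∈ C := by
            rw [hC, mem_filter]
            exact ⟨(mem_erase.1 hstep.2.1).2, (mem_erase.1 hstep.2.1).1, hab⟩
          have hbC : b ∈ C := hclosed a b haC (mem_erase.1 hstep.2.2).2 (mem_erase.1 hstep.2.2).1
            hstep.1
          exact ih'.tail ⟨hstep.1, haC, hbC⟩
      have hconnS' : ∀ v ∈ S \ C, Relation.ReflTransGen (RS G (S \ C)) r v := by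
        intro v hv
        have h1 := hconn v (mem_sdiff.1 hv).1
        have h2 := (mem_sdiff.1 hv).2
        clear hv
        induction h1 with
        | refl => exact Relation.ReflTransGen.refl
        | @tail a b hab hstep ih' =>
          by_cases haC : a ∈ C
          · by_cases hbr : b = r
            · subst hbr; exact Relation.ReflTransGen.refl
            · exact absurd (hclosed a b haC hstep.2.2 hbr hstep.1) h2
          · exact (ih' haC).tail ⟨hstep.1, mem_sdiff.2 ⟨hstep.2.1, haC⟩,
              mem_sdiff.2 ⟨hstep.2.2, h2⟩⟩
      obtain ⟨pC, hpC⟩ := ih C u hCcard huC hconnC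
      obtain ⟨pS, hpS⟩ := ih (S \ C) r hS'card hrS' hconnS'
      have hroot := hpS.root G hrS'
      refine ⟨fun v => if v ∈ C then pC v ++ [r] else pS v, ?_, ?_, ?_, ?_, ?_, ?_, ?_⟩
      · intro v hv
        by_cases hvC : v ∈ C
        · have := hpC.head v hvC
          simp only [hvC, if_true]
          rw [List.head?_append, this]; rfl
        · simp only [hvC, if_false]
          exact hpS.head v (mem_sdiff.2 ⟨hv, hvC⟩)
      · intro v hv
        by_cases hvC : v ∈ C
        · simp only [hvC, if_true]
          simp
        · simp only [hvC, if_false]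
          exact hpS.last v (mem_sdiff.2 ⟨hv, hvC⟩)
      · intro v hv
        by_cases hvC : v ∈ C
        · simp only [hvC, if_true]
          rw [List.isChain_append]
          refine ⟨hpC.chain v hvC, List.isChain_singleton _, ?_⟩
          intro x hx y hy
          rw [hpC.last v hvC] at hx
          simp at hx hy
          subst hx hy
          exact hru.symm
        · simp only [hvC, if_false]
          exact hpS.chain v (mem_sdiff.2 ⟨hv, hvC⟩)
      · intro v hv
        by_cases hvC : v ∈ C
        · simp only [hvC, if_true]
          rw [List.nodup_append]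
          refine ⟨hpC.nodup v hvC, List.nodup_singleton _, ?_⟩
          intro a ha b hb e
          simp at hb
          subst hb
          subst e
          exact hrC (hpC.mem v hvC _ ha)
        · simp only [hvC, if_false]
          exact hpS.nodup v (mem_sdiff.2 ⟨hv, hvC⟩)
      · intro v hv w hw
        by_cases hvC : v ∈ C
        · simp only [hvC, if_true, List.mem_append, List.mem_singleton] at hw
          rcases hw with hw | rfl
          · exact hCS (hpC.mem v hvC w hw)
          · exact hr
        · simp only [hvC, if_false] at hw
          exact (mem_sdiff.1 (hpS.mem v (mem_sdiff.2 ⟨hv, hvC⟩) w hw)).1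
      · intro v hv w hw
        by_cases hvC : v ∈ C
        · simp only [hvC, if_true, List.mem_append, List.mem_singleton] at hw ⊢
          rcases hw with hw | rfl
          · have hwC := hpC.mem v hvC w hw
            simp only [hwC, if_true]
            obtain ⟨t, ht⟩ := hpC.suff v hvC w hw
            exact ⟨t, by rw [← ht, List.append_assoc]⟩
          · simp only [hrC, if_false, hroot]
            exact ⟨pC v, rfl⟩
        · simp only [hvC, if_false] at hw ⊢
          have hwS := hpS.mem v (mem_sdiff.2 ⟨hv, hvC⟩) w hw
          simp only [(mem_sdiff.1 hwS).2, if_false]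
          exact hpS.suff v (mem_sdiff.2 ⟨hv, hvC⟩) w hw
      · intro a ha b hb hab
        by_cases haC : a ∈ C <;> by_cases hbC : b ∈ C
        · simp only [haC, hbC, if_true, List.mem_append, List.mem_singleton]
          rcases hpC.adj a haC b hbC hab with h | h
          · exact Or.inl (Or.inl h)
          · exact Or.inr (Or.inl h)
        · have : b = r := by
            by_contra hbr
            exact hbC (hclosed a b haC hb hbr hab)
          subst this
          right
          simp [haC]
        · have : a = r := by
            by_contra har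
            exact haC (hclosed b a hbC ha har hab.symm)
          subst this
          left
          simp [hbC]
        · simp only [haC, hbC, if_false]
          exact hpS.adj a (mem_sdiff.2 ⟨ha, haC⟩) b (mem_sdiff.2 ⟨hb, hbC⟩) hab
    · -- S = {r}
      push Not at hu
      have hS1 : ∀ v ∈ S, v = r := by
        intro v hv
        rcases Relation.ReflTransGen.cases_head (hconn v hv) with h | ⟨c, hc, -⟩
        · exact h.symm
        · exact absurd hc.1 (hu c hc.2.2)
      refine ⟨fun v => [v], ?_, ?_, ?_, ?_, ?_, ?_, ?_⟩
      · intro v _; rfl
      · intro v hv; rw [hS1 v hv]; rfl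
      · intro v _; exact List.isChain_singleton _
      · intro v _; exact List.nodup_singleton _
      · intro v hv u hu'; simp at hu'; rw [hu']; exact hv
      · intro v hv u hu'; simp at hu'; rw [hu']
      · intro a ha b hb hab
        rw [hS1 a ha, hS1 b hb] at hab
        exact absurd hab (G.irrefl)

/-- A finite connected graph has a normal spanning tree. -/
theorem exists_ntree_univ [Fintype V] (hG : G.Connected) :
    ∃ r p, NTree G univ r p := by
  obtain ⟨r⟩ := hG.nonempty
  obtain ⟨p, hp⟩ := exists_ntree G (univ : Finset V).card univ r le_rfl (mem_univ r) (by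
    intro v _
    have h := hG.preconnected r v
    obtain ⟨w⟩ := h
    induction w with
    | nil => exact Relation.ReflTransGen.refl
    | cons hadj _ ih => exact Relation.ReflTransGen.head ⟨hadj, mem_univ _, mem_univ _⟩ (ih (mem_univ _)))
  exact ⟨r, p, hp⟩

end Pool.Agent.H62.PathTuran
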