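import Pool.Agent.H62.Star
import Pool.Agent.H62.Tree

/-!
Two stars of opposite sides in a connected graph give a long path.
-/

set_option linter.unusedSectionVars false
set_option linter.unusedVariables false

namespace Pool.Agent.H62.PathTuran

open Finset

variable {V : Type*} [DecidableEq V] (G : SimpleGraph V)

/-- Shortest connecting path between two sets. -/
lemma exists_link (hG : G.Connected) (S S' : Finset V) (hS : S.Nonempty) (hS' : S'.Nonempty) :
    ∃ L : List V, L.IsChain G.Adj ∧ L.Nodup ∧ (∃ α ∈ S, L.head? = some α) ∧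
      (∃ α ∈ S', L.getLast? = some α) ∧
      (∀ l1 y l2, L = l1 ++ y :: l2 → y ∈ S → l1 = []) ∧
      (∀ l1 y l2, L = l1 ++ y :: l2 → y ∈ S' → l2 = []) ∧
      (∀ x ∈ S, x ∈ S' → L.length = 1) := by
  classical
  let P : ℕ → Prop := fun n => ∃ L : List V, L.IsChain G.Adj ∧ L.Nodup ∧
    (∃ α ∈ S, L.head? = some α) ∧ (∃ α ∈ S', L.getLast? = some α) ∧ L.length = n
  have hex : ∃ n, P n := by
    obtain ⟨a, ha⟩ := hS
    obtain ⟨b, hb⟩ := hS'
    obtain ⟨w⟩ := hG.preconnected a b
    let q := w.toPath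
    refine ⟨_, q.1.support, ?_, q.2.support_nodup, ⟨a, ha, ?_⟩, ⟨b, hb, ?_⟩, rfl⟩
    · exact q.1.isChain_adj_support
    · rw [← q.1.cons_tail_support]; rfl
    · rw [List.getLast?_eq_getLast_of_ne_nil q.1.support_ne_nil, SimpleGraph.Walk.getLast_support]
  obtain ⟨L, hc, hn, ⟨α, hα, hαh⟩, ⟨β, hβ, hβl⟩, hlen⟩ := Nat.find_spec hex
  refine ⟨L, hc, hn, ⟨α, hα, hαh⟩, ⟨β, hβ, hβl⟩, ?_, ?_, ?_⟩
  · intro l1 y l2 hL hy
    by_contra hne
    have hlt : (y :: l2).length < Nat.find hex := by
      rw [← hlen, hL, List.length_append]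
      have : 0 < l1.length := List.length_pos_iff.2 hne
      omega
    apply Nat.find_min hex hlt
    rw [hL] at hc hn hβl
    refine ⟨y :: l2, hc.right_of_append, (List.nodup_append.1 hn).2.1, ⟨y, hy, rfl⟩,
      ⟨β, hβ, ?_⟩, rfl⟩
    rw [List.getLast?_append_of_ne_nil _ (by simp)] at hβl
    exact hβl
  · intro l1 y l2 hL hy
    by_contra hne
    have hlt : (l1 ++ [y]).length < Nat.find hex := by
      rw [← hlen, hL, List.length_append, List.length_append]
      have : 0 < l2.length := List.length_pos_iff.2 hne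
      simp only [List.length_cons, List.length_nil]
      omega
    apply Nat.find_min hex hlt
    have hL' : L = (l1 ++ [y]) ++ l2 := by rw [hL]; simp
    rw [hL'] at hc hn hαh
    refine ⟨l1 ++ [y], hc.left_of_append, (List.nodup_append.1 hn).1, ⟨α, hα, ?_⟩,
      ⟨y, hy, by simp⟩, rfl⟩
    rw [List.head?_append_of_ne_nil _ (by simp)] at hαh
    exact hαh
  · intro x hx hx'
    have h1 : Nat.find hex ≤ 1 := Nat.find_min' hex
      ⟨[x], List.isChain_singleton _, List.nodup_singleton _, ⟨x, hx, rfl⟩, ⟨x, hx', rfl⟩, rfl⟩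
    have h2 : L ≠ [] := by rintro rfl; simp at hαh
    have h3 : 0 < L.length := List.length_pos_iff.2 h2
    omega

theorem combine (hG : G.Connected) (k : ℕ)
    (hfree : ∀ l : List V, l.IsChain G.Adj → l.Nodup → l.length < k)
    {i j : ℕ} {v v' : V} {A A' T T' : Finset V} {B B' : V → List V}
    (h : Star G i v A T B) (h' : Star G j v' A' T' B')
    (hAk : A.card ≤ k) (hAk' : A'.card ≤ k) (hAA : Disjoint A A')
    (hvv : ¬ (v ∈ A' ∧ v' ∈ A))
    (hT : 4 * k + 4 ≤ T.card) (hT' : 4 * k + 4 ≤ T'.card) :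
    ∃ P : List V, P.IsChain G.Adj ∧ P.Nodup ∧ 2 * i + 2 * j ≤ P.length := by
  classical
  set S := insert v A with hS
  set S' := insert v' A' with hS'
  have hSc : S.card ≤ k + 1 := (card_insert_le _ _).trans (by omega)
  have hSc' : S'.card ≤ k + 1 := (card_insert_le _ _).trans (by omega)
  obtain ⟨L, hLc, hLn, ⟨α, hα, hLh⟩, ⟨β, hβ, hLl⟩, hL1, hL2, hL3⟩ :=
    exists_link G hG S S' ⟨v, mem_insert_self _ _⟩ ⟨v', mem_insert_self _ _⟩
  have hLk := hfree L hLc hLn
  have hLfin : L.toFinset.card ≤ k := (List.toFinset_card_le L).trans hLk.le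
  have hLne : L ≠ [] := by rintro rfl; simp at hLh
  -- elements of L in S are equal to α
  have hLS : ∀ x ∈ L, x ∈ S → x = α := by
    intro x hx hxS
    obtain ⟨l1, l2, e⟩ := List.append_of_mem hx
    have := hL1 l1 x l2 e hxS
    subst this
    rw [e] at hLh
    simpa using hLh
  have hLS' : ∀ x ∈ L, x ∈ S' → x = β := by
    intro x hx hxS
    obtain ⟨l1, l2, e⟩ := List.append_of_mem hx
    have := hL2 l1 x l2 e hxS
    subst this
    rw [e] at hLl
    simpa using hLl
  -- common elements of the cores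
  have huniq : ∀ x y, x ∈ S → x ∈ S' → y ∈ S → y ∈ S' → x = y := by
    intro x y hx hx' hy hy'
    have d1 := disjoint_left.1 hAA
    simp only [hS, mem_insert] at hx hy
    simp only [hS', mem_insert] at hx' hy'
    clear_value S S'
    grind
  have hcommon : ∀ x, x ∈ S → x ∈ S' → x = α ∧ (v ∉ A ∨ v' ∉ A') := by
    intro x hx hx'
    constructor
    · have h1 := hL3 x hx hx'
      obtain ⟨y, hy⟩ := List.length_eq_one_iff.1 h1
      have e1 : y = α := by rw [hy] at hLh; simpa using hLh
      have e2 : y = β := by rw [hy] at hLl; simpa using hLl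
      have hα' : α ∈ S' := by rw [← e1, e2]; exact hβ
      exact huniq x α hx hx' hα hα'
    · by_contra hcon
      push Not at hcon
      rw [hS, insert_eq_of_mem hcon.1] at hx
      rw [hS', insert_eq_of_mem hcon.2] at hx'
      exact disjoint_left.1 hAA hx hx'
  -- the part in the first star
  set Ω := L.toFinset ∪ S' with hΩ
  have hΩc : Ω.card ≤ 2 * k + 1 := (card_union_le _ _).trans (by omega)
  have hT1 := h.avoid G Ω (A.card + 2) (by omega)
  set T1 := T.filter (fun z => ∀ x ∈ B z, x ∉ Ω) with hT1def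
  have h1 : Star G i v A T1 B := h.mono G (filter_subset _ _)
  obtain ⟨P, hPh, hPc, hPn, hPm, hPl, hPl'⟩ := h1.path G hT1 α hα
  have hPk := hfree P hPc hPn
  -- the part in the second star
  set Ω' := L.toFinset ∪ (S ∪ P.toFinset) with hΩ'
  have hΩc' : Ω'.card ≤ 3 * k + 1 := by
    have e1 := card_union_le L.toFinset (S ∪ P.toFinset)
    have e2 := card_union_le S P.toFinset
    have e3 := List.toFinset_card_le P
    rw [hΩ']
    omega
  have hT2 := h'.avoid G Ω' (A'.card + 2) (by omega)
  set T2 := T'.filter (fun z => ∀ x ∈ B' z, x ∉ Ω') with hT2def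
  have h2 : Star G j v' A' T2 B' := h'.mono G (filter_subset _ _)
  obtain ⟨Q, hQh, hQc, hQn, hQm, hQl, hQl'⟩ := h2.path G hT2 β hβ
  -- decompose P and Q
  obtain ⟨P', rfl⟩ : ∃ P', P = α :: P' := by
    match P, hPh with
    | [], hPh => simp at hPh
    | a :: P', hPh => simp at hPh; exact ⟨P', by rw [hPh]⟩
  obtain ⟨Q', rfl⟩ : ∃ Q', Q = β :: Q' := by
    match Q, hQh with
    | [], hQh => simp at hQh
    | a :: Q', hQh => simp at hQh; exact ⟨Q', by rw [hQh]⟩
  have hPn' := List.nodup_cons.1 hPn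
  have hQn' := List.nodup_cons.1 hQn
  -- disjointness
  have dPL : ∀ x ∈ P', x ∉ L := by
    intro x hx hxL
    rcases hPm x (List.mem_cons_of_mem _ hx) with hxS | ⟨z, hz, hxB⟩
    · exact hPn'.1 (hLS x hxL hxS ▸ hx)
    · exact (mem_filter.1 hz).2 x hxB (mem_union_left _ (List.mem_toFinset.2 hxL))
  have dQL : ∀ x ∈ Q', x ∉ L := by
    intro x hx hxL
    rcases hQm x (List.mem_cons_of_mem _ hx) with hxS | ⟨z, hz, hxB⟩
    · exact hQn'.1 (hLS' x hxL hxS ▸ hx)
    · exact (mem_filter.1 hz).2 x hxB (mem_union_left _ (List.mem_toFinset.2 hxL))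
  have dPQ : ∀ x ∈ P', x ∉ Q' := by
    intro x hx hxQ
    rcases hQm x (List.mem_cons_of_mem _ hxQ) with hxS' | ⟨z, hz, hxB⟩
    · rcases hPm x (List.mem_cons_of_mem _ hx) with hxS | ⟨z, hz, hxB⟩
      · exact hPn'.1 ((hcommon x hxS hxS').1 ▸ hx)
      · exact (mem_filter.1 hz).2 x hxB (mem_union_right _ hxS')
    · exact (mem_filter.1 hz).2 x hxB (mem_union_right _ (mem_union_right _
        (List.mem_toFinset.2 (List.mem_cons_of_mem _ hx))))
  refine ⟨P'.reverse ++ (L ++ Q'), ?_, ?_, ?_⟩
  · rw [List.isChain_append]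
    refine ⟨isChain_rev G (List.isChain_cons.1 hPc).2, ?_, ?_⟩
    · rw [List.isChain_append]
      refine ⟨hLc, (List.isChain_cons.1 hQc).2, ?_⟩
      intro x hx y hy
      rw [hLl] at hx
      simp at hx
      subst hx
      exact (List.isChain_cons.1 hQc).1 y hy
    · intro x hx y hy
      rw [List.getLast?_reverse] at hx
      rw [List.head?_append_of_ne_nil _ hLne, hLh] at hy
      simp at hy
      subst hy
      exact ((List.isChain_cons.1 hPc).1 x hx).symm
  · rw [List.nodup_append]
    refine ⟨List.nodup_reverse.2 hPn'.2, ?_, ?_⟩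
    · rw [List.nodup_append]
      refine ⟨hLn, hQn'.2, ?_⟩
      intro x hx y hy e
      subst e
      exact dQL x hy hx
    · intro x hx y hy e
      subst e
      rw [List.mem_reverse] at hx
      rcases List.mem_append.1 hy with hy | hy
      · exact dPL x hx hy
      · exact dPQ x hx hy
  · rw [List.length_append, List.length_append, List.length_reverse]
    simp only [List.length_cons] at hPl hPl' hQl hQl'
    have hLpos : 0 < L.length := List.length_pos_iff.2 hLne
    by_cases hL1' : L.length = 1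
    · obtain ⟨y, hy⟩ := List.length_eq_one_iff.1 hL1'
      have e1 : y = α := by rw [hy] at hLh; simpa using hLh
      have e2 : y = β := by rw [hy] at hLl; simpa using hLl
      have hα' : α ∈ S' := by rw [← e1, e2]; exact hβ
      rcases (hcommon α hα hα').2 with hv | hv
      · have := hPl' hv; omega
      · have := hQl' hv; omega
    · omega

end Pool.Agent.H62.PathTuran
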