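import Pool.Agent.H62.Combine

/-!
Many vertices of large up-degree in a normal tree give a star.
-/

set_option linter.unusedSectionVars false
set_option linter.unusedVariables false

namespace Pool.Agent.H62.PathTuran

open Finset

variable {V : Type*} [DecidableEq V] (G : SimpleGraph V)

lemma count_side (side : V → Bool) : ∀ l : List V, l.IsChain (fun a b => side a ≠ side b) →
    ∀ z, l.head? = some z → l.countP (fun x => side x ≠ side z) = l.length / 2
  | [], _, z, h => by simp at h
  | [a], _, z, h => by simp at h; subst h; simp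
  | [a, b], hc, z, h => by
    simp at h; subst h
    rw [List.isChain_cons_cons] at hc
    have := hc.1
    simp [this.symm]
  | a :: b :: c :: l, hc, z, h => by
    simp at h; subst h
    rw [List.isChain_cons_cons, List.isChain_cons_cons] at hc
    have ih := count_side side (c :: l) hc.2.2 c rfl
    have hac : side c = side a := by
      have h1 := hc.1; have h2 := hc.2.1
      revert h1 h2
      cases side a <;> cases side b <;> cases side c <;> simp
    rw [hac] at ih
    rw [List.countP_cons, List.countP_cons, ih]
    simp [hc.1.symm]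
    omega

lemma last_side (side : V → Bool) : ∀ l : List V, l.IsChain (fun a b => side a ≠ side b) →
    ∀ z c, l.head? = some z → l.getLast? = some c → side c = side z → l.length % 2 = 1
  | [], _, z, c, h, _, _ => by simp at h
  | [a], _, z, c, h, h', _ => by simp
  | [a, b], hc, z, c, h, h', e => by
    simp at h h'; subst h; subst h'
    rw [List.isChain_cons_cons] at hc
    exact absurd e.symm hc.1
  | a :: b :: c :: l, hc, z, d, h, h', e => by
    simp at h; subst h
    rw [List.isChain_cons_cons, List.isChain_cons_cons] at hc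
    have hac : side c = side a := by
      have h1 := hc.1; have h2 := hc.2.1
      revert h1 h2
      cases side a <;> cases side b <;> cases side c <;> simp
    rw [List.getLast?_cons_cons, List.getLast?_cons_cons] at h'
    have ih := last_side side (c :: l) hc.2.2 c d rfl h' (by rw [e, hac])
    simp only [List.length_cons] at ih ⊢
    omega

/-- the threshold function -/
def gf (c : ℕ) : ℕ → ℕ
  | 0 => 2
  | e + 1 => 2 + c * gf c e

lemma gf_mono (c : ℕ) (hc : 1 ≤ c) {a b : ℕ} (h : a ≤ b) : gf c a ≤ gf c b := by
  have h1 : ∀ e, gf c e ≤ gf c (e + 1) := by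
    intro e
    simp only [gf]
    nlinarith [Nat.zero_le (gf c e)]
  exact monotone_nat_of_le_succ h1 h

section tree

variable [Fintype V] {r : V} {p : V → List V} (hp : NTree G univ r p)

include hp

lemma tree_mem_self (v : V) : v ∈ p v := List.mem_of_head? (hp.head v (mem_univ v))

lemma tree_antisymm {u v : V} (h1 : u ∈ p v) (h2 : v ∈ p u) : u = v := by
  have a1 := hp.suff v (mem_univ v) u h1
  have a2 := hp.suff u (mem_univ u) v h2
  have e : p u = p v := a1.eq_of_length (le_antisymm a1.length_le a2.length_le)
  have b1 := hp.head u (mem_univ u)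
  have b2 := hp.head v (mem_univ v)
  rw [e, b2] at b1
  simpa using b1.symm

open Classical in
theorem extract (side : V → Bool) (hside : ∀ a b, G.Adj a b → side a ≠ side b) (k : ℕ)
    (hk : ∀ v, (p v).length < k) (i K : ℕ) (hK : 1 ≤ K) (Z : Finset V) (b : Bool)
    (hZ : gf (K * 2 ^ k * k) (k - 1) ≤ Z.card) (hZs : ∀ z ∈ Z, side z = b)
    (hU : ∀ z ∈ Z, i ≤ (univ.filter (fun u => G.Adj u z ∧ u ∈ p z)).card) :
    ∃ v A T B, K ≤ T.card ∧ Star G i v A T B ∧ A.card ≤ k ∧ (∀ a ∈ A, side a ≠ b) ∧
      A ⊆ (p v).toFinset := by
  set c := K * 2 ^ k * k with hc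
  set D : V → Finset V := fun v => Z.filter (fun z => v ∈ p z) with hD
  have hk1 : 1 ≤ k := by have := hk r; omega
  have hc1 : 1 ≤ c := by
    rw [hc]
    have : 1 ≤ 2 ^ k := Nat.one_le_two_pow
    exact Nat.mul_pos (Nat.mul_pos hK this) hk1
  have hrD : D r = Z := by
    rw [hD]
    apply filter_true_of_mem
    intro z _
    exact List.mem_of_getLast? (hp.last z (mem_univ z))
  have hpr : (p r).length = 1 := by rw [hp.root G (mem_univ r)]; rfl
  obtain ⟨v, hv, hvmax⟩ := exists_max_image
    (univ.filter (fun v => gf c (k - (p v).length) ≤ (D v).card)) (fun v => (p v).length)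
    ⟨r, by rw [mem_filter, hrD, hpr]; exact ⟨mem_univ r, hZ⟩⟩
  simp only [mem_filter, mem_univ, true_and] at hv hvmax
  -- the branches
  set br : V → List V := fun z => (p z).take ((p z).length - (p v).length) with hbr
  have hbrp : ∀ z, v ∈ p z → br z ++ p v = p z := by
    intro z hz
    obtain ⟨t, ht⟩ := hp.suff z (mem_univ z) v hz
    have hlen : (p z).length = t.length + (p v).length := by rw [← ht, List.length_append]
    have : br z = t := by
      simp only [hbr]
      rw [hlen, Nat.add_sub_cancel, ← ht, List.take_left]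
    rw [this, ht]
  have hvlen : (p v).length < k := hk v
  obtain ⟨e', he'⟩ : ∃ e', k - (p v).length = e' + 1 := ⟨k - (p v).length - 1, by omega⟩
  rw [he'] at hv
  -- deeper vertices have few descendants
  have hdeep : ∀ z, v ∈ p z → ∀ x ∈ br z, (D x).card ≤ gf c e' := by
    intro z hz x hx
    have hxp : x ∈ p z := by rw [← hbrp z hz]; exact List.mem_append_left _ hx
    have hnd := hp.nodup z (mem_univ z)
    rw [← hbrp z hz, List.nodup_append] at hnd
    have hxv : x ∉ p v := fun h => hnd.2.2 x hx x h rfl
    have s1 := hp.suff z (mem_univ z) x hxp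
    have s2 := hp.suff z (mem_univ z) v hz
    have hlt : (p v).length < (p x).length := by
      by_contra hle
      push Not at hle
      have : p x <:+ p v := List.suffix_of_suffix_length_le s1 s2 hle
      exact hxv (this.subset (tree_mem_self G hp x))
    by_contra hcon
    push Not at hcon
    have h1 : gf c (k - (p x).length) ≤ (D x).card :=
      (gf_mono c hc1 (by omega)).trans hcon.le
    have := hvmax x h1
    omega
  -- maximal family with disjoint branches
  obtain ⟨T0, hT0, hT0max⟩ := exists_max_image
    (((D v).erase v).powerset.filter (fun T => ∀ z ∈ T, ∀ z' ∈ T, z ≠ z' → ∀ x ∈ br z, x ∉ br z'))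
    card ⟨∅, by simp⟩
  simp only [mem_filter, mem_powerset] at hT0 hT0max
  have hT0v : ∀ z ∈ T0, v ∈ p z ∧ z ≠ v ∧ z ∈ Z := by
    intro z hz
    have := hT0.1 hz
    rw [mem_erase, hD, mem_filter] at this
    exact ⟨this.2.2, this.1, this.2.1⟩
  have hzbr : ∀ z, v ∈ p z → z ≠ v → z ∈ br z := by
    intro z hz hne
    have h1 := tree_mem_self G hp z
    rw [← hbrp z hz, List.mem_append] at h1
    rcases h1 with h1 | h1
    · exact h1
    · exact absurd (tree_antisymm G hp h1 hz) hne
  have hcov : (D v).erase v ⊆ T0.biUnion (fun z' => (br z').toFinset.biUnion D) := by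
    intro z hz
    have hz' := hz
    rw [mem_erase, hD, mem_filter] at hz'
    obtain ⟨hzv, hzZ, hvz⟩ := hz'
    have : ∃ z' ∈ T0, ∃ x ∈ br z', x ∈ br z := by
      by_cases hzT : z ∈ T0
      · exact ⟨z, hzT, z, hzbr z hvz hzv, hzbr z hvz hzv⟩
      · by_contra hcon
        push Not at hcon
        have h1 := hT0max (insert z T0) ⟨by
          intro y hy
          rcases mem_insert.1 hy with rfl | hy
          · exact hz
          · exact hT0.1 hy, by
          intro y hy y' hy' hne x hx
          rcases mem_insert.1 hy with e1 | hy <;> rcases mem_insert.1 hy' with e2 | hy'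
          · exact absurd (e1.trans e2.symm) hne
          · intro hx'
            rw [e1] at hx
            exact hcon y' hy' x hx' hx
          · rw [e2]
            exact hcon y hy x hx
          · exact hT0.2 y hy y' hy' hne x hx⟩
        rw [card_insert_of_notMem hzT] at h1
        omega
    obtain ⟨z', hz'T, x, hx, hxz⟩ := this
    rw [mem_biUnion]
    refine ⟨z', hz'T, ?_⟩
    rw [mem_biUnion]
    refine ⟨x, List.mem_toFinset.2 hx, ?_⟩
    rw [hD, mem_filter]
    exact ⟨hzZ, by rw [← hbrp z hvz]; exact List.mem_append_left _ hxz⟩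
  have hbrlen : ∀ z, (br z).length ≤ k := by
    intro z
    simp only [hbr, List.length_take]
    have := hk z
    omega
  have hT0card : K * 2 ^ k ≤ T0.card := by
    by_contra hlt
    push Not at hlt
    have h1 : ((D v).erase v).card ≤ T0.card * (k * gf c e') := by
      refine (card_le_card hcov).trans (card_biUnion_le_card_mul _ _ _ ?_)
      intro z hz
      refine (card_biUnion_le_card_mul _ _ (gf c e') ?_).trans ?_
      · intro x hx
        exact hdeep z (hT0v z hz).1 x (List.mem_toFinset.1 hx)
      · exact Nat.mul_le_mul_right _ ((List.toFinset_card_le _).trans (hbrlen z))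
    have h2 : (D v).card ≤ ((D v).erase v).card + 1 := by
      have := Finset.pred_card_le_card_erase (s := D v) (a := v)
      omega
    have h3 : T0.card * (k * gf c e') ≤ K * 2 ^ k * (k * gf c e') :=
      Nat.mul_le_mul_right _ hlt.le
    have h4 : K * 2 ^ k * (k * gf c e') = c * gf c e' := by rw [hc]; ring
    simp only [gf] at hv
    omega
  -- pigeonhole
  obtain ⟨A, hA, hAK⟩ := exists_le_card_fiber_of_mul_le_card_of_maps_to
    (s := T0) (t := (p v).toFinset.powerset)
    (f := fun z => (p v).toFinset.filter (fun u => G.Adj u z)) (n := K)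
    (by intro z _; rw [mem_powerset]; exact filter_subset _ _) ⟨∅, by simp⟩ (by
      rw [card_powerset]
      have h1 : 2 ^ (p v).toFinset.card ≤ 2 ^ k :=
        Nat.pow_le_pow_right (by norm_num) ((List.toFinset_card_le _).trans hvlen.le)
      calc 2 ^ (p v).toFinset.card * K ≤ 2 ^ k * K := Nat.mul_le_mul_right _ h1
        _ = K * 2 ^ k := Nat.mul_comm _ _
        _ ≤ T0.card := hT0card)
  set T := T0.filter (fun z => (p v).toFinset.filter (fun u => G.Adj u z) = A) with hT
  have hTT : ∀ z ∈ T, z ∈ T0 ∧ (p v).toFinset.filter (fun u => G.Adj u z) = A := by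
    intro z hz; rw [hT, mem_filter] at hz; exact hz
  have hApv : A ⊆ (p v).toFinset := mem_powerset.1 hA
  have hTne : T.Nonempty := card_pos.1 (by omega)
  have hAadj : ∀ z ∈ T, ∀ a ∈ A, G.Adj a z := by
    intro z hz a ha
    rw [← (hTT z hz).2, mem_filter] at ha
    exact ha.2
  have hnotpv : ∀ z ∈ T, ∀ x ∈ br z, x ∉ p v := by
    intro z hz x hx hxv
    have hvz := (hT0v z (hTT z hz).1).1
    have hnd := hp.nodup z (mem_univ z)
    rw [← hbrp z hvz, List.nodup_append] at hnd
    exact hnd.2.2 x hx x hxv rfl
  have hhead : ∀ z ∈ T, (br z).head? = some z := by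
    intro z hz
    have h1 := hT0v z (hTT z hz).1
    have h2 := hp.head z (mem_univ z)
    rw [← hbrp z h1.1] at h2
    have h3 : br z ≠ [] := List.ne_nil_of_mem (hzbr z h1.1 h1.2.1)
    rwa [List.head?_append_of_ne_nil _ h3] at h2
  have hlast : ∀ z ∈ T, ∃ c, (br z).getLast? = some c ∧ G.Adj c v := by
    intro z hz
    have h1 := hT0v z (hTT z hz).1
    have h3 : br z ≠ [] := List.ne_nil_of_mem (hzbr z h1.1 h1.2.1)
    refine ⟨(br z).getLast h3, List.getLast?_eq_getLast_of_ne_nil h3, ?_⟩
    have h2 := hp.chain z (mem_univ z)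
    rw [← hbrp z h1.1, List.isChain_append] at h2
    exact h2.2.2 _ (List.getLast?_eq_getLast_of_ne_nil h3) _ (hp.head v (mem_univ v))
  have hchain : ∀ z ∈ T, (br z).IsChain G.Adj := by
    intro z hz
    have h1 := hT0v z (hTT z hz).1
    have h2 := hp.chain z (mem_univ z)
    rw [← hbrp z h1.1] at h2
    exact h2.left_of_append
  have hcs : ∀ z ∈ T, (br z).IsChain (fun a b => side a ≠ side b) := by
    intro z hz
    exact (hchain z hz).imp (fun a b hab => hside a b hab)
  -- lengths
  have hcount : ∀ z ∈ T, i ≤ A.card + (br z).length / 2 := by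
    intro z hz
    have h1 := hT0v z (hTT z hz).1
    have h2 := hU z h1.2.2
    have h3 : univ.filter (fun u => G.Adj u z ∧ u ∈ p z) ⊆
        A ∪ ((br z).filter (fun x => side x ≠ side z)).toFinset := by
      intro u hu
      simp only [mem_filter, mem_univ, true_and] at hu
      obtain ⟨hadj, hup⟩ := hu
      rw [← hbrp z h1.1, List.mem_append] at hup
      rw [mem_union]
      rcases hup with hup | hup
      · right
        rw [List.mem_toFinset, List.mem_filter]
        exact ⟨hup, by simpa using hside u z hadj⟩
      · left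
        rw [← (hTT z hz).2, mem_filter]
        exact ⟨List.mem_toFinset.2 hup, hadj⟩
    have h4 := (card_le_card h3).trans (card_union_le _ _)
    have h5 := List.toFinset_card_le ((br z).filter (fun x => side x ≠ side z))
    have h6 := count_side side (br z) (hcs z hz) z (hhead z hz)
    rw [List.countP_eq_length_filter] at h6
    omega
  refine ⟨v, A, T, br, hAK, ⟨hchain, ?_, hhead, hlast, ?_, ?_, hAadj, ?_, ?_, ?_⟩, ?_, ?_, hApv⟩
  · intro z hz
    have h1 := hT0v z (hTT z hz).1
    have hnd := hp.nodup z (mem_univ z)
    rw [← hbrp z h1.1, List.nodup_append] at hnd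
    exact hnd.1
  · intro z hz hvz
    exact hnotpv z hz v hvz (tree_mem_self G hp v)
  · intro z hz a ha haz
    exact hnotpv z hz a haz (List.mem_toFinset.1 (hApv ha))
  · intro z hz z' hz' hne x hx
    exact hT0.2 z (hTT z hz).1 z' (hTT z' hz').1 hne x hx
  · intro z hz
    have := hcount z hz
    omega
  · intro z hz hvA
    have h1 := hcount z hz
    obtain ⟨c', hc', hcv⟩ := hlast z hz
    have h2 : side c' = side z := by
      have a1 := hside c' v hcv
      have a2 := hside v z (hAadj z hz v hvA)
      revert a1 a2
      cases side c' <;> cases side v <;> cases side z <;> simp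
    have h3 := last_side side (br z) (hcs z hz) z c' (hhead z hz) hc' h2
    omega
  · exact (card_le_card hApv).trans ((List.toFinset_card_le _).trans hvlen.le)
  · intro a ha
    obtain ⟨z, hz⟩ := hTne
    rw [← hZs z (hT0v z (hTT z hz).1).2.2]
    exact hside a z (hAadj z hz a ha)

end tree

end Pool.Agent.H62.PathTuran
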