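import Pool.Agent.H37.LES.Defs

/-!
# MP_544ca6_an, modules L9 and L11: one stage and the sequence

The results of the other modules are hypotheses here; the file `LES_Stage` discharges them.
-/

open MeasureTheory Set Filter Topology
open scoped ContDiff ENNReal
open H36.MHD

noncomputable section

namespace H37.LES

/-- module L6 -/
def OneDirH (P : Prob) : Prop := ∀ (V : Fin 3 → X → ℝ), P.IsPert V → ∀ (a : X → ℝ),
    ContDiff ℝ ∞ a → HasCompactSupport a → tsupport a ⊆ cyl P.Ω P.T →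
    ∀ (l : Fin 3) (b : V3), b l = 0 → ∀ (η : ℝ), 0 < η →
    ∃ V' R', P.IsPert V' ∧ P.IsErr R' ∧ (∀ i z, |V' i z - V i z| ≤ η) ∧
      (∑ i, ∑ j, ∫ z, (dx j (V' i) z - dx j (V i) z) ^ 2 ∂P.μ
        ≤ 2 * (∑ i, b i ^ 2) * (∫ z, (a z) ^ 2 ∂P.μ) + η) ∧
      P.L1 R' ≤ η ∧
      ∀ φ, P.IsTest φ → P.Res V' φ = P.Res V φ
        - P.al * (∫ z, (a z) ^ 2 * (∑ i, ∑ j, b i * b j * dx j (φ i) z) ∂P.μ) + P.Bd R' φ

/-- module L7 -/
def ApproxH (P : Prob) : Prop := ∀ (R : Fin 3 → Fin 3 → X → ℝ), P.IsErr R → ∀ (η : ℝ), 0 < η →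
    ∃ S : Fin 3 → Fin 3 → X → ℝ, (∀ i j, ContDiff ℝ ∞ (S i j)) ∧
      (∀ i j, HasCompactSupport (S i j)) ∧ (∀ i j, tsupport (S i j) ⊆ cyl P.Ω P.T) ∧
      (∀ i j z, S i j z = S j i z) ∧ P.L1 (fun i j z => R i j z - S i j z) ≤ η

/-- module L8 -/
def DecompH : Prop := ∃ (l : Fin 9 → Fin 3) (b : Fin 9 → V3), (∀ q, b q (l q) = 0) ∧
    (∀ q i, |b q i| ≤ 1) ∧
    ∀ (P : Prob) (S : Fin 3 → Fin 3 → X → ℝ), (∀ i j, ContDiff ℝ ∞ (S i j)) →
      (∀ i j, HasCompactSupport (S i j)) → (∀ i j, tsupport (S i j) ⊆ cyl P.Ω P.T) →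
      (∀ i j z, S i j z = S j i z) → ∀ η, 0 < η →
      ∃ (a : Fin 9 → X → ℝ) (c : X → ℝ), (∀ q, ContDiff ℝ ∞ (a q)) ∧
        (∀ q, HasCompactSupport (a q)) ∧ (∀ q, tsupport (a q) ⊆ cyl P.Ω P.T) ∧ Continuous c ∧
        (∀ z i j, ∑ q, (a q z) ^ 2 * b q i * b q j = S i j z + if i = j then c z else 0) ∧
        (∀ q, ∫ z, (a q z) ^ 2 ∂P.μ ≤ 20 * P.L1 S + η)

variable {P : Prob}

/-! ## integrability and linearity -/

private lemma h62_compact_dx {g : X → ℝ} (hc : HasCompactSupport g) (j : Fin 3) :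
    HasCompactSupport (dx j g) :=
  hc.of_isClosed_subset (isClosed_tsupport _) (tsupport_dx_subset g j)

private lemma h62_int_dx_mul {r : X → ℝ} (hr : Integrable r P.μ) {φ : Fin 3 → X → ℝ}
    (hφ : P.IsTest φ) (i j : Fin 3) : Integrable (fun z => r z * dx j (φ i) z) P.μ := by
  have hc := (smooth_dx (hφ.smooth i) j).continuous
  obtain ⟨C, hC⟩ := hc.bounded_above_of_compact_support (h62_compact_dx (hφ.compact i) j)
  have h := hr.bdd_mul (c := C) hc.aestronglyMeasurable (Eventually.of_forall hC)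
  exact h.congr (Eventually.of_forall fun z => mul_comm _ _)

private lemma h62_int_Bd {R : Fin 3 → Fin 3 → X → ℝ} (hR : ∀ i j, Integrable (R i j) P.μ)
    {φ : Fin 3 → X → ℝ} (hφ : P.IsTest φ) :
    Integrable (fun z => ∑ i, ∑ j, R i j z * dx j (φ i) z) P.μ :=
  integrable_finsetSum _ fun i _ => integrable_finsetSum _ fun j _ =>
    h62_int_dx_mul (hR i j) hφ i j

private lemma h62_Bd_add {R S : Fin 3 → Fin 3 → X → ℝ} (hR : ∀ i j, Integrable (R i j) P.μ)
    (hS : ∀ i j, Integrable (S i j) P.μ) {φ : Fin 3 → X → ℝ} (hφ : P.IsTest φ) :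
    P.Bd (fun i j z => R i j z + S i j z) φ = P.Bd R φ + P.Bd S φ := by
  unfold Prob.Bd
  rw [← integral_add (h62_int_Bd hR hφ) (h62_int_Bd hS hφ)]
  congr 1
  ext z
  simp only [add_mul, Finset.sum_add_distrib]

private lemma h62_Bd_sub {R S : Fin 3 → Fin 3 → X → ℝ} (hR : ∀ i j, Integrable (R i j) P.μ)
    (hS : ∀ i j, Integrable (S i j) P.μ) {φ : Fin 3 → X → ℝ} (hφ : P.IsTest φ) :
    P.Bd (fun i j z => R i j z - S i j z) φ = P.Bd R φ - P.Bd S φ := by
  unfold Prob.Bd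
  rw [← integral_sub (h62_int_Bd hR hφ) (h62_int_Bd hS hφ)]
  congr 1
  ext z
  simp only [sub_mul, Finset.sum_sub_distrib]

private lemma h62_L1_add {R S : Fin 3 → Fin 3 → X → ℝ} (hR : ∀ i j, Integrable (R i j) P.μ)
    (hS : ∀ i j, Integrable (S i j) P.μ) :
    P.L1 (fun i j z => R i j z + S i j z) ≤ P.L1 R + P.L1 S := by
  unfold Prob.L1
  rw [← Finset.sum_add_distrib]
  refine Finset.sum_le_sum fun i _ => ?_
  rw [← Finset.sum_add_distrib]
  refine Finset.sum_le_sum fun j _ => ?_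
  rw [← integral_add (hR i j).abs (hS i j).abs]
  exact integral_mono ((hR i j).add (hS i j)).abs ((hR i j).abs.add (hS i j).abs)
    fun z => abs_add_le _ _

private lemma h62_L1_nonneg (R : Fin 3 → Fin 3 → X → ℝ) : 0 ≤ P.L1 R :=
  Finset.sum_nonneg fun _ _ => Finset.sum_nonneg fun _ _ => integral_nonneg fun _ => abs_nonneg _

private lemma h62_int_cs {g : X → ℝ} (hg : Continuous g) (hc : HasCompactSupport g) :
    Integrable g P.μ :=
  (hg.integrable_of_hasCompactSupport hc).mono_measure Measure.restrict_le_self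

private lemma h62_int_sq {g : X → ℝ} (hg : Continuous g) (hc : HasCompactSupport g) :
    Integrable (fun z => g z ^ 2) P.μ := by
  refine h62_int_cs (hg.pow 2) ?_
  refine hc.of_isClosed_subset (isClosed_tsupport _) (closure_mono ?_)
  intro z hz
  simp only [Function.mem_support] at hz ⊢
  exact fun h => hz (by simp [h])

private lemma h62_diff_cs {V V' : Fin 3 → X → ℝ} (hV : P.IsPert V) (hV' : P.IsPert V')
    (i j : Fin 3) : Continuous (fun z => dx j (V' i) z - dx j (V i) z) ∧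
      HasCompactSupport (fun z => dx j (V' i) z - dx j (V i) z) :=
  ⟨(smooth_dx (hV'.smooth i) j).continuous.sub (smooth_dx (hV.smooth i) j).continuous,
    (h62_compact_dx (hV'.compact i) j).sub (h62_compact_dx (hV.compact i) j)⟩

/-! ## several directions -/

theorem many_dir_of (h6 : OneDirH P) : ∀ (N : ℕ) (a : Fin N → X → ℝ) (l : Fin N → Fin 3)
    (b : Fin N → V3), (∀ q, ContDiff ℝ ∞ (a q)) → (∀ q, HasCompactSupport (a q)) →
    (∀ q, tsupport (a q) ⊆ cyl P.Ω P.T) → (∀ q, b q (l q) = 0) → ∀ η : ℝ, 0 < η →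
    ∀ V, P.IsPert V → ∃ V' R', P.IsPert V' ∧ P.IsErr R' ∧
      (∀ i z, |V' i z - V i z| ≤ N * η) ∧
      (∑ i, ∑ j, ∫ z, (dx j (V' i) z - dx j (V i) z) ^ 2 ∂P.μ
        ≤ 2 ^ N * ∑ q, (2 * (∑ i, b q i ^ 2) * (∫ z, (a q z) ^ 2 ∂P.μ) + η)) ∧
      P.L1 R' ≤ N * η ∧
      ∀ φ, P.IsTest φ → P.Res V' φ = P.Res V φ
        - P.al * ∑ q, (∫ z, (a q z) ^ 2 * (∑ i, ∑ j, b q i * b q j * dx j (φ i) z) ∂P.μ)
        + P.Bd R' φ := by
  intro N
  induction N with
  | zero =>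
    intro a l b _ _ _ _ η _ V hV
    refine ⟨V, fun _ _ _ => 0, hV, ⟨fun _ _ => integrable_zero _ _ _, fun _ _ _ => rfl⟩,
      by simp, by simp, by simp [Prob.L1], by simp [Prob.Bd]⟩
  | succ N ih =>
    intro a l b ha hac has hbl η hη V hV
    obtain ⟨V₁, R₁, hV₁, hR₁, hc₁, hg₁, hL₁, hr₁⟩ := ih (fun q => a q.castSucc)
      (fun q => l q.castSucc) (fun q => b q.castSucc) (fun q => ha _) (fun q => hac _)
      (fun q => has _) (fun q => hbl _) η hη V hV
    obtain ⟨V₂, R₂, hV₂, hR₂, hc₂, hg₂, hL₂, hr₂⟩ := h6 V₁ hV₁ (a (Fin.last N))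
      (ha _) (hac _) (has _) (l (Fin.last N)) (b (Fin.last N)) (hbl _) η hη
    refine ⟨V₂, fun i j z => R₁ i j z + R₂ i j z, hV₂,
      ⟨fun i j => (hR₁.int i j).add (hR₂.int i j), fun i j z => by
        rw [hR₁.symm i j z, hR₂.symm i j z]⟩, fun i z => ?_, ?_, ?_, fun φ hφ => ?_⟩
    · have h1 := hc₁ i z
      have h2 := hc₂ i z
      have h3 : V₂ i z - V i z = (V₂ i z - V₁ i z) + (V₁ i z - V i z) := by ring
      rw [h3]
      refine (abs_add_le _ _).trans ?_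
      push_cast
      linarith
    · have hstep : ∑ i, ∑ j, ∫ z, (dx j (V₂ i) z - dx j (V i) z) ^ 2 ∂P.μ
          ≤ 2 * (∑ i, ∑ j, ∫ z, (dx j (V₂ i) z - dx j (V₁ i) z) ^ 2 ∂P.μ)
            + 2 * (∑ i, ∑ j, ∫ z, (dx j (V₁ i) z - dx j (V i) z) ^ 2 ∂P.μ) := by
        rw [Finset.mul_sum, Finset.mul_sum, ← Finset.sum_add_distrib]
        refine Finset.sum_le_sum fun i _ => ?_
        rw [Finset.mul_sum, Finset.mul_sum, ← Finset.sum_add_distrib]
        refine Finset.sum_le_sum fun j _ => ?_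
        have e1 := h62_diff_cs hV₁ hV₂ i j
        have e2 := h62_diff_cs hV hV₁ i j
        have e3 := h62_diff_cs hV hV₂ i j
        have i1 : Integrable (fun z => (dx j (V₂ i) z - dx j (V₁ i) z) ^ 2) P.μ :=
          h62_int_sq e1.1 e1.2
        have i2 : Integrable (fun z => (dx j (V₁ i) z - dx j (V i) z) ^ 2) P.μ :=
          h62_int_sq e2.1 e2.2
        have i3 : Integrable (fun z => (dx j (V₂ i) z - dx j (V i) z) ^ 2) P.μ :=
          h62_int_sq e3.1 e3.2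
        rw [← integral_const_mul, ← integral_const_mul,
          ← integral_add (i1.const_mul 2) (i2.const_mul 2)]
        refine integral_mono i3 ((i1.const_mul 2).add (i2.const_mul 2)) fun z => ?_
        show (dx j (V₂ i) z - dx j (V i) z) ^ 2 ≤ 2 * (dx j (V₂ i) z - dx j (V₁ i) z) ^ 2
          + 2 * (dx j (V₁ i) z - dx j (V i) z) ^ 2
        nlinarith [sq_nonneg ((dx j (V₂ i) z - dx j (V₁ i) z) - (dx j (V₁ i) z - dx j (V i) z))]
      rw [Fin.sum_univ_castSucc (n := N)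
        (f := fun q => 2 * (∑ i, b q i ^ 2) * (∫ z, (a q z) ^ 2 ∂P.μ) + η)]
      set s := 2 * (∑ i, b (Fin.last N) i ^ 2) * (∫ z, (a (Fin.last N) z) ^ 2 ∂P.μ) + η with hs
      have hs0 : 0 ≤ s := by
        have : 0 ≤ ∫ z, (a (Fin.last N) z) ^ 2 ∂P.μ := integral_nonneg fun _ => sq_nonneg _
        have h2 : 0 ≤ ∑ i, b (Fin.last N) i ^ 2 := Finset.sum_nonneg fun _ _ => sq_nonneg _
        positivity
      have hp : (1 : ℝ) ≤ 2 ^ N := one_le_pow₀ (by norm_num)
      rw [pow_succ]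
      nlinarith
    · have h := h62_L1_add hR₁.int hR₂.int
      push_cast
      linarith
    · rw [hr₂ φ hφ, hr₁ φ hφ, h62_Bd_add hR₁.int hR₂.int hφ, Fin.sum_univ_castSucc]
      ring

/-! ## one stage -/

theorem stage_of (h6 : OneDirH P) (h7 : ApproxH P) (h8 : DecompH) :
    ∃ C, 0 ≤ C ∧ ∀ V, P.IsPert V → ∀ R, P.IsErr R →
    (∀ φ, P.IsTest φ → P.Res V φ = P.Bd R φ) → ∀ η, 0 < η →
    ∃ V' R', P.IsPert V' ∧ P.IsErr R' ∧ (∀ i z, |V' i z - V i z| ≤ η) ∧
      (∑ i, ∑ j, ∫ z, (dx j (V' i) z - dx j (V i) z) ^ 2 ∂P.μ ≤ C * P.L1 R + η) ∧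
      P.L1 R' ≤ η ∧ ∀ φ, P.IsTest φ → P.Res V' φ = P.Bd R' φ := by
  obtain ⟨l, b, hbl, hb1, hdec⟩ := h8
  have hal := P.hal
  set K : ℝ := 2 ^ 9 * 9 * 120 / P.al with hK
  have hK0 : 0 ≤ K := by positivity
  refine ⟨K, hK0, fun V hV R hR hres η hη => ?_⟩
  -- small parameters
  set η₁ : ℝ := η / (2 * (K + 1)) with hη₁
  have hη₁0 : 0 < η₁ := by positivity
  have hη₁K : K * η₁ ≤ η / 2 := by
    rw [hη₁, mul_div_assoc', div_le_div_iff₀ (by positivity) (by norm_num)]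
    nlinarith
  have hη₁η : η₁ ≤ η / 2 := by
    rw [hη₁, div_le_div_iff₀ (by positivity) (by norm_num)]
    nlinarith
  set η₂ : ℝ := η / (2 ^ 9 * 9 * 28) with hη₂
  have hη₂0 : 0 < η₂ := by positivity
  obtain ⟨S, hS, hSc, hSs, hSsym, hSL⟩ := h7 R hR η₁ hη₁0
  have hSint : ∀ i j, Integrable (S i j) P.μ := fun i j => h62_int_cs (hS i j).continuous (hSc i j)
  have hsupp : ∀ i j, tsupport (fun z => S i j z / P.al) ⊆ tsupport (S i j) := fun i j =>
    closure_mono fun z hz => by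
      simp only [Function.mem_support] at hz ⊢
      exact fun h => hz (by simp [h])
  obtain ⟨a, c, ha, hac, has, hc, hsum, hint⟩ := hdec P (fun i j z => S i j z / P.al)
    (fun i j => (hS i j).div_const _)
    (fun i j => (hSc i j).of_isClosed_subset (isClosed_tsupport _) (hsupp i j))
    (fun i j => (hsupp i j).trans (hSs i j)) (fun i j z => by rw [hSsym i j z]) η₂ hη₂0
  obtain ⟨V', R', hV', hR', hcl, hgr, hL', hr'⟩ := many_dir_of h6 9 a l b ha hac has hbl η₂ hη₂0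
    V hV
  refine ⟨V', fun i j z => (R i j z - S i j z) + R' i j z, hV',
    ⟨fun i j => ((hR.int i j).sub (hSint i j)).add (hR'.int i j), fun i j z => by
      rw [hR.symm i j z, hSsym i j z, hR'.symm i j z]⟩, fun i z => ?_, ?_, ?_, fun φ hφ => ?_⟩
  · refine (hcl i z).trans ?_
    rw [hη₂]
    push_cast
    rw [mul_div_assoc', div_le_iff₀ (by norm_num)]
    nlinarith
  · refine hgr.trans ?_
    -- the `L¹` norm of `S`
    have hSR : P.L1 S ≤ P.L1 R + η₁ := by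
      have h1 : P.L1 (fun i j z => R i j z + -(R i j z - S i j z)) ≤
          P.L1 R + P.L1 (fun i j z => -(R i j z - S i j z)) :=
        h62_L1_add hR.int (fun i j => ((hR.int i j).sub (hSint i j)).neg)
      have h2 : (fun i j z => R i j z + -(R i j z - S i j z)) = S := by
        funext i j z; ring
      have h3 : P.L1 (fun i j z => -(R i j z - S i j z)) = P.L1 (fun i j z => R i j z - S i j z) := by
        unfold Prob.L1
        simp only [abs_neg]
      rw [h2, h3] at h1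
      linarith
    have hSal : P.L1 (fun i j z => S i j z / P.al) = P.L1 S / P.al := by
      unfold Prob.L1
      rw [Finset.sum_div]
      refine Finset.sum_congr rfl fun i _ => ?_
      rw [Finset.sum_div]
      refine Finset.sum_congr rfl fun j _ => ?_
      rw [← integral_div]
      congr 1
      ext z
      rw [abs_div, abs_of_pos hal]
    have hq : ∀ q : Fin 9, 2 * (∑ i, b q i ^ 2) * (∫ z, (a q z) ^ 2 ∂P.μ) + η₂
        ≤ 120 / P.al * P.L1 S + 7 * η₂ := by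
      intro q
      have h1 := hint q
      rw [hSal] at h1
      have h2 : ∑ i, b q i ^ 2 ≤ 3 := by
        have h3 : ∀ i, b q i ^ 2 ≤ 1 := fun i => by
          rw [sq_le_one_iff_abs_le_one]; exact hb1 q i
        rw [Fin.sum_univ_three]
        linarith [h3 0, h3 1, h3 2]
      have h4 : 0 ≤ ∑ i, b q i ^ 2 := Finset.sum_nonneg fun _ _ => sq_nonneg _
      have h5 : 0 ≤ ∫ z, (a q z) ^ 2 ∂P.μ := integral_nonneg fun _ => sq_nonneg _
      have h6 : 2 * (∑ i, b q i ^ 2) * (∫ z, (a q z) ^ 2 ∂P.μ)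
          ≤ 6 * (∫ z, (a q z) ^ 2 ∂P.μ) := by nlinarith
      have h7 : 120 / P.al * P.L1 S = 6 * (20 * (P.L1 S / P.al)) := by ring
      rw [h7]
      linarith
    have h9 : ∑ q : Fin 9, (2 * (∑ i, b q i ^ 2) * (∫ z, (a q z) ^ 2 ∂P.μ) + η₂)
        ≤ 9 * (120 / P.al * P.L1 S + 7 * η₂) := by
      refine (Finset.sum_le_sum fun q _ => hq q).trans ?_
      rw [Finset.sum_const, Finset.card_univ, Fintype.card_fin, nsmul_eq_mul]
      push_cast
      exact le_rfl
    have h10 : (2 : ℝ) ^ 9 * (9 * (120 / P.al * P.L1 S + 7 * η₂)) = K * P.L1 S + η / 4 := by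
      rw [hK, hη₂]
      field_simp
      ring
    have h11 : K * P.L1 S ≤ K * (P.L1 R + η₁) := mul_le_mul_of_nonneg_left hSR hK0
    have h12 : (2 : ℝ) ^ 9 * ∑ q : Fin 9, (2 * (∑ i, b q i ^ 2) * (∫ z, (a q z) ^ 2 ∂P.μ) + η₂)
        ≤ 2 ^ 9 * (9 * (120 / P.al * P.L1 S + 7 * η₂)) :=
      mul_le_mul_of_nonneg_left h9 (by positivity)
    linarith
  · have hRS : ∀ i j, Integrable (fun z => R i j z - S i j z) P.μ :=
      fun i j => (hR.int i j).sub (hSint i j)
    have h1 := h62_L1_add (P := P) (R := fun i j z => R i j z - S i j z) hRS hR'.int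
    refine h1.trans ?_
    have h2 : (9 : ℝ) * η₂ ≤ η / 2 := by
      rw [hη₂]
      rw [mul_div_assoc', div_le_div_iff₀ (by norm_num) (by norm_num)]
      nlinarith
    have h3 : P.L1 R' ≤ (9 : ℝ) * η₂ := by
      have h4 := hL'
      push_cast at h4
      exact h4
    calc P.L1 (fun i j z => R i j z - S i j z) + P.L1 R' ≤ η₁ + 9 * η₂ := add_le_add hSL h3
      _ ≤ η / 2 + η / 2 := add_le_add hη₁η h2
      _ = η := by ring
  · have hRS : ∀ i j, Integrable (fun z => R i j z - S i j z) P.μ :=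
      fun i j => (hR.int i j).sub (hSint i j)
    rw [hr' φ hφ, hres φ hφ, h62_Bd_add (R := fun i j z => R i j z - S i j z) hRS hR'.int hφ]
    have h1 : P.Bd (fun i j z => R i j z - S i j z) φ = P.Bd R φ - P.Bd S φ :=
      h62_Bd_sub hR.int hSint hφ
    have h2 : P.al * ∑ q, (∫ z, (a q z) ^ 2 * (∑ i, ∑ j, b q i * b q j * dx j (φ i) z) ∂P.μ)
        = P.Bd S φ := by
      have hi : ∀ q ∈ (Finset.univ : Finset (Fin 9)), Integrable
          (fun z => (a q z) ^ 2 * (∑ i, ∑ j, b q i * b q j * dx j (φ i) z)) P.μ := by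
        intro q _
        have h5 : (fun z => (a q z) ^ 2 * (∑ i, ∑ j, b q i * b q j * dx j (φ i) z))
            = fun z => ∑ i, ∑ j, ((a q z) ^ 2 * (b q i * b q j)) * dx j (φ i) z := by
          funext z
          rw [Finset.mul_sum]
          refine Finset.sum_congr rfl fun i _ => ?_
          rw [Finset.mul_sum]
          exact Finset.sum_congr rfl fun j _ => by ring
        rw [h5]
        exact h62_int_Bd (P := P) (R := fun i j z => (a q z) ^ 2 * (b q i * b q j))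
          (fun i j => (h62_int_sq (ha q).continuous (hac q)).mul_const _) hφ
      rw [← integral_finsetSum _ hi]
      unfold Prob.Bd
      rw [← integral_const_mul]
      refine setIntegral_congr_fun ((measurableSet_Ioo (a := (0 : ℝ)) (b := P.T)).prod
        P.hΩ.measurableSet) ?_
      · intro z hz
        have hz0 : 0 ≤ z.1 := (Set.mem_Ioo.1 hz.1).1.le
        show P.al * ∑ q, (a q z) ^ 2 * (∑ i, ∑ j, b q i * b q j * dx j (φ i) z)
          = ∑ i, ∑ j, S i j z * dx j (φ i) z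
        have h6 : ∑ q, (a q z) ^ 2 * (∑ i, ∑ j, b q i * b q j * dx j (φ i) z)
            = ∑ i, ∑ j, (∑ q, (a q z) ^ 2 * b q i * b q j) * dx j (φ i) z := by
          simp only [Finset.mul_sum, Finset.sum_mul]
          rw [Finset.sum_comm]
          refine Finset.sum_congr rfl fun i _ => ?_
          rw [Finset.sum_comm]
          refine Finset.sum_congr rfl fun j _ => ?_
          exact Finset.sum_congr rfl fun q _ => by ring
        rw [h6]
        simp only [hsum z]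
        have h7 : ∑ i, ∑ j, (S i j z / P.al + if i = j then c z else 0) * dx j (φ i) z
            = (∑ i, ∑ j, S i j z * dx j (φ i) z) / P.al + c z * ∑ j, dx j (φ j) z := by
          simp only [add_mul, Finset.sum_add_distrib]
          congr 1
          · rw [Finset.sum_div]
            refine Finset.sum_congr rfl fun i _ => ?_
            rw [Finset.sum_div]
            exact Finset.sum_congr rfl fun j _ => by ring
          · rw [Finset.mul_sum]
            refine Finset.sum_congr rfl fun i _ => ?_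
            simp
        rw [h7, hφ.div z hz0]
        field_simp
        simp
    rw [h2, h1]

/-! ## the sequence -/

/-- module L9 -/
def StageH (P : Prob) : Prop := ∃ C, 0 ≤ C ∧ ∀ V, P.IsPert V → ∀ R, P.IsErr R →
    (∀ φ, P.IsTest φ → P.Res V φ = P.Bd R φ) → ∀ η, 0 < η →
    ∃ V' R', P.IsPert V' ∧ P.IsErr R' ∧ (∀ i z, |V' i z - V i z| ≤ η) ∧
      (∑ i, ∑ j, ∫ z, (dx j (V' i) z - dx j (V i) z) ^ 2 ∂P.μ ≤ C * P.L1 R + η) ∧
      P.L1 R' ≤ η ∧ ∀ φ, P.IsTest φ → P.Res V' φ = P.Bd R' φ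

/-- module L10 -/
def StageZeroH (P : Prob) : Prop := ∃ R, P.IsErr R ∧
    ∀ φ, P.IsTest φ → P.Res (fun _ _ => 0) φ = P.Bd R φ

theorem exists_seq_of (h9 : StageH P) (h10 : StageZeroH P) :
    ∃ (V : ℕ → Fin 3 → X → ℝ) (R : ℕ → Fin 3 → Fin 3 → X → ℝ),
    (∀ n, P.IsPert (V n)) ∧ (∀ n, P.IsErr (R n)) ∧
    (∀ n φ, P.IsTest φ → P.Res (V n) φ = P.Bd (R n) φ) ∧
    (∀ n i z, |V (n + 1) i z - V n i z| ≤ (1 / 16) ^ n) ∧
    (∀ n i j, ∫ z, (dx j (V (n + 2) i) z - dx j (V (n + 1) i) z) ^ 2 ∂P.μ ≤ (1 / 16) ^ n) ∧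
    (∀ n, P.L1 (R (n + 1)) ≤ (1 / 16) ^ n) := by
  obtain ⟨C, hC, hst⟩ := h9
  obtain ⟨R0, hR0, hres0⟩ := h10
  let S : Type := {p : (Fin 3 → X → ℝ) × (Fin 3 → Fin 3 → X → ℝ) //
    P.IsPert p.1 ∧ P.IsErr p.2 ∧ ∀ φ, P.IsTest φ → P.Res p.1 φ = P.Bd p.2 φ}
  let et : ℕ → ℝ := fun n => (1 / 16) ^ n / (2 * (C + 1))
  have het : ∀ n, 0 < et n := fun n => by
    have : (0 : ℝ) < (1 / 16) ^ n := by positivity
    simp only [et]; positivity
  have hstep : ∀ (n : ℕ) (p : S), ∃ p' : S, (∀ i z, |p'.1.1 i z - p.1.1 i z| ≤ et n) ∧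
      (∑ i, ∑ j, ∫ z, (dx j (p'.1.1 i) z - dx j (p.1.1 i) z) ^ 2 ∂P.μ
        ≤ C * P.L1 p.1.2 + et n) ∧ P.L1 p'.1.2 ≤ et n := by
    intro n p
    obtain ⟨V', R', h1, h2, h3, h4, h5, h6⟩ := hst p.1.1 p.2.1 p.1.2 p.2.2.1 p.2.2.2 (et n) (het n)
    exact ⟨⟨(V', R'), h1, h2, h6⟩, h3, h4, h5⟩
  choose F hF using hstep
  have hzero : P.IsPert (fun _ _ => (0 : ℝ)) := by
    refine ⟨fun _ => contDiff_const, fun _ => ?_, fun _ => ?_, fun z => ?_⟩
    · exact HasCompactSupport.zero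
    · have : tsupport (fun _ : X => (0 : ℝ)) = ∅ := by
        rw [tsupport_eq_empty_iff]; rfl
      rw [this]; exact Set.empty_subset _
    · simp [dx]
  let p0 : S := ⟨(fun _ _ => 0, R0), hzero, hR0, hres0⟩
  let s : ℕ → S := fun n => Nat.rec p0 (fun n p => F n p) n
  have hss : ∀ n, s (n + 1) = F n (s n) := fun n => rfl
  have hF' : ∀ n, (∀ i z, |(s (n + 1)).1.1 i z - (s n).1.1 i z| ≤ et n) ∧
      (∑ i, ∑ j, ∫ z, (dx j ((s (n + 1)).1.1 i) z - dx j ((s n).1.1 i) z) ^ 2 ∂P.μ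
        ≤ C * P.L1 (s n).1.2 + et n) ∧ P.L1 (s (n + 1)).1.2 ≤ et n := fun n => by
    rw [hss]; exact hF n (s n)
  have hle : ∀ n, et n ≤ (1 / 16) ^ n := fun n => by
    have hp : (0 : ℝ) < (1 / 16) ^ n := by positivity
    simp only [et]
    rw [div_le_iff₀ (by positivity)]
    nlinarith
  refine ⟨fun n => (s n).1.1, fun n => (s n).1.2, fun n => (s n).2.1, fun n => (s n).2.2.1,
    fun n => (s n).2.2.2, fun n i z => ((hF' n).1 i z).trans (hle n), fun n i j => ?_,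
    fun n => (hF' n).2.2.trans (hle n)⟩
  have h1 := (hF' (n + 1)).2.1
  have h2 := (hF' n).2.2
  have hnn : ∀ i j, 0 ≤ ∫ z, (dx j ((s (n + 2)).1.1 i) z - dx j ((s (n + 1)).1.1 i) z) ^ 2 ∂P.μ :=
    fun i j => integral_nonneg fun _ => sq_nonneg _
  have h3 : ∫ z, (dx j ((s (n + 2)).1.1 i) z - dx j ((s (n + 1)).1.1 i) z) ^ 2 ∂P.μ
      ≤ ∑ i, ∑ j, ∫ z, (dx j ((s (n + 2)).1.1 i) z - dx j ((s (n + 1)).1.1 i) z) ^ 2 ∂P.μ := by
    refine le_trans ?_ (Finset.single_le_sum (f := fun i => ∑ j, ∫ z, (dx j ((s (n + 2)).1.1 i) z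
      - dx j ((s (n + 1)).1.1 i) z) ^ 2 ∂P.μ) (fun i _ => Finset.sum_nonneg fun j _ => hnn i j)
      (Finset.mem_univ i))
    exact Finset.single_le_sum (f := fun j => ∫ z, (dx j ((s (n + 2)).1.1 i) z
      - dx j ((s (n + 1)).1.1 i) z) ^ 2 ∂P.μ) (fun j _ => hnn i j) (Finset.mem_univ j)
  have h4 : C * P.L1 (s (n + 1)).1.2 + et (n + 1) ≤ (1 / 16) ^ n := by
    have h5 : C * P.L1 (s (n + 1)).1.2 ≤ C * et n := mul_le_mul_of_nonneg_left h2 hC
    have h6 : C * et n + et (n + 1) ≤ (1 / 16) ^ n := by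
      have hp : (0 : ℝ) < (1 / 16) ^ n := by positivity
      have h7 : C * et n + et (n + 1) = (1 / 16) ^ n * ((C + 1 / 16) / (2 * (C + 1))) := by
        simp only [et, pow_succ]
        field_simp
      rw [h7]
      have h8 : (C + 1 / 16) / (2 * (C + 1)) ≤ 1 := by
        rw [div_le_one (by positivity)]
        linarith
      nlinarith
    linarith
  exact (h3.trans h1).trans h4

end H37.LES
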