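import Mathlib

/-!
A connected bipartite graph with many edges and without long paths.
-/

set_option linter.unusedSectionVars false
set_option linter.unusedVariables false

namespace Pool.Agent.H62.PathTuran

open Finset

lemma core_count {V : Type*} (side c : V → Bool) :
    ∀ l : List V, l.IsChain (fun a b => side a ≠ side b ∧ (c a = true ∨ c b = true)) →
      l.countP (fun x => !(c x)) ≤ l.countP c + 1 ∧
      (l.countP (fun x => !(c x)) = l.countP c + 1 →
        ∃ s, (∀ x, l.head? = some x → side x = s) ∧ ∀ x ∈ l, c x = true → side x ≠ s)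
  | [], _ => by simp
  | [a], _ => by
    cases h : c a <;> simp [h]
  | a :: b :: l, hc => by
    rw [List.isChain_cons_cons] at hc
    obtain ⟨⟨hab, hcab⟩, hcb⟩ := hc
    cases h : c a
    · have hb : c b = true := by simpa [h] using hcab
      have hcl : l.IsChain (fun a b => side a ≠ side b ∧ (c a = true ∨ c b = true)) :=
        (List.isChain_cons.1 hcb).2
      obtain ⟨ih1, ih2⟩ := core_count side c l hcl
      have e1 : (a :: b :: l).countP (fun x => !(c x)) = l.countP (fun x => !(c x)) + 1 := by
        simp [List.countP_cons, h, hb]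
      have e2 : (a :: b :: l).countP c = l.countP c + 1 := by
        simp [List.countP_cons, h, hb]
      rw [e1, e2]
      refine ⟨by omega, fun he => ?_⟩
      obtain ⟨s, hs1, hs2⟩ := ih2 (by omega)
      match l, hcb, hs1, hs2 with
      | [], _, _, _ =>
        simp at he
      | x :: l, hcb, hs1, hs2 =>
        have hx : side x = s := hs1 x rfl
        have hbx : side b ≠ side x := (List.isChain_cons_cons.1 hcb).1.1
        have has : side a = s := by
          rw [← hx]
          revert hab hbx
          cases side a <;> cases side b <;> cases side x <;> simp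
        refine ⟨s, ?_, ?_⟩
        · intro y hy
          simp at hy
          rw [← hy]; exact has
        · intro y hy hcy
          rw [List.mem_cons, List.mem_cons] at hy
          rcases hy with rfl | rfl | hy
          · rw [h] at hcy; exact absurd hcy (by simp)
          · rw [← hx]; exact hbx
          · exact hs2 y hy hcy
    · obtain ⟨ih1, ih2⟩ := core_count side c (b :: l) hcb
      have e1 : (a :: b :: l).countP (fun x => !(c x)) = (b :: l).countP (fun x => !(c x)) := by
        rw [List.countP_cons]; simp [h]
      have e2 : (a :: b :: l).countP c = (b :: l).countP c + 1 := by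
        rw [List.countP_cons]; simp [h]
      rw [e1, e2]
      exact ⟨by omega, fun he => by omega⟩

/-- The lower bound graph: `inl a` is adjacent to `inr b` when `a + 1 < M` or `b = 0`. -/
def lowerGraph (n M : ℕ) : SimpleGraph (Fin n ⊕ Fin n) where
  Adj x y := match x, y with
    | .inl a, .inr b => a.1 + 1 < M ∨ b.1 = 0
    | .inr b, .inl a => a.1 + 1 < M ∨ b.1 = 0
    | _, _ => False
  symm := ⟨by
    intro x y h
    rcases x with a | b <;> rcases y with a' | b' <;> exact h⟩
  loopless := ⟨by
    intro x h
    rcases x with a | b <;> exact h⟩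

def lside {n : ℕ} : Fin n ⊕ Fin n → Bool
  | .inl _ => true
  | .inr _ => false

def lcore {n : ℕ} (M : ℕ) : Fin n ⊕ Fin n → Bool
  | .inl a => decide (a.1 + 1 < M)
  | .inr b => decide (b.1 = 0)

lemma lower_adj {n M : ℕ} {x y : Fin n ⊕ Fin n} (h : (lowerGraph n M).Adj x y) :
    lside x ≠ lside y ∧ (lcore M x = true ∨ lcore M y = true) := by
  rcases x with a | b <;> rcases y with a' | b'
  · exact absurd h id
  · refine ⟨by simp [lside], ?_⟩
    have : a.1 + 1 < M ∨ b'.1 = 0 := h
    simpa [lcore] using this
  · refine ⟨by simp [lside], ?_⟩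
    have : a'.1 + 1 < M ∨ b.1 = 0 := h
    simpa [lcore] using this.symm
  · exact absurd h id

lemma card_left (n M : ℕ) : (univ.filter (fun a : Fin n => a.1 + 1 < M)).card ≤ M - 1 := by
  have : (univ.filter (fun a : Fin n => a.1 + 1 < M)) = univ.filter (fun a : Fin n => a.1 < M - 1) := by
    ext a; simp; omega
  rw [this, Fin.card_filter_val_lt]
  omega

lemma card_left_eq (n M : ℕ) (h : M ≤ n + 1) :
    (univ.filter (fun a : Fin n => a.1 + 1 < M)).card = M - 1 := by
  have : (univ.filter (fun a : Fin n => a.1 + 1 < M)) = univ.filter (fun a : Fin n => a.1 < M - 1) := by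
    ext a; simp; omega
  rw [this, Fin.card_filter_val_lt]
  omega

lemma card_right (n : ℕ) : (univ.filter (fun b : Fin n => b.1 = 0)).card ≤ 1 := by
  rw [card_le_one]
  intro a ha b hb
  simp at ha hb
  exact Fin.ext (by omega)

theorem lower_path {n M : ℕ} (hM : 2 ≤ M) (l : List (Fin n ⊕ Fin n))
    (hl : l.IsChain (lowerGraph n M).Adj) (hn : l.Nodup) : l.length ≤ 2 * M := by
  have hc := hl.imp (fun a b hab => lower_adj hab)
  obtain ⟨h1, h2⟩ := core_count lside (lcore M) l hc
  have hlen : l.length = l.countP (lcore M) + l.countP (fun x => !(lcore M x)) := by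
    have := List.length_eq_countP_add_countP (lcore M) (l := l)
    convert this using 3
    simp
  have hcnt : l.countP (lcore M) = (l.toFinset.filter (fun x => lcore M x = true)).card := by
    rw [List.countP_eq_length_filter, ← List.toFinset_card_of_nodup (hn.filter _)]
    congr 1
    ext x
    simp
  set CL : Finset (Fin n ⊕ Fin n) := (univ.filter (fun a : Fin n => a.1 + 1 < M)).image Sum.inl
    with hCL
  set CR : Finset (Fin n ⊕ Fin n) := (univ.filter (fun b : Fin n => b.1 = 0)).image Sum.inr
    with hCR
  have hCLc : CL.card ≤ M - 1 := card_image_le.trans (card_left n M)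
  have hCRc : CR.card ≤ 1 := card_image_le.trans (card_right n)
  have hLR : ∀ x : Fin n ⊕ Fin n, lcore M x = true →
      (lside x = true → x ∈ CL) ∧ (lside x = false → x ∈ CR) := by
    intro x hx
    rcases x with a | b
    · simp only [lcore, decide_eq_true_eq] at hx
      simp [hCL, lside, hx]
    · simp only [lcore, decide_eq_true_eq] at hx
      simp [hCR, lside, hx]
  have hall : l.countP (lcore M) ≤ M := by
    rw [hcnt]
    have : l.toFinset.filter (fun x => lcore M x = true) ⊆ CL ∪ CR := by
      intro x hx
      have hx' := (mem_filter.1 hx).2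
      rw [mem_union]
      cases hs : lside x
      · exact Or.inr ((hLR x hx').2 hs)
      · exact Or.inl ((hLR x hx').1 hs)
    have := (card_le_card this).trans (card_union_le _ _)
    omega
  by_cases he : l.countP (fun x => !(lcore M x)) = l.countP (lcore M) + 1
  · obtain ⟨s, -, hs⟩ := h2 he
    have : l.countP (lcore M) ≤ M - 1 := by
      rw [hcnt]
      cases s
      · have : l.toFinset.filter (fun x => lcore M x = true) ⊆ CL := by
          intro x hx
          obtain ⟨hx1, hx2⟩ := mem_filter.1 hx
          have := hs x (List.mem_toFinset.1 hx1) hx2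
          exact (hLR x hx2).1 (by simpa using this)
        exact (card_le_card this).trans hCLc
      · have : l.toFinset.filter (fun x => lcore M x = true) ⊆ CR := by
          intro x hx
          obtain ⟨hx1, hx2⟩ := mem_filter.1 hx
          have := hs x (List.mem_toFinset.1 hx1) hx2
          exact (hLR x hx2).2 (by simpa using this)
        exact (card_le_card this).trans (hCRc.trans (by omega))
    omega
  · omega

theorem lower_connected {n M : ℕ} (hM : 2 ≤ M) (hn : 1 ≤ n) : (lowerGraph n M).Connected := by
  have h0 : 0 < n := hn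
  have hl : ∀ b : Fin n, (lowerGraph n M).Adj (Sum.inl ⟨0, h0⟩) (Sum.inr b) := by
    intro b
    show 0 + 1 < M ∨ _
    left; omega
  have hr : ∀ a : Fin n, (lowerGraph n M).Adj (Sum.inr ⟨0, h0⟩) (Sum.inl a) := by
    intro a
    show _ ∨ 0 = 0
    right; rfl
  have key : ∀ x : Fin n ⊕ Fin n, (lowerGraph n M).Reachable (Sum.inl ⟨0, h0⟩) x := by
    intro x
    rcases x with a | b
    · exact (hl ⟨0, h0⟩).reachable.trans (hr a).reachable
    · exact (hl b).reachable
  haveI : Nonempty (Fin n ⊕ Fin n) := ⟨Sum.inl ⟨0, h0⟩⟩
  exact ⟨fun x y => (key x).symm.trans (key y)⟩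

theorem lower_edges {n M : ℕ} (hM : 2 ≤ M) (hn : M ≤ n) :
    M * n ≤ (lowerGraph n M).edgeSet.ncard + (M - 1) := by
  set L := univ.filter (fun a : Fin n => a.1 + 1 < M) with hL
  set L' := univ.filter (fun a : Fin n => ¬ (a.1 + 1 < M)) with hL'
  have hLc : L.card = M - 1 := card_left_eq n M (by omega)
  have hLL : L.card + L'.card = n := by
    rw [hL, hL', card_filter_add_card_filter_not, card_univ, Fintype.card_fin]
  have h0 : 0 < n := by omega
  set E : Finset (Fin n × Fin n) := (L ×ˢ univ) ∪ (L' ×ˢ {⟨0, h0⟩}) with hE
  have hEc : E.card = L.card * n + L'.card := by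
    rw [hE, card_union_of_disjoint, card_product, card_product, card_univ, Fintype.card_fin,
      card_singleton, mul_one]
    rw [disjoint_left]
    rintro ⟨a, b⟩ h1 h2
    rw [mem_product] at h1 h2
    exact (mem_filter.1 h2.1).2 (mem_filter.1 h1.1).2
  have himg : (E.image (fun q => s((Sum.inl q.1 : Fin n ⊕ Fin n), Sum.inr q.2)) :
      Set (Sym2 (Fin n ⊕ Fin n))) ⊆ (lowerGraph n M).edgeSet := by
    intro e he
    rw [coe_image, Set.mem_image] at he
    obtain ⟨⟨a, b⟩, hab, rfl⟩ := he
    rw [SimpleGraph.mem_edgeSet]
    rw [mem_coe, hE, mem_union, mem_product, mem_product] at hab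
    rcases hab with h | h
    · exact Or.inl (mem_filter.1 h.1).2
    · right
      have := mem_singleton.1 h.2
      simp only at this
      rw [this]
  have hinj : (E.image (fun q => s((Sum.inl q.1 : Fin n ⊕ Fin n), Sum.inr q.2))).card = E.card := by
    apply card_image_of_injective
    rintro ⟨a, b⟩ ⟨a', b'⟩ h
    simp at h
    exact Prod.ext h.1 h.2
  have hle := Set.ncard_le_ncard himg (Set.toFinite _)
  rw [Set.ncard_coe_finset, hinj, hEc, hLc] at hle
  rw [hLc] at hLL
  have : M * n = (M - 1) * n + n := by
    obtain ⟨m, rfl⟩ : ∃ m, M = m + 1 := ⟨M - 1, by omega⟩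
    simp; ring
  omega

end Pool.Agent.H62.PathTuran
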