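import Pool.Agent.H37.MHD.Defs2

/-!
# MP_59296a_an, module M9a: one step and the sequence of stages

Everything is stated with the results of the other modules as hypotheses; the file `MHD_Seq`
discharges them.
-/

open MeasureTheory Set Filter Topology
open scoped ContDiff
open H36.MHD

noncomputable section

namespace H37.MHD

variable {B : Bg}

/-! ## smoothness of the momentum error -/

private theorem smooth_dt {g : X → ℝ} (hg : ContDiff ℝ ∞ g) : ContDiff ℝ ∞ (dt g) := by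
  have h : ContDiff ℝ ∞ (fun z => fderiv ℝ g z) :=
    hg.fderiv_right (m := ∞) (by simp)
  exact h.clm_apply contDiff_const

private theorem smooth_dx {g : X → ℝ} (hg : ContDiff ℝ ∞ g) (j : Fin 3) : ContDiff ℝ ∞ (dx j g) := by
  have h : ContDiff ℝ ∞ (fun z => fderiv ℝ g z) :=
    hg.fderiv_right (m := ∞) (by simp)
  exact h.clm_apply contDiff_const

private theorem smooth_lap {g : X → ℝ} (hg : ContDiff ℝ ∞ g) : ContDiff ℝ ∞ (lap g) := by
  unfold lap
  exact ContDiff.sum fun j _ => smooth_dx (smooth_dx hg j) j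

private theorem smooth_vec {U : Fin 3 → X → ℝ} (hU : ∀ k, ContDiff ℝ ∞ (U k)) :
    ContDiff ℝ ∞ (vec U) := by
  unfold vec
  exact contDiff_pi.2 hU

private theorem smooth_acc {u f : Fin 3 → X → ℝ} (hu : ∀ k, ContDiff ℝ ∞ (u k))
    (hf : ∀ k, ContDiff ℝ ∞ (f k)) (k : Fin 3) : ContDiff ℝ ∞ (acc u f k) := by
  unfold acc
  exact ((smooth_dt (hu k)).add
    (ContDiff.sum fun j _ => (hu j).mul (smooth_dx (hu k) j))).sub (hf k)

private theorem Stage.dens_smooth (st : Stage B) (i : Fin 2) : ContDiff ℝ ∞ (st.dens i) := by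
  unfold Stage.dens
  exact st.rho_smooth.comp (smooth_vec (st.Y_smooth i))

private theorem Stage.E_smooth (st : Stage B) (i : Fin 2) (k : Fin 3) : ContDiff ℝ ∞ (st.E i k) := by
  unfold Stage.E
  exact (((st.dens_smooth i).mul (smooth_acc (st.u_smooth i) st.f_smooth k)).sub
    (smooth_lap (st.u_smooth i k))).add (smooth_dx (st.p_smooth i) k)

/-! ## the hypotheses -/

/-- module M5b, `small_region` -/
def SmallRegionH (B : Bg) : Prop := ∀ η : ℝ, 0 < η → ∃ s1, 0 < s1 ∧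
    ∀ z : X, |z.1| ≤ B.T → SS B z < s1 ^ 2 → ∀ k, mm B k z ≤ η

/-- module M5b, `isCompact_region` -/
def CompactRegionH (B : Bg) : Prop := ∀ sp : ℝ, 0 < sp →
    IsCompact {z : X | sp ^ 2 ≤ SS B z ∧ |z.1| ≤ 5 / 4 * B.T}

/-- module M5b, `base_error` -/
def BaseErrorH (B : Bg) : Prop := ∀ (st : Stage B) (ε C : ℝ) (i : Fin 2) (k : Fin 3) (z : X),
    SS B z < st.s ^ 2 → |st.dens i z + ε * C| ≤ 2 →
    |st.E i k z + ε * C * acc (st.u i) st.f k z| ≤ mm B k z

/-- module M6, `exists_stepData` -/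
def StepDataH (B : Bg) : Prop := ∀ (st : Stage B) (ε : ℝ), 0 < ε → ∀ sp : ℝ, 0 < sp →
    2 * sp ≤ st.s → ∃ sd : StepData st ε, sd.sp = sp

/-- module M7, `exists_next` -/
def NextH (B : Bg) : Prop := ∀ {st : Stage B} {ε : ℝ} (sd : StepData st ε),
    ∃ Lam, ∀ lam, Lam ≤ lam → ∃ st' : Stage B, Next sd lam st'

/-- module M8a, `next_close` -/
def NextCloseH (B : Bg) : Prop := ∀ {st : Stage B} {ε : ℝ}, 0 < ε → ∀ (sd : StepData st ε) (δ : ℝ),
    0 < δ → ∃ Lam, ∀ lam, Lam ≤ lam → ∀ st' : Stage B, Next sd lam st' →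
      (∀ i z, |z.1| ≤ B.T → |st'.dens i z - st.dens i z| ≤ 4 * ε + δ) ∧
      (∀ i k z, |st'.u i k z - st.u i k z| ≤ δ) ∧
      (∀ i k j z, |dx j (st'.u i k) z - dx j (st.u i k) z| ≤ δ) ∧
      (∀ e, (∀ i k z, |z.1| ≤ B.T → |st.E i k z| ≤ e) →
        ∀ k z, |z.1| ≤ B.T → |st'.f k z - st.f k z| ≤ 4 * e / ε)

/-- module M8b, `next_error` -/
def NextErrorH (B : Bg) : Prop := ∀ {st : Stage B} {ε : ℝ}, 0 < ε → ε ≤ 1 / 8 →
    (∀ y, |st.rho y| ≤ 3 / 2) → ∀ (sd : StepData st ε) (η : ℝ), 0 < η →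
    (∀ z : X, |z.1| ≤ B.T → SS B z < 4 * sd.sp ^ 2 → ∀ k, mm B k z ≤ η / 2) →
    ∃ Lam, ∀ lam, Lam ≤ lam → ∀ st' : Stage B, Next sd lam st' →
      ∀ i k z, |z.1| ≤ B.T → |st'.E i k z| ≤ η

/-- The momentum error of a stage is bounded for `|t| ≤ T`. -/
theorem E_bdd_of (h5a : SmallRegionH B) (h5b : CompactRegionH B) (h5c : BaseErrorH B)
    (st : Stage B) (hρ : ∀ y, |st.rho y| ≤ 3 / 2) :
    ∃ e, ∀ i k z, |z.1| ≤ B.T → |st.E i k z| ≤ e := by
  obtain ⟨s1, hs1, hmm⟩ := h5a 1 one_pos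
  set sp := min s1 st.s with hsp
  have hsp0 : 0 < sp := lt_min hs1 st.s_pos
  have hK := h5b sp hsp0
  have hbd : ∀ (ik : Fin 2 × Fin 3), ∃ C, ∀ z ∈ {z : X | sp ^ 2 ≤ SS B z ∧ |z.1| ≤ 5 / 4 * B.T},
      ‖st.E ik.1 ik.2 z‖ ≤ C := fun ik =>
    hK.exists_bound_of_continuousOn (st.E_smooth ik.1 ik.2).continuous.continuousOn
  choose C hC using hbd
  refine ⟨max 1 (∑ ik, |C ik|), fun i k z hz => ?_⟩
  by_cases hS : sp ^ 2 ≤ SS B z
  · have h1 := hC (i, k) z ⟨hS, by nlinarith [B.hT]⟩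
    have h2 : C (i, k) ≤ ∑ ik, |C ik| :=
      (le_abs_self _).trans (Finset.single_le_sum (f := fun ik => |C ik|)
        (fun _ _ => abs_nonneg _) (Finset.mem_univ (i, k)))
    exact (h1.trans h2).trans (le_max_right _ _)
  · push Not at hS
    have hs1' : SS B z < s1 ^ 2 := by
      have : sp ^ 2 ≤ s1 ^ 2 := pow_le_pow_left₀ hsp0.le (min_le_left _ _) 2
      linarith
    have hs' : SS B z < st.s ^ 2 := by
      have : sp ^ 2 ≤ st.s ^ 2 := pow_le_pow_left₀ hsp0.le (min_le_right _ _) 2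
      linarith
    have h1 := h5c st 0 0 i k z hs' (by
      have := hρ (vec (st.Y i) z)
      simp only [Stage.dens, mul_zero, add_zero]
      linarith)
    simp only [mul_zero, zero_mul, add_zero] at h1
    exact (h1.trans (hmm z hz hs1' k)).trans (le_max_left _ _)

theorem one_step_of (h5a : SmallRegionH B) (h6 : StepDataH B) (h7 : NextH B) (h8a : NextCloseH B)
    (h8b : NextErrorH B) (st : Stage B) (hρ : ∀ y, |st.rho y| ≤ 3 / 2) (e ε η δ : ℝ) (hε : 0 < ε)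
    (hε8 : ε ≤ 1 / 8) (hη : 0 < η) (hδ : 0 < δ)
    (hE : ∀ i k z, |z.1| ≤ B.T → |st.E i k z| ≤ e) :
    ∃ st' : Stage B,
      (∀ y, |st'.rho y - st.rho y| ≤ 4 * ε) ∧
      (∀ i z, |z.1| ≤ B.T → |st'.dens i z - st.dens i z| ≤ 4 * ε + δ) ∧
      (∀ i k z, |st'.u i k z - st.u i k z| ≤ δ) ∧
      (∀ i k j z, |dx j (st'.u i k) z - dx j (st.u i k) z| ≤ δ) ∧
      (∀ k z, |z.1| ≤ B.T → |st'.f k z - st.f k z| ≤ 4 * e / ε) ∧
      (∀ i k z, |z.1| ≤ B.T → |st'.E i k z| ≤ η) := by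
  obtain ⟨s1, hs1, hmm⟩ := h5a (η / 2) (half_pos hη)
  set sp := min (s1 / 2) (st.s / 2) with hsp
  have hsp0 : 0 < sp := lt_min (half_pos hs1) (half_pos st.s_pos)
  have hsp1 : sp ≤ s1 / 2 := min_le_left _ _
  have hsp2 : sp ≤ st.s / 2 := min_le_right _ _
  obtain ⟨sd, hsd⟩ := h6 st ε hε sp hsp0 (by linarith)
  obtain ⟨L1, hL1⟩ := h7 sd
  obtain ⟨L2, hL2⟩ := h8a hε sd δ hδ
  obtain ⟨L3, hL3⟩ := h8b hε hε8 hρ sd η hη (fun z hz hS k => hmm z hz (by
    have h4 : (4 : ℝ) * sd.sp ^ 2 ≤ s1 ^ 2 := by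
      rw [hsd]
      nlinarith
    linarith) k)
  set lam := max L1 (max L2 L3) with hlam
  have hl1 : L1 ≤ lam := le_max_left _ _
  have hl2 : L2 ≤ lam := (le_max_left _ _).trans (le_max_right _ _)
  have hl3 : L3 ≤ lam := (le_max_right _ _).trans (le_max_right _ _)
  obtain ⟨st', hst'⟩ := hL1 lam hl1
  obtain ⟨ha, hb, hc, hd⟩ := hL2 lam hl2 st' hst'
  refine ⟨st', fun y => ?_, ha, hb, hc, hd e hE, hL3 lam hl3 st' hst'⟩
  rw [hst'.rho_eq y]
  have h1 : |∑ a : Fin 4, Real.cos (lam * (mu a * phi B a y))| ≤ 4 := by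
    refine (Finset.abs_sum_le_sum_abs _ _).trans ?_
    calc ∑ a : Fin 4, |Real.cos (lam * (mu a * phi B a y))| ≤ ∑ _a : Fin 4, (1 : ℝ) :=
          Finset.sum_le_sum fun a _ => Real.abs_cos_le_one _
      _ = 4 := by simp
  have h2 : st.rho y + ε * ∑ a : Fin 4, Real.cos (lam * (mu a * phi B a y)) - st.rho y
      = ε * ∑ a : Fin 4, Real.cos (lam * (mu a * phi B a y)) := by ring
  rw [h2, abs_mul, abs_of_pos hε]
  nlinarith [abs_nonneg (∑ a : Fin 4, Real.cos (lam * (mu a * phi B a y)))]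

theorem exists_sequence_of (h0 : ∃ st : Stage B, ∀ y, st.rho y = 1)
    (h5a : SmallRegionH B) (h5b : CompactRegionH B) (h5c : BaseErrorH B)
    (h6 : StepDataH B) (h7 : NextH B) (h8a : NextCloseH B) (h8b : NextErrorH B) :
    ∃ st : ℕ → Stage B,
    (∀ n y, |(st n).rho y - 1| ≤ 1 / 4) ∧
    (∀ n y, |(st (n + 1)).rho y - (st n).rho y| ≤ (1 / 2) ^ n) ∧
    (∀ n i z, |z.1| ≤ B.T → |(st (n + 1)).dens i z - (st n).dens i z| ≤ (1 / 2) ^ n) ∧
    (∀ n i k z, |(st (n + 1)).u i k z - (st n).u i k z| ≤ (1 / 2) ^ n) ∧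
    (∀ n i k j z, |dx j ((st (n + 1)).u i k) z - dx j ((st n).u i k) z| ≤ (1 / 2) ^ n) ∧
    (∀ n k z, |z.1| ≤ B.T → |(st (n + 2)).f k z - (st (n + 1)).f k z| ≤ (1 / 2) ^ n) ∧
    (∀ n i k z, |z.1| ≤ B.T → |(st (n + 1)).E i k z| ≤ (1 / 2) ^ n) := by
  obtain ⟨st0, hst0⟩ := h0
  obtain ⟨e0, he0⟩ := E_bdd_of h5a h5b h5c st0 (fun y => by rw [hst0 y]; norm_num)
  -- parameters
  let ep : ℕ → ℝ := fun n => (1 / 2) ^ n / 32
  let et : ℕ → ℝ := fun n => (1 / 2) ^ n * (1 / 2) ^ n / 256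
  let eb : ℕ → ℝ := fun n => if n = 0 then e0 else et (n - 1)
  let P : ℕ → Stage B → Prop := fun n st =>
    (∀ y, |st.rho y - 1| ≤ 1 / 4 - (1 / 2) ^ n / 4) ∧ ∀ i k z, |z.1| ≤ B.T → |st.E i k z| ≤ eb n
  let Q : ℕ → Stage B → Stage B → Prop := fun n st st' =>
    (∀ y, |st'.rho y - st.rho y| ≤ (1 / 2) ^ n) ∧
    (∀ i z, |z.1| ≤ B.T → |st'.dens i z - st.dens i z| ≤ (1 / 2) ^ n) ∧
    (∀ i k z, |st'.u i k z - st.u i k z| ≤ (1 / 2) ^ n) ∧
    (∀ i k j z, |dx j (st'.u i k) z - dx j (st.u i k) z| ≤ (1 / 2) ^ n) ∧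
    (∀ k z, |z.1| ≤ B.T → |st'.f k z - st.f k z| ≤ 4 * eb n / ep n)
  have hpow : ∀ n : ℕ, (0 : ℝ) < (1 / 2) ^ n := fun n => by positivity
  have hpow1 : ∀ n : ℕ, ((1 : ℝ) / 2) ^ n ≤ 1 := fun n =>
    pow_le_one₀ (by norm_num) (by norm_num)
  have hstep : ∀ n (st : Stage B), P n st → ∃ st', P (n + 1) st' ∧ Q n st st' := by
    intro n st hP
    obtain ⟨hP1, hP2⟩ := hP
    have hep : 0 < ep n := by
      have := hpow n
      simp only [ep]; positivity
    have hep8 : ep n ≤ 1 / 8 := by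
      have := hpow1 n
      simp only [ep]; linarith
    have het : 0 < et n := by
      have := hpow n
      simp only [et]; positivity
    have hδ : (0 : ℝ) < (1 / 2) ^ n / 2 := by
      have := hpow n
      positivity
    obtain ⟨st', h1, h2, h3, h4, h5, h6'⟩ := one_step_of h5a h6 h7 h8a h8b st
      (fun y => by
        have ha := hP1 y
        have hb := hpow n
        rw [abs_le] at ha ⊢
        constructor <;> linarith [ha.1, ha.2])
      (eb n) (ep n) (et n) ((1 / 2) ^ n / 2) hep hep8 het hδ hP2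
    refine ⟨st', ⟨fun y => ?_, fun i k z hz => ?_⟩, fun y => ?_, fun i z hz => ?_,
      fun i k z => ?_, fun i k j z => ?_, fun k z hz => h5 k z hz⟩
    · have ha := hP1 y
      have hb := h1 y
      have hc : ((1 : ℝ) / 2) ^ (n + 1) = (1 / 2) ^ n / 2 := by rw [pow_succ]; ring
      rw [hc]
      have hd : 4 * ep n = (1 / 2) ^ n / 8 := by simp only [ep]; ring
      rw [hd] at hb
      rw [abs_le] at ha hb ⊢
      constructor <;> linarith [ha.1, ha.2, hb.1, hb.2]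
    · have := h6' i k z hz
      simpa [eb] using this
    · refine (h1 y).trans ?_
      have := hpow n
      simp only [ep]; linarith
    · refine (h2 i z hz).trans ?_
      have := hpow n
      simp only [ep]; linarith
    · refine (h3 i k z).trans ?_
      have := hpow n
      linarith
    · refine (h4 i k j z).trans ?_
      have := hpow n
      linarith
  have : Nonempty (Stage B) := ⟨st0⟩
  choose! F hF using hstep
  let s : ℕ → Stage B := fun n => Nat.rec st0 (fun n st => F n st) n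
  have hs0 : s 0 = st0 := rfl
  have hss : ∀ n, s (n + 1) = F n (s n) := fun n => rfl
  have hP : ∀ n, P n (s n) := by
    intro n
    induction n with
    | zero =>
      refine ⟨fun y => ?_, fun i k z hz => ?_⟩
      · rw [hs0, hst0 y]; norm_num
      · rw [hs0]
        simpa [eb] using he0 i k z hz
    | succ n ih =>
      rw [hss]
      exact (hF n (s n) ih).1
  have hQ : ∀ n, Q n (s n) (s (n + 1)) := fun n => by
    rw [hss]
    exact (hF n (s n) (hP n)).2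
  refine ⟨s, fun n y => ?_, fun n => (hQ n).1, fun n => (hQ n).2.1, fun n => (hQ n).2.2.1,
    fun n => (hQ n).2.2.2.1, fun n k z hz => ?_, fun n i k z hz => ?_⟩
  · have := (hP n).1 y
    have hb := hpow n
    linarith
  · refine ((hQ (n + 1)).2.2.2.2 k z hz).trans ?_
    have hb := hpow n
    have hb1 := hpow1 n
    have e1 : eb (n + 1) = (1 / 2) ^ n * (1 / 2) ^ n / 256 := by simp [eb, et]
    have e2 : ep (n + 1) = (1 / 2) ^ n / 64 := by
      simp only [ep, pow_succ]; ring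
    rw [e1, e2]
    have e3 : 4 * ((1 / 2 : ℝ) ^ n * (1 / 2) ^ n / 256) / ((1 / 2) ^ n / 64) = (1 / 2) ^ n := by
      field_simp
      norm_num
    rw [e3]
  · have h1 := (hP (n + 1)).2 i k z hz
    have e1 : eb (n + 1) = (1 / 2) ^ n * (1 / 2) ^ n / 256 := by simp [eb, et]
    rw [e1] at h1
    have hb := hpow n
    have hb1 := hpow1 n
    nlinarith

end H37.MHD
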