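import Pool.Agent.H62.PPWords

/-!
The finite 2-groups `G_k`.
-/

namespace Pool.Agent.H62.ProP

abbrev F2 := ZMod 2

theorem f2_add_self {α : Type*} (f : α → F2) : f + f = 0 := by
  funext i
  exact CharTwo.add_self_eq_zero _

theorem f2_add_self' {α β : Type*} (f : α → β → F2) : f + f = 0 := by
  funext i
  exact f2_add_self _

@[ext] structure Qg (k : ℕ) where
  v : Fin k → F2
  m : Fin k → Fin k → F2

namespace Qg
variable {k : ℕ}

def ten (v w : Fin k → F2) : Fin k → Fin k → F2 := fun i j => v i * w j

theorem ten_zero_left (w : Fin k → F2) : ten 0 w = 0 := by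
  funext i j; simp [ten]

theorem ten_zero_right (w : Fin k → F2) : ten w 0 = 0 := by
  funext i j; simp [ten]

theorem ten_add_left (u v w : Fin k → F2) : ten (u + v) w = ten u w + ten v w := by
  funext i j; simp [ten, add_mul]

theorem ten_add_right (u v w : Fin k → F2) : ten u (v + w) = ten u v + ten u w := by
  funext i j; simp [ten, mul_add]

instance : Mul (Qg k) := ⟨fun x y => ⟨x.v + y.v, x.m + y.m + ten x.v y.v⟩⟩
instance : One (Qg k) := ⟨⟨0, 0⟩⟩
instance : Inv (Qg k) := ⟨fun x => ⟨x.v, x.m + ten x.v x.v⟩⟩

theorem mul_v (x y : Qg k) : (x * y).v = x.v + y.v := rfl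
theorem mul_m (x y : Qg k) : (x * y).m = x.m + y.m + ten x.v y.v := rfl
theorem one_v : (1 : Qg k).v = 0 := rfl
theorem one_m : (1 : Qg k).m = 0 := rfl
theorem inv_v (x : Qg k) : (x⁻¹).v = x.v := rfl
theorem inv_m (x : Qg k) : (x⁻¹).m = x.m + ten x.v x.v := rfl

instance : Group (Qg k) := Group.ofLeftAxioms
  (by
    intro a b c
    ext1
    · simp only [mul_v]; abel
    · simp only [mul_v, mul_m, ten_add_left, ten_add_right]; abel)
  (by
    intro a
    ext1
    · simp only [mul_v, one_v, zero_add]
    · simp only [mul_m, one_m, one_v, ten_zero_left, zero_add, add_zero])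
  (by
    intro a
    ext1
    · simp only [mul_v, inv_v, one_v, f2_add_self]
    · simp only [mul_m, inv_m, inv_v, one_m]
      have h1 := f2_add_self' a.m
      have h2 := f2_add_self' (ten a.v a.v)
      calc a.m + ten a.v a.v + a.m + ten a.v a.v
          = (a.m + a.m) + (ten a.v a.v + ten a.v a.v) := by abel
        _ = 0 := by rw [h1, h2, add_zero])

instance : Finite (Qg k) :=
  Finite.of_injective (fun x : Qg k => (x.v, x.m)) (by
    intro x y h
    simp only [Prod.mk.injEq] at h
    exact Qg.ext h.1 h.2)

theorem sq (x : Qg k) : x ^ 2 = ⟨0, ten x.v x.v⟩ := by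
  rw [pow_two]
  ext1
  · simp only [mul_v, f2_add_self]
  · simp only [mul_m, f2_add_self', zero_add]

theorem comm_of_v {c : Qg k} (hc : c.v = 0) (x : Qg k) : c * x = x * c := by
  ext1
  · simp only [mul_v]; abel
  · simp only [mul_m, hc, ten_zero_left, ten_zero_right]; abel

theorem pow_four (x : Qg k) : x ^ 4 = 1 := by
  have : x ^ 4 = x ^ 2 * x ^ 2 := by rw [← pow_add]
  rw [this, sq]
  ext1
  · simp only [mul_v, one_v, add_zero]
  · simp only [mul_m, one_m, f2_add_self', ten_zero_left, zero_add]

/-- `x` is a sum of at most `p` squares `v ⊗ v`. -/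
def Wd (p : ℕ) (x : Fin k → Fin k → F2) : Prop :=
  ∃ l : List (Fin k → F2), l.length ≤ p ∧ x = (l.map fun v => ten v v).sum

theorem Wd.zero : Wd 0 (0 : Fin k → Fin k → F2) := ⟨[], by simp, by simp⟩

theorem Wd.add_sq {p : ℕ} {x : Fin k → Fin k → F2} (h : Wd p x) (v : Fin k → F2) :
    Wd (p + 1) (x + ten v v) := by
  obtain ⟨l, hl, hx⟩ := h
  refine ⟨v :: l, by simpa using hl, ?_⟩
  rw [hx, List.map_cons, List.sum_cons, add_comm]

theorem Wd.mono {p q : ℕ} {x : Fin k → Fin k → F2} (h : Wd p x) (hpq : p ≤ q) : Wd q x := by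
  obtain ⟨l, hl, hx⟩ := h
  exact ⟨l, hl.trans hpq, hx⟩

open Classical in
/-- the width function -/
noncomputable def lam (x : Fin k → Fin k → F2) : F2 := if ∃ p, p < k ∧ Wd p x then 0 else 1

theorem lam_of_wd {p : ℕ} {x : Fin k → Fin k → F2} (h : Wd p x) (hp : p < k) : lam x = 0 := by
  unfold lam
  rw [if_pos ⟨p, hp, h⟩]

/-- iterated difference -/
noncomputable def D : List (Fin k → F2) → (Fin k → Fin k → F2) → F2
  | [], x => lam x
  | (c :: l), x => D l x + D l (x + ten c c)

theorem D_low (l : List (Fin k → F2)) : ∀ (p : ℕ) (x : Fin k → Fin k → F2),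
    Wd p x → p + l.length < k → D l x = 0 := by
  induction l with
  | nil => intro p x h hp; exact lam_of_wd h (by simpa using hp)
  | cons c l ih =>
    intro p x h hp
    simp only [List.length_cons] at hp
    rw [D, ih p x h (by omega), ih (p + 1) _ (h.add_sq c) (by omega), add_zero]

theorem D_top (l : List (Fin k → F2)) : ∀ (p : ℕ) (x : Fin k → Fin k → F2),
    Wd p x → p + l.length ≤ k → D l x = lam (x + (l.map fun v => ten v v).sum) := by
  induction l with
  | nil => intro p x h hp; simp [D]
  | cons c l ih =>
    intro p x h hp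
    simp only [List.length_cons] at hp
    rw [D, D_low l p x h (by omega), zero_add, ih (p + 1) _ (h.add_sq c) (by omega),
      List.map_cons, List.sum_cons, add_assoc]

/-- The unit matrix is not a sum of fewer than `k` squares. -/
theorem lam_one : lam (fun i j : Fin k => if i = j then (1 : F2) else 0) = 1 := by
  unfold lam
  rw [if_neg]
  rintro ⟨p, hp, l, hl, hx⟩
  -- the map `w ↦ (v ⬝ w)_{v ∈ l}` is injective
  let f : (Fin k → F2) → (Fin l.length → F2) := fun w r => ∑ j, l.get r j * w j
  have hinj : Function.Injective f := by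
    intro w w' hww
    have key : ∀ (u : Fin k → F2) (i : Fin k),
        u i = ∑ r : Fin l.length, l.get r i * f u r := by
      intro u i
      have h1 : u i = ∑ j, (if i = j then (1 : F2) else 0) * u j := by simp
      have h2 : ∀ j, (if i = j then (1 : F2) else 0) = ∑ r : Fin l.length, l.get r i * l.get r j := by
        intro j
        have h3 : (if i = j then (1 : F2) else 0)
            = ((l.map fun v => ten v v).sum : Fin k → Fin k → F2) i j := congrFun (congrFun hx i) j
        rw [h3]
        have h4 : ((l.map fun v => ten v v).sum : Fin k → Fin k → F2)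
            = ∑ r : Fin l.length, ten (l.get r) (l.get r) := by
          rw [← List.sum_ofFn]
          congr 1
          apply List.ext_get
          · simp
          · intro n h5 h6
            simp
        rw [h4]
        simp only [Finset.sum_apply, ten]
      rw [h1]
      simp only [h2, f, Finset.sum_mul, Finset.mul_sum, mul_assoc]
      rw [Finset.sum_comm]
    funext i
    rw [key w i, key w' i, hww]
  have h1 := Fintype.card_le_of_injective f hinj
  simp only [Fintype.card_fun, Fintype.card_fin, ZMod.card] at h1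
  have h2 := (Nat.pow_le_pow_iff_right (a := 2) (by norm_num)).1 h1
  omega

end Qg

end Pool.Agent.H62.ProP
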