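import Mathlib

/-!
Pro-p groups, varieties of pro-p groups, and their free groups.
-/

namespace Pool.Agent.H62.ProP

/-- A pro-`p` group: a compact Hausdorff totally disconnected topological group all of whose
quotients by open normal subgroups are `p`-groups (equivalently, an inverse limit of finite
`p`-groups). -/
structure IsProP (p : ℕ) (G : Type) [Group G] [TopologicalSpace G] : Prop where
  topGroup : IsTopologicalGroup G
  compact : CompactSpace G
  t2 : T2Space G
  totDisc : TotallyDisconnectedSpace G
  pGroup : ∀ (U : Subgroup G) [U.Normal], IsOpen (U : Set G) → IsPGroup p (G ⧸ U)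

/-- A variety of pro-`p` groups: a nonempty class of pro-`p` groups (closed under isomorphism of
topological groups) closed under closed subgroups, quotients by closed normal subgroups, and
arbitrary Cartesian products. -/
structure ProPVariety (p : ℕ) where
  mem : ∀ (G : Type) [Group G] [TopologicalSpace G], Prop
  isProP : ∀ (G : Type) [Group G] [TopologicalSpace G], mem G → IsProP p G
  nonempty : ∃ (G : Type) (_ : Group G) (_ : TopologicalSpace G), mem G
  iso : ∀ (G H : Type) [Group G] [TopologicalSpace G] [Group H] [TopologicalSpace H],
    mem G → (G ≃ₜ* H) → mem H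
  closedSubgroup : ∀ (G : Type) [Group G] [TopologicalSpace G], mem G →
    ∀ H : Subgroup G, IsClosed (H : Set G) → mem H
  quotient : ∀ (G : Type) [Group G] [TopologicalSpace G], mem G →
    ∀ (N : Subgroup G) [N.Normal], IsClosed (N : Set G) → mem (G ⧸ N)
  product : ∀ (I : Type) (G : I → Type) [∀ i, Group (G i)] [∀ i, TopologicalSpace (G i)],
    (∀ i, mem (G i)) → mem (∀ i, G i)

/-- `F` together with `e : X → F` is a free group of the variety `V` on `X`: `F` lies in `V`, `e`
converges to `1` (automatic for finite `X`), and every map from `X` into a group of `V` that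
converges to `1` extends uniquely to a continuous homomorphism. -/
structure IsFreeIn {p : ℕ} (V : ProPVariety p) {X F : Type} [Group F] [TopologicalSpace F]
    (e : X → F) : Prop where
  mem : V.mem F
  conv : Filter.Tendsto e Filter.cofinite (nhds 1)
  lift : ∀ (G : Type) [Group G] [TopologicalSpace G], V.mem G →
    ∀ f : X → G, Filter.Tendsto f Filter.cofinite (nhds 1) →
      ∃! φ : F →* G, Continuous φ ∧ ∀ x, φ (e x) = f x

end Pool.Agent.H62.ProP
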