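import Pool.Agent.H62.PPTop

/-!
Existence of free groups in the variety of pro-p groups defined by a set of words.
-/

namespace Pool.Agent.H62.ProP

open Filter Topology

variable {p : ℕ} {W : Set (FreeGroup ℕ)} {X : Type}

/-- finite quotients of the abstract free group -/
structure Idx (p : ℕ) (W : Set (FreeGroup ℕ)) (X : Type) where
  N : Subgroup (FreeGroup X)
  [normal : N.Normal]
  fin : Finite (FreeGroup X ⧸ N)
  cof : {x : X | FreeGroup.of x ∉ N}.Finite
  pg : IsPGroup p (FreeGroup X ⧸ N)
  sat : Sat W (FreeGroup X ⧸ N)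

/-- the quotient -/
def Qi (i : Idx p W X) : Type := FreeGroup X ⧸ i.N

instance (i : Idx p W X) : i.N.Normal := i.normal
instance (i : Idx p W X) : Group (Qi i) := inferInstanceAs (Group (FreeGroup X ⧸ i.N))
instance (i : Idx p W X) : TopologicalSpace (Qi i) := ⊥
instance (i : Idx p W X) : DiscreteTopology (Qi i) := ⟨rfl⟩
instance (i : Idx p W X) : Finite (Qi i) := i.fin

/-- the map to the quotient -/
def qi (i : Idx p W X) : FreeGroup X →* Qi i := QuotientGroup.mk' i.N

theorem qi_eq_one (i : Idx p W X) (w : FreeGroup X) : qi i w = 1 ↔ w ∈ i.N :=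
  QuotientGroup.eq_one_iff w

/-- the map to the product -/
def eta (p : ℕ) (W : Set (FreeGroup ℕ)) (X : Type) : FreeGroup X →* (∀ i : Idx p W X, Qi i) :=
  MonoidHom.pi fun i => qi i

theorem Qi_isProP (i : Idx p W X) : IsProP p (Qi i) := IsProP.of_finite i.pg

theorem prod_isProP : IsProP p (∀ i : Idx p W X, Qi i) := IsProP.pi fun i => Qi_isProP i

instance : IsTopologicalGroup (∀ i : Idx p W X, Qi i) := prod_isProP.topGroup

/-- the free group -/
def Fr (p : ℕ) (W : Set (FreeGroup ℕ)) (X : Type) : Subgroup (∀ i : Idx p W X, Qi i) :=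
  (eta p W X).range.topologicalClosure

theorem Fr_mem : (varietyOf p W).mem (Fr p W X) := by
  apply (varietyOf p W).closedSubgroup _ ?_ _ (Subgroup.isClosed_topologicalClosure _)
  apply (varietyOf p W).product
  intro i
  exact ⟨Qi_isProP i, i.sat⟩

/-- the map to the free group -/
def eta' (p : ℕ) (W : Set (FreeGroup ℕ)) (X : Type) : FreeGroup X →* Fr p W X :=
  (eta p W X).codRestrict _ fun w => Subgroup.le_topologicalClosure _ ⟨w, rfl⟩

theorem eta'_dense : DenseRange (eta' p W X) := by
  rw [DenseRange, Subtype.dense_iff]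
  intro x hx
  have h1 : x ∈ closure (Set.range (eta p W X)) := hx
  have h2 : Subtype.val '' Set.range (eta' p W X) = Set.range (eta p W X) := by
    ext y
    constructor
    · rintro ⟨_, ⟨w, rfl⟩, rfl⟩
      exact ⟨w, rfl⟩
    · rintro ⟨w, rfl⟩
      exact ⟨_, ⟨w, rfl⟩, rfl⟩
  have h3 : closure (Subtype.val '' Set.range (eta' p W X)) = closure (Set.range (eta p W X)) := by
    rw [h2]
  exact h3.ge h1

/-- the generators -/
def gen (p : ℕ) (W : Set (FreeGroup ℕ)) (X : Type) (x : X) : Fr p W X := eta' p W X (FreeGroup.of x)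

theorem gen_tendsto : Tendsto (gen p W X) cofinite (nhds 1) := by
  rw [tendsto_subtype_rng, tendsto_pi_nhds]
  intro i
  have h1 : ((1 : Fr p W X) : ∀ i : Idx p W X, Qi i) i = 1 := rfl
  rw [h1, nhds_discrete, tendsto_pure]
  have h2 : {x : X | ¬ ((gen p W X x : ∀ i : Idx p W X, Qi i) i = 1)}.Finite := by
    apply i.cof.subset
    intro x hx h3
    apply hx
    exact (qi_eq_one i _).2 h3
  exact h2

theorem exists_lift (G : Type) [Group G] [TopologicalSpace G] (hG : (varietyOf p W).mem G)
    (f : X → G) (hf : Tendsto f cofinite (nhds 1)) :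
    ∃ φ : Fr p W X →* G, Continuous φ ∧ ∀ x, φ (gen p W X x) = f x := by
  have t1 := hG.1.topGroup
  have t2 := hG.1.compact
  have t3 := hG.1.t2
  have t4 := hG.1.totDisc
  have hF := (Fr_mem (p := p) (W := W) (X := X)).1
  have s1 := hF.topGroup
  have s2 := hF.compact
  have s3 := hF.t2
  let ψ : FreeGroup X →* G := FreeGroup.lift f
  let θ : FreeGroup X →* (Fr p W X) × G := (eta' p W X).prod ψ
  let K : Subgroup ((Fr p W X) × G) := θ.range.topologicalClosure
  have hKc : IsClosed (K : Set ((Fr p W X) × G)) := Subgroup.isClosed_topologicalClosure _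
  have hKm : ∀ w, θ w ∈ K := fun w => Subgroup.le_topologicalClosure _ ⟨w, rfl⟩
  have cK : CompactSpace K := isCompact_iff_compactSpace.1 hKc.isCompact
  let p1 : K →* Fr p W X := (MonoidHom.fst _ _).comp K.subtype
  have hp1 : Continuous p1 := continuous_fst.comp continuous_subtype_val
  let p2 : K →* G := (MonoidHom.snd _ _).comp K.subtype
  have hp2 : Continuous p2 := continuous_snd.comp continuous_subtype_val
  have hsurj : Function.Surjective p1 := by
    have h1 : IsClosed (Set.range p1) := (isCompact_range hp1).isClosed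
    have h2 : Set.range (eta' p W X) ⊆ Set.range p1 := by
      rintro _ ⟨w, rfl⟩
      exact ⟨⟨θ w, hKm w⟩, rfl⟩
    have h3 : Dense (Set.range p1) := (eta'_dense (p := p) (W := W) (X := X)).mono h2
    intro a
    have h4 := h3 a
    rw [h1.closure_eq] at h4
    exact h4
  have hinj : Function.Injective p1 := by
    rw [injective_iff_map_eq_one]
    rintro ⟨⟨a, g⟩, hag⟩ ha
    have ha1 : a = 1 := ha
    subst ha1
    by_contra hne
    have hg : g ≠ 1 := by
      rintro rfl
      exact hne rfl
    obtain ⟨U, hU⟩ := ProfiniteGrp.exist_openNormalSubgroup_sub_open_nhds_of_one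
      (isOpen_compl_singleton (x := g)) (by simpa using hg.symm)
    have hgU : g ∉ U.toSubgroup := fun h => hU h rfl
    -- the finite quotient
    let N : Subgroup (FreeGroup X) := U.toSubgroup.comap ψ
    have hNn : N.Normal := inferInstance
    let κ : (FreeGroup X ⧸ N) →* (G ⧸ U.toSubgroup) := QuotientGroup.map N U.toSubgroup ψ le_rfl
    have hκ : Function.Injective κ := by
      rw [injective_iff_map_eq_one]
      intro x hx
      obtain ⟨w, rfl⟩ := QuotientGroup.mk_surjective x
      have : ((ψ w : G) : G ⧸ U.toSubgroup) = 1 := hx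
      rw [QuotientGroup.eq_one_iff] at this
      exact (QuotientGroup.eq_one_iff w).2 this
    have fU : Finite (G ⧸ U.toSubgroup) := Subgroup.quotient_finite_of_isOpen _ U.isOpen
    have sU : Sat W (G ⧸ U.toSubgroup) := hG.2.of_surj (QuotientGroup.mk' _)
      (QuotientGroup.mk'_surjective _)
    have pU : IsPGroup p (G ⧸ U.toSubgroup) := hG.1.pGroup _ U.isOpen
    let i : Idx p W X :=
      { N := N
        fin := Finite.of_injective κ hκ
        cof := by
          have h1 := hf (U.isOpen.mem_nhds U.one_mem)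
          have h2 : {x : X | ¬ (f x ∈ (U : Set G))}.Finite := h1
          apply h2.subset
          intro x hx h3
          apply hx
          have h4 : ψ (FreeGroup.of x) = f x := by simp [ψ]
          show ψ (FreeGroup.of x) ∈ U.toSubgroup
          rw [h4]
          exact h3
        pg := pU.of_injective κ hκ
        sat := sU.of_inj κ hκ }
    -- a neighbourhood of `(1, g)`
    let A : Set ((Fr p W X) × G) := {q | (q.1 : ∀ i : Idx p W X, Qi i) i = 1 ∧ g⁻¹ * q.2 ∈ U.toSubgroup}
    have hA : IsOpen A := by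
      apply IsOpen.inter
      · have hc : Continuous fun q : (Fr p W X) × G => (q.1 : ∀ i : Idx p W X, Qi i) i :=
          (continuous_apply i).comp (continuous_subtype_val.comp continuous_fst)
        exact (isOpen_discrete ({1} : Set (Qi i))).preimage hc
      · have hc : Continuous fun q : (Fr p W X) × G => g⁻¹ * q.2 := by fun_prop
        exact U.isOpen.preimage hc
    have hgA : ((1 : Fr p W X), g) ∈ A := ⟨rfl, by rw [inv_mul_cancel]; exact one_mem _⟩
    have hcl : ((1 : Fr p W X), g) ∈ closure (Set.range θ) := hag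
    rw [mem_closure_iff] at hcl
    obtain ⟨_, ⟨h1, h2⟩, ⟨w, rfl⟩⟩ := hcl A hA hgA
    have h3 : w ∈ i.N := (qi_eq_one i w).1 h1
    have h4 : ψ w ∈ U.toSubgroup := h3
    have h5 : g⁻¹ * ψ w ∈ U.toSubgroup := h2
    apply hgU
    have h6 := mul_mem h4 (inv_mem h5)
    simpa using h6
  let e : K ≃* Fr p W X := MulEquiv.ofBijective p1 ⟨hinj, hsurj⟩
  have he : Continuous e.symm := by
    have : Continuous (Continuous.homeoOfEquivCompactToT2 (f := e.toEquiv) hp1).symm :=
      (Continuous.homeoOfEquivCompactToT2 (f := e.toEquiv) hp1).continuous_symm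
    exact this
  refine ⟨p2.comp e.symm.toMonoidHom, hp2.comp he, ?_⟩
  intro x
  have h1 : e.symm (gen p W X x) = ⟨θ (FreeGroup.of x), hKm _⟩ := by
    rw [MulEquiv.symm_apply_eq]
    rfl
  show p2 (e.symm (gen p W X x)) = f x
  rw [h1]
  show ψ (FreeGroup.of x) = f x
  simp [ψ]

theorem lift_unique (G : Type) [Group G] [TopologicalSpace G] [T2Space G]
    (φ ψ : Fr p W X →* G) (hφ : Continuous φ) (hψ : Continuous ψ)
    (h : ∀ x, φ (gen p W X x) = ψ (gen p W X x)) : φ = ψ := by
  have h1 : φ.comp (eta' p W X) = ψ.comp (eta' p W X) := by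
    ext x
    exact h x
  have h2 : (φ : Fr p W X → G) = ψ := by
    apply (eta'_dense (p := p) (W := W) (X := X)).equalizer hφ hψ
    funext w
    exact DFunLike.congr_fun h1 w
  exact DFunLike.coe_injective h2

theorem gen_isFree : IsFreeIn (varietyOf p W) (gen p W X) where
  mem := Fr_mem
  conv := gen_tendsto
  lift G _ _ hG f hf := by
    obtain ⟨φ, h1, h2⟩ := exists_lift G hG f hf
    refine ⟨φ, ⟨h1, h2⟩, ?_⟩
    rintro ψ ⟨h3, h4⟩
    have t3 := hG.1.t2
    exact lift_unique G ψ φ h3 h1 fun x => by rw [h4, h2]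

end Pool.Agent.H62.ProP
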