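import Pool.Agent.H62.PPBase

/-!
The group extension `B ⋊ Q` with `B` of class two attached to a function `φ : Q → Q → F₂`.
-/

namespace Pool.Agent.H62.ProP

section
variable {Q : Type} [Group Q] [Fintype Q]

/-- the bilinear map -/
def kap (φ : Q → Q → F2) (a b : Q → F2) : Q → F2 :=
  fun g => ∑ h, ∑ h', a h * b h' * φ (g * h) (g * h')

/-- left translation -/
def act (q : Q) (a : Q → F2) : Q → F2 := fun h => a (q⁻¹ * h)

/-- right translation -/
def actz (q : Q) (z : Q → F2) : Q → F2 := fun g => z (g * q)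

variable (φ : Q → Q → F2)

theorem kap_add_left (a a' b : Q → F2) : kap φ (a + a') b = kap φ a b + kap φ a' b := by
  funext g
  simp [kap, add_mul, Finset.sum_add_distrib]

theorem kap_add_right (a b b' : Q → F2) : kap φ a (b + b') = kap φ a b + kap φ a b' := by
  funext g
  simp [kap, add_mul, mul_add, Finset.sum_add_distrib]

theorem kap_zero_left (b : Q → F2) : kap φ 0 b = 0 := by
  funext g
  simp [kap]

theorem kap_zero_right (b : Q → F2) : kap φ b 0 = 0 := by
  funext g
  simp [kap]

omit [Fintype Q] in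
theorem act_one (a : Q → F2) : act 1 a = a := by
  funext h; simp [act]

omit [Fintype Q] in
theorem act_mul (p q : Q) (a : Q → F2) : act (p * q) a = act p (act q a) := by
  funext h; simp [act, mul_assoc]

omit [Fintype Q] in
theorem act_add (q : Q) (a b : Q → F2) : act q (a + b) = act q a + act q b := rfl

omit [Fintype Q] in
theorem act_zero (q : Q) : act q 0 = 0 := rfl

omit [Fintype Q] in
theorem actz_one (a : Q → F2) : actz 1 a = a := by
  funext h; simp [actz]

omit [Fintype Q] in
theorem actz_mul (p q : Q) (a : Q → F2) : actz (p * q) a = actz p (actz q a) := by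
  funext h; simp [actz, mul_assoc]

omit [Fintype Q] in
theorem actz_add (q : Q) (a b : Q → F2) : actz q (a + b) = actz q a + actz q b := rfl

omit [Fintype Q] in
theorem actz_zero (q : Q) : actz q 0 = 0 := rfl

theorem kap_act (q : Q) (a b : Q → F2) : kap φ (act q a) (act q b) = actz q (kap φ a b) := by
  funext g
  simp only [kap, act, actz]
  rw [← Equiv.sum_comp (Equiv.mulLeft q)]
  apply Finset.sum_congr rfl
  intro h _
  rw [← Equiv.sum_comp (Equiv.mulLeft q)]
  apply Finset.sum_congr rfl
  intro h' _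
  simp [mul_assoc]

end

/-- The group. -/
@[ext] structure GG (Q : Type) (φ : Q → Q → F2) where
  a : Q → F2
  z : Q → F2
  q : Q

namespace GG
variable {Q : Type} [Group Q] [Fintype Q] {φ : Q → Q → F2}

instance : Mul (GG Q φ) :=
  ⟨fun x y => ⟨x.a + act x.q y.a, x.z + actz x.q y.z + kap φ x.a (act x.q y.a), x.q * y.q⟩⟩
instance : One (GG Q φ) := ⟨⟨0, 0, 1⟩⟩
instance : Inv (GG Q φ) := ⟨fun x => ⟨act x.q⁻¹ x.a, actz x.q⁻¹ (x.z + kap φ x.a x.a), x.q⁻¹⟩⟩

theorem mul_a (x y : GG Q φ) : (x * y).a = x.a + act x.q y.a := rfl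
theorem mul_z (x y : GG Q φ) : (x * y).z = x.z + actz x.q y.z + kap φ x.a (act x.q y.a) := rfl
theorem mul_q (x y : GG Q φ) : (x * y).q = x.q * y.q := rfl
theorem one_a : (1 : GG Q φ).a = 0 := rfl
theorem one_z : (1 : GG Q φ).z = 0 := rfl
theorem one_q : (1 : GG Q φ).q = 1 := rfl
theorem inv_a (x : GG Q φ) : (x⁻¹).a = act x.q⁻¹ x.a := rfl
theorem inv_z (x : GG Q φ) : (x⁻¹).z = actz x.q⁻¹ (x.z + kap φ x.a x.a) := rfl
theorem inv_q (x : GG Q φ) : (x⁻¹).q = x.q⁻¹ := rfl

instance : Group (GG Q φ) := Group.ofLeftAxioms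
  (by
    intro x y w
    ext1
    · simp only [mul_a, mul_q, act_mul, act_add]; abel
    · simp only [mul_a, mul_z, mul_q, act_mul, act_add, actz_mul, actz_add, kap_add_left,
        kap_add_right, ← kap_act]
      abel
    · simp only [mul_q, mul_assoc])
  (by
    intro x
    ext1
    · simp only [mul_a, one_a, one_q, act_one, zero_add]
    · simp only [mul_z, one_z, one_a, one_q, actz_one, act_one, kap_zero_left, zero_add, add_zero]
    · simp only [mul_q, one_q, one_mul])
  (by
    intro x
    ext1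
    · simp only [mul_a, inv_a, inv_q, one_a, f2_add_self]
    · simp only [mul_z, inv_z, inv_a, inv_q, one_z, kap_act, actz_add]
      have h1 := f2_add_self (actz x.q⁻¹ x.z)
      have h2 := f2_add_self (actz x.q⁻¹ (kap φ x.a x.a))
      calc actz x.q⁻¹ x.z + actz x.q⁻¹ (kap φ x.a x.a) + actz x.q⁻¹ x.z
            + actz x.q⁻¹ (kap φ x.a x.a)
          = (actz x.q⁻¹ x.z + actz x.q⁻¹ x.z)
            + (actz x.q⁻¹ (kap φ x.a x.a) + actz x.q⁻¹ (kap φ x.a x.a)) := by abel
        _ = 0 := by rw [h1, h2, add_zero]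
    · simp only [mul_q, inv_q, one_q, inv_mul_cancel])

instance : Finite (GG Q φ) :=
  Finite.of_injective (fun x : GG Q φ => (x.a, x.z, x.q)) (by
    intro x y h
    simp only [Prod.mk.injEq] at h
    exact GG.ext h.1 h.2.1 h.2.2)

/-- projection -/
def pr : GG Q φ →* Q where
  toFun := GG.q
  map_one' := rfl
  map_mul' _ _ := rfl

theorem pr_apply (x : GG Q φ) : pr x = x.q := rfl

/-- section -/
def inr : Q →* GG Q φ where
  toFun q := ⟨0, 0, q⟩
  map_one' := rfl
  map_mul' p q := by
    ext1
    · simp only [mul_a, act_zero, add_zero]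
    · simp only [mul_z, actz_zero, kap_zero_left, add_zero]
    · rfl

theorem inr_q (q : Q) : (inr q : GG Q φ).q = q := rfl
theorem inr_a (q : Q) : (inr q : GG Q φ).a = 0 := rfl

/-- commutators inside the kernel -/
theorem cm_ker {x y : GG Q φ} (hx : x.q = 1) (hy : y.q = 1) :
    cm x y = ⟨0, kap φ x.a y.a + kap φ y.a x.a, 1⟩ := by
  have h : x * y = ⟨0, kap φ x.a y.a + kap φ y.a x.a, 1⟩ * (y * x) := by
    ext1
    · simp only [mul_a, hx, hy, act_one]; abel
    · simp only [mul_a, mul_z, hx, hy, act_one, actz_one, kap_zero_left, add_zero, mul_q]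
      have h2 := f2_add_self (kap φ y.a x.a)
      calc x.z + y.z + kap φ x.a y.a
          = kap φ x.a y.a + (kap φ y.a x.a + kap φ y.a x.a) + (y.z + x.z) := by rw [h2]; abel
        _ = _ := by abel
    · simp only [mul_q, hx, hy, mul_one]
  have h3 : cm x y = x * y * (y * x)⁻¹ := by unfold cm; group
  rw [h3, h, mul_inv_cancel_right]

theorem cm_ker_q {x : GG Q φ} (hx : x.q = 1) (y : GG Q φ) : (cm x y).q = 1 := by
  simp only [cm, mul_q, inv_q, hx]
  group

theorem cm_ker_a {x : GG Q φ} (hx : x.q = 1) (y : GG Q φ) :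
    (cm x y).a = x.a + act y.q x.a := by
  simp only [cm, mul_q, mul_a, inv_q, inv_a, hx, act_one, inv_one, mul_one, one_mul]
  rw [← act_mul, mul_inv_cancel, act_one]
  have h2 := f2_add_self y.a
  calc x.a + y.a + act y.q x.a + y.a = x.a + act y.q x.a + (y.a + y.a) := by abel
    _ = _ := by rw [h2, add_zero]

theorem pow_four_ker {x : GG Q φ} (hx : x.q = 1) : x ^ 4 = 1 := by
  have h2 : x ^ 2 = ⟨0, kap φ x.a x.a, 1⟩ := by
    rw [pow_two]
    ext1
    · simp only [mul_a, hx, act_one, f2_add_self]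
    · simp only [mul_z, hx, act_one, actz_one, f2_add_self, zero_add]
    · simp only [mul_q, hx, mul_one]
  have h4 : x ^ 4 = x ^ 2 * x ^ 2 := by rw [← pow_add]
  rw [h4, h2]
  ext1
  · simp only [mul_a, act_one, one_a, add_zero]
  · simp only [mul_z, actz_one, one_z, kap_zero_left, add_zero, f2_add_self]
  · simp only [mul_q, one_q, mul_one]

end GG

/-- commuting symmetric sums over `F₂` reduce to the diagonal -/
theorem sum_symm {α : Type} [Fintype α] (F : α → α → F2) (hF : ∀ x y, F x y = F y x) :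
    ∑ x, ∑ y, F x y = ∑ x, F x x := by
  classical
  rw [← Finset.sum_product']
  rw [← Finset.sum_filter_add_sum_filter_not _ (fun p : α × α => p.1 = p.2)]
  have h1 : ∑ p ∈ (Finset.univ ×ˢ Finset.univ).filter (fun p : α × α => ¬ p.1 = p.2), F p.1 p.2 = 0 := by
    apply Finset.sum_involution (fun p _ => (p.2, p.1))
    · intro p _
      simp only
      rw [hF p.2 p.1]
      exact CharTwo.add_self_eq_zero _
    · intro p hp _ h
      simp only [Finset.mem_filter] at hp
      apply hp.2
      exact (Prod.ext_iff.1 h).2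
    · intro p hp
      simp only [Finset.mem_filter, Finset.mem_product, Finset.mem_univ, and_self, true_and] at hp ⊢
      exact fun h => hp h.symm
    · intro p _
      rfl
  rw [h1, add_zero]
  symm
  apply Finset.sum_bij (fun (x : α) _ => (x, x))
  · intro x _; simp
  · intro x _ y _ h; exact (Prod.ext_iff.1 h).1
  · intro p hp
    simp only [Finset.mem_filter] at hp
    exact ⟨p.1, Finset.mem_univ _, Prod.ext rfl hp.2⟩
  · intro x _; rfl

end Pool.Agent.H62.ProP
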