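import Pool.Agent.H62.PPGroup

/-!
The laws of the groups `G_k`.
-/

namespace Pool.Agent.H62.ProP

open Qg

noncomputable instance (k : ℕ) : Fintype (Qg k) := Fintype.ofFinite _

open Classical in
/-- the symmetric form -/
noncomputable def bet (k : ℕ) (x y : Qg k) : F2 :=
  if x.v = 0 ∧ y.v = 0 then lam (x.m + y.m) else 0

open Classical in
/-- half of the symmetric form -/
noncomputable def phi (k : ℕ) (x y : Qg k) : F2 :=
  if (Finite.equivFin (Qg k) x : ℕ) < (Finite.equivFin (Qg k) y : ℕ) then bet k x y else 0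

theorem bet_symm (k : ℕ) (x y : Qg k) : bet k x y = bet k y x := by
  by_cases hx : x.v = 0 <;> by_cases hy : y.v = 0 <;> simp [bet, hx, hy, add_comm]

theorem phi_symm {k : ℕ} (hk : 0 < k) (x y : Qg k) : phi k x y + phi k y x = bet k x y := by
  unfold phi
  rcases lt_trichotomy (Finite.equivFin (Qg k) x : ℕ) (Finite.equivFin (Qg k) y : ℕ) with h | h | h
  · rw [if_pos h, if_neg (by omega), add_zero]
  · have hxy : x = y := (Finite.equivFin (Qg k)).injective (Fin.ext h)
    subst hxy
    rw [if_neg (by omega), zero_add]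
    unfold bet
    split_ifs with h1
    · rw [f2_add_self', lam_of_wd Wd.zero hk]
    · rfl
  · rw [if_neg (by omega), if_pos h, zero_add, bet_symm]

variable {k : ℕ}

theorem kap_sum (hk : 0 < k) (a b : Qg k → F2) (g : Qg k) :
    kap (phi k) a b g + kap (phi k) b a g = ∑ h, ∑ h', a h * b h' * bet k (g * h) (g * h') := by
  unfold kap
  rw [Finset.sum_comm (f := fun h h' => b h * a h' * phi k (g * h) (g * h')),
    ← Finset.sum_add_distrib]
  apply Finset.sum_congr rfl
  intro h _
  rw [← Finset.sum_add_distrib]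
  apply Finset.sum_congr rfl
  intro h' _
  rw [← phi_symm hk]
  ring

open Classical in
/-- weight on a coset -/
noncomputable def eps (g : Qg k) (a : Qg k → F2) : F2 := ∑ h, if (g * h).v = 0 then a h else 0

theorem f2_mul_self (x : F2) : x * x = x := by
  revert x; decide

theorem bil_central (a : Qg k → F2) (g : Qg k) (x : Fin k → Fin k → F2) :
    ∑ h, ∑ h', a h * (act (⟨0, x⟩ : Qg k) a) h' * bet k (g * h) (g * h') = eps g a * lam x := by
  classical
  set c : Qg k := ⟨0, x⟩ with hc
  have hcv : c.v = 0 := rfl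
  have h1 : ∀ h : Qg k, ∑ h', a h * (act c a) h' * bet k (g * h) (g * h')
      = ∑ h', a h * a h' * bet k (g * h) (g * (c * h')) := by
    intro h
    rw [← Equiv.sum_comp (Equiv.mulLeft c)]
    apply Finset.sum_congr rfl
    intro h' _
    simp [act]
  simp only [h1]
  have hgv : ∀ h' : Qg k, (g * (c * h')).v = (g * h').v := by
    intro h'
    simp only [mul_v, hcv, zero_add]
  have hgm : ∀ h' : Qg k, (g * (c * h')).m = (g * h').m + x := by
    intro h'
    simp only [mul_m, mul_v, hcv, zero_add, ten_zero_left, add_zero]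
    simp only [hc]
    abel
  have hb : ∀ h h' : Qg k, bet k (g * h) (g * (c * h'))
      = if (g * h).v = 0 ∧ (g * h').v = 0 then lam ((g * h).m + (g * h').m + x) else 0 := by
    intro h h'
    unfold bet
    rw [hgv, hgm, add_assoc]
  simp only [hb]
  rw [sum_symm]
  · unfold eps
    rw [Finset.sum_mul]
    apply Finset.sum_congr rfl
    intro h _
    rw [f2_add_self', zero_add, f2_mul_self]
    by_cases h1 : (g * h).v = 0
    · rw [if_pos ⟨h1, h1⟩, if_pos h1]
    · rw [if_neg (fun h2 => h1 h2.1), if_neg h1, mul_zero, zero_mul]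
  · intro h h'
    rw [mul_comm (a h), add_comm (g * h).m]
    congr 1
    by_cases h1 : (g * h).v = 0 <;> by_cases h2 : (g * h').v = 0 <;> simp [h1, h2]

/-- iterated operator -/
def TT : List (Fin k → F2) → (Qg k → F2) → (Qg k → F2)
  | [], a => a
  | (v :: l), a => TT l (a + act (⟨0, ten v v⟩ : Qg k) a)

theorem TT_add (l : List (Fin k → F2)) : ∀ a b : Qg k → F2, TT l (a + b) = TT l a + TT l b := by
  induction l with
  | nil => intro a b; rfl
  | cons v l ih =>
    intro a b
    simp only [TT, act_add]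
    rw [← ih]
    congr 1
    abel

theorem bil_TT (a : Qg k → F2) (g : Qg k) (l : List (Fin k → F2)) :
    ∀ x : Fin k → Fin k → F2,
    ∑ h, ∑ h', a h * (TT l (act (⟨0, x⟩ : Qg k) a)) h' * bet k (g * h) (g * h')
      = eps g a * D l x := by
  induction l with
  | nil => intro x; exact bil_central a g x
  | cons v l ih =>
    intro x
    simp only [TT, TT_add]
    have h1 : act (⟨0, ten v v⟩ : Qg k) (act (⟨0, x⟩ : Qg k) a)
        = act (⟨0, x + ten v v⟩ : Qg k) a := by
      rw [← act_mul]
      congr 1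
      ext1
      · simp [mul_v]
      · simp only [mul_m, ten_zero_left]; abel
    rw [h1]
    simp only [Pi.add_apply, mul_add, add_mul, Finset.sum_add_distrib]
    rw [ih x, ih (x + ten v v), D, mul_add]

/-- The group `G_k`. -/
abbrev Gk (k : ℕ) : Type := GG (Qg k) (phi k)

theorem rval_q (l : List (Gk k)) : ∀ {u : Gk k}, u.q = 1 → (rval u l).q = 1 := by
  induction l with
  | nil => intro u hu; exact hu
  | cons y l ih => intro u hu; exact ih (GG.cm_ker_q hu _)

theorem rval_a (l : List (Gk k)) : ∀ {u : Gk k}, u.q = 1 →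
    (rval u l).a = TT (l.map fun y => y.q.v) u.a := by
  induction l with
  | nil => intro u hu; rfl
  | cons y l ih =>
    intro u hu
    simp only [rval, List.map_cons, TT]
    rw [ih (GG.cm_ker_q hu _), GG.cm_ker_a hu]
    have : (y ^ 2).q = ⟨0, ten y.q.v y.q.v⟩ := by
      rw [← Qg.sq, pow_two, GG.mul_q, pow_two]
    rw [this]

theorem cm_rval (hk : 0 < k) {u : Gk k} (hu : u.q = 1) (l : List (Gk k)) :
    cm u (rval u l) = ⟨0, fun g => eps g u.a * D (l.map fun y => y.q.v) 0, 1⟩ := by
  rw [GG.cm_ker hu (rval_q l hu)]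
  congr 1
  funext g
  rw [Pi.add_apply, kap_sum hk, rval_a l hu]
  have h := bil_TT u.a g (l.map fun y => y.q.v) 0
  have h0 : act (⟨0, 0⟩ : Qg k) u.a = u.a := act_one _
  rw [h0] at h
  exact h

theorem cm_sq_q (x1 x2 : Gk k) : (cm (x1 ^ 2) x2).q = 1 := by
  have h : ((x1 ^ 2).q).v = 0 := by
    rw [pow_two, GG.mul_q, ← pow_two, Qg.sq]
  have h2 : (cm (x1 ^ 2) x2).q = cm (x1 ^ 2).q x2.q := by
    rw [← GG.pr_apply, map_cm]; rfl
  rw [h2, cm_of_comm (comm_of_v h _)]

/-- short words are laws of `G_k` -/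
theorem law (hk : 0 < k) (x1 x2 : Gk k) (l : List (Gk k)) (hl : l.length < k) :
    wval x1 x2 l = 1 := by
  unfold wval
  rw [cm_rval hk (cm_sq_q x1 x2), D_low _ 0 0 Wd.zero (by simpa using hl)]
  ext1
  · rfl
  · funext g
    simp only [mul_zero]
    rfl
  · rfl

theorem pow_sixteen (x : Gk k) : x ^ 16 = 1 := by
  have h : (x ^ 4).q = 1 := by
    rw [← GG.pr_apply, map_pow, GG.pr_apply, Qg.pow_four]
  have h2 : x ^ 16 = (x ^ 4) ^ 4 := by rw [← pow_mul]
  rw [h2, GG.pow_four_ker h]

/-- the word of length `k` is not a law -/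
theorem not_law (hk : 2 ≤ k) : ∃ (x1 x2 : Gk k) (y : ℕ → Gk k),
    wval x1 x2 ((List.range k).map y) ≠ 1 := by
  classical
  let e0 : Fin k → F2 := fun i => if (i : ℕ) = 0 then 1 else 0
  let e1 : Fin k → F2 := fun i => if (i : ℕ) = 1 then 1 else 0
  let q1 : Qg k := ⟨e0, 0⟩
  let q2 : Qg k := ⟨e1, 0⟩
  let b : Gk k := ⟨Pi.single 1 1, 0, 1⟩
  let x1 : Gk k := b * GG.inr q1
  let x2 : Gk k := GG.inr q2
  let y : ℕ → Gk k := fun n => GG.inr (⟨fun i => if (i : ℕ) = n then 1 else 0, 0⟩ : Qg k)
  refine ⟨x1, x2, y, ?_⟩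
  have hk0 : 0 < k := by omega
  unfold wval
  rw [cm_rval hk0 (cm_sq_q x1 x2)]
  intro hcon
  have h1 := congrFun (congrArg GG.z hcon) 1
  simp only [GG.one_z, Pi.zero_apply] at h1
  -- the difference
  have hD : D (((List.range k).map y).map fun y => y.q.v) 0 = 1 := by
    rw [D_top _ 0 0 Wd.zero (by simp), zero_add, ← lam_one (k := k)]
    congr 1
    rw [List.map_map, List.map_map, Function.comp_assoc]
    have h2 : ∀ n : ℕ, (((List.range n).map ((fun v => ten v v) ∘ (fun y : Gk k => y.q.v) ∘ y)).sum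
        : Fin k → Fin k → F2) = fun (i j : Fin k) => if i = j ∧ (i : ℕ) < n then (1 : F2) else 0 := by
      intro n
      induction n with
      | zero => funext i j; simp
      | succ n ih =>
        rw [List.range_succ, List.map_append, List.sum_append, ih]
        funext i j
        simp only [List.map_cons, List.map_nil, List.sum_cons, List.sum_nil, Function.comp,
          Pi.add_apply, Pi.zero_apply, add_zero, ten, y, GG.inr_q]
        by_cases hij : i = j
        · subst hij
          by_cases h3 : (i : ℕ) = n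
          · rw [if_neg (by omega), if_pos h3, if_pos (by omega)]; simp
          · by_cases h4 : (i : ℕ) < n
            · rw [if_pos ⟨rfl, h4⟩, if_neg h3, if_pos ⟨rfl, by omega⟩]; simp
            · rw [if_neg (by tauto), if_neg h3, if_neg (by omega)]; simp
        · rw [if_neg (fun h : i = j ∧ (i : ℕ) < n => hij h.1),
            if_neg (fun h : i = j ∧ (i : ℕ) < n + 1 => hij h.1)]
          by_cases h3 : (i : ℕ) = n
          · have h4 : ¬ ((j : ℕ) = n) := fun h => hij (Fin.ext (h3.trans h.symm))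
            rw [if_neg h4]; simp
          · rw [if_neg h3]; simp
    rw [h2]
    funext i j
    by_cases hij : i = j
    · rw [if_pos ⟨hij, i.2⟩, if_pos hij]
    · rw [if_neg (by tauto), if_neg hij]
  rw [hD, mul_one] at h1
  -- the weight
  have hx1 : (x1 ^ 2).a = Pi.single 1 1 + act q1 (Pi.single 1 1) := by
    rw [pow_two, GG.mul_a]
    simp only [x1, GG.mul_a, GG.mul_q, GG.inr_a, GG.inr_q, b, act_zero, add_zero, one_mul]
  have hx1q : (x1 ^ 2).q = q1 ^ 2 := by
    rw [pow_two, GG.mul_q, pow_two]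
    simp only [x1, GG.mul_q, GG.inr_q, b, one_mul]
  have hu : (cm (x1 ^ 2) x2).a = (x1 ^ 2).a + act q2 (x1 ^ 2).a := by
    have hcen : q1 ^ 2 * q2 * (q1 ^ 2)⁻¹ = q2 := by
      have : (q1 ^ 2).v = 0 := by rw [Qg.sq]
      rw [comm_of_v this]; group
    have e1 : (cm (x1 ^ 2) x2).a = (x1 ^ 2).a + act (q1 ^ 2) x2.a
        + act (q1 ^ 2 * q2) (act (q1 ^ 2)⁻¹ (x1 ^ 2).a)
        + act (q1 ^ 2 * q2 * (q1 ^ 2)⁻¹) (act q2⁻¹ x2.a) := by
      simp only [cm, GG.mul_a, GG.mul_q, GG.inv_a, GG.inv_q, hx1q]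
      simp only [x2, GG.inr_q]
    rw [e1, ← act_mul (q1 ^ 2 * q2), hcen]
    simp only [x2, GG.inr_a, act_zero, add_zero]
  have hsingle : ∀ q : Qg k, act q (Pi.single 1 1 : Qg k → F2) = Pi.single q 1 := by
    intro q
    funext h
    simp only [act, Pi.single_apply]
    congr 1
    rw [eq_iff_iff]
    constructor
    · intro h'
      rw [inv_mul_eq_one] at h'
      exact h'.symm
    · intro h'
      rw [h', inv_mul_cancel]
  have hfin : (cm (x1 ^ 2) x2).a
      = Pi.single 1 1 + Pi.single q1 1 + (Pi.single q2 1 + Pi.single (q2 * q1) 1) := by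
    rw [hu, hx1, act_add, hsingle, hsingle, ← hsingle q1, ← act_mul, hsingle]
    rw [hsingle]
  have heps_add : ∀ a b : Qg k → F2, eps 1 (a + b) = eps 1 a + eps 1 b := by
    intro a b
    unfold eps
    rw [← Finset.sum_add_distrib]
    apply Finset.sum_congr rfl
    intro h _
    split_ifs <;> simp
  have heps : ∀ q : Qg k, eps 1 (Pi.single q 1 : Qg k → F2) = if q.v = 0 then 1 else 0 := by
    intro q
    unfold eps
    rw [Finset.sum_eq_single q]
    · simp
    · intro h _ hne
      rw [Pi.single_eq_of_ne hne]; simp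
    · intro h; exact absurd (Finset.mem_univ q) h
  rw [hfin, heps_add, heps_add, heps_add, heps, heps, heps, heps] at h1
  have hv0 : ((1 : Qg k).v = 0) := rfl
  have hv1 : ¬ (q1.v = 0) := by
    intro h
    have := congrFun h ⟨0, by omega⟩
    simp [q1, e0] at this
  have hv2 : ¬ (q2.v = 0) := by
    intro h
    have := congrFun h ⟨1, by omega⟩
    simp [q2, e1] at this
  have hv3 : ¬ ((q2 * q1).v = 0) := by
    intro h
    have := congrFun h ⟨0, by omega⟩
    simp [mul_v, q1, q2, e0, e1] at this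
  rw [if_pos hv0, if_neg hv1, if_neg hv2, if_neg hv3] at h1
  simp at h1

end Pool.Agent.H62.ProP
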