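import Pool.Agent.H62.PPDefs

/-!
The variety of pro-p groups defined by a set of words, and its free groups.
-/

namespace Pool.Agent.H62.ProP

open Filter Topology

section basic
variable {p : ℕ} {G : Type} [Group G] [TopologicalSpace G]

theorem IsProP.pow_mem (h : IsProP p G) (g : G) {O : Set G} (hO : IsOpen O) (h1 : (1 : G) ∈ O) :
    ∃ n0, ∀ n, n0 ≤ n → g ^ (p ^ n) ∈ O := by
  have := h.topGroup
  have := h.compact
  have := h.totDisc
  obtain ⟨H, hH⟩ := ProfiniteGrp.exist_openNormalSubgroup_sub_open_nhds_of_one hO h1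
  have hp := h.pGroup H.toSubgroup H.isOpen
  obtain ⟨n0, hn0⟩ := hp (QuotientGroup.mk g)
  refine ⟨n0, fun n hn => hH ?_⟩
  have h2 : g ^ (p ^ n0) ∈ H.toSubgroup := by
    rw [← QuotientGroup.eq_one_iff, QuotientGroup.mk_pow]
    exact hn0
  obtain ⟨m, rfl⟩ := Nat.exists_eq_add_of_le hn
  rw [pow_add, pow_mul]
  exact Subgroup.pow_mem _ h2 _

theorem IsProP.of_pow (h1 : IsTopologicalGroup G) (h2 : CompactSpace G) (h3 : T2Space G)
    (h4 : TotallyDisconnectedSpace G)
    (h5 : ∀ (g : G) (O : Set G), IsOpen O → (1 : G) ∈ O → ∃ n, g ^ (p ^ n) ∈ O) : IsProP p G where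
  topGroup := h1
  compact := h2
  t2 := h3
  totDisc := h4
  pGroup U _ hU := by
    intro x
    obtain ⟨g, rfl⟩ := QuotientGroup.mk_surjective x
    obtain ⟨n, hn⟩ := h5 g U hU U.one_mem
    refine ⟨n, ?_⟩
    rw [← QuotientGroup.mk_pow, QuotientGroup.eq_one_iff]
    exact hn

theorem IsProP.subgroup (h : IsProP p G) (H : Subgroup G) (hH : IsClosed (H : Set G)) :
    IsProP p H := by
  have := h.topGroup
  have := h.compact
  have := h.totDisc
  have := h.t2
  refine IsProP.of_pow inferInstance (isCompact_iff_compactSpace.1 hH.isCompact) inferInstance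
    inferInstance ?_
  intro g O hO h1
  obtain ⟨O', hO', rfl⟩ := isOpen_induced_iff.1 hO
  obtain ⟨n, hn⟩ := h.pow_mem (g : G) hO' (by simpa using h1)
  refine ⟨n, ?_⟩
  simpa using hn n le_rfl

theorem IsProP.quotient (h : IsProP p G) (N : Subgroup G) [N.Normal] (hN : IsClosed (N : Set G)) :
    IsProP p (G ⧸ N) := by
  have := h.topGroup
  have := h.compact
  have := h.totDisc
  have := h.t2
  have hN' : IsClosed (N : Set G) := hN
  have : T3Space (G ⧸ N) := inferInstance
  have : NonarchimedeanGroup (G ⧸ N) :=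
    { is_nonarchimedean := by
        intro U hU
        have h1 : (QuotientGroup.mk : G → G ⧸ N) ⁻¹' U ∈ nhds (1 : G) :=
          (continuous_quot_mk.tendsto (1 : G)) hU
        obtain ⟨O, hO1, hO2, hO3⟩ := mem_nhds_iff.1 h1
        obtain ⟨H, hH⟩ := ProfiniteGrp.exist_openNormalSubgroup_sub_open_nhds_of_one hO2 hO3
        refine ⟨⟨H.toSubgroup.map (QuotientGroup.mk' N), ?_⟩, ?_⟩
        · have := QuotientGroup.isOpenMap_coe (N := N) (H : Set G) H.isOpen
          exact this
        · rintro _ ⟨x, hx, rfl⟩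
          exact hO1 (hH hx) }
  refine IsProP.of_pow inferInstance inferInstance inferInstance inferInstance ?_
  intro x O hO h1
  obtain ⟨g, rfl⟩ := QuotientGroup.mk_surjective x
  obtain ⟨n, hn⟩ := h.pow_mem g (O := (QuotientGroup.mk : G → G ⧸ N) ⁻¹' O)
    (hO.preimage continuous_quot_mk) h1
  exact ⟨n, by simpa using hn n le_rfl⟩

theorem IsProP.iso {H : Type} [Group H] [TopologicalSpace H] (h : IsProP p G) (e : G ≃ₜ* H) :
    IsProP p H := by
  have := h.topGroup
  have := h.compact
  have := h.totDisc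
  have := h.t2
  have hh : G ≃ₜ H := e.toHomeomorph
  have : IsTopologicalGroup H :=
    { continuous_mul := by
        have : (fun q : H × H => q.1 * q.2) = fun q => e (e.symm q.1 * e.symm q.2) := by
          funext q; simp
        rw [this]
        exact e.continuous.comp ((e.symm.continuous.comp continuous_fst).mul
          (e.symm.continuous.comp continuous_snd))
      continuous_inv := by
        have : (fun q : H => q⁻¹) = fun q => e ((e.symm q)⁻¹) := by
          funext q; simp
        rw [this]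
        exact e.continuous.comp (e.symm.continuous.inv) }
  refine IsProP.of_pow inferInstance hh.compactSpace hh.t2Space ⟨?_⟩ ?_
  · exact hh.symm.isEmbedding.isTotallyDisconnected
      (isTotallyDisconnected_of_totallyDisconnectedSpace _)
  · intro x O hO h1
    obtain ⟨n, hn⟩ := h.pow_mem (e.symm x) (O := e ⁻¹' O) (hO.preimage e.continuous) (by simpa using h1)
    exact ⟨n, by simpa using hn n le_rfl⟩

theorem IsProP.pi {I : Type} {G : I → Type} [∀ i, Group (G i)] [∀ i, TopologicalSpace (G i)]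
    (h : ∀ i, IsProP p (G i)) : IsProP p (∀ i, G i) := by
  have := fun i => (h i).topGroup
  have := fun i => (h i).compact
  have := fun i => (h i).totDisc
  have := fun i => (h i).t2
  refine IsProP.of_pow inferInstance inferInstance inferInstance inferInstance ?_
  intro g O hO h1
  obtain ⟨J, u, hu1, hu2⟩ := isOpen_pi_iff.1 hO 1 h1
  have : ∀ i, ∃ n0, i ∈ J → ∀ n, n0 ≤ n → g i ^ (p ^ n) ∈ u i := by
    intro i
    by_cases hi : i ∈ J
    · obtain ⟨n0, hn0⟩ := (h i).pow_mem (g i) (hu1 i hi).1 (hu1 i hi).2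
      exact ⟨n0, fun _ => hn0⟩
    · exact ⟨0, fun h => absurd h hi⟩
  choose n0 hn0 using this
  refine ⟨J.sup n0, hu2 ?_⟩
  intro i hi
  exact hn0 i hi _ (Finset.le_sup (f := n0) hi)

theorem IsProP.of_finite [DiscreteTopology G] [Finite G] (h : IsPGroup p G) : IsProP p G := by
  refine IsProP.of_pow inferInstance inferInstance inferInstance inferInstance ?_
  intro g O _ h1
  obtain ⟨n, hn⟩ := h g
  exact ⟨n, by rw [hn]; exact h1⟩

end basic

/-- `G` satisfies the laws `w = 1`, `w ∈ W`. -/
def Sat (W : Set (FreeGroup ℕ)) (G : Type) [Group G] : Prop :=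
  ∀ w ∈ W, ∀ f : ℕ → G, FreeGroup.lift f w = 1

theorem Sat.of_surj {W : Set (FreeGroup ℕ)} {G H : Type} [Group G] [Group H] (h : Sat W G)
    (φ : G →* H) (hφ : Function.Surjective φ) : Sat W H := by
  intro w hw f
  choose g hg using fun n => hφ (f n)
  have h1 : FreeGroup.lift f = φ.comp (FreeGroup.lift g) := by
    ext n; simp [hg]
  rw [h1, MonoidHom.comp_apply, h w hw g, map_one]

theorem Sat.of_inj {W : Set (FreeGroup ℕ)} {G H : Type} [Group G] [Group H] (h : Sat W H)
    (φ : G →* H) (hφ : Function.Injective φ) : Sat W G := by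
  intro w hw f
  apply hφ
  rw [map_one, ← h w hw (fun n => φ (f n))]
  have h1 : FreeGroup.lift (fun n => φ (f n)) = φ.comp (FreeGroup.lift f) := by
    ext n; simp
  rw [h1, MonoidHom.comp_apply]

theorem Sat.pi {W : Set (FreeGroup ℕ)} {I : Type} {G : I → Type} [∀ i, Group (G i)]
    (h : ∀ i, Sat W (G i)) : Sat W (∀ i, G i) := by
  intro w hw f
  funext i
  have h1 := h i w hw (fun n => f n i)
  have h2 : FreeGroup.lift (fun n => f n i) = (Pi.evalMonoidHom G i).comp (FreeGroup.lift f) := by
    ext n; simp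
  rw [h2, MonoidHom.comp_apply] at h1
  exact h1

/-- The variety of pro-`p` groups defined by the set of words `W`. -/
def varietyOf (p : ℕ) (W : Set (FreeGroup ℕ)) : ProPVariety p where
  mem G _ _ := IsProP p G ∧ Sat W G
  isProP _ _ _ h := h.1
  nonempty := ⟨PUnit, inferInstance, inferInstance,
    IsProP.of_finite (fun _ => ⟨0, rfl⟩), fun _ _ _ => rfl⟩
  iso _ _ _ _ _ _ h e := ⟨h.1.iso e, h.2.of_surj e.toMulEquiv.toMonoidHom e.surjective⟩
  closedSubgroup _ _ _ h H hH := ⟨h.1.subgroup H hH, h.2.of_inj H.subtype H.subtype_injective⟩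
  quotient _ _ _ h N _ hN := ⟨h.1.quotient N hN, h.2.of_surj (QuotientGroup.mk' N)
    (QuotientGroup.mk'_surjective N)⟩
  product _ _ _ _ h := ⟨IsProP.pi fun i => (h i).1, Sat.pi fun i => (h i).2⟩

end Pool.Agent.H62.ProP
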