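import Mathlib

/-!
Group words used for a variety of pro-2 groups whose free groups have periodic elements of
unbounded order.
-/

namespace Pool.Agent.H62.ProP

section
variable {G H : Type*} [Group G] [Group H]

/-- The group commutator. -/
def cm (a b : G) : G := a * b * a⁻¹ * b⁻¹

theorem map_cm (f : G →* H) (a b : G) : f (cm a b) = cm (f a) (f b) := by
  simp [cm]

theorem cm_of_comm {a b : G} (h : a * b = b * a) : cm a b = 1 := by
  unfold cm
  rw [h]
  group

theorem cm_one_left (b : G) : cm (1 : G) b = 1 := by simp [cm]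

theorem cm_one_right (b : G) : cm b (1 : G) = 1 := by simp [cm]

/-- `[u, y₁², y₂², …]`, left normed. -/
def rval (u : G) : List G → G
  | [] => u
  | (y :: l) => rval (cm u (y ^ 2)) l

/-- `[u, [u, y₁², …, y_j²]]` with `u = [x₁², x₂]`. -/
def wval (x1 x2 : G) (l : List G) : G := cm (cm (x1 ^ 2) x2) (rval (cm (x1 ^ 2) x2) l)

/-- `[t¹⁶, w]`. -/
def tval (t x1 x2 : G) (l : List G) : G := cm (t ^ 16) (wval x1 x2 l)

/-- The two variable word. -/
def Lval (k : ℕ) (x y : G) : G :=
  tval (cm y (x ^ 1)) (cm y (x ^ 2)) (cm y (x ^ 3)) ((List.range k).map fun i => cm y (x ^ (i + 4)))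

theorem map_rval (f : G →* H) (l : List G) : ∀ u : G, f (rval u l) = rval (f u) (l.map f) := by
  induction l with
  | nil => intro u; rfl
  | cons y l ih => intro u; simp [rval, ih, map_cm]

theorem map_wval (f : G →* H) (x1 x2 : G) (l : List G) :
    f (wval x1 x2 l) = wval (f x1) (f x2) (l.map f) := by
  simp [wval, map_rval, map_cm]

theorem map_tval (f : G →* H) (t x1 x2 : G) (l : List G) :
    f (tval t x1 x2 l) = tval (f t) (f x1) (f x2) (l.map f) := by
  simp [tval, map_wval, map_cm]

theorem map_Lval (f : G →* H) (k : ℕ) (x y : G) : f (Lval k x y) = Lval k (f x) (f y) := by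
  simp only [Lval, map_tval, map_cm, map_pow, List.map_map]
  congr 1
  apply List.map_congr_left
  intro i _
  simp [map_cm]

end

end Pool.Agent.H62.ProP
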