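import Pool.Agent.H62.PPLaw

/-!
Wreath products over the groups `G_k`.
-/

namespace Pool.Agent.H62.ProP

section
variable {D T : Type} [Group D] [Group T]

/-- base inclusion -/
def base : (T → D) →* RegularWreathProduct D T where
  toFun f := ⟨f, 1⟩
  map_one' := rfl
  map_mul' f g := by ext <;> simp

theorem base_left (f : T → D) : (base f : RegularWreathProduct D T).left = f := rfl
theorem base_right (f : T → D) : (base f : RegularWreathProduct D T).right = 1 := rfl

theorem eq_base {x : RegularWreathProduct D T} (h : x.right = 1) : x = base x.left := by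
  ext
  · rfl
  · rw [h]; rfl

theorem base_injective : Function.Injective (base : (T → D) →* RegularWreathProduct D T) := by
  intro f g h
  exact congrArg RegularWreathProduct.left h

theorem cm_right (x y : RegularWreathProduct D T) : (cm x y).right = cm x.right y.right := rfl

theorem cm_base_inl (f : T → D) (c : T) :
    cm (base f : RegularWreathProduct D T) (RegularWreathProduct.inl c)
      = base (fun x => f x * (f (c⁻¹ * x))⁻¹) := by
  ext x
  · simp [cm, base]
  · simp [cm, base]

end

/-- coefficient group -/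
abbrev Ak (k : ℕ) : Type := Multiplicative (ZMod (2 ^ (k + 4)))

/-- first wreath product -/
abbrev Ek (k : ℕ) : Type := RegularWreathProduct (Ak k) (Gk k)

/-- second wreath product -/
abbrev Fk (k : ℕ) : Type := RegularWreathProduct (Ek k) (Ak k)

instance (k : ℕ) : NeZero (2 ^ (k + 4)) := ⟨by positivity⟩

instance (k : ℕ) : Finite (Ak k) := inferInstanceAs (Finite (ZMod (2 ^ (k + 4))))

theorem Ak_pow {k j : ℕ} (hkj : k ≤ j) (x : Ak k) : x ^ (2 ^ (j + 4)) = 1 := by
  apply Multiplicative.toAdd.injective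
  rw [toAdd_pow, toAdd_one, nsmul_eq_mul]
  have h : ((2 ^ (j + 4) : ℕ) : ZMod (2 ^ (k + 4))) = 0 := by
    rw [ZMod.natCast_eq_zero_iff]
    exact Nat.pow_dvd_pow 2 (by omega)
  rw [h, zero_mul]

theorem Ek_law {k : ℕ} (hk : 0 < k) (t x1 x2 : Ek k) (l : List (Ek k)) :
    tval t x1 x2 l ^ (2 ^ (l.length + 4)) = 1 := by
  have ht : (t ^ 16).right = 1 := by
    have : (t ^ 16).right = RegularWreathProduct.rightHom (t ^ 16) := rfl
    rw [this, map_pow, pow_sixteen]
  rcases lt_or_ge l.length k with h | h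
  · have hw : (wval x1 x2 l).right = 1 := by
      have : (wval x1 x2 l).right = RegularWreathProduct.rightHom (wval x1 x2 l) := rfl
      rw [this, map_wval]
      exact law hk _ _ _ (by simpa using h)
    have : tval t x1 x2 l = 1 := by
      unfold tval
      rw [eq_base ht, eq_base hw, ← map_cm, cm_of_comm, map_one]
      exact mul_comm _ _
    rw [this, one_pow]
  · have hr : (tval t x1 x2 l).right = 1 := by
      unfold tval
      rw [cm_right, ht, cm_one_left]
    rw [eq_base hr, ← map_pow]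
    have : (tval t x1 x2 l).left ^ 2 ^ (l.length + 4) = 1 := by
      funext x
      rw [Pi.pow_apply, Ak_pow h, Pi.one_apply]
    rw [this, map_one]

theorem Ek_not {k : ℕ} (hk : 2 ≤ k) : ∃ (t x1 x2 : Ek k) (y : ℕ → Ek k),
    tval t x1 x2 ((List.range k).map y) ^ (2 ^ (k - 1)) ≠ 1 := by
  classical
  obtain ⟨x1, x2, y, hw⟩ := not_law hk
  let f : Gk k → Ak k := fun g => if g = 1 then Multiplicative.ofAdd 1 else 1
  refine ⟨base f, RegularWreathProduct.inl x1, RegularWreathProduct.inl x2,
    fun n => RegularWreathProduct.inl (y n), ?_⟩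
  have h1 : wval (RegularWreathProduct.inl x1 : Ek k) (RegularWreathProduct.inl x2)
      ((List.range k).map fun n => (RegularWreathProduct.inl (y n) : Ek k))
      = RegularWreathProduct.inl (wval x1 x2 ((List.range k).map y)) := by
    rw [map_wval, List.map_map]
    rfl
  unfold tval
  rw [h1, ← map_pow, cm_base_inl, ← map_pow]
  intro hcon
  rw [← map_one (base : (Gk k → Ak k) →* _)] at hcon
  have h2 := congrFun (base_injective hcon) 1
  simp only [Pi.pow_apply, Pi.one_apply, mul_one] at h2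
  have h3 : f (wval x1 x2 ((List.range k).map y))⁻¹ = 1 := by
    simp only [f]
    rw [if_neg]
    rw [inv_eq_one]
    exact hw
  have h4 : f 1 = Multiplicative.ofAdd 1 := by simp [f]
  rw [h3, h4, one_pow, inv_one, mul_one, ← pow_mul] at h2
  have h5 := congrArg Multiplicative.toAdd h2
  rw [toAdd_pow, toAdd_one, toAdd_ofAdd, nsmul_eq_mul, mul_one, ZMod.natCast_eq_zero_iff] at h5
  have h6 : 16 * 2 ^ (k - 1) = 2 ^ (k + 3) := by
    have : (16 : ℕ) = 2 ^ 4 := by norm_num
    rw [this, ← pow_add]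
    congr 1
    omega
  rw [h6, Nat.pow_dvd_pow_iff_le_right (by norm_num)] at h5
  omega

theorem Fk_law {k : ℕ} (hk : 0 < k) (j : ℕ) (x y : Fk k) : Lval j x y ^ (2 ^ (j + 4)) = 1 := by
  have hr : ∀ i : ℕ, (cm y (x ^ i)).right = 1 := by
    intro i
    rw [cm_right]
    exact cm_of_comm (mul_comm _ _)
  have hb : ∀ i : ℕ, cm y (x ^ i) = base (cm y (x ^ i)).left := fun i => eq_base (hr i)
  have h1 : Lval j x y = base (tval (cm y (x ^ 1)).left (cm y (x ^ 2)).left (cm y (x ^ 3)).left
      ((List.range j).map fun i => (cm y (x ^ (i + 4))).left)) := by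
    unfold Lval
    rw [map_tval, List.map_map]
    congr 1
    · exact hb 1
    · exact hb 2
    · exact hb 3
    · apply List.map_congr_left
      intro i _
      exact hb (i + 4)
  rw [h1, ← map_pow]
  have h2 : (tval (cm y (x ^ 1)).left (cm y (x ^ 2)).left (cm y (x ^ 3)).left
      ((List.range j).map fun i => (cm y (x ^ (i + 4))).left)) ^ (2 ^ (j + 4)) = 1 := by
    funext τ
    rw [Pi.pow_apply, Pi.one_apply]
    have h3 := map_tval (Pi.evalMonoidHom (fun _ : Ak k => Ek k) τ) (cm y (x ^ 1)).left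
      (cm y (x ^ 2)).left (cm y (x ^ 3)).left
      ((List.range j).map fun i => (cm y (x ^ (i + 4))).left)
    rw [Pi.evalMonoidHom_apply] at h3
    rw [h3]
    have h4 := Ek_law hk (Pi.evalMonoidHom (fun _ : Ak k => Ek k) τ (cm y (x ^ 1)).left)
      (Pi.evalMonoidHom (fun _ : Ak k => Ek k) τ (cm y (x ^ 2)).left)
      (Pi.evalMonoidHom (fun _ : Ak k => Ek k) τ (cm y (x ^ 3)).left)
      (((List.range j).map fun i => (cm y (x ^ (i + 4))).left).map
        (Pi.evalMonoidHom (fun _ : Ak k => Ek k) τ))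
    simpa using h4
  rw [h2, map_one]

theorem Fk_not {k : ℕ} (hk : 2 ≤ k) : ∃ x y : Fk k, Lval k x y ^ (2 ^ (k - 1)) ≠ 1 := by
  obtain ⟨t, x1, x2, y, hne⟩ := Ek_not hk
  let g : ℕ → Ek k := fun n => match n with
    | 0 => 1
    | 1 => t
    | 2 => x1
    | 3 => x2
    | (i + 4) => y i
  let F : Ak k → Ek k := fun τ => (g (Multiplicative.toAdd τ⁻¹).val)⁻¹
  let s : Ak k := Multiplicative.ofAdd 1
  refine ⟨RegularWreathProduct.inl s, base F, ?_⟩
  have hF1 : F 1 = 1 := by
    simp [F, g]
  have hFi : ∀ i : ℕ, i < 2 ^ (k + 4) → F (s ^ i)⁻¹ = (g i)⁻¹ := by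
    intro i hi
    simp only [F, s]
    congr 2
    rw [inv_inv, toAdd_pow, toAdd_ofAdd, nsmul_eq_mul, mul_one, ZMod.val_natCast_of_lt hi]
  have hval : ∀ i : ℕ, i < 2 ^ (k + 4) →
      (cm (base F : Fk k) ((RegularWreathProduct.inl s : Fk k) ^ i)).left 1 = g i := by
    intro i hi
    rw [← map_pow, cm_base_inl, base_left]
    simp only [mul_one]
    rw [hF1, hFi i hi, one_mul, inv_inv]
  have hk4 : k + 3 < 2 ^ (k + 4) := by
    have : k + 4 < 2 ^ (k + 4) := Nat.lt_two_pow_self
    omega
  have hb : ∀ i : ℕ, cm (base F : Fk k) ((RegularWreathProduct.inl s : Fk k) ^ i)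
      = base (cm (base F : Fk k) ((RegularWreathProduct.inl s : Fk k) ^ i)).left := by
    intro i
    apply eq_base
    rw [cm_right]
    exact cm_of_comm (mul_comm _ _)
  set C : ℕ → (Ak k → Ek k) := fun i =>
    (cm (base F : Fk k) ((RegularWreathProduct.inl s : Fk k) ^ i)).left with hC
  have h1 : Lval k (RegularWreathProduct.inl s : Fk k) (base F)
      = base (tval (C 1) (C 2) (C 3) ((List.range k).map fun i => C (i + 4))) := by
    unfold Lval
    rw [map_tval, List.map_map]
    congr 1
    · exact hb 1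
    · exact hb 2
    · exact hb 3
    · apply List.map_congr_left
      intro i _
      exact hb (i + 4)
  intro hcon
  rw [h1, ← map_pow, ← map_one (base : (Ak k → Ek k) →* _)] at hcon
  have h2 := congrFun (base_injective hcon) 1
  rw [Pi.pow_apply, Pi.one_apply] at h2
  have h3 := map_tval (Pi.evalMonoidHom (fun _ : Ak k => Ek k) 1) (C 1) (C 2) (C 3)
      ((List.range k).map fun i => C (i + 4))
  rw [Pi.evalMonoidHom_apply] at h3
  rw [h3] at h2
  apply hne
  have e1 : Pi.evalMonoidHom (fun _ : Ak k => Ek k) 1 (C 1) = t := hval 1 (by omega)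
  have e2 : Pi.evalMonoidHom (fun _ : Ak k => Ek k) 1 (C 2) = x1 := hval 2 (by omega)
  have e3 : Pi.evalMonoidHom (fun _ : Ak k => Ek k) 1 (C 3) = x2 := hval 3 (by omega)
  have e4 : ((List.range k).map fun i => C (i + 4)).map (Pi.evalMonoidHom (fun _ : Ak k => Ek k) 1)
      = (List.range k).map y := by
    rw [List.map_map]
    apply List.map_congr_left
    intro i hi
    rw [List.mem_range] at hi
    exact hval (i + 4) (by omega)
  rw [e1, e2, e3, e4] at h2
  exact h2

/-- `Fk k` is a 2-group -/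
theorem Fk_two_group (k : ℕ) : IsPGroup 2 (Fk k) := by
  have hG : IsPGroup 2 (Gk k) := fun g => ⟨4, by
    have : (2 : ℕ) ^ 4 = 16 := by norm_num
    rw [this]; exact pow_sixteen g⟩
  have hA : ∀ x : Ak k, x ^ (2 ^ (k + 4)) = 1 := fun x => Ak_pow le_rfl x
  have hE : ∀ x : Ek k, x ^ (2 ^ (k + 8)) = 1 := by
    intro x
    have hr : (x ^ 16).right = 1 := by
      have : (x ^ 16).right = RegularWreathProduct.rightHom (x ^ 16) := rfl
      rw [this, map_pow, pow_sixteen]
    have h1 : x ^ (2 ^ (k + 8)) = (x ^ 16) ^ (2 ^ (k + 4)) := by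
      rw [← pow_mul]
      congr 1
      have : (16 : ℕ) = 2 ^ 4 := by norm_num
      rw [this, ← pow_add]
      congr 1
      omega
    rw [h1, eq_base hr, ← map_pow]
    have : (x ^ 16).left ^ 2 ^ (k + 4) = 1 := by
      funext τ
      exact hA _
    rw [this, map_one]
  intro x
  refine ⟨(k + 4) + (k + 8), ?_⟩
  have hr : (x ^ (2 ^ (k + 4))).right = 1 := by
    have : (x ^ (2 ^ (k + 4))).right = RegularWreathProduct.rightHom (x ^ (2 ^ (k + 4))) := rfl
    rw [this, map_pow]
    exact hA _
  have h5 : x ^ (2 ^ ((k + 4) + (k + 8))) = (x ^ (2 ^ (k + 4))) ^ (2 ^ (k + 8)) := by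
    rw [← pow_mul]
    congr 1
    exact pow_add 2 _ _
  rw [h5, eq_base hr, ← map_pow]
  have : (x ^ (2 ^ (k + 4))).left ^ 2 ^ (k + 8) = 1 := by
    funext τ
    exact hE _
  rw [this, map_one]

instance (k : ℕ) : Finite (Fk k) := inferInstance

end Pool.Agent.H62.ProP
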