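import Mathlib

/-!
Covering a crossing supermodular function by arcs with prescribed degrees (Frank type theorem).
-/

set_option linter.unusedSectionVars false
set_option linter.unusedVariables false

namespace Pool.Agent.H62.Split

open Finset

variable {V : Type*} [Fintype V] [DecidableEq V]

/-- nonempty proper subset -/
def PN (X : Finset V) : Prop := X.Nonempty ∧ X ≠ univ

lemma sum_mono {f : V → ℤ} (hf : ∀ v, 0 ≤ f v) {X Y : Finset V} (h : X ⊆ Y) :
    ∑ x ∈ X, f x ≤ ∑ x ∈ Y, f x :=
  sum_le_sum_of_subset_of_nonneg h (fun v _ _ => hf v)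

lemma sum_nn {f : V → ℤ} (hf : ∀ v, 0 ≤ f v) (X : Finset V) : 0 ≤ ∑ x ∈ X, f x :=
  sum_nonneg (fun v _ => hf v)

lemma single_le {f : V → ℤ} (hf : ∀ v, 0 ≤ f v) {X : Finset V} {v : V} (h : v ∈ X) :
    f v ≤ ∑ x ∈ X, f x :=
  single_le_sum (fun v _ => hf v) h

lemma sum_ui (f : V → ℤ) (X Y : Finset V) :
    ∑ x ∈ X ∪ Y, f x + ∑ x ∈ X ∩ Y, f x = ∑ x ∈ X, f x + ∑ x ∈ Y, f x :=
  sum_union_inter

lemma sum_c (f : V → ℤ) (X : Finset V) :
    ∑ x ∈ X, f x + ∑ x ∈ Xᶜ, f x = ∑ x, f x := sum_add_sum_compl X f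

lemma exists_pos {f : V → ℤ} (hf : ∀ v, 0 ≤ f v) {X : Finset V} (h : 0 < ∑ x ∈ X, f x) :
    ∃ v ∈ X, 0 < f v := by
  by_contra hcon
  push Not at hcon
  have : ∑ x ∈ X, f x ≤ 0 := sum_nonpos hcon
  omega

/-- maximal element of a union-closed nonempty family -/
lemma exists_top {P : Finset V → Prop} (hne : ∃ X, P X) (hu : ∀ X Y, P X → P Y → P (X ∪ Y)) :
    ∃ M, P M ∧ ∀ X, P X → X ⊆ M := by
  classical
  obtain ⟨X0, h0⟩ := hne
  obtain ⟨M, hM, hmax⟩ := exists_max_image (univ.filter P) card ⟨X0, by simp [h0]⟩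
  simp only [mem_filter, mem_univ, true_and] at hM hmax
  refine ⟨M, hM, fun X hX => ?_⟩
  have h1 := hmax (M ∪ X) (hu _ _ hM hX)
  have h2 : M = M ∪ X := eq_of_subset_of_card_le subset_union_left h1
  rw [h2]
  exact subset_union_right

/-- minimal element of an intersection-closed nonempty family -/
lemma exists_bot {P : Finset V → Prop} (hne : ∃ X, P X) (hu : ∀ X Y, P X → P Y → P (X ∩ Y)) :
    ∃ M, P M ∧ ∀ X, P X → M ⊆ X := by
  classical
  obtain ⟨X0, h0⟩ := hne
  obtain ⟨M, hM, hmax⟩ := exists_min_image (univ.filter P) card ⟨X0, by simp [h0]⟩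
  simp only [mem_filter, mem_univ, true_and] at hM hmax
  refine ⟨M, hM, fun X hX => ?_⟩
  have h1 := hmax (M ∩ X) (hu _ _ hM hX)
  have h2 : M ∩ X = M := eq_of_subset_of_card_le inter_subset_left h1
  rw [← h2]
  exact inter_subset_right

theorem frank (N : ℕ) : ∀ (h t : V → ℤ) (p : Finset V → ℤ),
    (∀ v, 0 ≤ h v) → (∀ v, 0 ≤ t v) → ∑ v, h v = N → ∑ v, t v = N →
    (∀ X Y : Finset V, (X ∩ Y).Nonempty → X ∪ Y ≠ univ → p X + p Y ≤ p (X ∩ Y) + p (X ∪ Y)) →
    (∀ X, PN X → p X ≤ ∑ v ∈ X, h v) → (∀ X, PN X → p X ≤ ∑ v ∈ Xᶜ, t v) →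
    ∃ F : V → V → ℤ, (∀ u v, 0 ≤ F u v) ∧ (∀ v, ∑ u, F u v = h v) ∧ (∀ u, ∑ v, F u v = t u) ∧
      ∀ X, PN X → p X ≤ ∑ u ∈ Xᶜ, ∑ v ∈ X, F u v := by
  induction N with
  | zero =>
    intro h t p hh ht hN tN _ h1 _
    have hz : ∀ v, h v = 0 := by
      intro v
      have := (sum_eq_zero_iff_of_nonneg (s := univ) (f := h) (fun v _ => hh v)).1 (by simpa using hN)
      exact this v (mem_univ v)
    have tz : ∀ v, t v = 0 := by
      intro v
      have := (sum_eq_zero_iff_of_nonneg (s := univ) (f := t) (fun v _ => ht v)).1 (by simpa using tN)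
      exact this v (mem_univ v)
    refine ⟨fun _ _ => 0, by simp, by simp [hz], by simp [tz], ?_⟩
    intro X hX
    have := h1 X hX
    simpa [hz] using this
  | succ N ih =>
    intro h t p hh ht hN tN hp h1 h2
    have hpos : 0 < ∑ v, h v := by rw [hN]; positivity
    obtain ⟨v, -, hv⟩ := exists_pos hh (X := univ) hpos
    -- find u
    have key : ∃ u, 0 < t u ∧ ∀ X, PN X → (v ∈ X → u ∈ X → p X < ∑ x ∈ X, h x) ∧
        (v ∉ X → u ∉ X → p X < ∑ x ∈ Xᶜ, t x) := by
      by_contra hcon
      push Not at hcon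
      -- blocked
      have hb : ∀ u, 0 < t u → (∃ X, PN X ∧ v ∈ X ∧ u ∈ X ∧ p X = ∑ x ∈ X, h x) ∨
          (∃ X, PN X ∧ v ∉ X ∧ u ∉ X ∧ p X = ∑ x ∈ Xᶜ, t x) := by
        intro u hu
        obtain ⟨X, hX, hX2⟩ := hcon u hu
        by_cases hc : v ∈ X → u ∈ X → p X < ∑ x ∈ X, h x
        · obtain ⟨ha, hb, hc⟩ := hX2 hc
          exact Or.inr ⟨X, hX, ha, hb, le_antisymm (h2 X hX) hc⟩
        · push Not at hc
          obtain ⟨ha, hb, hc⟩ := hc
          exact Or.inl ⟨X, hX, ha, hb, le_antisymm (h1 X hX) hc⟩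
      -- union closed
      have hU : ∀ X Y, (PN X ∧ v ∈ X ∧ p X = ∑ x ∈ X, h x) → (PN Y ∧ v ∈ Y ∧ p Y = ∑ x ∈ Y, h x) →
          (PN (X ∪ Y) ∧ v ∈ X ∪ Y ∧ p (X ∪ Y) = ∑ x ∈ X ∪ Y, h x) := by
        rintro X Y ⟨hX, hvX, hpX⟩ ⟨hY, hvY, hpY⟩
        have hne : (X ∩ Y).Nonempty := ⟨v, mem_inter.2 ⟨hvX, hvY⟩⟩
        have hvi : h v ≤ ∑ x ∈ X ∩ Y, h x := single_le hh (mem_inter.2 ⟨hvX, hvY⟩)
        have e1 := sum_ui h X Y
        have hun : X ∪ Y ≠ univ := by
          intro hun
          have e2 := sum_ui t Xᶜ Yᶜ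
          have e3 : Xᶜ ∩ Yᶜ = ∅ := by rw [← compl_union, hun, compl_univ]
          rw [e3, sum_empty] at e2
          have e4 := sum_mono ht (subset_univ (Xᶜ ∪ Yᶜ))
          have e5 := h2 X hX
          have e6 := h2 Y hY
          rw [hun] at e1
          omega
        have hPN : PN (X ∪ Y) := ⟨⟨v, mem_union_left _ hvX⟩, hun⟩
        have e2 := hp X Y hne hun
        have e3 := h1 _ hPN
        have hPN' : PN (X ∩ Y) := ⟨hne, fun hh' => hX.2 (by
          rw [eq_univ_iff_forall] at hh' ⊢; intro x; exact (mem_inter.1 (hh' x)).1)⟩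
        have e4 := h1 _ hPN'
        exact ⟨hPN, mem_union_left _ hvX, by omega⟩
      -- intersection closed
      have hI : ∀ X Y, (PN X ∧ v ∉ X ∧ p X = ∑ x ∈ Xᶜ, t x) → (PN Y ∧ v ∉ Y ∧ p Y = ∑ x ∈ Yᶜ, t x) →
          (PN (X ∩ Y) ∧ v ∉ X ∩ Y ∧ p (X ∩ Y) = ∑ x ∈ (X ∩ Y)ᶜ, t x) := by
        rintro X Y ⟨hX, hvX, hpX⟩ ⟨hY, hvY, hpY⟩
        have hvn : v ∉ X ∪ Y := by simp [hvX, hvY]
        have hun : X ∪ Y ≠ univ := fun hh' => hvn (by rw [hh']; exact mem_univ v)
        have e1 := sum_ui h X Y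
        have hx1 := h1 X hX
        have hy1 := h1 Y hY
        have hvc : h v ≤ ∑ x ∈ (X ∪ Y)ᶜ, h x := single_le hh (by simpa using hvn)
        have e2 := sum_c h (X ∪ Y)
        have e3 := sum_ui t Xᶜ Yᶜ
        have hne : (X ∩ Y).Nonempty := by
          by_contra hne
          rw [not_nonempty_iff_eq_empty] at hne
          rw [hne, sum_empty] at e1
          have e4 : Xᶜ ∪ Yᶜ = univ := by rw [← compl_inter, hne, compl_empty]
          rw [e4] at e3
          have e5 := sum_nn ht (Xᶜ ∩ Yᶜ)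
          omega
        have hPN : PN (X ∩ Y) := ⟨hne, fun hh' => hX.2 (by
          rw [eq_univ_iff_forall] at hh' ⊢; intro x; exact (mem_inter.1 (hh' x)).1)⟩
        have hPN' : PN (X ∪ Y) := ⟨hX.1.mono subset_union_left, hun⟩
        have e4 := hp X Y hne hun
        have e5 := h2 _ hPN
        have e6 := h2 _ hPN'
        rw [compl_inter] at e5 ⊢
        rw [compl_union] at e6
        exact ⟨hPN, fun hh' => hvX (mem_inter.1 hh').1, by omega⟩
      have htpos : 0 < ∑ v, t v := by rw [tN]; positivity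
      by_cases hIn : ∃ X, (PN X ∧ v ∈ X ∧ p X = ∑ x ∈ X, h x)
      · obtain ⟨M, ⟨hM, hvM, hpM⟩, hMtop⟩ := exists_top hIn hU
        have hvsum : h v ≤ ∑ x ∈ M, h x := single_le hh hvM
        have hM2 := h2 M hM
        by_cases hOut : ∃ X, (PN X ∧ v ∉ X ∧ p X = ∑ x ∈ Xᶜ, t x)
        · obtain ⟨K, ⟨hK, hvK, hpK⟩, hKbot⟩ := exists_bot hOut hI
          have hK1 := h1 K hK
          -- all of K \ M has t = 0
          have hz : ∑ x ∈ K \ M, t x = 0 := by
            apply sum_eq_zero
            intro u hu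
            rw [mem_sdiff] at hu
            by_contra hne
            have hu0 : 0 < t u := lt_of_le_of_ne (ht u) (Ne.symm hne)
            rcases hb u hu0 with ⟨X, hX, hvX, huX, hpX⟩ | ⟨X, hX, hvX, huX, hpX⟩
            · exact hu.2 (hMtop X ⟨hX, hvX, hpX⟩ huX)
            · exact huX (hKbot X ⟨hX, hvX, hpX⟩ hu.1)
          by_cases hun : M ∪ K = univ
          · have : Mᶜ ⊆ K \ M := by
              intro x hx
              rw [mem_compl] at hx
              have : x ∈ M ∪ K := by rw [hun]; exact mem_univ x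
              rw [mem_union] at this
              rw [mem_sdiff]
              tauto
            have := sum_mono ht this
            omega
          · by_cases hne : (M ∩ K).Nonempty
            · have hPN : PN (M ∩ K) := ⟨hne, fun hh' => hM.2 (by
                rw [eq_univ_iff_forall] at hh' ⊢; intro x; exact (mem_inter.1 (hh' x)).1)⟩
              have hPN' : PN (M ∪ K) := ⟨hM.1.mono subset_union_left, hun⟩
              have e1 := hp M K hne hun
              have e2 := h1 _ hPN
              have e3 := h2 _ hPN'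
              -- h M + t (K^c) ≤ h (M ∩ K) + t ((M ∪ K)^c)
              have e4 : ∑ x ∈ (M ∪ K)ᶜ, t x ≤ ∑ x ∈ Kᶜ, t x :=
                sum_mono ht (compl_subset_compl.2 subset_union_right)
              have e5 : ∑ x ∈ M ∩ K, h x + h v ≤ ∑ x ∈ M, h x := by
                have : insert v (M ∩ K) ⊆ M := by
                  intro x hx
                  rw [mem_insert] at hx
                  rcases hx with rfl | hx
                  · exact hvM
                  · exact (mem_inter.1 hx).1
                have h' := sum_mono hh this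
                rw [sum_insert (by simp [hvK])] at h'
                omega
              omega
            · have : K ⊆ K \ M := by
                intro x hx
                rw [mem_sdiff]
                refine ⟨hx, fun hxM => hne ⟨x, mem_inter.2 ⟨hxM, hx⟩⟩⟩
              have e1 := sum_mono ht this
              have e2 := sum_c t K
              have e3 := sum_c h K
              have e4 : h v ≤ ∑ x ∈ Kᶜ, h x := single_le hh (by simpa using hvK)
              omega
        · -- only In
          have hz : ∑ x ∈ Mᶜ, t x = 0 := by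
            apply sum_eq_zero
            intro u hu
            by_contra hne
            have hu0 : 0 < t u := lt_of_le_of_ne (ht u) (Ne.symm hne)
            rcases hb u hu0 with ⟨X, hX, hvX, huX, hpX⟩ | ⟨X, hX, hvX, huX, hpX⟩
            · exact (mem_compl.1 hu) (hMtop X ⟨hX, hvX, hpX⟩ huX)
            · exact hOut ⟨X, hX, hvX, hpX⟩
          omega
      · by_cases hOut : ∃ X, (PN X ∧ v ∉ X ∧ p X = ∑ x ∈ Xᶜ, t x)
        · obtain ⟨K, ⟨hK, hvK, hpK⟩, hKbot⟩ := exists_bot hOut hI
          have hK1 := h1 K hK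
          have hz : ∑ x ∈ K, t x = 0 := by
            apply sum_eq_zero
            intro u hu
            by_contra hne
            have hu0 : 0 < t u := lt_of_le_of_ne (ht u) (Ne.symm hne)
            rcases hb u hu0 with ⟨X, hX, hvX, huX, hpX⟩ | ⟨X, hX, hvX, huX, hpX⟩
            · exact hIn ⟨X, hX, hvX, hpX⟩
            · exact huX (hKbot X ⟨hX, hvX, hpX⟩ hu)
          have e2 := sum_c t K
          have e3 := sum_c h K
          have e4 : h v ≤ ∑ x ∈ Kᶜ, h x := single_le hh (by simpa using hvK)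
          omega
        · obtain ⟨u, -, hu⟩ := exists_pos ht (X := univ) htpos
          rcases hb u hu with ⟨X, hX, hvX, huX, hpX⟩ | ⟨X, hX, hvX, huX, hpX⟩
          · exact hIn ⟨X, hX, hvX, hpX⟩
          · exact hOut ⟨X, hX, hvX, hpX⟩
    obtain ⟨u, hu, hux⟩ := key
    -- apply the induction hypothesis
    have hs : ∀ (f : V → ℤ) (w : V) (X : Finset V),
        ∑ x ∈ X, (f x - if x = w then 1 else 0) = ∑ x ∈ X, f x - if w ∈ X then 1 else 0 := by
      intro f w X
      rw [sum_sub_distrib, sum_ite_eq']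
    obtain ⟨F, hF0, hF1, hF2, hF3⟩ := ih (fun x => h x - if x = v then 1 else 0)
      (fun x => t x - if x = u then 1 else 0)
      (fun X => p X - if (v ∈ X ∧ u ∉ X) then 1 else 0)
      (by intro x; by_cases hx : x = v
          · simp only [hx, if_true]; omega
          · simp only [hx, if_false, sub_zero]; exact hh x)
      (by intro x; by_cases hx : x = u
          · simp only [hx, if_true]; omega
          · simp only [hx, if_false, sub_zero]; exact ht x)
      (by rw [hs]; simp only [mem_univ, if_true]; push_cast at hN; omega)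
      (by rw [hs]; simp only [mem_univ, if_true]; push_cast at tN; omega)
      (by
        intro X Y hne hun
        have := hp X Y hne hun
        simp only [mem_inter, mem_union]
        by_cases a : v ∈ X <;> by_cases b : u ∈ X <;> by_cases c : v ∈ Y <;> by_cases d : u ∈ Y <;>
          simp [a, b, c, d] <;> omega)
      (by
        intro X hX
        rw [hs]
        have a1 := h1 X hX
        have a2 := (hux X hX).1
        by_cases a : v ∈ X <;> by_cases b : u ∈ X <;> simp [a, b] at a2 ⊢ <;> omega)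
      (by
        intro X hX
        rw [hs]
        have a1 := h2 X hX
        have a2 := (hux X hX).2
        by_cases a : v ∈ X <;> by_cases b : u ∈ X <;> simp [a, b] at a2 ⊢ <;> omega)
    refine ⟨fun x y => F x y + if (x = u ∧ y = v) then 1 else 0, ?_, ?_, ?_, ?_⟩
    · intro x y
      have := hF0 x y
      show 0 ≤ F x y + if (x = u ∧ y = v) then 1 else 0
      split_ifs <;> omega
    · intro y
      have := hF1 y
      rw [sum_add_distrib, this]
      by_cases a : y = v
      · subst a; simp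
      · simp [a]
    · intro x
      have := hF2 x
      rw [sum_add_distrib, this]
      by_cases a : x = u
      · subst a; simp
      · simp [a]
    · intro X hX
      have := hF3 X hX
      have e : ∑ x ∈ Xᶜ, ∑ y ∈ X, (F x y + if (x = u ∧ y = v) then 1 else 0) =
          ∑ x ∈ Xᶜ, ∑ y ∈ X, F x y + if (v ∈ X ∧ u ∉ X) then 1 else 0 := by
        simp only [sum_add_distrib]
        congr 1
        by_cases a : v ∈ X <;> by_cases b : u ∈ X <;> simp [a, b, ite_and, sum_ite_eq', sum_ite_irrel]
      rw [e]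
      omega

end Pool.Agent.H62.Split
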