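import Pool.Agent.H62.Split1

/-!
Choosing the tails: greedy step and exchange argument.
-/

set_option linter.unusedSectionVars false
set_option linter.unusedVariables false

namespace Pool.Agent.H62.Split

open Finset

variable {V : Type*} [Fintype V] [DecidableEq V]

lemma exists_maximal_above {P : Finset V → Prop} {Y : Finset V} (hY : P Y) :
    ∃ M, P M ∧ Y ⊆ M ∧ ∀ Z, P Z → M ⊆ Z → Z = M := by
  classical
  obtain ⟨M, hM, hmax⟩ := exists_max_image (univ.filter (fun Z => P Z ∧ Y ⊆ Z)) card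
    ⟨Y, by simp [hY]⟩
  simp only [mem_filter, mem_univ, true_and] at hM hmax
  refine ⟨M, hM.1, hM.2, fun Z hZ hMZ => ?_⟩
  exact (eq_of_subset_of_card_le hMZ (hmax Z ⟨hZ, hM.2.trans hMZ⟩)).symm

/-- The maximal members of a family closed under unions of intersecting members are pairwise
disjoint and cover. -/
lemma maximal_family {P : Finset V → Prop}
    (hu : ∀ X Y, P X → P Y → (X ∩ Y).Nonempty → P (X ∪ Y)) :
    ∃ 𝓜 : Finset (Finset V), (∀ M ∈ 𝓜, P M) ∧
      (∀ M ∈ 𝓜, ∀ N ∈ 𝓜, M ≠ N → Disjoint M N) ∧ ∀ X, P X → ∃ M ∈ 𝓜, X ⊆ M := by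
  classical
  refine ⟨univ.filter (fun Y => P Y ∧ ∀ Z, P Z → Y ⊆ Z → Z = Y), ?_, ?_, ?_⟩
  · intro M hM
    simp only [mem_filter, mem_univ, true_and] at hM
    exact hM.1
  · intro M hM N hN hne
    simp only [mem_filter, mem_univ, true_and] at hM hN
    rw [disjoint_iff_inter_eq_empty]
    by_contra hcon
    have h1 := hu M N hM.1 hN.1 (nonempty_iff_ne_empty.2 hcon)
    have h2 := hM.2 _ h1 subset_union_left
    have h3 := hN.2 _ h1 subset_union_right
    exact hne (h2.symm.trans h3)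
  · intro X hX
    obtain ⟨M, hM, hXM, hmax⟩ := exists_maximal_above hX
    exact ⟨M, by simp only [mem_filter, mem_univ, true_and]; exact ⟨hM, hmax⟩, hXM⟩

lemma sum_family {𝓜 : Finset (Finset V)} (hd : ∀ M ∈ 𝓜, ∀ N ∈ 𝓜, M ≠ N → Disjoint M N)
    (f : V → ℤ) : ∑ x ∈ 𝓜.biUnion id, f x = ∑ M ∈ 𝓜, ∑ x ∈ M, f x := by
  rw [sum_biUnion]
  · rfl
  · intro M hM N hN hne
    exact hd M hM N hN hne

lemma sum_cover {𝓜 : Finset (Finset V)} (hd : ∀ M ∈ 𝓜, ∀ N ∈ 𝓜, M ≠ N → Disjoint M N)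
    {f : V → ℤ} (hf : ∀ v, 0 ≤ f v) (hc : ∀ v, 0 < f v → ∃ M ∈ 𝓜, v ∈ M) :
    ∑ x, f x = ∑ M ∈ 𝓜, ∑ x ∈ M, f x := by
  rw [← sum_family hd]
  symm
  apply sum_subset (subset_univ _)
  intro x _ hx
  by_contra hne
  obtain ⟨M, hM, hxM⟩ := hc x (lt_of_le_of_ne (hf x) (Ne.symm hne))
  exact hx (mem_biUnion.2 ⟨M, hM, hxM⟩)

lemma sum_family_le {𝓜 : Finset (Finset V)} (hd : ∀ M ∈ 𝓜, ∀ N ∈ 𝓜, M ≠ N → Disjoint M N)
    {f : V → ℤ} (hf : ∀ v, 0 ≤ f v) : ∑ M ∈ 𝓜, ∑ x ∈ M, f x ≤ ∑ x, f x := by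
  rw [← sum_family hd]
  exact sum_mono hf (subset_univ _)

lemma PN.inter {X Y : Finset V} (hX : PN X) (hne : (X ∩ Y).Nonempty) : PN (X ∩ Y) :=
  ⟨hne, fun hh' => hX.2 (by
    rw [eq_univ_iff_forall] at hh' ⊢; intro x; exact (mem_inter.1 (hh' x)).1)⟩

lemma PN.union {X Y : Finset V} (hX : PN X) (hne : X ∪ Y ≠ univ) : PN (X ∪ Y) :=
  ⟨hX.1.mono subset_union_left, hne⟩

/-- sums over complements of two sets with union everything -/
lemma sum_compl_le {f : V → ℤ} (hf : ∀ v, 0 ≤ f v) {X Y : Finset V} (hun : X ∪ Y = univ) :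
    ∑ x ∈ Xᶜ, f x + ∑ x ∈ Yᶜ, f x + ∑ x ∈ X ∩ Y, f x = ∑ x, f x := by
  have e1 := sum_ui f X Y
  have e2 := sum_c f X
  have e3 := sum_c f Y
  rw [hun] at e1
  omega

/-- Greedy choice of the tails (only the in-degree type conditions). -/
theorem greedy_t (κ : Finset V → ℤ) (h l : V → ℤ)
    (hκ : ∀ X Y : Finset V, κ X + κ Y ≤ κ (X ∩ Y) + κ (X ∪ Y))
    (hh : ∀ v, 0 ≤ h v) (hl : ∀ v, 0 ≤ l v)
    (H2 : ∀ Y, PN Y → κ Y ≤ ∑ x ∈ Yᶜ, h x + ∑ x ∈ Yᶜ, l x)
    (feas : ∀ 𝓟 : Finset (Finset V), (∀ P ∈ 𝓟, PN P) →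
      (∀ P ∈ 𝓟, ∀ Q ∈ 𝓟, P ≠ Q → Disjoint P Q) →
      ∑ P ∈ 𝓟, (κ P - ∑ x ∈ Pᶜ, l x) ≤ ∑ v, h v) (n : ℕ) :
    ∀ t0 : V → ℤ, (∀ v, 0 ≤ t0 v) → ∑ v, t0 v = ∑ v, h v + n →
      (∀ Y, PN Y → κ Y ≤ ∑ x ∈ Y, t0 x + ∑ x ∈ Yᶜ, l x) →
      ∃ t : V → ℤ, (∀ v, 0 ≤ t v ∧ t v ≤ t0 v) ∧ ∑ v, t v = ∑ v, h v ∧
        (∀ Y, PN Y → κ Y ≤ ∑ x ∈ Y, t x + ∑ x ∈ Yᶜ, l x) := by
  induction n with
  | zero =>
    intro t0 h0 hs h1
    exact ⟨t0, fun v => ⟨h0 v, le_refl _⟩, by simpa using hs, h1⟩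
  | succ n ih =>
    intro t0 h0 hs h1
    have key : ∃ v, 0 < t0 v ∧ ∀ Y, PN Y → v ∈ Y → κ Y < ∑ x ∈ Y, t0 x + ∑ x ∈ Yᶜ, l x := by
      by_contra hcon
      push Not at hcon
      obtain ⟨𝓜, hM1, hM2, hM3⟩ := maximal_family
        (P := fun Y => PN Y ∧ κ Y = ∑ x ∈ Y, t0 x + ∑ x ∈ Yᶜ, l x) (by
          rintro X Y ⟨hX, hkX⟩ ⟨hY, hkY⟩ hne
          have hun : X ∪ Y ≠ univ := by
            intro hun
            have e1 := sum_compl_le hh hun
            have e2 := H2 X hX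
            have e3 := H2 Y hY
            have e4 := sum_ui t0 X Y
            rw [hun] at e4
            have e5 := sum_nn hh (X ∩ Y)
            have e6 := sum_nn h0 (X ∩ Y)
            push_cast at hs
            omega
          have e1 := hκ X Y
          have e2 := h1 _ (hX.inter hne)
          have e3 := h1 _ (hX.union hun)
          have e4 := sum_ui t0 X Y
          have e5 := sum_ui l Xᶜ Yᶜ
          rw [compl_inter] at e2
          rw [compl_union] at e3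
          refine ⟨hX.union hun, ?_⟩
          rw [compl_union]
          omega)
      have hcov : ∀ v, 0 < t0 v → ∃ M ∈ 𝓜, v ∈ M := by
        intro v hv
        obtain ⟨Y, hY, hvY, hk⟩ := hcon v hv
        obtain ⟨M, hM, hYM⟩ := hM3 Y ⟨hY, le_antisymm (h1 Y hY) hk⟩
        exact ⟨M, hM, hYM hvY⟩
      have e1 := sum_cover hM2 h0 hcov
      have e2 := feas 𝓜 (fun P hP => (hM1 P hP).1) hM2
      have e3 : ∑ P ∈ 𝓜, (κ P - ∑ x ∈ Pᶜ, l x) = ∑ M ∈ 𝓜, ∑ x ∈ M, t0 x := by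
        apply sum_congr rfl
        intro M hM
        have := (hM1 M hM).2
        omega
      push_cast at hs
      omega
    obtain ⟨v, hv, hvY⟩ := key
    have hsum : ∀ X : Finset V, ∑ x ∈ X, (t0 x - if x = v then 1 else 0) =
        ∑ x ∈ X, t0 x - if v ∈ X then 1 else 0 := by
      intro X
      rw [sum_sub_distrib, sum_ite_eq']
    obtain ⟨t, ht1, ht2, ht3⟩ := ih (fun x => t0 x - if x = v then 1 else 0)
      (by intro x
          show 0 ≤ t0 x - if x = v then 1 else 0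
          have := h0 x
          split_ifs with hx
          · subst hx; omega
          · omega)
      (by rw [hsum]; simp only [mem_univ, if_true]; push_cast at hs; omega)
      (by
        intro Y hY
        rw [hsum]
        have a1 := h1 Y hY
        have a2 := hvY Y hY
        by_cases a : v ∈ Y <;> simp [a] at a2 ⊢ <;> omega)
    refine ⟨t, fun x => ⟨(ht1 x).1, ?_⟩, ht2, ht3⟩
    have := (ht1 x).2
    have h' : t x ≤ t0 x - if x = v then 1 else 0 := this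
    split_ifs at h' <;> omega

/-- The data of a valid choice of tails. -/
structure Good (κ : Finset V → ℤ) (h l s t r : V → ℤ) : Prop where
  t0 : ∀ v, 0 ≤ t v
  r0 : ∀ v, 0 ≤ r v
  tr : ∀ v, t v + r v = s v
  tm : ∑ v, t v = ∑ v, h v
  ii : ∀ Y, PN Y → κ Y ≤ ∑ x ∈ Y, t x + ∑ x ∈ Yᶜ, l x

section exchange

variable (κ : Finset V → ℤ) (h l s : V → ℤ)
    (hκ : ∀ X Y : Finset V, κ X + κ Y ≤ κ (X ∩ Y) + κ (X ∪ Y))
    (hh : ∀ v, 0 ≤ h v) (hl : ∀ v, 0 ≤ l v)
    (H1 : ∀ Y, PN Y → κ Y ≤ ∑ x ∈ Y, s x)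
    (H2 : ∀ Y, PN Y → κ Y ≤ ∑ x ∈ Yᶜ, h x + ∑ x ∈ Yᶜ, l x)
    (hbal : ∑ v, h v + ∑ v, l v ≤ ∑ v, s v)

include hκ hh hl H1 H2 hbal

theorem exchange_step (t r : V → ℤ) (hg : Good κ h l s t r) (d : ℤ) (hd : 1 ≤ d)
    (hmax : ∀ Y, PN Y → κ Y - ∑ x ∈ Yᶜ, h x - ∑ x ∈ Y, r x ≤ d)
    (Y0 : Finset V) (hY0 : PN Y0) (hdY0 : κ Y0 - ∑ x ∈ Y0ᶜ, h x - ∑ x ∈ Y0, r x = d) :
    ∃ u w, 0 < t u ∧ 0 < r w ∧
      (∀ T, PN T → κ T = ∑ x ∈ T, t x + ∑ x ∈ Tᶜ, l x → u ∈ T → w ∈ T) ∧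
      (∀ Z, PN Z → w ∈ Z → u ∉ Z → κ Z - ∑ x ∈ Zᶜ, h x - ∑ x ∈ Z, r x ≤ d - 2) ∧
      ∃ Y, PN Y ∧ κ Y - ∑ x ∈ Yᶜ, h x - ∑ x ∈ Y, r x = d ∧ u ∈ Y ∧ w ∉ Y := by
  classical
  have ht := hg.t0
  have hr := hg.r0
  have hs : ∀ X : Finset V, ∑ x ∈ X, s x = ∑ x ∈ X, t x + ∑ x ∈ X, r x := by
    intro X
    rw [← sum_add_distrib]
    exact sum_congr rfl (fun x _ => (hg.tr x).symm)
  have hsall := hs univ
  have htm := hg.tm
  set df : Finset V → ℤ := fun Y => κ Y - ∑ x ∈ Yᶜ, h x - ∑ x ∈ Y, r x with hdf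
  -- F1
  have F1 : ∀ X Y, PN X → PN Y → X ∪ Y = univ →
      df X + df Y ≤ - ∑ x ∈ X ∩ Y, r x := by
    intro X Y hX hY hun
    have e1 := H2 X hX
    have e2 := H2 Y hY
    have e3 := sum_compl_le hl hun
    have e4 := sum_ui r X Y
    rw [hun] at e4
    have e5 := sum_nn hl (X ∩ Y)
    simp only [hdf]
    omega
  -- F2
  have F2 : ∀ X Y, df X + df Y ≤ df (X ∩ Y) + df (X ∪ Y) := by
    intro X Y
    have e1 := hκ X Y
    have e2 := sum_ui r X Y
    have e3 := sum_ui h Xᶜ Yᶜ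
    simp only [hdf, compl_inter, compl_union]
    omega
  -- F3
  have F3 : ∀ T Y, PN T → PN Y → κ T = ∑ x ∈ T, t x + ∑ x ∈ Tᶜ, l x → 1 ≤ df Y →
      (T ∩ Y).Nonempty → T ∪ Y = univ := by
    intro T Y hT hY hkT hdY hne
    by_contra hun
    have e1 := hκ T Y
    have e2 := H1 _ (hT.inter hne)
    have e3 := H2 _ (hT.union hun)
    rw [hs] at e2
    have e4 := sum_mono ht (inter_subset_left : T ∩ Y ⊆ T)
    have e5 := sum_mono hr (inter_subset_right : T ∩ Y ⊆ Y)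
    have e6 := sum_mono hl (compl_subset_compl.2 (subset_union_left : T ⊆ T ∪ Y))
    have e7 := sum_mono hh (compl_subset_compl.2 (subset_union_right : Y ⊆ T ∪ Y))
    simp only [hdf] at hdY
    omega
  -- F4
  have F4 : ∀ Y, PN Y → 1 ≤ df Y → ∃ u ∈ Y, 0 < t u := by
    intro Y hY hdY
    apply exists_pos ht
    have e1 := H1 Y hY
    rw [hs] at e1
    have e2 := sum_nn hh Yᶜ
    simp only [hdf] at hdY
    omega
  by_contra hcon
  push Not at hcon
  have hcon' : ∀ u w, 0 < t u → 0 < r w → ∀ Y, PN Y → df Y = d → u ∈ Y → w ∉ Y →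
      ∃ Z, PN Z ∧ w ∈ Z ∧ u ∉ Z ∧ d - 1 ≤ df Z := by
    intro u w hu hw Y hY hdY huY hwY
    by_contra hc
    push Not at hc
    refine hwY (hcon u w hu hw ?_ ?_ Y hY hdY huY)
    · intro T hT hkT huT
      have := F3 T Y hT hY hkT (by omega) ⟨u, mem_inter.2 ⟨huT, huY⟩⟩
      have hw' : w ∈ T ∪ Y := by rw [this]; exact mem_univ w
      rw [mem_union] at hw'
      tauto
    · intro Z hZ hwZ huZ
      have := hc Z hZ hwZ huZ
      simp only [hdf] at this
      omega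
  -- for w outside of all maximum deficient sets, minimal set
  have hmin : ∀ w, 0 < r w → (∀ Y, PN Y → df Y = d → w ∉ Y) →
      ∃ Z, PN Z ∧ w ∈ Z ∧ d - 1 ≤ df Z ∧ ∀ Y, PN Y → df Y = d → Z ∩ Y = ∅ := by
    intro w hw hwn
    -- some set exists
    have hex : ∃ Z, PN Z ∧ w ∈ Z ∧ d - 1 ≤ df Z := by
      obtain ⟨u, huY, hu⟩ := F4 Y0 hY0 (by simp only [hdf]; omega)
      obtain ⟨Z, hZ, hwZ, -, hdZ⟩ := hcon' u w hu hw Y0 hY0 hdY0 huY (hwn Y0 hY0 hdY0)
      exact ⟨Z, hZ, hwZ, hdZ⟩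
    obtain ⟨Z, ⟨hZ, hwZ, hdZ⟩, hZmin⟩ := exists_bot (P := fun Z => PN Z ∧ w ∈ Z ∧ d - 1 ≤ df Z) hex (by
      rintro X Y ⟨hX, hwX, hdX⟩ ⟨hY, hwY, hdY⟩
      have hwi : w ∈ X ∩ Y := mem_inter.2 ⟨hwX, hwY⟩
      have hun : X ∪ Y ≠ univ := by
        intro hun
        have e1 := F1 X Y hX hY hun
        have e2 := single_le hr hwi
        omega
      have e1 := F2 X Y
      have e2 := hmax _ (hX.union hun)
      have e3 : df (X ∪ Y) ≠ d := fun e => hwn _ (hX.union hun) e (mem_union_left _ hwX)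
      have e4 : df (X ∪ Y) ≤ d := e2
      exact ⟨hX.inter ⟨w, hwi⟩, hwi, by omega⟩)
    refine ⟨Z, hZ, hwZ, hdZ, fun Y hY hdY => ?_⟩
    by_contra hne
    replace hne := nonempty_iff_ne_empty.2 hne
    have hun : Z ∪ Y ≠ univ := by
      intro hun
      have e1 := F1 Z Y hZ hY hun
      have e2 := sum_nn hr (Z ∩ Y)
      omega
    have e1 := F2 Z Y
    have e2 : df (Z ∪ Y) ≤ d := hmax _ (hZ.union hun)
    have e3 : df (Z ∪ Y) ≠ d := fun e => hwn _ (hZ.union hun) e (mem_union_left _ hwZ)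
    have e4 : df (Z ∩ Y) ≤ d := hmax _ (hZ.inter hne)
    have e5 : df (Z ∩ Y) = d := by omega
    obtain ⟨u, huY, hu⟩ := F4 (Z ∩ Y) (hZ.inter hne) (by omega)
    obtain ⟨Z', hZ', hwZ', huZ', hdZ'⟩ := hcon' u w hu hw (Z ∩ Y) (hZ.inter hne) e5 huY
      (hwn _ (hZ.inter hne) e5)
    exact huZ' (hZmin Z' ⟨hZ', hwZ', hdZ'⟩ (mem_inter.1 huY).1)
  -- the disjoint family
  obtain ⟨𝓜, hM1, hM2, hM3⟩ := maximal_family
    (P := fun Z => PN Z ∧ d - 1 ≤ df Z ∧ (df Z = d ∨ ∀ Y, PN Y → df Y = d → Z ∩ Y = ∅)) (by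
      rintro A B ⟨hA, hdA, hA'⟩ ⟨hB, hdB, hB'⟩ hne
      have hle : ∀ {Z}, PN Z → df Z ≤ d := fun {Z} hZ => hmax Z hZ
      have hAm := hle hA
      have hBm := hle hB
      rcases hA' with hA' | hA'
      · rcases hB' with hB' | hB'
        · have hun : A ∪ B ≠ univ := by
            intro hun
            have e1 := F1 A B hA hB hun
            have e2 := sum_nn hr (A ∩ B)
            omega
          have e1 := F2 A B
          have e2 := hle (hA.inter hne)
          have e3 := hle (hA.union hun)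
          exact ⟨hA.union hun, by omega, Or.inl (by omega)⟩
        · exact absurd (hB' A hA hA') (by rw [inter_comm]; exact nonempty_iff_ne_empty.1 hne)
      · rcases hB' with hB' | hB'
        · exact absurd (hA' B hB hB') (nonempty_iff_ne_empty.1 hne)
        · have hAY0 := hA' Y0 hY0 hdY0
          have hBY0 := hB' Y0 hY0 hdY0
          have hun : A ∪ B ≠ univ := by
            intro hun
            obtain ⟨y, hy⟩ := hY0.1
            have : y ∈ A ∪ B := by rw [hun]; exact mem_univ y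
            rcases mem_union.1 this with hyA | hyB
            · have : y ∈ A ∩ Y0 := mem_inter.2 ⟨hyA, hy⟩
              rw [hAY0] at this; simp at this
            · have : y ∈ B ∩ Y0 := mem_inter.2 ⟨hyB, hy⟩
              rw [hBY0] at this; simp at this
          have e1 := F2 A B
          have e2 := hle (hA.inter hne)
          have e3 : df (A ∩ B) ≠ d := by
            intro e
            have := hA' _ (hA.inter hne) e
            rw [← inter_assoc, inter_self] at this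
            exact (nonempty_iff_ne_empty.1 hne) this
          refine ⟨hA.union hun, by omega, Or.inr (fun Y hY hdY => ?_)⟩
          rw [union_inter_distrib_right, hA' Y hY hdY, hB' Y hY hdY, union_empty])
  have hcov : ∀ v, 0 < r v → ∃ M ∈ 𝓜, v ∈ M := by
    intro w hw
    by_cases hwn : ∀ Y, PN Y → df Y = d → w ∉ Y
    · obtain ⟨Z, hZ, hwZ, hdZ, hZd⟩ := hmin w hw hwn
      obtain ⟨M, hM, hZM⟩ := hM3 Z ⟨hZ, hdZ, Or.inr hZd⟩
      exact ⟨M, hM, hZM hwZ⟩
    · push Not at hwn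
      obtain ⟨Y, hY, hdY, hwY⟩ := hwn
      obtain ⟨M, hM, hYM⟩ := hM3 Y ⟨hY, by omega, Or.inl hdY⟩
      exact ⟨M, hM, hYM hwY⟩
  have e1 := sum_cover hM2 hr hcov
  -- the member containing Y0
  obtain ⟨M0, hM0, hY0M0⟩ := hM3 Y0 ⟨hY0, by simp only [hdf]; omega, Or.inl hdY0⟩
  have hM0d : df M0 = d := by
    rcases (hM1 M0 hM0).2.2 with h' | h'
    · exact h'
    · have := h' Y0 hY0 hdY0
      rw [inter_eq_right.2 hY0M0] at this
      exact absurd this (nonempty_iff_ne_empty.1 hY0.1)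
  have e2 : ∑ M ∈ 𝓜, ∑ x ∈ M, r x ≤ ∑ M ∈ 𝓜, (κ M - ∑ x ∈ Mᶜ, h x) - 1 := by
    have : ∑ M ∈ 𝓜, ∑ x ∈ M, r x = ∑ M ∈ 𝓜, (κ M - ∑ x ∈ Mᶜ, h x) - ∑ M ∈ 𝓜, df M := by
      rw [← sum_sub_distrib]
      apply sum_congr rfl
      intro M _
      simp only [hdf]; ring
    have h2 : d ≤ ∑ M ∈ 𝓜, df M := by
      rw [← hM0d]
      exact single_le_sum (f := df) (fun M hM => by have := (hM1 M hM).2.1; omega) hM0
    omega
  have htot : ∑ v, l v ≤ ∑ v, r v := by omega
  by_cases hcard : 𝓜.card = 1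
  · obtain ⟨M, hM⟩ := card_eq_one.1 hcard
    rw [hM, sum_singleton] at e1
    rw [hM, sum_singleton, sum_singleton] at e2
    have hMP : PN M := (hM1 M (by rw [hM]; exact mem_singleton_self M)).1
    have e3 := H2 M hMP
    have e4 := sum_mono hl (subset_univ Mᶜ)
    omega
  · have hcard2 : 2 ≤ 𝓜.card := by
      have : 0 < 𝓜.card := card_pos.2 ⟨M0, hM0⟩
      omega
    have e3 : ∑ M ∈ 𝓜, κ M ≤ ∑ v, s v := by
      have hs0 : ∀ v, 0 ≤ s v := fun v => by have := hg.tr v; have := ht v; have := hr v; omega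
      refine le_trans (sum_le_sum (fun M hM => H1 M (hM1 M hM).1)) (sum_family_le hM2 hs0)
    have e4 : ∑ v, h v ≤ ∑ M ∈ 𝓜, ∑ x ∈ Mᶜ, h x := by
      have h3 : ∑ M ∈ 𝓜, ∑ x ∈ Mᶜ, h x = ∑ M ∈ 𝓜, (∑ v, h v - ∑ x ∈ M, h x) := by
        apply sum_congr rfl
        intro M _
        have := sum_c h M
        omega
      rw [h3, sum_sub_distrib, sum_const, nsmul_eq_mul]
      have h4 := sum_family_le hM2 hh
      have h5 := sum_nn hh univ
      have h6 : (2 : ℤ) ≤ (𝓜.card : ℤ) := by exact_mod_cast hcard2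
      nlinarith
    rw [sum_sub_distrib] at e2
    omega

theorem exchange_level (d : ℤ) (hd : 1 ≤ d) (N : ℕ) : ∀ (t r : V → ℤ), Good κ h l s t r →
    (∀ Y, PN Y → κ Y - ∑ x ∈ Yᶜ, h x - ∑ x ∈ Y, r x ≤ d) →
    (univ.filter (fun Y : Finset V => (Y.Nonempty ∧ Y ≠ univ) ∧
      κ Y - ∑ x ∈ Yᶜ, h x - ∑ x ∈ Y, r x = d)).card = N →
    ∃ t' r', Good κ h l s t' r' ∧ (∀ Y, PN Y → κ Y - ∑ x ∈ Yᶜ, h x - ∑ x ∈ Y, r' x ≤ d - 1) := by
  induction N using Nat.strong_induction_on with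
  | _ N ih =>
    intro t r hg hmax hN
    by_cases hex : ∃ Y, PN Y ∧ κ Y - ∑ x ∈ Yᶜ, h x - ∑ x ∈ Y, r x = d
    · obtain ⟨Y0, hY0, hdY0⟩ := hex
      obtain ⟨u, w, hu, hw, hii, hnew, Y1, hY1, hdY1, huY1, hwY1⟩ :=
        exchange_step κ h l s hκ hh hl H1 H2 hbal t r hg d hd hmax Y0 hY0 hdY0
      have huw : u ≠ w := fun e => hwY1 (e ▸ huY1)
      have hst : ∀ X : Finset V, ∑ x ∈ X, (t x - (if x = u then 1 else 0) + (if x = w then 1 else 0)) =
          ∑ x ∈ X, t x - (if u ∈ X then 1 else 0) + (if w ∈ X then 1 else 0) := by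
        intro X
        rw [sum_add_distrib, sum_sub_distrib, sum_ite_eq', sum_ite_eq']
      have hsr : ∀ X : Finset V, ∑ x ∈ X, (r x + (if x = u then 1 else 0) - (if x = w then 1 else 0)) =
          ∑ x ∈ X, r x + (if u ∈ X then 1 else 0) - (if w ∈ X then 1 else 0) := by
        intro X
        rw [sum_sub_distrib, sum_add_distrib, sum_ite_eq', sum_ite_eq']
      have hg' : Good κ h l s (fun x => t x - (if x = u then 1 else 0) + (if x = w then 1 else 0))
          (fun x => r x + (if x = u then 1 else 0) - (if x = w then 1 else 0)) := by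
        refine ⟨?_, ?_, ?_, ?_, ?_⟩
        · intro x
          show 0 ≤ t x - (if x = u then 1 else 0) + (if x = w then 1 else 0)
          have := hg.t0 x
          by_cases hx : x = u
          · subst hx
            split_ifs <;> omega
          · simp only [hx, if_false]
            split_ifs <;> omega
        · intro x
          show 0 ≤ r x + (if x = u then 1 else 0) - (if x = w then 1 else 0)
          have := hg.r0 x
          by_cases hx : x = w
          · subst hx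
            split_ifs <;> omega
          · simp only [hx, if_false]
            split_ifs <;> omega
        · intro x
          have := hg.tr x
          show t x - (if x = u then 1 else 0) + (if x = w then 1 else 0) +
            (r x + (if x = u then 1 else 0) - (if x = w then 1 else 0)) = s x
          omega
        · rw [hst]
          have := hg.tm
          simp only [mem_univ, if_true]
          omega
        · intro Y hY
          rw [hst]
          have a1 := hg.ii Y hY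
          by_cases a : u ∈ Y <;> by_cases b : w ∈ Y <;> simp only [a, b, if_true, if_false]
          · omega
          · have : κ Y ≠ ∑ x ∈ Y, t x + ∑ x ∈ Yᶜ, l x := fun e => b (hii Y hY e a)
            omega
          · omega
          · omega
      have hmax' : ∀ Y, PN Y → κ Y - ∑ x ∈ Yᶜ, h x -
          ∑ x ∈ Y, (r x + (if x = u then 1 else 0) - (if x = w then 1 else 0)) ≤ d := by
        intro Y hY
        rw [hsr]
        have a1 := hmax Y hY
        have a2 := hnew Y hY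
        by_cases a : u ∈ Y <;> by_cases b : w ∈ Y <;> simp only [a, b, if_true, if_false] <;>
          simp only [a, b, not_true, not_false_iff, true_implies, false_implies] at a2 <;> omega
      refine ih _ ?_ _ _ hg' hmax' rfl
      rw [← hN]
      apply card_lt_card
      rw [ssubset_iff_of_subset]
      · refine ⟨Y1, ?_, ?_⟩
        · simp only [mem_filter, mem_univ, true_and]
          exact ⟨hY1, hdY1⟩
        · simp only [mem_filter, mem_univ, true_and, not_and]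
          intro _
          rw [hsr]
          simp only [huY1, hwY1, if_true, if_false]
          omega
      · intro Z hZ
        simp only [mem_filter, mem_univ, true_and] at hZ ⊢
        refine ⟨hZ.1, ?_⟩
        have h1 := hZ.2
        rw [hsr] at h1
        have a1 := hmax Z hZ.1
        have a2 := hnew Z hZ.1
        by_cases a : u ∈ Z <;> by_cases b : w ∈ Z <;> simp only [a, b, if_true, if_false] at h1 <;>
          simp only [a, b, not_true, not_false_iff, true_implies, false_implies] at a2 <;> omega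
    · refine ⟨t, r, hg, fun Y hY => ?_⟩
      have h1 := hmax Y hY
      have h2 : κ Y - ∑ x ∈ Yᶜ, h x - ∑ x ∈ Y, r x ≠ d := fun e => hex ⟨Y, hY, e⟩
      omega

theorem exchange_final (d : ℕ) : ∀ (t r : V → ℤ), Good κ h l s t r →
    (∀ Y, PN Y → κ Y - ∑ x ∈ Yᶜ, h x - ∑ x ∈ Y, r x ≤ d) →
    ∃ t' r', Good κ h l s t' r' ∧ (∀ Y, PN Y → κ Y - ∑ x ∈ Yᶜ, h x - ∑ x ∈ Y, r' x ≤ 0) := by
  induction d with
  | zero =>
    intro t r hg hmax
    exact ⟨t, r, hg, by simpa using hmax⟩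
  | succ d ih =>
    intro t r hg hmax
    obtain ⟨t', r', hg', hmax'⟩ := exchange_level κ h l s hκ hh hl H1 H2 hbal ((d + 1 : ℕ) : ℤ)
      (by push_cast; omega) _ t r hg hmax rfl
    exact ih t' r' hg' (fun Y hY => by have := hmax' Y hY; push_cast at this; omega)

end exchange

end Pool.Agent.H62.Split
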