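import Pool.Agent.H62.Split2

/-!
Choosing the heads: uncrossing of families of disjoint sets.
-/

set_option linter.unusedSectionVars false
set_option linter.unusedVariables false

namespace Pool.Agent.H62.Split

open Finset

variable {V : Type*} [Fintype V] [DecidableEq V]

/-- family of pairwise disjoint nonempty sets -/
def DF (𝓟 : Finset (Finset V)) : Prop :=
  (∀ P ∈ 𝓟, P.Nonempty) ∧ ∀ P ∈ 𝓟, ∀ Q ∈ 𝓟, P ≠ Q → Disjoint P Q

lemma DF.subset {𝓟 𝓠 : Finset (Finset V)} (h : DF 𝓟) (hs : 𝓠 ⊆ 𝓟) : DF 𝓠 :=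
  ⟨fun P hP => h.1 P (hs hP), fun P hP Q hQ => h.2 P (hs hP) Q (hs hQ)⟩

lemma DF.empty : DF (∅ : Finset (Finset V)) := ⟨by simp, by simp⟩

/-- the uncrossing inequality -/
def UC (A : Finset V → ℤ) : Prop :=
  ∀ X Y : Finset V, (X ∩ Y).Nonempty → A X + A Y ≤ A (X ∪ Y) + max (A (X ∩ Y)) 0

lemma merge {A : Finset V → ℤ} (hA : UC A) (P : Finset V) (𝓢 : Finset (Finset V)) :
    DF 𝓢 → (∀ Q ∈ 𝓢, (P ∩ Q).Nonempty) →
    A P + ∑ Q ∈ 𝓢, A Q ≤ A (P ∪ 𝓢.biUnion id) + ∑ Q ∈ 𝓢, max (A (P ∩ Q)) 0 := by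
  induction 𝓢 using Finset.induction_on with
  | empty => intro _ _; simp
  | insert Q 𝓢 hQ ih =>
    intro hdf hne
    have ih' := ih (hdf.subset (subset_insert _ _)) (fun R hR => hne R (mem_insert_of_mem hR))
    have hdis : (P ∪ 𝓢.biUnion id) ∩ Q = P ∩ Q := by
      rw [union_inter_distrib_right]
      have : 𝓢.biUnion id ∩ Q = ∅ := by
        rw [eq_empty_iff_forall_notMem]
        intro x hx
        rw [mem_inter, mem_biUnion] at hx
        obtain ⟨⟨R, hR, hxR⟩, hxQ⟩ := hx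
        have hRQ : R ≠ Q := fun e => hQ (e ▸ hR)
        exact (disjoint_left.1 (hdf.2 R (mem_insert_of_mem hR) Q (mem_insert_self _ _) hRQ)) hxR hxQ
      rw [this, union_empty]
    have e1 := hA (P ∪ 𝓢.biUnion id) Q (by rw [hdis]; exact hne Q (mem_insert_self _ _))
    rw [hdis] at e1
    rw [sum_insert hQ, sum_insert hQ, biUnion_insert]
    have e2 : P ∪ (id Q ∪ 𝓢.biUnion id) = (P ∪ 𝓢.biUnion id) ∪ Q := by
      simp only [id]
      rw [union_comm Q, union_assoc]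
    rw [e2]
    omega

lemma uncross1 {A : Finset V → ℤ} (hA : UC A) (𝓠 : Finset (Finset V)) (hQ : DF 𝓠)
    (P : Finset V) (hP : P.Nonempty) :
    ∃ 𝓠' 𝓡' : Finset (Finset V), DF 𝓠' ∧ DF 𝓡' ∧ 𝓠'.biUnion id = P ∪ 𝓠.biUnion id ∧
      𝓡'.biUnion id ⊆ P ∩ 𝓠.biUnion id ∧
      ∑ Q ∈ 𝓠, A Q + A P ≤ ∑ Q ∈ 𝓠', A Q + ∑ Q ∈ 𝓡', A Q := by
  classical
  set 𝓘 := 𝓠.filter (fun Q => (P ∩ Q).Nonempty) with h𝓘
  set 𝓝 := 𝓠.filter (fun Q => ¬ (P ∩ Q).Nonempty) with h𝓝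
  set 𝓙 := 𝓘.filter (fun Q => 0 < A (P ∩ Q)) with h𝓙
  have hI : DF 𝓘 := hQ.subset (filter_subset _ _)
  have hNs : 𝓝 ⊆ 𝓠 := filter_subset _ _
  have hJI : 𝓙 ⊆ 𝓘 := filter_subset _ _
  have hIQ : 𝓘 ⊆ 𝓠 := filter_subset _ _
  set U := P ∪ 𝓘.biUnion id with hU
  have hdUN : ∀ Q ∈ 𝓝, Disjoint U Q := by
    intro Q hQN
    rw [disjoint_left]
    intro x hxU hxQ
    rw [hU, mem_union, mem_biUnion] at hxU
    rcases hxU with hxP | ⟨R, hR, hxR⟩
    · exact (mem_filter.1 hQN).2 ⟨x, mem_inter.2 ⟨hxP, hxQ⟩⟩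
    · have hRQ : R ≠ Q := by
        intro e
        exact (mem_filter.1 hQN).2 (e ▸ (mem_filter.1 hR).2)
      exact disjoint_left.1 (hQ.2 R (hIQ hR) Q (hNs hQN) hRQ) hxR hxQ
  have hUne : U.Nonempty := hP.mono subset_union_left
  have hUN : U ∉ 𝓝 := by
    intro hUN
    have := hdUN U hUN
    rw [disjoint_self] at this
    exact (nonempty_iff_ne_empty.1 hUne) this
  have hinj : ∀ Q ∈ 𝓙, ∀ Q' ∈ 𝓙, P ∩ Q = P ∩ Q' → Q = Q' := by
    intro Q hQJ Q' hQJ' e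
    by_contra hne
    obtain ⟨x, hx⟩ := (mem_filter.1 (hJI hQJ)).2
    have hx' := hx
    rw [e] at hx'
    exact disjoint_left.1 (hQ.2 Q (hIQ (hJI hQJ)) Q' (hIQ (hJI hQJ')) hne)
      (mem_inter.1 hx).2 (mem_inter.1 hx').2
  refine ⟨insert U 𝓝, 𝓙.image (fun Q => P ∩ Q), ?_, ?_, ?_, ?_, ?_⟩
  · constructor
    · intro Q hQ'
      rcases mem_insert.1 hQ' with rfl | hQ'
      · exact hUne
      · exact hQ.1 Q (hNs hQ')
    · intro Q hQ' R hR' hne
      rcases mem_insert.1 hQ' with rfl | hQ'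
      · rcases mem_insert.1 hR' with rfl | hR'
        · exact absurd rfl hne
        · exact hdUN R hR'
      · rcases mem_insert.1 hR' with rfl | hR'
        · exact (hdUN Q hQ').symm
        · exact hQ.2 Q (hNs hQ') R (hNs hR') hne
  · constructor
    · intro R hR
      obtain ⟨Q, hQJ, rfl⟩ := mem_image.1 hR
      exact (mem_filter.1 (hJI hQJ)).2
    · intro R hR R' hR' hne
      obtain ⟨Q, hQJ, rfl⟩ := mem_image.1 hR
      obtain ⟨Q', hQJ', rfl⟩ := mem_image.1 hR'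
      have hQQ : Q ≠ Q' := fun e => hne (by rw [e])
      exact (hQ.2 Q (hIQ (hJI hQJ)) Q' (hIQ (hJI hQJ')) hQQ).mono inter_subset_right inter_subset_right
  · rw [biUnion_insert]
    ext x
    simp only [mem_union, mem_biUnion, id, hU]
    constructor
    · rintro ((hx | ⟨R, hR, hx⟩) | ⟨R, hR, hx⟩)
      · exact Or.inl hx
      · exact Or.inr ⟨R, hIQ hR, hx⟩
      · exact Or.inr ⟨R, hNs hR, hx⟩
    · rintro (hx | ⟨R, hR, hx⟩)
      · exact Or.inl (Or.inl hx)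
      · by_cases hRP : (P ∩ R).Nonempty
        · exact Or.inl (Or.inr ⟨R, mem_filter.2 ⟨hR, hRP⟩, hx⟩)
        · exact Or.inr ⟨R, mem_filter.2 ⟨hR, hRP⟩, hx⟩
  · intro x hx
    obtain ⟨R, hR, hxR⟩ := mem_biUnion.1 hx
    obtain ⟨Q, hQJ, rfl⟩ := mem_image.1 hR
    simp only [id] at hxR
    exact mem_inter.2 ⟨(mem_inter.1 hxR).1, mem_biUnion.2 ⟨Q, hIQ (hJI hQJ), (mem_inter.1 hxR).2⟩⟩
  · rw [sum_insert hUN, sum_image hinj]
    have e1 := merge hA P 𝓘 hI (fun Q hQ' => (mem_filter.1 hQ').2)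
    have e2 : ∑ Q ∈ 𝓘, max (A (P ∩ Q)) 0 = ∑ Q ∈ 𝓙, A (P ∩ Q) := by
      have e := sum_filter (s := 𝓘) (fun Q => 0 < A (P ∩ Q)) (fun Q => A (P ∩ Q))
      rw [h𝓙, e]
      apply sum_congr rfl
      intro Q _
      split_ifs with h
      · exact max_eq_left h.le
      · exact max_eq_right (not_lt.1 h)
    have e3 : ∑ Q ∈ 𝓠, A Q = ∑ Q ∈ 𝓘, A Q + ∑ Q ∈ 𝓝, A Q :=
      (sum_filter_add_sum_filter_not 𝓠 _ _).symm
    rw [← hU] at e1
    omega

lemma uncross2 {A : Finset V → ℤ} (hA : UC A) (𝓟 : Finset (Finset V)) (hP : DF 𝓟)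
    (𝓟' : Finset (Finset V)) : DF 𝓟' →
    ∃ 𝓠 𝓡 : Finset (Finset V), DF 𝓠 ∧ DF 𝓡 ∧ 𝓠.biUnion id = 𝓟.biUnion id ∪ 𝓟'.biUnion id ∧
      𝓡.biUnion id ⊆ 𝓟.biUnion id ∩ 𝓟'.biUnion id ∧
      ∑ Q ∈ 𝓟, A Q + ∑ Q ∈ 𝓟', A Q ≤ ∑ Q ∈ 𝓠, A Q + ∑ Q ∈ 𝓡, A Q := by
  induction 𝓟' using Finset.induction_on with
  | empty =>
    intro _
    exact ⟨𝓟, ∅, hP, DF.empty, by simp, by simp, by simp⟩
  | insert P 𝓟' hPn ih =>
    intro hdf
    obtain ⟨𝓠, 𝓡, hQ, hR, hQu, hRu, hle⟩ := ih (hdf.subset (subset_insert _ _))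
    obtain ⟨𝓠', 𝓡', hQ', hR', hQu', hRu', hle'⟩ := uncross1 hA 𝓠 hQ P (hdf.1 P (mem_insert_self _ _))
    have hPdis : Disjoint P (𝓟'.biUnion id) := by
      rw [disjoint_left]
      intro x hx hx'
      obtain ⟨R, hR, hxR⟩ := mem_biUnion.1 hx'
      have hPR : P ≠ R := fun e => hPn (e ▸ hR)
      exact disjoint_left.1 (hdf.2 P (mem_insert_self _ _) R (mem_insert_of_mem hR) hPR) hx hxR
    have hdd : Disjoint (𝓡.biUnion id) (𝓡'.biUnion id) := by
      rw [disjoint_left]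
      intro x hx hx'
      have h1 := (mem_inter.1 (hRu hx)).2
      have h2 := (mem_inter.1 (hRu' hx')).1
      exact disjoint_left.1 hPdis h2 h1
    have hcross : ∀ R ∈ 𝓡, ∀ R' ∈ 𝓡', Disjoint R R' := by
      intro R hRm R' hRm'
      exact hdd.mono (fun x hx => mem_biUnion.2 ⟨R, hRm, hx⟩) (fun x hx => mem_biUnion.2 ⟨R', hRm', hx⟩)
    have hRR : Disjoint 𝓡 𝓡' := by
      rw [disjoint_left]
      intro R h1 h2
      have := hcross R h1 R h2
      rw [disjoint_self] at this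
      exact (nonempty_iff_ne_empty.1 (hR.1 R h1)) this
    refine ⟨𝓠', 𝓡 ∪ 𝓡', hQ', ?_, ?_, ?_, ?_⟩
    · constructor
      · intro R hRm
        rcases mem_union.1 hRm with h | h
        · exact hR.1 R h
        · exact hR'.1 R h
      · intro R hRm S hSm hne
        rcases mem_union.1 hRm with h | h <;> rcases mem_union.1 hSm with h' | h'
        · exact hR.2 R h S h' hne
        · exact hcross R h S h'
        · exact (hcross S h' R h).symm
        · exact hR'.2 R h S h' hne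
    · rw [hQu', hQu, biUnion_insert]
      simp only [id]
      ext x
      simp only [mem_union]
      tauto
    · rw [union_biUnion, biUnion_insert]
      intro x hx
      rw [mem_union] at hx
      simp only [id, mem_inter, mem_union]
      rcases hx with hx | hx
      · have := mem_inter.1 (hRu hx)
        exact ⟨this.1, Or.inr this.2⟩
      · have h1 := mem_inter.1 (hRu' hx)
        have h2 := h1.2
        rw [hQu, mem_union] at h2
        rcases h2 with h2 | h2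
        · exact ⟨h2, Or.inl h1.1⟩
        · exact absurd h2 (disjoint_left.1 hPdis h1.1)
    · rw [sum_insert hPn, sum_union hRR]
      omega

theorem greedy_h (A : Finset V → ℤ) (hA : UC A) (m : ℤ) (hm : 0 ≤ m)
    (hC : ∀ 𝓟, DF 𝓟 → ∑ P ∈ 𝓟, A P ≤ 2 * m) (n : ℕ) :
    ∀ h0 : V → ℤ, (∀ v, 0 ≤ h0 v) → ∑ v, h0 v = m + n →
      (∀ 𝓟, DF 𝓟 → ∑ P ∈ 𝓟, A P ≤ ∑ v ∈ 𝓟.biUnion id, h0 v + m) →
      ∃ h : V → ℤ, (∀ v, 0 ≤ h v ∧ h v ≤ h0 v) ∧ ∑ v, h v = m ∧
        (∀ 𝓟, DF 𝓟 → ∑ P ∈ 𝓟, A P ≤ ∑ v ∈ 𝓟.biUnion id, h v + m) := by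
  induction n with
  | zero =>
    intro h0 h0n hs hf
    exact ⟨h0, fun v => ⟨h0n v, le_refl _⟩, by simpa using hs, hf⟩
  | succ n ih =>
    intro h0 h0n hs hf
    have key : ∃ v, 0 < h0 v ∧ ∀ 𝓟, DF 𝓟 → v ∈ 𝓟.biUnion id →
        ∑ P ∈ 𝓟, A P < ∑ v ∈ 𝓟.biUnion id, h0 v + m := by
      by_contra hcon
      push Not at hcon
      have hpos : 0 < ∑ v, h0 v := by rw [hs]; push_cast; omega
      obtain ⟨v0, -, hv0⟩ := exists_pos h0n (X := univ) hpos
      have hT : ∀ v, 0 < h0 v → ∃ X, v ∈ X ∧ ∃ 𝓟, DF 𝓟 ∧ 𝓟.biUnion id = X ∧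
          ∑ P ∈ 𝓟, A P = ∑ v ∈ X, h0 v + m := by
        intro v hv
        obtain ⟨𝓟, hP, hvP, hle⟩ := hcon v hv
        exact ⟨_, hvP, 𝓟, hP, rfl, le_antisymm (hf 𝓟 hP) hle⟩
      obtain ⟨M, ⟨𝓟, hP, hPM, hPt⟩, hMtop⟩ := exists_top
        (P := fun X => ∃ 𝓟, DF 𝓟 ∧ 𝓟.biUnion id = X ∧ ∑ P ∈ 𝓟, A P = ∑ v ∈ X, h0 v + m)
        (by obtain ⟨X, -, hX⟩ := hT v0 hv0; exact ⟨X, hX⟩) (by
          rintro X Y ⟨𝓟, hP, hPX, hPt⟩ ⟨𝓟', hP', hPY, hPt'⟩
          obtain ⟨𝓠, 𝓡, hQ, hR, hQu, hRu, hle⟩ := uncross2 hA 𝓟 hP 𝓟' hP'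
          rw [hPX, hPY] at hQu hRu
          have e1 := hf 𝓠 hQ
          have e2 := hf 𝓡 hR
          have e3 := sum_mono h0n hRu
          have e4 := sum_ui h0 X Y
          rw [hQu] at e1
          exact ⟨𝓠, hQ, hQu, by omega⟩)
      have hsum : ∑ v ∈ M, h0 v = ∑ v, h0 v := by
        apply sum_subset (subset_univ _)
        intro x _ hx
        by_contra hne
        obtain ⟨X, hxX, hX⟩ := hT x (lt_of_le_of_ne (h0n x) (Ne.symm hne))
        exact hx (hMtop X hX hxX)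
      have := hC 𝓟 hP
      rw [hs] at hsum
      push_cast at hsum
      omega
    obtain ⟨v, hv, hvP⟩ := key
    have hsum : ∀ X : Finset V, ∑ x ∈ X, (h0 x - if x = v then 1 else 0) =
        ∑ x ∈ X, h0 x - if v ∈ X then 1 else 0 := by
      intro X
      rw [sum_sub_distrib, sum_ite_eq']
    obtain ⟨h, hh1, hh2, hh3⟩ := ih (fun x => h0 x - if x = v then 1 else 0)
      (by intro x
          show 0 ≤ h0 x - if x = v then 1 else 0
          have := h0n x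
          split_ifs with hx
          · subst hx; omega
          · omega)
      (by rw [hsum]; simp only [mem_univ, if_true]; push_cast at hs; omega)
      (by
        intro 𝓟 hP
        rw [hsum]
        have a1 := hf 𝓟 hP
        by_cases a : v ∈ 𝓟.biUnion id
        · have := hvP 𝓟 hP a
          simp only [a, if_true]; omega
        · simp only [a, if_false]; omega)
    refine ⟨h, fun x => ⟨(hh1 x).1, ?_⟩, hh2, hh3⟩
    have := (hh1 x).2
    have h' : h x ≤ h0 x - if x = v then 1 else 0 := this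
    split_ifs at h' <;> omega

/-- Sufficiency, in terms of set functions. -/
theorem main_suff (κ : Finset V → ℤ) (inn out : V → ℤ)
    (hκ : ∀ X Y : Finset V, κ X + κ Y ≤ κ (X ∩ Y) + κ (X ∪ Y))
    (hinn : ∀ v, 0 ≤ inn v) (hout : ∀ v, 0 ≤ out v)
    (H1 : ∀ Y, PN Y → κ Y ≤ ∑ x ∈ Y, inn x)
    (H2 : ∀ Y, PN Y → κ Y ≤ ∑ x ∈ Yᶜ, out x)
    (hbal : ∑ v, out v ≤ ∑ v, inn v) (m : ℤ) (hm : 0 ≤ m) (hmo : m ≤ ∑ v, out v)
    (hC : ∀ 𝓟 : Finset (Finset V), (∀ P ∈ 𝓟, PN P) →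
      (∀ P ∈ 𝓟, ∀ Q ∈ 𝓟, P ≠ Q → Disjoint P Q) → 2 ≤ 𝓟.card →
      ((𝓟.card : ℤ) - 2) * m + max 0 (m - ∑ v ∈ 𝓟.biUnion id, out v) ≤
        ∑ P ∈ 𝓟, (∑ x ∈ Pᶜ, out x - κ P)) :
    ∃ F : V → V → ℤ, (∀ u v, 0 ≤ F u v) ∧ (∀ v, ∑ u, F u v ≤ out v) ∧
      (∀ u, ∑ v, F u v ≤ inn u) ∧ ∑ u, ∑ v, F u v = m ∧
      ∀ X, PN X → (∑ u ∈ X, ∑ v ∈ X, F u v ≤ ∑ x ∈ X, out x - κ Xᶜ) ∧
        (∑ u ∈ X, ∑ v ∈ X, F u v ≤ ∑ x ∈ X, inn x - κ X) := by
  classical
  set A : Finset V → ℤ := fun P => if P = univ then 2 * m else m + κ P - ∑ x ∈ Pᶜ, out x with hAdef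
  have hAu : A univ = 2 * m := by simp [hAdef]
  have hAp : ∀ P, P ≠ univ → A P = m + κ P - ∑ x ∈ Pᶜ, out x := by
    intro P hP; simp [hAdef, hP]
  have hAm : ∀ P, PN P → A P ≤ m := by
    intro P hP
    rw [hAp P hP.2]
    have := H2 P hP
    omega
  have hUC : UC A := by
    intro X Y hne
    by_cases hX : X = univ
    · subst hX
      rw [show univ ∪ Y = univ by ext; simp, univ_inter]
      have := le_max_left (A Y) 0
      omega
    by_cases hY : Y = univ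
    · subst hY
      rw [show X ∪ univ = univ by ext; simp, inter_univ]
      have := le_max_left (A X) 0
      omega
    have hXP : PN X := ⟨hne.mono inter_subset_left, hX⟩
    have hYP : PN Y := ⟨hne.mono inter_subset_right, hY⟩
    by_cases hun : X ∪ Y = univ
    · rw [hun, hAu]
      have e1 := hAm X hXP
      have e2 := hAm Y hYP
      have e3 := le_max_right (A (X ∩ Y)) 0
      omega
    · rw [hAp X hX, hAp Y hY, hAp _ hun]
      have e3 : m + κ (X ∩ Y) - ∑ x ∈ (X ∩ Y)ᶜ, out x ≤ max (A (X ∩ Y)) 0 := by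
        rw [← hAp _ (hXP.inter hne).2]
        exact le_max_left _ _
      have e4 := hκ X Y
      have e5 := sum_ui out Xᶜ Yᶜ
      rw [← compl_inter, ← compl_union] at e5
      omega
  -- the family condition for PN families
  have hfam : ∀ 𝓟 : Finset (Finset V), (∀ P ∈ 𝓟, PN P) →
      (∀ P ∈ 𝓟, ∀ Q ∈ 𝓟, P ≠ Q → Disjoint P Q) →
      ∑ P ∈ 𝓟, A P ≤ m + min m (∑ v ∈ 𝓟.biUnion id, out v) := by
    intro 𝓟 hP hd
    have hon := sum_nn hout (𝓟.biUnion id)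
    by_cases h2 : 2 ≤ 𝓟.card
    · have e1 := hC 𝓟 hP hd h2
      have e2 : ∑ P ∈ 𝓟, A P = (𝓟.card : ℤ) * m - ∑ P ∈ 𝓟, (∑ x ∈ Pᶜ, out x - κ P) := by
        rw [← nsmul_eq_mul, ← sum_const, ← sum_sub_distrib]
        apply sum_congr rfl
        intro P hP'
        rw [hAp P (hP P hP').2]
        ring
      rw [e2]
      have e3 : ((𝓟.card : ℤ) - 2) * m = (𝓟.card : ℤ) * m - 2 * m := by ring
      rw [e3] at e1
      rcases le_total m (∑ v ∈ 𝓟.biUnion id, out v) with h | h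
      · rw [min_eq_left h]
        have := le_max_left 0 (m - ∑ v ∈ 𝓟.biUnion id, out v)
        omega
      · rw [min_eq_right h]
        have := le_max_right 0 (m - ∑ v ∈ 𝓟.biUnion id, out v)
        omega
    · by_cases h0 : 𝓟.card = 0
      · rw [card_eq_zero] at h0
        subst h0
        simp [hm]
      · have h1 : 𝓟.card = 1 := by omega
        obtain ⟨P, rfl⟩ := card_eq_one.1 h1
        rw [sum_singleton]
        have := hAm P (hP P (mem_singleton_self P))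
        have := le_min hm hon
        omega
  have hDF : ∀ 𝓟 : Finset (Finset V), DF 𝓟 → 𝓟 = {univ} ∨ ∀ P ∈ 𝓟, PN P := by
    intro 𝓟 hP
    by_cases hu : univ ∈ 𝓟
    · left
      ext Q
      rw [mem_singleton]
      constructor
      · intro hQ
        by_contra hne
        have := hP.2 Q hQ univ hu hne
        obtain ⟨x, hx⟩ := hP.1 Q hQ
        exact disjoint_left.1 this hx (mem_univ x)
      · rintro rfl; exact hu
    · right
      exact fun P hP' => ⟨hP.1 P hP', fun e => hu (e ▸ hP')⟩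
  obtain ⟨h, hh1, hh2, hh3⟩ := greedy_h A hUC m hm (by
      intro 𝓟 hP
      rcases hDF 𝓟 hP with rfl | hPN
      · rw [sum_singleton, hAu]
      · have e1 := hfam 𝓟 hPN hP.2
        have e2 := min_le_left m (∑ v ∈ 𝓟.biUnion id, out v)
        omega) (∑ v, out v - m).toNat out hout (by omega) (by
      intro 𝓟 hP
      rcases hDF 𝓟 hP with rfl | hPN
      · rw [sum_singleton, hAu, singleton_biUnion]
        simp only [id]
        omega
      · have e1 := hfam 𝓟 hPN hP.2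
        have e2 := min_le_right m (∑ v ∈ 𝓟.biUnion id, out v)
        omega)
  set l : V → ℤ := fun v => out v - h v with hl
  have hhn : ∀ v, 0 ≤ h v := fun v => (hh1 v).1
  have hln : ∀ v, 0 ≤ l v := fun v => by have := (hh1 v).2; simp only [hl]; omega
  have hlo : ∀ X : Finset V, ∑ x ∈ X, h x + ∑ x ∈ X, l x = ∑ x ∈ X, out x := by
    intro X
    rw [← sum_add_distrib]
    exact sum_congr rfl (fun x _ => by simp only [hl]; ring)
  have H2' : ∀ Y, PN Y → κ Y ≤ ∑ x ∈ Yᶜ, h x + ∑ x ∈ Yᶜ, l x := by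
    intro Y hY
    rw [hlo]
    exact H2 Y hY
  have hbal' : ∑ v, h v + ∑ v, l v ≤ ∑ v, inn v := by rw [hlo]; exact hbal
  obtain ⟨t, ht1, ht2, ht3⟩ := greedy_t κ h l hκ hhn hln H2' (by
      intro 𝓟 hP hd
      have e1 := hh3 𝓟 ⟨fun P hP' => (hP P hP').1, hd⟩
      rw [hh2]
      have e2 : ∑ P ∈ 𝓟, (κ P - ∑ x ∈ Pᶜ, l x) = ∑ P ∈ 𝓟, A P - ∑ P ∈ 𝓟, ∑ x ∈ P, h x := by
        rw [← sum_sub_distrib]
        apply sum_congr rfl
        intro P hP'
        rw [hAp P (hP P hP').2]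
        have e3 := hlo Pᶜ
        have e4 := sum_c h P
        omega
      rw [e2, ← sum_family hd]
      omega) (∑ v, inn v - m).toNat inn hinn (by omega) (by
      intro Y hY
      have := H1 Y hY
      have := sum_nn hln Yᶜ
      omega)
  have hg0 : Good κ h l inn t (fun v => inn v - t v) :=
    ⟨fun v => (ht1 v).1, fun v => by have := (ht1 v).2; show 0 ≤ inn v - t v; omega,
      fun v => by ring, ht2, ht3⟩
  obtain ⟨t', r', hg, hi⟩ := exchange_final κ h l inn hκ hhn hln H1 H2' hbal'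
    (∑ v, inn v).toNat t (fun v => inn v - t v) hg0 (by
      intro Y hY
      have e1 := H1 Y hY
      have e2 := sum_nn hhn Yᶜ
      have e3 := sum_nn hg0.r0 Y
      have e4 := sum_mono hinn (subset_univ Y)
      omega)
  -- apply Frank
  have hts : ∀ X : Finset V, ∑ x ∈ X, t' x + ∑ x ∈ X, r' x = ∑ x ∈ X, inn x := by
    intro X
    rw [← sum_add_distrib]
    exact sum_congr rfl (fun x _ => hg.tr x)
  obtain ⟨F, hF0, hF1, hF2, hF3⟩ := frank m.toNat h t'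
    (fun X => κ Xᶜ - min (∑ x ∈ X, l x) (∑ x ∈ Xᶜ, r' x)) hhn hg.t0 (by omega)
    (by rw [hg.tm]; omega) (by
      intro X Y hne hun
      have e1 := hκ Xᶜ Yᶜ
      rw [← compl_union, ← compl_inter] at e1
      have e2 := sum_ui l X Y
      have e3 := sum_ui r' Xᶜ Yᶜ
      rw [← compl_union, ← compl_inter] at e3
      have m1 := sum_mono hln (inter_subset_left : X ∩ Y ⊆ X)
      have m2 := sum_mono hln (inter_subset_right : X ∩ Y ⊆ Y)
      have m3 := sum_mono hg.r0 (compl_subset_compl.2 (subset_union_left : X ⊆ X ∪ Y))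
      have m4 := sum_mono hg.r0 (compl_subset_compl.2 (subset_union_right : Y ⊆ X ∪ Y))
      simp only [min_def]
      split_ifs <;> omega) (by
      intro X hX
      have hXc : PN Xᶜ := ⟨by
        rw [nonempty_iff_ne_empty]; intro e; rw [compl_eq_empty_iff] at e; exact hX.2 e, by
        intro e; rw [compl_eq_univ_iff] at e; exact (nonempty_iff_ne_empty.1 hX.1) e⟩
      have e1 := H2' Xᶜ hXc
      have e2 := hi Xᶜ hXc
      rw [compl_compl] at e1 e2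
      show κ Xᶜ - min (∑ x ∈ X, l x) (∑ x ∈ Xᶜ, r' x) ≤ ∑ v ∈ X, h v
      simp only [min_def]
      split_ifs <;> omega) (by
      intro X hX
      have hXc : PN Xᶜ := ⟨by
        rw [nonempty_iff_ne_empty]; intro e; rw [compl_eq_empty_iff] at e; exact hX.2 e, by
        intro e; rw [compl_eq_univ_iff] at e; exact (nonempty_iff_ne_empty.1 hX.1) e⟩
      have e1 := H1 Xᶜ hXc
      have e2 := hg.ii Xᶜ hXc
      have e3 := hts Xᶜ
      rw [compl_compl] at e2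
      show κ Xᶜ - min (∑ x ∈ X, l x) (∑ x ∈ Xᶜ, r' x) ≤ ∑ v ∈ Xᶜ, t' v
      simp only [min_def]
      split_ifs <;> omega)
  refine ⟨F, hF0, fun v => by rw [hF1]; exact (hh1 v).2, fun u => ?_, ?_, ?_⟩
  · rw [hF2]
    have := hg.tr u
    have := hg.r0 u
    omega
  · rw [sum_congr rfl (fun u _ => hF2 u), hg.tm, hh2]
  · intro X hX
    have hXc : PN Xᶜ := ⟨by
        rw [nonempty_iff_ne_empty]; intro e; rw [compl_eq_empty_iff] at e; exact hX.2 e, by
        intro e; rw [compl_eq_univ_iff] at e; exact (nonempty_iff_ne_empty.1 hX.1) e⟩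
    constructor
    · have e1 : κ Xᶜ - min (∑ x ∈ X, l x) (∑ x ∈ Xᶜ, r' x) ≤ _ := hF3 X hX
      have e2 : ∑ u ∈ X, ∑ v ∈ X, F u v + ∑ u ∈ Xᶜ, ∑ v ∈ X, F u v = ∑ v ∈ X, h v := by
        rw [sum_add_sum_compl, sum_comm]
        exact sum_congr rfl (fun v _ => hF1 v)
      have e3 := hlo X
      have e4 := min_le_left (∑ x ∈ X, l x) (∑ x ∈ Xᶜ, r' x)
      omega
    · have e1 : κ Xᶜᶜ - min (∑ x ∈ Xᶜ, l x) (∑ x ∈ Xᶜᶜ, r' x) ≤ _ := hF3 Xᶜ hXc
      rw [compl_compl] at e1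
      have e2 : ∑ u ∈ X, ∑ v ∈ X, F u v + ∑ u ∈ X, ∑ v ∈ Xᶜ, F u v = ∑ v ∈ X, t' v := by
        rw [← sum_add_distrib]
        apply sum_congr rfl
        intro u _
        rw [sum_add_sum_compl, hF2]
      have e3 := hts X
      have e4 := min_le_right (∑ x ∈ Xᶜ, l x) (∑ x ∈ X, r' x)
      omega

end Pool.Agent.H62.Split
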