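import Mathlib

/-!
Stars of branches and long paths.
-/

set_option linter.unusedSectionVars false
set_option linter.unusedVariables false

namespace Pool.Agent.H62.PathTuran

open Finset

variable {V : Type*} [DecidableEq V] (G : SimpleGraph V)

/-- `alt [a₁, a₂, …] [z₁, z₂, …] = [a₁, z₁, a₂, z₂, …]` -/
def alt : List V → List V → List V
  | a :: as, z :: zs => a :: z :: alt as zs
  | _, _ => []

lemma alt_length : ∀ (as zs : List V), as.length = zs.length → (alt as zs).length = 2 * as.length
  | [], [], _ => rfl
  | a :: as, z :: zs, h => by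
    have := alt_length as zs (by simpa using h)
    simp only [alt, List.length_cons, this]; omega

lemma alt_perm : ∀ (as zs : List V), as.length = zs.length → (alt as zs).Perm (as ++ zs)
  | [], [], _ => by simp [alt]
  | a :: as, z :: zs, h => by
    have ih := alt_perm as zs (by simpa using h)
    simp only [alt, List.cons_append]
    refine List.Perm.cons _ ?_
    refine (List.Perm.cons _ ih).trans ?_
    exact (List.perm_middle).symm

lemma alt_mem (as zs : List V) (h : as.length = zs.length) (x : V) :
    x ∈ alt as zs ↔ x ∈ as ∨ x ∈ zs := by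
  rw [(alt_perm as zs h).mem_iff, List.mem_append]

lemma alt_nodup (as zs : List V) (h : as.length = zs.length) (ha : as.Nodup) (hz : zs.Nodup)
    (hd : ∀ a ∈ as, a ∉ zs) : (alt as zs).Nodup := by
  rw [(alt_perm as zs h).nodup_iff, List.nodup_append]
  refine ⟨ha, hz, ?_⟩
  intro a ha b hb e
  exact hd a ha (e ▸ hb)

lemma alt_head : ∀ (as zs : List V), as.length = zs.length → (alt as zs).head? = as.head?
  | [], [], _ => rfl
  | a :: as, z :: zs, h => rfl

lemma alt_last : ∀ (as zs : List V), as.length = zs.length → (alt as zs).getLast? = zs.getLast?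
  | [], [], _ => rfl
  | a :: as, z :: zs, h => by
    have ih := alt_last as zs (by simpa using h)
    simp only [alt]
    rw [List.getLast?_cons_cons]
    cases as with
    | nil =>
      cases zs with
      | nil => rfl
      | cons _ _ => simp at h
    | cons a' as =>
      cases zs with
      | nil => simp at h
      | cons z' zs =>
        rw [List.getLast?_cons_cons, ← ih]
        simp only [alt]
        rw [List.getLast?_cons_cons]

lemma alt_chain : ∀ (as zs : List V), as.length = zs.length →
    (∀ a ∈ as, ∀ z ∈ zs, G.Adj a z) → (alt as zs).IsChain G.Adj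
  | [], [], _, _ => by simp [alt]
  | a :: as, z :: zs, h, hadj => by
    have ih := alt_chain as zs (by simpa using h) (fun a ha z hz =>
      hadj a (List.mem_cons_of_mem _ ha) z (List.mem_cons_of_mem _ hz))
    simp only [alt]
    rw [List.isChain_cons_cons]
    refine ⟨hadj a (List.mem_cons_self) z (List.mem_cons_self), ?_⟩
    rw [List.isChain_cons]
    refine ⟨?_, ih⟩
    intro y hy
    rw [alt_head as zs (by simpa using h)] at hy
    have : y ∈ as := List.mem_of_head? hy
    exact (hadj y (List.mem_cons_of_mem _ this) z (List.mem_cons_self)).symm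

/-- A star: many disjoint branches `B z` hanging at the vertex `v`, all of whose ends `z` are
completely joined to the set `A`. -/
structure Star (i : ℕ) (v : V) (A T : Finset V) (B : V → List V) : Prop where
  chain : ∀ z ∈ T, (B z).IsChain G.Adj
  nodup : ∀ z ∈ T, (B z).Nodup
  head : ∀ z ∈ T, (B z).head? = some z
  last : ∀ z ∈ T, ∃ c, (B z).getLast? = some c ∧ G.Adj c v
  notv : ∀ z ∈ T, v ∉ B z
  notA : ∀ z ∈ T, ∀ a ∈ A, a ∉ B z
  adjA : ∀ z ∈ T, ∀ a ∈ A, G.Adj a z
  disj : ∀ z ∈ T, ∀ z' ∈ T, z ≠ z' → ∀ x ∈ B z, x ∉ B z'
  len : ∀ z ∈ T, 2 * i ≤ 2 * A.card + (B z).length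
  len' : ∀ z ∈ T, v ∈ A → 2 * i + 1 ≤ 2 * A.card + (B z).length

lemma Star.mono {i : ℕ} {v : V} {A T T' : Finset V} {B : V → List V} (h : Star G i v A T B)
    (hT : T' ⊆ T) : Star G i v A T' B :=
  ⟨fun z hz => h.chain z (hT hz), fun z hz => h.nodup z (hT hz), fun z hz => h.head z (hT hz),
    fun z hz => h.last z (hT hz), fun z hz => h.notv z (hT hz), fun z hz => h.notA z (hT hz),
    fun z hz => h.adjA z (hT hz), fun z hz z' hz' => h.disj z (hT hz) z' (hT hz'),
    fun z hz => h.len z (hT hz), fun z hz => h.len' z (hT hz)⟩

lemma isChain_rev {l : List V} (h : l.IsChain G.Adj) : l.reverse.IsChain G.Adj := by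
  rw [List.isChain_reverse]
  exact h.imp (fun a b hab => hab.symm)

/-- Long path from any vertex of the core of a star. -/
theorem Star.path {i : ℕ} {v : V} {A T : Finset V} {B : V → List V} (h : Star G i v A T B)
    (hT : A.card + 2 ≤ T.card) (α : V) (hα : α ∈ insert v A) :
    ∃ P : List V, P.head? = some α ∧ P.IsChain G.Adj ∧ P.Nodup ∧
      (∀ x ∈ P, x ∈ insert v A ∨ ∃ z ∈ T, x ∈ B z) ∧ 2 * i ≤ P.length ∧
      (v ∉ A → 2 * i + 1 ≤ P.length) := by
  -- enumerate T
  obtain ⟨z0, z1, rest, hTl⟩ : ∃ z0 z1 rest, T.toList = z0 :: z1 :: rest := by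
    have hl : T.toList.length = T.card := length_toList T
    match hT' : T.toList with
    | [] => rw [hT'] at hl; simp at hl; omega
    | [a] => rw [hT'] at hl; simp at hl; omega
    | a :: b :: rest => exact ⟨a, b, rest, rfl⟩
  have hTn : (z0 :: z1 :: rest).Nodup := hTl ▸ nodup_toList T
  have hTm : ∀ x, x ∈ z0 :: z1 :: rest → x ∈ T := fun x hx => by
    rw [← hTl] at hx; exact mem_toList.1 hx
  have hz0T : z0 ∈ T := hTm z0 (by simp)
  have hz1T : z1 ∈ T := hTm z1 (by simp)
  have hrest : ∀ x ∈ rest, x ∈ T ∧ x ≠ z0 ∧ x ≠ z1 := by
    intro x hx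
    refine ⟨hTm x (by simp [hx]), ?_, ?_⟩
    · rintro rfl; simp [hx] at hTn
    · rintro rfl; simp [hx] at hTn
  have hrestn : rest.Nodup := (List.nodup_cons.1 (List.nodup_cons.1 hTn).2).2
  have hrestl : A.card ≤ rest.length := by
    have : T.toList.length = T.card := length_toList T
    rw [hTl] at this
    simp at this
    omega
  have hz01 : z0 ≠ z1 := by rintro rfl; simp at hTn
  have hzB : ∀ z ∈ T, z ∈ B z := fun z hz => List.mem_of_head? (h.head z hz)
  obtain ⟨c0, hc0, hc0v⟩ := h.last z0 hz0T
  obtain ⟨c1, hc1, hc1v⟩ := h.last z1 hz1T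
  have hc1B : c1 ∈ B z1 := List.mem_of_getLast? hc1
  -- A in terms of erasing v
  have hAe : (A.erase v).card + (if v ∈ A then 1 else 0) = A.card := by
    by_cases hv : v ∈ A
    · simp only [hv, if_true]; exact card_erase_add_one hv
    · simp only [hv, if_false]; rw [erase_eq_of_notMem hv]; rfl
  have hlen0 := h.len z0 hz0T
  have hlen0' := h.len' z0 hz0T
  by_cases hαv : α = v
  · -- start at v
    subst hαv
    set as := (A.erase α).toList with has
    set zs := rest.take as.length with hzs
    have hasl : as.length = (A.erase α).card := length_toList _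
    have hzsl : as.length = zs.length := by
      rw [hzs, List.length_take]
      have : (A.erase α).card ≤ A.card := card_erase_le
      omega
    have hasm : ∀ x, x ∈ as → x ∈ A ∧ x ≠ α := by
      intro x hx
      rw [has, mem_toList, mem_erase] at hx
      exact ⟨hx.2, hx.1⟩
    have hzsm : ∀ x, x ∈ zs → x ∈ rest := fun x hx => List.mem_of_mem_take hx
    have hzsn : zs.Nodup := hrestn.sublist (List.take_sublist _ _)
    have hasn : as.Nodup := nodup_toList _
    refine ⟨α :: ((B z0).reverse ++ alt as zs), rfl, ?_, ?_, ?_, ?_, ?_⟩
    · rw [List.isChain_cons]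
      constructor
      · intro y hy
        rw [List.head?_append] at hy
        have : (B z0).reverse.head? = some c0 := by rw [List.head?_reverse]; exact hc0
        rw [this] at hy
        simp at hy
        subst hy
        exact hc0v.symm
      · rw [List.isChain_append]
        refine ⟨isChain_rev G (h.chain z0 hz0T), alt_chain G as zs hzsl ?_, ?_⟩
        · intro a ha z hz
          exact h.adjA z (hrest z (hzsm z hz)).1 a (hasm a ha).1
        · intro x hx y hy
          rw [List.getLast?_reverse, h.head z0 hz0T] at hx
          rw [alt_head as zs hzsl] at hy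
          simp at hx
          subst hx
          exact (h.adjA z0 hz0T y (hasm y (List.mem_of_head? hy)).1).symm
    · rw [List.nodup_cons]
      constructor
      · rw [List.mem_append, List.mem_reverse, alt_mem as zs hzsl]
        rintro (hx | hx | hx)
        · exact h.notv z0 hz0T hx
        · exact (hasm _ hx).2 rfl
        · have := (hrest _ (hzsm _ hx)).1
          exact h.notv _ this (hzB _ this)
      · rw [List.nodup_append]
        refine ⟨List.nodup_reverse.2 (h.nodup z0 hz0T), alt_nodup as zs hzsl hasn hzsn ?_, ?_⟩
        · intro a ha haz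
          have := (hrest _ (hzsm _ haz)).1
          exact h.notA _ this a (hasm a ha).1 (hzB _ this)
        · intro x hx y hy e
          subst e
          rw [List.mem_reverse] at hx
          rw [alt_mem as zs hzsl] at hy
          rcases hy with hy | hy
          · exact h.notA z0 hz0T x (hasm x hy).1 hx
          · have := hrest _ (hzsm _ hy)
            exact h.disj z0 hz0T x this.1 (Ne.symm this.2.1) x hx (hzB x this.1)
    · intro x hx
      rw [List.mem_cons, List.mem_append, List.mem_reverse, alt_mem as zs hzsl] at hx
      rcases hx with rfl | hx | hx | hx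
      · exact Or.inl (mem_insert_self _ _)
      · exact Or.inr ⟨z0, hz0T, hx⟩
      · exact Or.inl (mem_insert_of_mem (hasm x hx).1)
      · have := (hrest _ (hzsm _ hx)).1
        exact Or.inr ⟨x, this, hzB x this⟩
    · rw [List.length_cons, List.length_append, List.length_reverse, alt_length as zs hzsl, hasl]
      by_cases hv : α ∈ A
      · have := hlen0' hv
        simp only [hv, if_true] at hAe
        omega
      · simp only [hv, if_false] at hAe
        omega
    · intro hv
      rw [List.length_cons, List.length_append, List.length_reverse, alt_length as zs hzsl, hasl]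
      simp only [hv, if_false] at hAe
      omega
  · -- start at an element of A different from v
    have hαA : α ∈ A := by
      rcases mem_insert.1 hα with e | e
      · exact absurd e hαv
      · exact e
    have hαe : α ∈ A.erase v := mem_erase.2 ⟨hαv, hαA⟩
    set as' := ((A.erase v).erase α).toList with has'
    have hasl' : as'.length + 1 = (A.erase v).card := by
      rw [has', length_toList, card_erase_add_one hαe]
    have hcardle : (A.erase v).card ≤ A.card := card_erase_le
    set zs := rest.take as'.length ++ [z0] with hzs
    have hzsl : (α :: as').length = zs.length := by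
      rw [hzs, List.length_append, List.length_take]
      simp only [List.length_cons, List.length_nil]
      omega
    have hasm : ∀ x, x ∈ α :: as' → x ∈ A ∧ x ≠ v := by
      intro x hx
      rcases List.mem_cons.1 hx with rfl | hx
      · exact ⟨hαA, hαv⟩
      · rw [has', mem_toList, mem_erase, mem_erase] at hx
        exact ⟨hx.2.2, hx.2.1⟩
    have hasn : (α :: as').Nodup := by
      rw [List.nodup_cons]
      refine ⟨?_, nodup_toList _⟩
      rw [has', mem_toList]
      simp
    have hzsm : ∀ x, x ∈ zs → x ∈ T ∧ x ≠ z1 := by
      intro x hx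
      rw [hzs, List.mem_append] at hx
      rcases hx with hx | hx
      · have := hrest x (List.mem_of_mem_take hx)
        exact ⟨this.1, this.2.2⟩
      · simp at hx; subst hx; exact ⟨hz0T, hz01⟩
    have hzsn : zs.Nodup := by
      rw [hzs, List.nodup_append]
      refine ⟨hrestn.sublist (List.take_sublist _ _), List.nodup_singleton _, ?_⟩
      intro a ha b hb e
      simp at hb
      subst hb
      exact (hrest a (List.mem_of_mem_take ha)).2.1 e
    -- the branch of z0
    obtain ⟨tl, htl⟩ : ∃ tl, B z0 = z0 :: tl := by
      have := h.head z0 hz0T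
      match hB : B z0 with
      | [] => rw [hB] at this; simp at this
      | a :: tl => rw [hB] at this; simp at this; exact ⟨tl, by rw [this]⟩
    have hBn := h.nodup z0 hz0T
    have hBc : (z0 :: (tl ++ [v, c1])).IsChain G.Adj := by
      have : z0 :: (tl ++ [v, c1]) = B z0 ++ [v, c1] := by rw [htl]; rfl
      rw [this, List.isChain_append]
      refine ⟨h.chain z0 hz0T, ?_, ?_⟩
      · rw [List.isChain_cons_cons]
        exact ⟨hc1v.symm, List.isChain_singleton _⟩
      · intro x hx y hy
        rw [hc0] at hx
        simp at hx hy
        subst hx hy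
        exact hc0v
    have htlB : ∀ x ∈ tl, x ∈ B z0 := fun x hx => by rw [htl]; exact List.mem_cons_of_mem _ hx
    have hz0tl : z0 ∉ tl := by rw [htl] at hBn; exact (List.nodup_cons.1 hBn).1
    have hvtl : v ∉ tl := fun hx => h.notv z0 hz0T (htlB v hx)
    have hc1v' : c1 ≠ v := fun e => G.irrefl (e ▸ hc1v)
    have hc1tl : c1 ∉ tl := fun hx => h.disj z1 hz1T z0 hz0T (Ne.symm hz01) c1 hc1B (htlB c1 hx)
    refine ⟨alt (α :: as') zs ++ (tl ++ [v, c1]), ?_, ?_, ?_, ?_, ?_, ?_⟩
    · rw [List.head?_append, alt_head _ _ hzsl]; rfl
    · rw [List.isChain_append]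
      refine ⟨alt_chain G _ _ hzsl ?_, ?_, ?_⟩
      · intro a ha z hz
        exact h.adjA z (hzsm z hz).1 a (hasm a ha).1
      · exact (List.isChain_cons.1 hBc).2
      · intro x hx y hy
        rw [alt_last _ _ hzsl, hzs] at hx
        simp at hx
        subst hx
        exact (List.isChain_cons.1 hBc).1 y hy
    · rw [List.nodup_append]
      refine ⟨alt_nodup _ _ hzsl hasn hzsn ?_, ?_, ?_⟩
      · intro a ha haz
        have := (hzsm _ haz).1
        exact h.notA _ this a (hasm a ha).1 (hzB _ this)
      · rw [List.nodup_append]
        refine ⟨?_, ?_, ?_⟩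
        · rw [htl] at hBn; exact (List.nodup_cons.1 hBn).2
        · simp [Ne.symm hc1v']
        · intro x hx y hy e
          subst e
          simp at hy
          rcases hy with rfl | rfl
          · exact hvtl hx
          · exact hc1tl hx
      · intro x hx y hy e
        subst e
        rw [alt_mem _ _ hzsl] at hx
        rw [List.mem_append] at hy
        rcases hx with hx | hx
        · rcases hy with hy | hy
          · exact h.notA z0 hz0T x (hasm x hx).1 (htlB x hy)
          · simp at hy
            rcases hy with rfl | rfl
            · exact (hasm _ hx).2 rfl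
            · exact h.notA z1 hz1T x (hasm x hx).1 hc1B
        · have hxT := hzsm x hx
          rcases hy with hy | hy
          · by_cases hxz : x = z0
            · subst hxz; exact hz0tl hy
            · exact h.disj x hxT.1 z0 hz0T hxz x (hzB x hxT.1) (htlB x hy)
          · simp at hy
            rcases hy with rfl | rfl
            · exact h.notv _ hxT.1 (hzB _ hxT.1)
            · exact h.disj x hxT.1 z1 hz1T hxT.2 x (hzB x hxT.1) hc1B
    · intro x hx
      rcases List.mem_append.1 hx with hx | hx
      · rw [alt_mem _ _ hzsl] at hx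
        rcases hx with hx | hx
        · exact Or.inl (mem_insert_of_mem (hasm x hx).1)
        · exact Or.inr ⟨x, (hzsm x hx).1, hzB x (hzsm x hx).1⟩
      · rcases List.mem_append.1 hx with hx | hx
        · exact Or.inr ⟨z0, hz0T, htlB x hx⟩
        · simp at hx
          rcases hx with rfl | rfl
          · exact Or.inl (mem_insert_self _ _)
          · exact Or.inr ⟨z1, hz1T, hc1B⟩
    · rw [List.length_append, alt_length _ _ hzsl, List.length_append]
      have hBl : (B z0).length = tl.length + 1 := by rw [htl]; rfl
      simp only [List.length_cons, List.length_nil]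
      by_cases hv : v ∈ A
      · have := hlen0' hv
        simp only [hv, if_true] at hAe
        omega
      · simp only [hv, if_false] at hAe
        omega
    · intro hv
      rw [List.length_append, alt_length _ _ hzsl, List.length_append]
      have hBl : (B z0).length = tl.length + 1 := by rw [htl]; rfl
      simp only [List.length_cons, List.length_nil]
      simp only [hv, if_false] at hAe
      omega

/-- Few branches meet a small set. -/
lemma Star.avoid {i : ℕ} {v : V} {A T : Finset V} {B : V → List V} (h : Star G i v A T B)
    (Ω : Finset V) (c : ℕ) (hc : c + Ω.card ≤ T.card) :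
    c ≤ (T.filter (fun z => ∀ x ∈ B z, x ∉ Ω)).card := by
  classical
  have h1 : (T.filter (fun z => ¬ ∀ x ∈ B z, x ∉ Ω)).card ≤ Ω.card := by
    have hch : ∀ z ∈ T.filter (fun z => ¬ ∀ x ∈ B z, x ∉ Ω), ∃ x, x ∈ B z ∧ x ∈ Ω := by
      intro z hz
      have := (mem_filter.1 hz).2
      push Not at this
      exact this
    choose! f hf using hch
    apply card_le_card_of_injOn f
    · intro z hz
      exact (hf z hz).2
    · intro z hz z' hz' e
      by_contra hne
      have a1 := (hf z hz).1
      have a2 := (hf z' hz').1
      rw [← e] at a2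
      exact h.disj z (mem_filter.1 hz).1 z' (mem_filter.1 hz').1 hne _ a1 a2
  have h2 := card_filter_add_card_filter_not (s := T) (fun z => ∀ x ∈ B z, x ∉ Ω)
  omega

end Pool.Agent.H62.PathTuran
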