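import Pool.Agent.H62.Extract

/-!
Upper bound for the number of edges of connected bipartite graphs without long paths.
-/

set_option linter.unusedSectionVars false
set_option linter.unusedVariables false

namespace Pool.Agent.H62.PathTuran

open Finset

variable {V : Type*} [DecidableEq V] (G : SimpleGraph V) [Fintype V]

/-- the constant -/
def RR (k : ℕ) : ℕ := gf ((4 * k + 4) * 2 ^ k * k) (k - 1)

open Classical in
theorem edges_le_sum {r : V} {p : V → List V} (hp : NTree G univ r p) :
    G.edgeSet.ncard ≤ ∑ x : V, (univ.filter (fun u => G.Adj u x ∧ u ∈ p x)).card := by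
  have h1 : G.edgeSet ⊆ (((univ : Finset V).sigma
      (fun x => univ.filter (fun u => G.Adj u x ∧ u ∈ p x))).image
      (fun q => s(q.2, q.1)) : Finset (Sym2 V)) := by
    intro e he
    induction e with
    | h a b =>
      rw [SimpleGraph.mem_edgeSet] at he
      rw [mem_coe, mem_image]
      rcases hp.adj a (mem_univ a) b (mem_univ b) he with h | h
      · exact ⟨⟨b, a⟩, by simp [he, h], rfl⟩
      · exact ⟨⟨a, b⟩, by simp [he.symm, h], Sym2.eq_swap⟩
  calc G.edgeSet.ncard ≤ Set.ncard ((((univ : Finset V).sigma
      (fun x => univ.filter (fun u => G.Adj u x ∧ u ∈ p x))).image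
      (fun q => s(q.2, q.1)) : Finset (Sym2 V)) : Set (Sym2 V)) :=
        Set.ncard_le_ncard h1 (Finset.finite_toSet _)
    _ = _ := Set.ncard_coe_finset _
    _ ≤ ((univ : Finset V).sigma
      (fun x => univ.filter (fun u => G.Adj u x ∧ u ∈ p x))).card := card_image_le
    _ = _ := card_sigma _ _

open Classical in
theorem upper (side : V → Bool) (hside : ∀ a b, G.Adj a b → side a ≠ side b) (hG : G.Connected)
    (k M n : ℕ) (hkM : k ≤ 2 * M + 2)
    (hfree : ∀ l : List V, l.IsChain G.Adj → l.Nodup → l.length < k)
    (hn : ∀ b, (univ.filter (fun x => side x = b)).card = n) :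
    G.edgeSet.ncard ≤ M * n + 2 * (RR k * k) := by
  obtain ⟨r, p, hp⟩ := exists_ntree_univ G hG
  refine (edges_le_sum G hp).trans ?_
  have hk : ∀ v, (p v).length < k := fun v =>
    hfree _ (hp.chain v (mem_univ v)) (hp.nodup v (mem_univ v))
  set U : V → Finset V := fun x => univ.filter (fun u => G.Adj u x ∧ u ∈ p x) with hU
  have hUk : ∀ x, (U x).card ≤ k := by
    intro x
    have : U x ⊆ (p x).toFinset := by
      intro u hu
      simp only [hU, mem_filter, mem_univ, true_and] at hu
      exact List.mem_toFinset.2 hu.2
    exact (card_le_card this).trans ((List.toFinset_card_le _).trans (hk x).le)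
  set Z : Bool → ℕ → Finset V := fun b i => univ.filter (fun x => side x = b ∧ i ≤ (U x).card)
    with hZ
  -- key claim
  have key : ∀ i j, i + j = M + 1 → RR k ≤ (Z true i).card → RR k ≤ (Z false j).card → False := by
    intro i j hij h1 h2
    obtain ⟨v, A, T, B, hT, hstar, hAk, hAs, hAp⟩ := extract G hp side hside k hk i (4 * k + 4)
      (by omega) (Z true i) true h1 (by intro z hz; rw [hZ, mem_filter] at hz; exact hz.2.1)
      (by intro z hz; rw [hZ, mem_filter] at hz; exact hz.2.2)
    obtain ⟨v', A', T', B', hT', hstar', hAk', hAs', hAp'⟩ := extract G hp side hside k hk j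
      (4 * k + 4) (by omega) (Z false j) false h2
      (by intro z hz; rw [hZ, mem_filter] at hz; exact hz.2.1)
      (by intro z hz; rw [hZ, mem_filter] at hz; exact hz.2.2)
    have hdis : Disjoint A A' := by
      rw [disjoint_left]
      intro a ha ha'
      have e1 := hAs a ha
      have e2 := hAs' a ha'
      revert e1 e2
      cases side a <;> simp
    have hvv : ¬ (v ∈ A' ∧ v' ∈ A) := by
      rintro ⟨e1, e2⟩
      have := tree_antisymm G hp (List.mem_toFinset.1 (hAp' e1)) (List.mem_toFinset.1 (hAp e2))
      subst this
      exact disjoint_left.1 hdis e2 e1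
    obtain ⟨P, hP1, hP2, hP3⟩ := combine G hG k hfree hstar hstar' hAk hAk' hdis hvv hT hT'
    have := hfree P hP1 hP2
    omega
  -- bounding the sum over one side
  have hsum : ∀ b t, (Z b (t + 1)).card ≤ RR k →
      ∑ x ∈ univ.filter (fun x => side x = b), (U x).card ≤ t * n + RR k * k := by
    intro b t hlt
    have h1 : ∀ x ∈ univ.filter (fun x => side x = b),
        (U x).card ≤ t + (if x ∈ Z b (t + 1) then k else 0) := by
      intro x hx
      by_cases hxZ : x ∈ Z b (t + 1)
      · rw [if_pos hxZ]; have := hUk x; omega
      · rw [if_neg hxZ]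
        rw [hZ, mem_filter] at hxZ
        rw [mem_filter] at hx
        have : ¬ (t + 1 ≤ (U x).card) := fun h => hxZ ⟨mem_univ x, hx.2, h⟩
        omega
    refine (sum_le_sum h1).trans ?_
    rw [sum_add_distrib, sum_const, hn b, smul_eq_mul]
    have h2 : ∑ x ∈ univ.filter (fun x => side x = b), (if x ∈ Z b (t + 1) then k else 0) ≤
        RR k * k := by
      rw [← sum_filter, sum_const, smul_eq_mul]
      refine Nat.mul_le_mul_right _ (le_trans (card_le_card ?_) hlt)
      intro x hx
      exact (mem_filter.1 hx).2
    nlinarith [h2]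
  have hsplit : ∑ x : V, (U x).card = ∑ x ∈ univ.filter (fun x => side x = true), (U x).card +
      ∑ x ∈ univ.filter (fun x => side x = false), (U x).card := by
    rw [← sum_filter_add_sum_filter_not univ (fun x => side x = true)]
    congr 1
    apply sum_congr _ (fun _ _ => rfl)
    ext x
    simp
  rw [hsplit]
  by_cases hnR : n < RR k
  · have h1 : ∀ b, ∑ x ∈ univ.filter (fun x => side x = b), (U x).card ≤ RR k * k := by
      intro b
      calc ∑ x ∈ univ.filter (fun x => side x = b), (U x).card
          ≤ ∑ x ∈ univ.filter (fun x => side x = b), k := sum_le_sum (fun x _ => hUk x)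
        _ = n * k := by rw [sum_const, hn b, smul_eq_mul]
        _ ≤ RR k * k := Nat.mul_le_mul_right _ hnR.le
    have := h1 true
    have := h1 false
    nlinarith [Nat.zero_le (M * n)]
  · push Not at hnR
    have hZ0 : ∀ b, (Z b 0).card = n := by
      intro b
      rw [← hn b]
      congr 1
      ext x
      simp [hZ]
    set t := Nat.findGreatest (fun i => RR k ≤ (Z true i).card) (M + 1) with ht
    have ht1 : RR k ≤ (Z true t).card :=
      Nat.findGreatest_spec (P := fun i => RR k ≤ (Z true i).card) (Nat.zero_le _)
        (by rw [hZ0]; exact hnR)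
    have ht2 : t ≤ M + 1 := Nat.findGreatest_le _
    have ht3 : t ≤ M := by
      by_contra hcon
      have e : t = M + 1 := by omega
      rw [e] at ht1
      exact key (M + 1) 0 (by omega) ht1 (by rw [hZ0]; exact hnR)
    have ht4 : ¬ RR k ≤ (Z true (t + 1)).card :=
      Nat.findGreatest_is_greatest (P := fun i => RR k ≤ (Z true i).card) (n := M + 1)
        (by rw [← ht]; omega) (by omega)
    have hf : ¬ RR k ≤ (Z false (M - t + 1)).card := fun h => key t (M - t + 1) (by omega) ht1 h
    have s1 := hsum true t (by omega)
    have s2 := hsum false (M - t) (by omega)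
    have : t * n + (M - t) * n = M * n := by rw [← add_mul]; congr 1; omega
    omega

end Pool.Agent.H62.PathTuran
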