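import Pool.Agent.H62.WSep

/-!
The chromatic invariant `bb G S = (-1)^|S| P'(1)`.
-/

set_option linter.unusedSectionVars false
set_option linter.unusedVariables false

namespace Pool.Agent.H62.Wh

open Finset Polynomial

variable {V : Type*} [DecidableEq V] [Fintype V]

/-- the chromatic invariant -/
noncomputable def bb (G : SimpleGraph V) (S : Finset V) : ℤ :=
  (-1) ^ S.card * (derivative (P G S)).eval 1

lemma bb_congr {G G' : SimpleGraph V} {S : Finset V} (h : Agree G G' S) : bb G S = bb G' S := by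
  unfold bb; rw [P_congr h]

lemma bb_add (G : SimpleGraph V) {S : Finset V} {x y : V} (hx : x ∈ S) (hy : y ∈ S) (hxy : x ≠ y) :
    bb (add G x y) S = bb (del G x y) S + bb (con G x y) (S.erase y) := by
  unfold bb
  rw [P_del G hx hy hxy, derivative_add, eval_add, card_erase_of_mem hy]
  have h1 : 1 ≤ S.card := card_pos.2 ⟨x, hx⟩
  have h2 : (-1 : ℤ) ^ S.card = - (-1) ^ (S.card - 1) := by
    obtain ⟨m, hm⟩ : ∃ m, S.card = m + 1 := ⟨S.card - 1, by omega⟩
    rw [hm, Nat.add_sub_cancel, pow_succ]; ring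
  rw [h2]; ring

lemma bb_edge {G : SimpleGraph V} {S : Finset V} {x y : V} (hx : x ∈ S) (hy : y ∈ S)
    (hxy : G.Adj x y) : bb G S = bb (del G x y) S + bb (con G x y) (S.erase y) := by
  have := bb_add G hx hy hxy.ne
  rwa [add_self hxy] at this

lemma bb_nonedge {G : SimpleGraph V} {S : Finset V} {x y : V} (hx : x ∈ S) (hy : y ∈ S)
    (hne : x ≠ y) (hxy : ¬ G.Adj x y) :
    bb (add G x y) S = bb G S + bb (con G x y) (S.erase y) := by
  have := bb_add G hx hy hne
  rwa [del_self hxy] at this

lemma bb_con_symm {G : SimpleGraph V} {S : Finset V} {x y : V} (hx : x ∈ S) (hy : y ∈ S)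
    (hne : x ≠ y) : bb (con G x y) (S.erase y) = bb (con G y x) (S.erase x) := by
  unfold bb
  rw [P_con_symm hx hy hne, card_erase_of_mem hy, card_erase_of_mem hx]

lemma bb_pair {G : SimpleGraph V} {p q : V} (h : G.Adj p q) : bb G {p, q} = 1 := by
  unfold bb
  rw [P_pair h, card_pair h.ne]
  simp

lemma deriv_cut {F P1 P2 : ℤ[X]} (h : X * F = P1 * P2) (hF : F.eval 1 = 0) (h1 : P1.eval 1 = 0)
    (h2 : P2.eval 1 = 0) : (derivative F).eval 1 = 0 := by
  have h3 := congrArg (fun p => (derivative p).eval 1) h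
  simp only [derivative_mul, derivative_X, eval_add, eval_mul, eval_X, eval_one, hF, h1, h2] at h3
  linarith

lemma deriv_two {F P1 P2 : ℤ[X]} (h : X * (X - 1) * F = P1 * P2) (hF : F.eval 1 = 0)
    (h1 : P1.eval 1 = 0) (h2 : P2.eval 1 = 0) :
    (derivative F).eval 1 = (derivative P1).eval 1 * (derivative P2).eval 1 := by
  have h3 := congrArg (fun p => (derivative (derivative p)).eval 1) h
  simp only [derivative_mul, derivative_X, derivative_sub, derivative_one, derivative_add,
    eval_add, eval_mul, eval_X, eval_one, eval_sub, eval_zero, hF, h1, h2, sub_zero] at h3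
  linarith

/-- a cut vertex forces `bb = 0` -/
lemma bb_cut {G : SimpleGraph V} {S A B : Finset V} (hs : NS G S 1) (h : Sep G S A B)
    (hc : A.card + B.card + 1 = S.card) : bb G S = 0 := by
  have hsub : A ∪ B ⊆ S := union_subset h.1 h.2.1
  have hc1 : (S \ (A ∪ B)).card = 1 := by
    rw [card_sdiff_of_subset hsub, card_union_of_disjoint h.2.2.1]; omega
  obtain ⟨v, hv⟩ := card_eq_one.1 hc1
  have hv' : v ∈ S \ (A ∪ B) := by rw [hv]; exact mem_singleton_self v
  simp only [mem_sdiff, mem_union, not_or] at hv'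
  have hcov : ∀ u ∈ S, u ∈ A ∨ u ∈ B ∨ u = v := by
    intro u hu
    by_cases h1 : u ∈ A
    · exact Or.inl h1
    by_cases h2 : u ∈ B
    · exact Or.inr (Or.inl h2)
    have : u ∈ S \ (A ∪ B) := by rw [mem_sdiff, mem_union]; tauto
    rw [hv, mem_singleton] at this
    exact Or.inr (Or.inr this)
  have hS : S = A ∪ (B ∪ {v}) := by
    ext u
    simp only [mem_union, mem_singleton]
    constructor
    · exact hcov u
    · rintro (h' | h' | rfl)
      · exact h.1 h'
      · exact h.2.1 h'
      · exact hv'.1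
  have hA1 := h.2.2.2.1
  have hB1 := h.2.2.2.2.1
  have hA0 := card_pos.2 hA1
  have hB0 := card_pos.2 hB1
  obtain ⟨a, ha⟩ := hA1
  obtain ⟨b, hb⟩ := hB1
  have hdis : Disjoint A (B ∪ {v}) := by
    rw [disjoint_left]
    intro u hu hu'
    simp only [mem_union, mem_singleton] at hu'
    rcases hu' with h' | rfl
    · exact disjoint_left.1 h.2.2.1 hu h'
    · exact hv'.2.1 hu
  have hglue := P_glue _ _ G A B {v} rfl rfl hdis h.2.2.2.2.2 (by
    intro c hc d hd hcd
    rw [mem_singleton] at hc hd
    exact absurd (hc.trans hd.symm) hcd)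
  rw [P_singleton, ← hS] at hglue
  obtain ⟨a', ha', haa'⟩ := exists_nb hs (h.1 ha) (by omega)
  obtain ⟨b', hb', hbb'⟩ := exists_nb hs (h.2.1 hb) (by omega)
  have hP1 : (P G (A ∪ {v})).eval 1 = 0 := by
    apply P_one (x := a) (y := a') (mem_union_left _ ha) _ haa'
    rcases hcov a' ha' with h' | h' | rfl
    · exact mem_union_left _ h'
    · exact absurd haa' (h.2.2.2.2.2 a ha a' h')
    · exact mem_union_right _ (mem_singleton_self _)
  have hP2 : (P G (B ∪ {v})).eval 1 = 0 := by
    apply P_one (x := b) (y := b') (mem_union_left _ hb) _ hbb'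
    rcases hcov b' hb' with h' | h' | rfl
    · exact absurd hbb'.symm (h.2.2.2.2.2 b' h' b hb)
    · exact mem_union_left _ h'
    · exact mem_union_right _ (mem_singleton_self _)
  have hP : (P G S).eval 1 = 0 := P_one (h.1 ha) ha' haa'
  unfold bb
  rw [deriv_cut hglue hP hP1 hP2, mul_zero]

lemma bb_nonneg_aux {G : SimpleGraph V} {S : Finset V} (hs : NS G S 1)
    (h : NS G S 2 → 1 ≤ bb G S) : 0 ≤ bb G S := by
  by_cases h2 : NS G S 2
  · have := h h2; omega
  · unfold NS at h2
    push Not at h2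
    obtain ⟨A, B, hAB, hc⟩ := h2
    have := hs A B hAB
    rw [bb_cut hs hAB (by omega)]

theorem bb_pos_aux : ∀ n m, ∀ (G : SimpleGraph V) (S : Finset V), S.card = n + 2 →
    (pairs G S).card = m → NS G S 2 → 1 ≤ bb G S := by
  intro n
  induction n with
  | zero =>
    intro m G S hS _ hs
    obtain ⟨p, q, hpq, rfl⟩ := card_eq_two.1 hS
    rw [bb_pair (adj_of_NS hs (by omega) (mem_insert_self p _) (by simp) hpq)]
  | succ n ihn =>
    intro m
    induction m using Nat.strong_induction_on with
    | _ m ihm =>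
      intro G S hS hm hs
      obtain ⟨x, hx⟩ : S.Nonempty := by rw [← card_pos]; omega
      have hs1 : NS G S 1 := hs.le (by norm_num)
      obtain ⟨y, hy, hxy⟩ := exists_nb hs1 hx (by omega)
      have hd1 : NS (del G x y) S 1 := NS_del hs (by omega)
      have hc1 : NS (con G x y) (S.erase y) 1 := NS_con_one hx hy hxy.ne hs1
      have hce : (S.erase y).card = n + 2 := by rw [card_erase_of_mem hy]; omega
      have hdn := bb_nonneg_aux hd1 (fun h => ihm _ (hm ▸ pairs_del_lt hx hy hxy) _ S hS rfl h)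
      have hcn := bb_nonneg_aux hc1 (fun h => ihn _ _ _ hce rfl h)
      have he := bb_edge hx hy hxy
      rcases NS_two_dichotomy hx hy hxy hs (by omega) with h | h
      · have := ihm _ (hm ▸ pairs_del_lt hx hy hxy) _ S hS rfl h
        omega
      · have := ihn _ _ _ hce rfl h
        omega

/-- the chromatic invariant of a `2`-connected graph is positive -/
theorem bb_pos {G : SimpleGraph V} {S : Finset V} (hs : NS G S 2) (hc : 2 ≤ S.card) : 1 ≤ bb G S :=
  bb_pos_aux (S.card - 2) _ G S (by omega) rfl hs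

theorem bb_nonneg {G : SimpleGraph V} {S : Finset V} (hs : NS G S 1) (hc : 2 ≤ S.card) :
    0 ≤ bb G S := bb_nonneg_aux hs (fun h => bb_pos h hc)

lemma P_glue_two {G : SimpleGraph V} {S A B : Finset V} {p q : V} (h : Two G S A B p q) :
    X * (X - 1) * P (add G p q) S = P (add G p q) (A ∪ {p, q}) * P (add G p q) (B ∪ {p, q}) := by
  have hpq : (add G p q).Adj p q := Or.inr ⟨h.hpq, Or.inl ⟨rfl, rfl⟩⟩
  have := P_glue _ _ (add G p q) A B {p, q} rfl rfl h.disj (by
    intro a ha b hb hab
    rcases hab with hab | ⟨_, ⟨rfl, rfl⟩ | ⟨rfl, rfl⟩⟩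
    · exact h.sep.2.2.2.2.2 a ha b hb hab
    · exact h.pA ha
    · exact h.qA ha) (by
    intro a ha b hb hab
    rw [mem_insert, mem_singleton] at ha hb
    rcases ha with rfl | rfl <;> rcases hb with rfl | rfl
    · exact absurd rfl hab
    · exact hpq
    · exact hpq.symm
    · exact absurd rfl hab)
  rw [P_pair hpq, ← h.eq] at this
  exact this

lemma Two.sep_con {G : SimpleGraph V} {S A B : Finset V} {p q : V} (h : Two G S A B p q) :
    Sep (con G p q) (S.erase q) A B := by
  refine ⟨?_, ?_, h.sep.2.2.1, h.sep.2.2.2.1, h.sep.2.2.2.2.1, ?_⟩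
  · intro v hv
    exact mem_erase.2 ⟨fun e => h.qA (e ▸ hv), h.sep.1 hv⟩
  · intro v hv
    exact mem_erase.2 ⟨fun e => h.qB (e ▸ hv), h.sep.2.1 hv⟩
  · rintro a ha b hb ⟨_, h' | ⟨rfl, _⟩ | ⟨rfl, _⟩⟩
    · exact h.sep.2.2.2.2.2 a ha b hb h'
    · exact h.pA ha
    · exact h.pB hb

/-- the chromatic invariant of a `2`-sum -/
theorem bb_two {G : SimpleGraph V} {S A B : Finset V} {p q : V} (h : Two G S A B p q)
    (hs : NS G S 2) :
    bb G S = bb (add G p q) (A ∪ {p, q}) * bb (add G p q) (B ∪ {p, q}) := by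
  have hpq : (add G p q).Adj p q := Or.inr ⟨h.hpq, Or.inl ⟨rfl, rfl⟩⟩
  have hA : ∀ T : Finset V, (P (add G p q) (T ∪ {p, q})).eval 1 = 0 := by
    intro T
    apply P_one (x := p) (y := q) _ _ hpq
    · simp
    · simp
  have hmul := deriv_two (P_glue_two h) (P_one h.hp h.hq hpq) (hA A) (hA B)
  have hadd : bb (add G p q) S = bb (add G p q) (A ∪ {p, q}) * bb (add G p q) (B ∪ {p, q}) := by
    unfold bb
    rw [hmul, card_pairU h.pA h.qA h.hpq, card_pairU h.pB h.qB h.hpq, h.card]
    ring
  rw [← hadd]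
  by_cases hadj : G.Adj p q
  · rw [add_self hadj]
  · rw [bb_nonedge h.hp h.hq h.hpq hadj]
    have hs1 : NS G S 1 := hs.le (by norm_num)
    have hc1 : NS (con G p q) (S.erase q) 1 := NS_con_one h.hp h.hq h.hpq hs1
    have := h.card
    rw [bb_cut hc1 h.sep_con (by rw [card_erase_of_mem h.hq]; omega), add_zero]

/-- monotonicity of the chromatic invariant -/
theorem bb_mono : ∀ (m : ℕ) (G G' : SimpleGraph V) (S : Finset V), (pairs G' S).card = m →
    (∀ a ∈ S, ∀ b ∈ S, G.Adj a b → G'.Adj a b) → NS G S 1 → 2 ≤ S.card → bb G S ≤ bb G' S := by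
  intro m
  induction m using Nat.strong_induction_on with
  | _ m ih =>
    intro G G' S hm hle hs hc
    by_cases hag : Agree G G' S
    · rw [bb_congr hag]
    · unfold Agree at hag
      push Not at hag
      obtain ⟨x, hx, y, hy, hxy⟩ := hag
      have hxy' : G'.Adj x y ∧ ¬ G.Adj x y := by
        rcases hxy with ⟨h1, h2⟩ | ⟨h1, h2⟩
        · exact absurd (hle x hx y hy h1) h2
        · exact ⟨h2, h1⟩
      have hc3 : 3 ≤ S.card := by
        by_contra hc'
        exact hxy'.2 (adj_of_NS hs (by omega) hx hy hxy'.1.ne)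
      have h1 := ih _ (hm ▸ pairs_del_lt hx hy hxy'.1) G (del G' x y) S rfl (by
        intro a ha b hb hab
        refine ⟨hle a ha b hb hab, fun e => hxy'.2 (e.1 ▸ e.2 ▸ hab), fun e => hxy'.2 ?_⟩
        exact e.1 ▸ e.2 ▸ hab.symm) hs hc
      have h2 := bb_edge hx hy hxy'.1
      have h3 : 0 ≤ bb (con G' x y) (S.erase y) := by
        apply bb_nonneg
        · exact NS_con_one hx hy hxy'.1.ne (hs.mono hle)
        · rw [card_erase_of_mem hy]; omega
      omega

lemma NS_insert {G : SimpleGraph V} {K : Finset V} {y : V} {k : ℕ} (hy : y ∉ K) (hs : NS G K k)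
    (hn : k ≤ (nb G y K).card) : NS G (insert y K) k := by
  have key : ∀ A B, Sep G (insert y K) A B → y ∈ A → A.card + B.card + k ≤ (insert y K).card := by
    intro A B hAB hyA
    obtain ⟨h1, h2, h3, h4, h5, h6⟩ := hAB
    have hyB : y ∉ B := disjoint_left.1 h3 hyA
    have hBK : B ⊆ K := by
      intro v hv
      rcases mem_insert.1 (h2 hv) with rfl | h'
      · exact absurd hv hyB
      · exact h'
    have hA1 := card_erase_of_mem hyA
    have hAp := card_pos.2 h4
    by_cases hA : (A.erase y).Nonempty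
    · have h7 : Sep G K (A.erase y) B := by
        refine ⟨?_, hBK, disjoint_of_subset_left (erase_subset _ _) h3, hA, h5,
          fun a ha b hb => h6 a (mem_of_mem_erase ha) b hb⟩
        intro v hv
        rw [mem_erase] at hv
        rcases mem_insert.1 (h1 hv.2) with h' | h'
        · exact absurd h' hv.1
        · exact h'
      have h8 := hs _ _ h7
      rw [card_insert_of_notMem hy]
      omega
    · have hA0 : (A.erase y).card = 0 := by
        rw [card_eq_zero]; exact not_nonempty_iff_eq_empty.1 hA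
      have h7 : Disjoint B (nb G y K) := by
        rw [disjoint_left]
        intro b hb hb'
        exact h6 y hyA b hb (mem_nb.1 hb').2
      have h8 := card_le_card (union_subset hBK (nb_sub (G := G) (v := y) (S := K)))
      rw [card_union_of_disjoint h7] at h8
      rw [card_insert_of_notMem hy]
      omega
  intro A B hAB
  by_cases hyA : y ∈ A
  · exact key A B hAB hyA
  by_cases hyB : y ∈ B
  · have := key B A hAB.symm hyB; omega
  have h7 : Sep G K A B := by
    obtain ⟨h1, h2, h3, h4, h5, h6⟩ := hAB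
    refine ⟨?_, ?_, h3, h4, h5, h6⟩
    · intro v hv
      rcases mem_insert.1 (h1 hv) with rfl | h'
      · exact absurd hv hyA
      · exact h'
    · intro v hv
      rcases mem_insert.1 (h2 hv) with rfl | h'
      · exact absurd hv hyB
      · exact h'
  have h8 := hs _ _ h7
  rw [card_insert_of_notMem hy]
  omega

theorem bb_vertex_aux {K : Finset V} {y : V} (hy : y ∉ K) (hc : 2 ≤ K.card) :
    ∀ (n : ℕ) (G : SimpleGraph V), (nb G y K).card = n + 1 → NS G K 1 →
    (n : ℤ) * bb G K ≤ bb G (insert y K) := by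
  intro n
  induction n with
  | zero =>
    intro G hn hs
    have : NS G (insert y K) 1 := NS_insert hy hs (by omega)
    have h2 := bb_nonneg this (by rw [card_insert_of_notMem hy]; omega)
    simpa using h2
  | succ n ih =>
    intro G hn hs
    obtain ⟨v, hv⟩ : (nb G y K).Nonempty := by rw [← card_pos]; omega
    have hv' := mem_nb.1 hv
    have h1 := bb_edge (mem_insert_of_mem hv'.1) (mem_insert_self y K) hv'.2.symm
    rw [erase_insert hy] at h1
    have hag : Agree G (del G v y) K := agree_del_right hy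
    have h2 : nb (del G v y) y K = (nb G y K).erase v := by
      ext u
      rw [mem_nb, mem_erase, mem_nb, del_adj]
      constructor
      · rintro ⟨a1, a2, a3, a4⟩
        exact ⟨fun e => a4 ⟨rfl, e⟩, a1, a2⟩
      · rintro ⟨a1, a2, a3⟩
        exact ⟨a2, a3, fun e => hy (e.2 ▸ a2), fun e => a1 e.2⟩
    have h3 := ih (del G v y) (by rw [h2, card_erase_of_mem hv, hn]; rfl) (hs.congr hag)
    rw [← bb_congr hag] at h3
    have h4 := bb_mono _ G (con G v y) K rfl (fun a _ b _ hab => ⟨hab.ne, Or.inl hab⟩) hs hc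
    push_cast
    linarith

/-- adding a vertex -/
theorem bb_vertex {G : SimpleGraph V} {K : Finset V} {y : V} (hy : y ∉ K) (hc : 2 ≤ K.card)
    (hs : NS G K 1) (hn : 1 ≤ (nb G y K).card) :
    ((nb G y K).card - 1 : ℤ) * bb G K ≤ bb G (insert y K) := by
  have h := bb_vertex_aux hy hc ((nb G y K).card - 1) G (by omega) hs
  have : (((nb G y K).card - 1 : ℕ) : ℤ) = ((nb G y K).card - 1 : ℤ) := by
    push_cast [Nat.cast_sub hn]; ring
  rwa [this] at h

lemma nb_erase_card {G : SimpleGraph V} {S : Finset V} {v : V} :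
    nb G v (S.erase v) = nb G v S := by
  ext u
  rw [mem_nb, mem_nb, mem_erase]
  constructor
  · rintro ⟨h1, h2⟩; exact ⟨h1.2, h2⟩
  · rintro ⟨h1, h2⟩; exact ⟨⟨h2.ne.symm, h1⟩, h2⟩

/-- lower bound for `3`-connected graphs -/
theorem bb_three_aux : ∀ (n : ℕ) (G : SimpleGraph V) (S : Finset V), S.card = n + 2 →
    NS G S 3 → (n : ℤ) ≤ bb G S := by
  intro n
  induction n with
  | zero =>
    intro G S hS hs
    have := bb_pos (hs.le (by norm_num) : NS G S 2) (by omega)
    push_cast; linarith
  | succ n ih =>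
    intro G S hS hs
    have hs2 : NS G S 2 := hs.le (by norm_num)
    rcases Nat.lt_or_ge n 1 with h0 | h0
    · have h := bb_pos hs2 (by omega)
      have : n = 0 := by omega
      subst this; simpa using h
    rcases Nat.lt_or_ge n 2 with h1 | h1
    · have hn : n = 1 := by omega
      subst hn
      obtain ⟨y, hy⟩ : S.Nonempty := by rw [← card_pos]; omega
      have hdeg := NS_deg hs hy (by omega)
      rw [← nb_erase_card] at hdeg
      have hK : NS G (S.erase y) 2 := hs.erase hy
      have hcK : (S.erase y).card = 3 := by rw [card_erase_of_mem hy]; omega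
      have h3 := bb_vertex (notMem_erase y S) (by omega) (hK.le (by norm_num)) (by omega)
      rw [insert_erase hy] at h3
      have h4 := bb_pos hK (by omega)
      have h5 : (3 : ℤ) ≤ ((nb G y (S.erase y)).card : ℤ) := by exact_mod_cast hdeg
      push_cast
      nlinarith
    · obtain ⟨x, hx, y, hy, hxy, hcon⟩ := exists_contractible hs (by omega)
      have e := bb_edge hx hy hxy
      have h2 := ih (con G x y) (S.erase y) (by rw [card_erase_of_mem hy]; omega) hcon
      have h3 : NS (del G x y) S 2 := NS_del hs (by omega)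
      have h4 := bb_pos h3 (by omega)
      push_cast
      linarith

theorem bb_three {G : SimpleGraph V} {S : Finset V} (hs : NS G S 3) (hc : 2 ≤ S.card) :
    (S.card : ℤ) - 2 ≤ bb G S := by
  have h := bb_three_aux (S.card - 2) G S (by omega) hs
  have : ((S.card - 2 : ℕ) : ℤ) = (S.card : ℤ) - 2 := by push_cast [Nat.cast_sub hc]; ring
  rwa [this] at h

lemma nb_del_self {G : SimpleGraph V} {S : Finset V} {x y : V} (hy : y ∈ S) (hxy : x ≠ y) :
    nb (del G x y) x (S.erase x) = nb G x ((S.erase x).erase y) := by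
  ext u
  rw [mem_nb, mem_nb, mem_erase, mem_erase, mem_erase, del_adj]
  constructor
  · rintro ⟨⟨a1, a2⟩, a3, a4, a5⟩
    exact ⟨⟨fun e => a4 ⟨rfl, e⟩, a1, a2⟩, a3⟩
  · rintro ⟨⟨a1, a2, a3⟩, a4⟩
    exact ⟨⟨a2, a3⟩, a4, fun e => a1 e.2, fun e => hxy e.1⟩

/-- `b(G-e)` and `b(G/e)` when the neighbourhood of `x` is contained in that of `y` -/
theorem bb_subset {G : SimpleGraph V} {S : Finset V} {x y : V} (hx : x ∈ S) (hy : y ∈ S)
    (hxy : x ≠ y) (hs : NS G (S.erase x) 1) (hc : 3 ≤ S.card)
    (hX : 1 ≤ (nb G x ((S.erase x).erase y)).card)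
    (hsub : ∀ v ∈ (S.erase x).erase y, G.Adj x v → G.Adj y v) :
    ((nb G x ((S.erase x).erase y)).card - 1 : ℤ) * bb (con G x y) (S.erase y) ≤
      bb (del G x y) S := by
  have hag : Agree G (del G x y) (S.erase x) := agree_del_left (notMem_erase x S)
  have h1 := bb_vertex (G := del G x y) (notMem_erase x S)
    (by rw [card_erase_of_mem hx]; omega) (hs.congr hag) (by rw [nb_del_self hy hxy]; exact hX)
  rw [insert_erase hx, nb_del_self hy hxy, ← bb_congr hag] at h1
  have h2 : bb (con G x y) (S.erase y) = bb G (S.erase x) := by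
    rw [bb_con_symm hx hy hxy]
    symm
    apply bb_congr
    apply agree_con
    intro _ v hv hvy hxv
    exact hsub v (mem_erase.2 ⟨hvy, hv⟩) hxv
  rw [h2]
  exact h1

/-- lower bound for `b(G-e)` by the two degrees -/
theorem bb_degs {G : SimpleGraph V} {S : Finset V} {x y : V} (hx : x ∈ S) (hy : y ∈ S)
    (hxy : x ≠ y) (hF : NS G ((S.erase x).erase y) 1) (hc : 4 ≤ S.card)
    (hX : 1 ≤ (nb G x ((S.erase x).erase y)).card)
    (hY : 1 ≤ (nb G y ((S.erase x).erase y)).card) :
    ((nb G x ((S.erase x).erase y)).card - 1 : ℤ) * (((nb G y ((S.erase x).erase y)).card - 1 : ℤ) *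
      bb G ((S.erase x).erase y)) ≤ bb (del G x y) S := by
  have hyx : y ∈ S.erase x := mem_erase.2 ⟨hxy.symm, hy⟩
  have hcF : ((S.erase x).erase y).card = S.card - 2 := by
    rw [card_erase_of_mem hyx, card_erase_of_mem hx]; omega
  have h0 := bb_vertex (G := G) (notMem_erase y (S.erase x)) (by omega) hF hY
  rw [insert_erase hyx] at h0
  have hs : NS G (S.erase x) 1 := by
    have := NS_insert (notMem_erase y (S.erase x)) hF hY
    rwa [insert_erase hyx] at this
  have hag : Agree G (del G x y) (S.erase x) := agree_del_left (notMem_erase x S)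
  have h1 := bb_vertex (G := del G x y) (notMem_erase x S)
    (by rw [card_erase_of_mem hx]; omega) (hs.congr hag) (by rw [nb_del_self hy hxy]; exact hX)
  rw [insert_erase hx, nb_del_self hy hxy, ← bb_congr hag] at h1
  refine le_trans ?_ h1
  apply mul_le_mul_of_nonneg_left h0
  have : (1 : ℤ) ≤ ((nb G x ((S.erase x).erase y)).card : ℤ) := by exact_mod_cast hX
  linarith

end Pool.Agent.H62.Wh
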