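import Mathlib

/-!
Chromatic polynomials of the induced subgraphs `G[S]`.
-/

set_option linter.unusedSectionVars false
set_option linter.unusedVariables false

namespace Pool.Agent.H62.Wh

open Finset Polynomial

variable {V : Type*} [DecidableEq V]

/-- delete the edge `xy` -/
def del (G : SimpleGraph V) (x y : V) : SimpleGraph V where
  Adj a b := G.Adj a b ∧ ¬ (a = x ∧ b = y) ∧ ¬ (a = y ∧ b = x)
  symm := ⟨fun a b h => ⟨h.1.symm, fun h' => h.2.2 ⟨h'.2, h'.1⟩, fun h' => h.2.1 ⟨h'.2, h'.1⟩⟩⟩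
  loopless := ⟨fun a h => G.irrefl h.1⟩

/-- add the edge `xy` -/
def add (G : SimpleGraph V) (x y : V) : SimpleGraph V where
  Adj a b := G.Adj a b ∨ (a ≠ b ∧ ((a = x ∧ b = y) ∨ (a = y ∧ b = x)))
  symm := ⟨fun a b h => h.elim (fun h => Or.inl h.symm)
    (fun h => Or.inr ⟨h.1.symm, h.2.elim (fun h => Or.inr ⟨h.2, h.1⟩) (fun h => Or.inl ⟨h.2, h.1⟩)⟩)⟩
  loopless := ⟨fun a h => h.elim (fun h => G.irrefl h) (fun h => h.1 rfl)⟩

/-- merge `y` into `x` -/
def con (G : SimpleGraph V) (x y : V) : SimpleGraph V where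
  Adj a b := a ≠ b ∧ (G.Adj a b ∨ (a = x ∧ G.Adj y b) ∨ (b = x ∧ G.Adj y a))
  symm := ⟨fun a b h => ⟨h.1.symm, h.2.elim (fun h => Or.inl h.symm)
    (fun h => Or.inr (h.elim (fun h => Or.inr h) (fun h => Or.inl h)))⟩⟩
  loopless := ⟨fun a h => h.1 rfl⟩

lemma del_adj {G : SimpleGraph V} {x y a b : V} :
    (del G x y).Adj a b ↔ G.Adj a b ∧ ¬ (a = x ∧ b = y) ∧ ¬ (a = y ∧ b = x) := Iff.rfl

lemma add_adj {G : SimpleGraph V} {x y a b : V} :
    (add G x y).Adj a b ↔ G.Adj a b ∨ (a ≠ b ∧ ((a = x ∧ b = y) ∨ (a = y ∧ b = x))) := Iff.rfl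

lemma con_adj {G : SimpleGraph V} {x y a b : V} :
    (con G x y).Adj a b ↔ a ≠ b ∧ (G.Adj a b ∨ (a = x ∧ G.Adj y b) ∨ (b = x ∧ G.Adj y a)) := Iff.rfl

/-- two graphs agree on `S` -/
def Agree (G G' : SimpleGraph V) (S : Finset V) : Prop :=
  ∀ a ∈ S, ∀ b ∈ S, (G.Adj a b ↔ G'.Adj a b)

lemma Agree.symm {G G' : SimpleGraph V} {S : Finset V} (h : Agree G G' S) : Agree G' G S :=
  fun a ha b hb => (h a ha b hb).symm

lemma Agree.mono {G G' : SimpleGraph V} {S T : Finset V} (h : Agree G G' S) (hT : T ⊆ S) :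
    Agree G G' T := fun a ha b hb => h a (hT ha) b (hT hb)

variable [Fintype V]

/-- proper colourings of `G[S]` with colours `< k`, extended by `0` -/
noncomputable def cols (G : SimpleGraph V) (S : Finset V) (k : ℕ) : Finset (V → ℕ) :=
  @Finset.filter _ (fun f => ∀ a ∈ S, ∀ b ∈ S, G.Adj a b → f a ≠ f b) (Classical.decPred _)
    (Fintype.piFinset (fun v => if v ∈ S then range k else {0}))

lemma mem_cols {G : SimpleGraph V} {S : Finset V} {k : ℕ} {f : V → ℕ} :
    f ∈ cols G S k ↔ (∀ v ∈ S, f v < k) ∧ (∀ v, v ∉ S → f v = 0) ∧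
      ∀ a ∈ S, ∀ b ∈ S, G.Adj a b → f a ≠ f b := by
  unfold cols
  rw [@Finset.mem_filter _ _ (Classical.decPred _), Fintype.mem_piFinset]
  constructor
  · rintro ⟨h1, h2⟩
    refine ⟨fun v hv => ?_, fun v hv => ?_, h2⟩
    · have := h1 v; rw [if_pos hv, mem_range] at this; exact this
    · have := h1 v; rw [if_neg hv, mem_singleton] at this; exact this
  · rintro ⟨h1, h2, h3⟩
    refine ⟨fun v => ?_, h3⟩
    by_cases hv : v ∈ S
    · rw [if_pos hv, mem_range]; exact h1 v hv
    · rw [if_neg hv, mem_singleton]; exact h2 v hv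

lemma cols_congr {G G' : SimpleGraph V} {S : Finset V} (h : Agree G G' S) (k : ℕ) :
    cols G S k = cols G' S k := by
  ext f
  rw [mem_cols, mem_cols]
  constructor
  · rintro ⟨h1, h2, h3⟩
    exact ⟨h1, h2, fun a ha b hb hab => h3 a ha b hb ((h a ha b hb).2 hab)⟩
  · rintro ⟨h1, h2, h3⟩
    exact ⟨h1, h2, fun a ha b hb hab => h3 a ha b hb ((h a ha b hb).1 hab)⟩

/-- deletion and contraction for the number of colourings -/
lemma cols_del (G : SimpleGraph V) {S : Finset V} {x y : V} (hx : x ∈ S) (hy : y ∈ S) (hxy : x ≠ y)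
    (k : ℕ) : (cols (del G x y) S k).card =
      (cols (add G x y) S k).card + (cols (con G x y) (S.erase y) k).card := by
  classical
  rw [← card_filter_add_card_filter_not (s := cols (del G x y) S k) (fun f => f x ≠ f y)]
  congr 1
  · congr 1
    ext f
    rw [mem_filter, mem_cols, mem_cols]
    constructor
    · rintro ⟨⟨h1, h2, h3⟩, h4⟩
      refine ⟨h1, h2, fun a ha b hb hab => ?_⟩
      by_cases h5 : a = x ∧ b = y
      · rw [h5.1, h5.2]; exact h4
      · by_cases h6 : a = y ∧ b = x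
        · rw [h6.1, h6.2]; exact fun e => h4 e.symm
        · rcases hab with hab | ⟨_, h⟩
          · exact h3 a ha b hb ⟨hab, h5, h6⟩
          · exact absurd h (by tauto)
    · rintro ⟨h1, h2, h3⟩
      refine ⟨⟨h1, h2, fun a ha b hb hab => h3 a ha b hb (Or.inl hab.1)⟩, ?_⟩
      exact h3 x hx y hy (Or.inr ⟨hxy, Or.inl ⟨rfl, rfl⟩⟩)
  · refine card_bij' (fun f _ => Function.update f y 0) (fun f _ => Function.update f y (f x))
      ?_ ?_ ?_ ?_
    · intro f hf
      rw [mem_filter, mem_cols, not_not] at hf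
      obtain ⟨⟨h1, h2, h3⟩, h4⟩ := hf
      rw [mem_cols]
      refine ⟨fun v hv => ?_, fun v hv => ?_, fun a ha b hb hab => ?_⟩
      · rw [mem_erase] at hv
        rw [Function.update_of_ne hv.1]; exact h1 v hv.2
      · by_cases hvy : v = y
        · rw [hvy, Function.update_self]
        · rw [Function.update_of_ne hvy]
          exact h2 v (fun hvS => hv (mem_erase.2 ⟨hvy, hvS⟩))
      · rw [mem_erase] at ha hb
        rw [Function.update_of_ne ha.1, Function.update_of_ne hb.1]
        obtain ⟨hne, h | ⟨rfl, h⟩ | ⟨rfl, h⟩⟩ := hab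
        · exact h3 a ha.2 b hb.2 ⟨h, fun h' => hb.1 h'.2, fun h' => ha.1 h'.1⟩
        · rw [h4]
          exact h3 y hy b hb.2 ⟨h, fun h' => ha.1 h'.1.symm, fun h' => hne h'.2.symm⟩
        · rw [h4]
          exact (h3 y hy a ha.2 ⟨h, fun h' => hb.1 h'.1.symm, fun h' => hne h'.2⟩).symm
    · intro f hf
      rw [mem_cols] at hf
      obtain ⟨h1, h2, h3⟩ := hf
      rw [mem_filter, mem_cols, not_not]
      refine ⟨⟨fun v hv => ?_, fun v hv => ?_, fun a ha b hb hab => ?_⟩, ?_⟩
      · by_cases hvy : v = y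
        · rw [hvy, Function.update_self]; exact h1 x (mem_erase.2 ⟨hxy, hx⟩)
        · rw [Function.update_of_ne hvy]; exact h1 v (mem_erase.2 ⟨hvy, hv⟩)
      · have hvy : v ≠ y := fun e => hv (e ▸ hy)
        rw [Function.update_of_ne hvy]
        exact h2 v (fun h => hv (mem_erase.1 h).2)
      · by_cases hay : a = y
        · subst hay
          have hba : b ≠ a := fun e => G.irrefl (e ▸ hab.1)
          have hbx : b ≠ x := fun e => hab.2.2 ⟨rfl, e⟩
          rw [Function.update_self, Function.update_of_ne hba]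
          exact h3 x (mem_erase.2 ⟨hxy, hx⟩) b (mem_erase.2 ⟨hba, hb⟩)
            ⟨hbx.symm, Or.inr (Or.inl ⟨rfl, hab.1⟩)⟩
        · by_cases hby : b = y
          · subst hby
            have hax : a ≠ x := fun e => hab.2.1 ⟨e, rfl⟩
            rw [Function.update_self, Function.update_of_ne hay]
            exact h3 a (mem_erase.2 ⟨hay, ha⟩) x (mem_erase.2 ⟨hxy, hx⟩)
              ⟨hax, Or.inr (Or.inr ⟨rfl, hab.1.symm⟩)⟩
          · rw [Function.update_of_ne hay, Function.update_of_ne hby]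
            exact h3 a (mem_erase.2 ⟨hay, ha⟩) b (mem_erase.2 ⟨hby, hb⟩)
              ⟨fun e => G.irrefl (e ▸ hab.1), Or.inl hab.1⟩
      · rw [Function.update_self, Function.update_of_ne hxy]
    · intro f hf
      rw [mem_filter, not_not] at hf
      ext v
      by_cases hv : v = y
      · subst hv
        rw [Function.update_self, Function.update_of_ne hxy]; exact hf.2
      · rw [Function.update_of_ne hv, Function.update_of_ne hv]
    · intro f hf
      rw [mem_cols] at hf
      ext v
      by_cases hv : v = y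
      · subst hv
        rw [Function.update_self]; exact (hf.2.1 v (notMem_erase v S)).symm
      · rw [Function.update_of_ne hv, Function.update_of_ne hv]

/-- an isolated vertex -/
lemma cols_iso (G : SimpleGraph V) {S : Finset V} {a : V} (ha : a ∈ S)
    (hiso : ∀ b ∈ S, ¬ G.Adj a b) (k : ℕ) :
    (cols G S k).card = k * (cols G (S.erase a) k).card := by
  classical
  rw [← card_range k, ← card_product, card_range]
  refine card_bij' (fun f _ => (f a, Function.update f a 0))
    (fun p _ => Function.update p.2 a p.1) ?_ ?_ ?_ ?_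
  · intro f hf
    rw [mem_cols] at hf
    obtain ⟨h1, h2, h3⟩ := hf
    rw [mem_product, mem_range, mem_cols]
    refine ⟨h1 a ha, fun v hv => ?_, fun v hv => ?_, fun b hb c hc hbc => ?_⟩
    · rw [mem_erase] at hv
      show Function.update f a 0 v < k
      rw [Function.update_of_ne hv.1]; exact h1 v hv.2
    · show Function.update f a 0 v = 0
      by_cases hva : v = a
      · rw [hva, Function.update_self]
      · rw [Function.update_of_ne hva]
        exact h2 v (fun hvS => hv (mem_erase.2 ⟨hva, hvS⟩))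
    · rw [mem_erase] at hb hc
      show Function.update f a 0 b ≠ Function.update f a 0 c
      rw [Function.update_of_ne hb.1, Function.update_of_ne hc.1]
      exact h3 b hb.2 c hc.2 hbc
  · intro p hp
    rw [mem_product, mem_range, mem_cols] at hp
    obtain ⟨h0, h1, h2, h3⟩ := hp
    rw [mem_cols]
    refine ⟨fun v hv => ?_, fun v hv => ?_, fun b hb c hc hbc => ?_⟩
    · by_cases hva : v = a
      · rw [hva, Function.update_self]; exact h0
      · rw [Function.update_of_ne hva]; exact h1 v (mem_erase.2 ⟨hva, hv⟩)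
    · have hva : v ≠ a := fun e => hv (e ▸ ha)
      rw [Function.update_of_ne hva]
      exact h2 v (fun h => hv (mem_erase.1 h).2)
    · have hba : b ≠ a := fun e => hiso c hc (e ▸ hbc)
      have hca : c ≠ a := fun e => hiso b hb (e ▸ hbc.symm)
      rw [Function.update_of_ne hba, Function.update_of_ne hca]
      exact h3 b (mem_erase.2 ⟨hba, hb⟩) c (mem_erase.2 ⟨hca, hc⟩) hbc
  · intro f _
    ext v
    by_cases hv : v = a
    · subst hv; simp
    · simp [Function.update_of_ne hv]
  · intro p hp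
    rw [mem_product, mem_cols] at hp
    apply Prod.ext
    · simp
    · ext v
      by_cases hv : v = a
      · subst hv
        simp only [Function.update_self]
        exact (hp.2.2.1 v (notMem_erase v S)).symm
      · simp [Function.update_of_ne hv]

lemma cols_empty (G : SimpleGraph V) (k : ℕ) : (cols G ∅ k).card = 1 := by
  rw [card_eq_one]
  refine ⟨fun _ => 0, ?_⟩
  ext f
  rw [mem_cols, mem_singleton]
  constructor
  · rintro ⟨-, h, -⟩
    ext v; exact h v (notMem_empty v)
  · rintro rfl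
    simp

/-- ordered adjacent pairs -/
noncomputable def pairs (G : SimpleGraph V) (S : Finset V) : Finset (V × V) :=
  @Finset.filter _ (fun p => G.Adj p.1 p.2) (Classical.decPred _) (S ×ˢ S)

lemma mem_pairs {G : SimpleGraph V} {S : Finset V} {p : V × V} :
    p ∈ pairs G S ↔ p.1 ∈ S ∧ p.2 ∈ S ∧ G.Adj p.1 p.2 := by
  unfold pairs
  rw [@Finset.mem_filter _ _ (Classical.decPred _), mem_product, and_assoc]

lemma del_not_adj {G : SimpleGraph V} {x y : V} : ¬ (del G x y).Adj x y := fun h => h.2.1 ⟨rfl, rfl⟩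

lemma pairs_del_lt {G : SimpleGraph V} {S : Finset V} {x y : V} (hx : x ∈ S) (hy : y ∈ S)
    (hxy : G.Adj x y) : (pairs (del G x y) S).card < (pairs G S).card := by
  apply card_lt_card
  refine ⟨fun p hp => ?_, fun h => ?_⟩
  · rw [mem_pairs] at hp ⊢
    exact ⟨hp.1, hp.2.1, hp.2.2.1⟩
  · have := h (mem_pairs.2 ⟨hx, hy, hxy⟩ : (x, y) ∈ pairs G S)
    exact del_not_adj (mem_pairs.1 this).2.2

lemma add_self {G : SimpleGraph V} {x y : V} (hxy : G.Adj x y) : add G x y = G := by
  ext a b
  rw [add_adj]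
  constructor
  · rintro (h | ⟨_, ⟨rfl, rfl⟩ | ⟨rfl, rfl⟩⟩)
    · exact h
    · exact hxy
    · exact hxy.symm
  · exact Or.inl

lemma del_self {G : SimpleGraph V} {x y : V} (hxy : ¬ G.Adj x y) : del G x y = G := by
  ext a b
  rw [del_adj]
  constructor
  · exact fun h => h.1
  · intro h
    exact ⟨h, fun h' => hxy (h'.1 ▸ h'.2 ▸ h), fun h' => hxy (h'.1 ▸ h'.2 ▸ h.symm)⟩

theorem exists_poly (n : ℕ) : ∀ m, ∀ (G : SimpleGraph V) (S : Finset V), S.card = n →
    (pairs G S).card = m → ∃ p : ℤ[X], ∀ k : ℕ, p.eval (k : ℤ) = (cols G S k).card := by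
  induction n with
  | zero =>
    intro m G S hS _
    rw [card_eq_zero] at hS
    subst hS
    exact ⟨1, fun k => by rw [cols_empty]; simp⟩
  | succ n ihn =>
    intro m
    induction m using Nat.strong_induction_on with
    | _ m ihm =>
      intro G S hS hm
      by_cases h : (pairs G S).Nonempty
      · obtain ⟨⟨x, y⟩, hp⟩ := h
        rw [mem_pairs] at hp
        obtain ⟨hx, hy, hxy⟩ := hp
        simp only at hx hy hxy
        obtain ⟨p1, hp1⟩ := ihm _ (hm ▸ pairs_del_lt hx hy hxy) (del G x y) S hS rfl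
        obtain ⟨p2, hp2⟩ := ihn _ (con G x y) (S.erase y) (by rw [card_erase_of_mem hy, hS]; rfl) rfl
        refine ⟨p1 - p2, fun k => ?_⟩
        rw [eval_sub, hp1, hp2]
        have := cols_del G hx hy hxy.ne k
        rw [add_self hxy] at this
        rw [this]; push_cast; ring
      · have hno : ∀ a ∈ S, ∀ b ∈ S, ¬ G.Adj a b := by
          intro a ha b hb hab
          exact h ⟨(a, b), mem_pairs.2 ⟨ha, hb, hab⟩⟩
        obtain ⟨a, ha⟩ : S.Nonempty := by rw [← card_pos]; omega
        obtain ⟨p, hp⟩ := ihn _ G (S.erase a) (by rw [card_erase_of_mem ha, hS]; rfl) rfl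
        refine ⟨X * p, fun k => ?_⟩
        rw [eval_mul, eval_X, hp, cols_iso G ha (hno a ha)]
        push_cast; ring

/-- the chromatic polynomial of `G[S]` -/
noncomputable def P (G : SimpleGraph V) (S : Finset V) : ℤ[X] :=
  (exists_poly S.card (pairs G S).card G S rfl rfl).choose

lemma P_eval (G : SimpleGraph V) (S : Finset V) (k : ℕ) :
    (P G S).eval (k : ℤ) = (cols G S k).card :=
  (exists_poly S.card (pairs G S).card G S rfl rfl).choose_spec k

lemma poly_eq {p q : ℤ[X]} (h : ∀ k : ℕ, p.eval (k : ℤ) = q.eval (k : ℤ)) : p = q := by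
  apply Polynomial.eq_of_infinite_eval_eq
  apply Set.infinite_of_injective_forall_mem (f := fun k : ℕ => (k : ℤ))
  · exact Nat.cast_injective
  · exact h

lemma P_unique {G : SimpleGraph V} {S : Finset V} {q : ℤ[X]}
    (h : ∀ k : ℕ, q.eval (k : ℤ) = (cols G S k).card) : P G S = q :=
  poly_eq (fun k => by rw [P_eval, h])

lemma P_congr {G G' : SimpleGraph V} {S : Finset V} (h : Agree G G' S) : P G S = P G' S :=
  P_unique (fun k => by rw [P_eval, cols_congr h])

lemma P_empty (G : SimpleGraph V) : P G ∅ = 1 :=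
  P_unique (fun k => by rw [cols_empty]; simp)

lemma P_del (G : SimpleGraph V) {S : Finset V} {x y : V} (hx : x ∈ S) (hy : y ∈ S) (hxy : x ≠ y) :
    P (del G x y) S = P (add G x y) S + P (con G x y) (S.erase y) :=
  P_unique (fun k => by rw [eval_add, P_eval, P_eval, cols_del G hx hy hxy k]; push_cast; ring)

lemma P_iso (G : SimpleGraph V) {S : Finset V} {a : V} (ha : a ∈ S)
    (hiso : ∀ b ∈ S, ¬ G.Adj a b) : P G S = X * P G (S.erase a) :=
  P_unique (fun k => by rw [eval_mul, eval_X, P_eval, cols_iso G ha hiso]; push_cast; ring)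

/-- vanishing at `1` when there is an edge -/
lemma P_one {G : SimpleGraph V} {S : Finset V} {x y : V} (hx : x ∈ S) (hy : y ∈ S)
    (hxy : G.Adj x y) : (P G S).eval 1 = 0 := by
  have h := P_eval G S 1
  rw [Nat.cast_one] at h
  rw [h]
  norm_cast
  rw [card_eq_zero, eq_empty_iff_forall_notMem]
  intro f hf
  rw [mem_cols] at hf
  have h1 := hf.1 x hx
  have h2 := hf.1 y hy
  exact hf.2.2 x hx y hy hxy (by omega)

/-- vanishing at `0` -/
lemma P_zero {G : SimpleGraph V} {S : Finset V} (hS : S.Nonempty) : (P G S).eval 0 = 0 := by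
  have h := P_eval G S 0
  rw [Nat.cast_zero] at h
  rw [h]
  norm_cast
  rw [card_eq_zero, eq_empty_iff_forall_notMem]
  intro f hf
  rw [mem_cols] at hf
  obtain ⟨x, hx⟩ := hS
  exact absurd (hf.1 x hx) (Nat.not_lt_zero _)

/-- vanishing at `2` when there is a triangle -/
lemma P_two {G : SimpleGraph V} {S : Finset V} {x y z : V} (hx : x ∈ S) (hy : y ∈ S) (hz : z ∈ S)
    (hxy : G.Adj x y) (hyz : G.Adj y z) (hxz : G.Adj x z) : (P G S).eval 2 = 0 := by
  have h := P_eval G S 2
  rw [Nat.cast_ofNat] at h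
  rw [h]
  norm_cast
  rw [card_eq_zero, eq_empty_iff_forall_notMem]
  intro f hf
  rw [mem_cols] at hf
  have h1 := hf.1 x hx
  have h2 := hf.1 y hy
  have h3 := hf.1 z hz
  have e1 := hf.2.2 x hx y hy hxy
  have e2 := hf.2.2 y hy z hz hyz
  have e3 := hf.2.2 x hx z hz hxz
  omega

end Pool.Agent.H62.Wh
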