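import Pool.Agent.H62.WWheel

/-!
Odd wheels are determined by their chromatic polynomial.
-/

set_option linter.unusedSectionVars false
set_option linter.unusedVariables false

namespace Pool.Agent.H62.Wh

open Finset Polynomial

section struct

variable {V : Type*} [DecidableEq V] [Fintype V]

/-- the structure of a `3`-connected graph with the numbers of a wheel -/
theorem final_struct {H : SimpleGraph V} {n : ℕ} (hn : 11 ≤ n)
    (hV : Fintype.card V = n + 1) (ht : cl H 3 univ = n) (hb : bb H univ + 1 = n)
    (h3 : NS H univ 3) : ∃ (h x y : V) (l : List V), (x :: l).Nodup ∧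
      (x :: l).toFinset = univ.erase h ∧ (x :: l).getLast? = some y ∧
      (∀ v ∈ x :: l, H.Adj h v) ∧ EP (del H x y) (x :: l) ∧ H.Adj x y := by
  have hc : (univ : Finset V).card = n + 1 := by rw [card_univ, hV]
  obtain ⟨x, hx, y, hy, hxy, hcon⟩ := exists_contractible h3 (by omega)
  have h : Setup H univ x y := ⟨hx, hy, hxy, h3, hcon, by omega⟩
  have hN := h.nums
  have g1 := hN.hb
  have g2 := hN.b2p
  have g3 := hN.b1p
  have g4 := hN.htd
  have g5 := hN.cun
  have g6 := hN.un3
  have g7 := hN.bFp
  have g8 := hN.al2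
  have g9 := hN.be2
  rw [hc] at g3
  push_cast at g3
  have hb2 : bb (del H x y) univ = 1 := by
    clear hN g4 g5 g6 g7 g8 g9
    omega
  have g10 := hN.one hb2
  rw [hc] at g10
  have n1 : (nb H x (Fs univ x y)).card ≤ 2 := by
    by_contra g
    have := hN.deg 2 1 (by omega) (by omega)
    rw [hb2] at this
    push_cast at this; linarith
  have n2 : (nb H y (Fs univ x y)).card ≤ 2 := by
    by_contra g
    have := hN.deg 1 2 (by omega) (by omega)
    rw [hb2] at this
    push_cast at this; linarith
  rw [ht] at g4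
  have k1 : (nb H x (Fs univ x y) ∩ nb H y (Fs univ x y)).card = 1 := by
    clear hN g1 g2 g3 g7
    omega
  have k2 : cl (del H x y) 3 univ = n - 1 := by
    clear hN g1 g2 g3 g7
    omega
  obtain ⟨w, hw⟩ := card_pos.1 (by rw [k1]; norm_num : 0 < (nb H x (Fs univ x y) ∩ nb H y (Fs univ x y)).card)
  rw [mem_inter, mem_nb, mem_nb] at hw
  obtain ⟨⟨hwF, hxw⟩, _, hyw⟩ := hw
  have hwF' := mem_Fs.1 hwF
  have e1 : nb (del H x y) x univ = nb H x (Fs univ x y) := by
    rw [← nb_erase_card, nb_del_self hy hxy.ne]; rfl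
  have e2 : nb (del H x y) y univ = nb H y (Fs univ x y) := by
    rw [← nb_erase_card, del_comm, nb_del_self hx hxy.ne.symm]
    unfold Fs; rw [erase_right_comm]
  obtain ⟨l, l1, l2, l3, l4, l5⟩ := fan_structure (n - 3) (del H x y) univ x y w (by omega) h.nsd hb2
    (by omega) hx hy (mem_univ w) hxy.ne del_not_adj (by rw [e1]; omega) (by rw [e2]; omega)
    (by
      intro v hv hvx hvy
      have h1 := NS_deg h3 hv (by omega)
      refine h1.trans (card_le_card ?_)
      intro u hu
      rw [mem_nb] at hu ⊢
      exact ⟨hu.1, hu.2, fun e => hvx e.1, fun e => hvy e.1⟩)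
    ⟨hxw, fun e => hwF'.1 e.2, fun e => hxy.ne e.1⟩
    ⟨hyw, fun e => hxy.ne e.1.symm, fun e => hwF'.2.1 e.2⟩
  exact ⟨w, x, y, l, l1, l2, l3, fun v hv => (l4 v hv).1, l5, hxy⟩

end struct

/-- adjacency in a cycle -/
lemma cyc_adj {n : ℕ} (hn : 3 ≤ n) (u v : Fin n) : (SimpleGraph.cycleGraph n).Adj u v ↔
    (u.val + 1 = v.val ∨ v.val + 1 = u.val ∨ (u.val = 0 ∧ v.val + 1 = n) ∨
      (v.val = 0 ∧ u.val + 1 = n)) := by
  obtain ⟨m, rfl⟩ : ∃ m, n = m + 2 := ⟨n - 2, by omega⟩
  have key : ∀ a b : Fin (m + 2), a - b = 1 ↔ (b.val + 1 = a.val ∨ (a.val = 0 ∧ b.val + 1 = m + 2)) := by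
    intro a b
    rw [sub_eq_iff_eq_add, Fin.ext_iff, Fin.val_add]
    have h1 : ((1 : Fin (m + 2)) : ℕ) = 1 := rfl
    rw [h1]
    have ha := a.isLt
    have hb := b.isLt
    by_cases h : b.val + 1 = m + 2
    · have : (1 + b.val) % (m + 2) = 0 := by rw [show 1 + b.val = m + 2 by omega]; exact Nat.mod_self _
      rw [this]
      omega
    · have : (1 + b.val) % (m + 2) = 1 + b.val := Nat.mod_eq_of_lt (by omega)
      rw [this]
      omega
  rw [SimpleGraph.cycleGraph_adj, key, key]
  tauto

/-- the wheel -/
abbrev Wg (n : ℕ) : SimpleGraph (Option (Fin n)) :=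
  SimpleGraph.fromRel (fun a b : Option (Fin n) =>
    a = none ∨ ∃ i j : Fin n, a = some i ∧ b = some j ∧ (SimpleGraph.cycleGraph n).Adj i j)

lemma Wg_none {n : ℕ} (i : Fin n) : (Wg n).Adj none (some i) := by
  rw [SimpleGraph.fromRel_adj]
  exact ⟨by simp, Or.inl (Or.inl rfl)⟩

lemma Wg_some {n : ℕ} (hn : 3 ≤ n) (i j : Fin n) : (Wg n).Adj (some i) (some j) ↔
    (i.val + 1 = j.val ∨ j.val + 1 = i.val ∨ (i.val = 0 ∧ j.val + 1 = n) ∨
      (j.val = 0 ∧ i.val + 1 = n)) := by
  rw [SimpleGraph.fromRel_adj, ← cyc_adj hn]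
  constructor
  · rintro ⟨h1, (h2 | ⟨i', j', h3, h4, h5⟩) | (h2 | ⟨i', j', h3, h4, h5⟩)⟩
    · exact absurd h2 (by simp)
    · rw [Option.some_inj] at h3 h4
      subst h3; subst h4
      exact h5
    · exact absurd h2 (by simp)
    · rw [Option.some_inj] at h3 h4
      subst h3; subst h4
      exact h5.symm
  · intro h
    exact ⟨fun e => h.ne (Option.some_inj.1 e), Or.inl (Or.inr ⟨i, j, rfl, rfl, h⟩)⟩

/-- the fan -/
def Fan (n : ℕ) : SimpleGraph (Option (Fin n)) :=
  SimpleGraph.fromRel (fun a b : Option (Fin n) =>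
    a = none ∨ ∃ i j : Fin n, a = some i ∧ b = some j ∧ i.val + 1 = j.val)

lemma Fan_none {n : ℕ} (i : Fin n) : (Fan n).Adj none (some i) := by
  unfold Fan
  rw [SimpleGraph.fromRel_adj]
  exact ⟨by simp, Or.inl (Or.inl rfl)⟩

lemma Fan_some {n : ℕ} (i j : Fin n) : (Fan n).Adj (some i) (some j) ↔
    (i.val + 1 = j.val ∨ j.val + 1 = i.val) := by
  unfold Fan
  rw [SimpleGraph.fromRel_adj]
  constructor
  · rintro ⟨h1, (h2 | ⟨i', j', h3, h4, h5⟩) | (h2 | ⟨i', j', h3, h4, h5⟩)⟩
    · exact absurd h2 (by simp)
    · rw [Option.some_inj] at h3 h4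
      subst h3; subst h4
      exact Or.inl h5
    · exact absurd h2 (by simp)
    · rw [Option.some_inj] at h3 h4
      subst h3; subst h4
      exact Or.inr h5
  · rintro (h | h)
    · exact ⟨fun e => by rw [Option.some_inj] at e; subst e; omega, Or.inl (Or.inr ⟨i, j, rfl, rfl, h⟩)⟩
    · exact ⟨fun e => by rw [Option.some_inj] at e; subst e; omega, Or.inr (Or.inr ⟨j, i, rfl, rfl, h⟩)⟩

/-- the chromatic polynomial of the wheel -/
theorem P_Wg {n : ℕ} (hn : 3 ≤ n) : P (Wg n) univ = Q n := by
  set L : List (Option (Fin n)) := (List.finRange n).map some with hL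
  have hlen : L.length = n := by rw [hL, List.length_map, List.length_finRange]
  have hget : ∀ (i : ℕ) (hi : i < L.length), L[i] = some ⟨i, by omega⟩ := by
    intro i hi
    simp [hL]
  have hEP : EP (Fan n) L := by
    rw [EP_iff]
    intro i j hij hj
    rw [hget i (by omega), hget j hj, Fan_some]
    show (i + 1 = j ∨ j + 1 = i) ↔ j = i + 1
    omega
  have hnd : L.Nodup := by
    rw [hL]
    exact (List.nodup_finRange n).map (Option.some_injective _)
  have hmem : ∀ v, v ∈ L ↔ v ≠ none := by
    intro v
    rw [hL, List.mem_map]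
    constructor
    · rintro ⟨i, _, rfl⟩; simp
    · intro h
      obtain ⟨i, rfl⟩ := Option.ne_none_iff_exists'.1 h
      exact ⟨i, List.mem_finRange i, rfl⟩
  have hadj : ∀ v ∈ L, (Fan n).Adj none v := by
    intro v hv
    obtain ⟨i, rfl⟩ := Option.ne_none_iff_exists'.1 ((hmem v).1 hv)
    exact Fan_none i
  have hz : L.getLast? = some (some ⟨n - 1, by omega⟩) := by
    rw [List.getLast?_eq_getElem?, hlen, List.getElem?_eq_getElem (by omega), hget]
  obtain ⟨a, b, l, hLe⟩ : ∃ a b l, L = a :: b :: l := by
    cases h1 : L with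
    | nil => rw [h1] at hlen; simp at hlen; omega
    | cons a t =>
      cases t with
      | nil => rw [h1] at hlen; simp at hlen; omega
      | cons b l => exact ⟨a, b, l, rfl⟩
  have ha : a = some ⟨0, by omega⟩ := by
    have := hget 0 (by omega)
    rw [← this]
    simp [hLe]
  have hun : (univ : Finset (Option (Fin n))) = insert none L.toFinset := by
    ext v
    simp only [mem_univ, mem_insert, List.mem_toFinset, true_iff]
    rw [hmem]
    tauto
  rw [hLe] at hEP hnd hadj hz hlen hmem hun
  have hw := wheelP (Fan n) none l a b (some ⟨n - 1, by omega⟩) hnd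
    (fun h => (hmem none).1 h rfl) hadj hEP (by rw [List.getLast?_cons_cons] at hz; exact hz)
  have hl2 : l.length + 2 = n := by simpa using hlen
  rw [← hun, hl2, ha] at hw
  have hag : P (Wg n) univ = P (add (Fan n) (some ⟨0, by omega⟩) (some ⟨n - 1, by omega⟩)) univ := by
    apply P_congr
    intro u _ v _
    rw [add_adj]
    cases u with
    | none =>
      cases v with
      | none =>
        constructor
        · intro h; exact absurd rfl h.ne
        · rintro (h | ⟨h, _⟩)
          · exact absurd rfl h.ne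
          · exact absurd rfl h
      | some j => exact ⟨fun _ => Or.inl (Fan_none j), fun _ => Wg_none j⟩
    | some i =>
      cases v with
      | none => exact ⟨fun _ => Or.inl (Fan_none i).symm, fun _ => (Wg_none i).symm⟩
      | some j =>
        rw [Wg_some hn, Fan_some]
        simp only [Option.some_inj, ne_eq, Fin.ext_iff]
        have hi := i.isLt
        have hj := j.isLt
        constructor
        · rintro (h | h | h | h)
          · exact Or.inl (Or.inl h)
          · exact Or.inl (Or.inr h)
          · exact Or.inr ⟨by omega, Or.inl ⟨h.1, by omega⟩⟩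
          · exact Or.inr ⟨by omega, Or.inr ⟨by omega, h.1⟩⟩
        · rintro ((h | h) | ⟨_, h | h⟩)
          · exact Or.inl h
          · exact Or.inr (Or.inl h)
          · exact Or.inr (Or.inr (Or.inl ⟨h.1, by omega⟩))
          · exact Or.inr (Or.inr (Or.inr ⟨h.2, by omega⟩))
  rw [hag, hw]
  rfl

/-- the isomorphism -/
theorem iso_of_struct {V : Type*} [DecidableEq V] [Fintype V] {H : SimpleGraph V} {n : ℕ}
    (hn : 11 ≤ n) (hV : Fintype.card V = n + 1) (hs : ∃ (h x y : V) (l : List V), (x :: l).Nodup ∧
      (x :: l).toFinset = univ.erase h ∧ (x :: l).getLast? = some y ∧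
      (∀ v ∈ x :: l, H.Adj h v) ∧ EP (del H x y) (x :: l) ∧ H.Adj x y) :
    Nonempty (H ≃g Wg n) := by
  obtain ⟨h, x, y, l, h1, h2, h3, h4, h5, h6⟩ := hs
  obtain ⟨L, hL⟩ : ∃ L, L = x :: l := ⟨_, rfl⟩
  have hlen : L.length = n := by
    rw [hL, ← List.toFinset_card_of_nodup h1, h2, card_erase_of_mem (mem_univ h), card_univ, hV]
    rfl
  have hx0 : L[0]'(by omega) = x := by simp [hL]
  have hyn : L[n - 1]'(by omega) = y := by
    have h7 : L.getLast? = some y := by rw [hL]; exact h3
    rw [List.getLast?_eq_getElem?, hlen, List.getElem?_eq_getElem (by omega)] at h7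
    exact Option.some_inj.1 h7
  rw [← hL] at h1 h2 h4 h5
  have hinj : ∀ (i j : ℕ) (hi : i < L.length) (hj : j < L.length), L[i] = L[j] → i = j := by
    intro i j hi hj hij
    exact (List.Nodup.getElem_inj_iff h1).1 hij
  have hnot : h ∉ L := by
    rw [← List.mem_toFinset, h2]; exact notMem_erase h univ
  rw [EP_iff] at h5
  -- adjacency along the list
  have hadj : ∀ (i j : ℕ) (hij : i < j) (hj : j < L.length),
      (H.Adj (L[i]'(by omega)) L[j] ↔ (i + 1 = j ∨ (i = 0 ∧ j + 1 = n))) := by
    intro i j hij hj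
    have h7 := h5 i j hij hj
    constructor
    · intro h8
      by_cases h9 : (L[i]'(by omega)) = x ∧ L[j] = y
      · right
        constructor
        · apply hinj i 0 (by omega) (by omega)
          rw [h9.1, hx0]
        · have := hinj j (n - 1) hj (by omega) (by rw [h9.2, hyn])
          omega
      · left
        have h10 : ¬ ((L[i]'(by omega)) = y ∧ L[j] = x) := by
          rintro ⟨g1, g2⟩
          have := hinj j 0 hj (by omega) (by rw [g2, hx0])
          omega
        have := h7.1 ⟨h8, h9, h10⟩
        omega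
    · rintro (h8 | ⟨h8, h9⟩)
      · exact (h7.2 (by omega)).1
      · have e1 : (L[i]'(by omega)) = x := by
          subst h8
          exact hx0
        have e2 : L[j] = y := by
          have : j = n - 1 := by omega
          subst this
          exact hyn
        rw [e1, e2]; exact h6
  let g : Option (Fin n) → V := fun o => o.elim h (fun i => L[i.val]'(by rw [hlen]; exact i.isLt))
  have g0 : g none = h := rfl
  have gs : ∀ i : Fin n, g (some i) = L[i.val]'(by rw [hlen]; exact i.isLt) := fun i => rfl
  have ginj : Function.Injective g := by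
    intro a b hab
    cases a with
    | none =>
      cases b with
      | none => rfl
      | some j =>
        exfalso
        rw [g0, gs] at hab
        exact hnot (hab ▸ List.getElem_mem _)
    | some i =>
      cases b with
      | none =>
        exfalso
        rw [g0, gs] at hab
        exact hnot (hab ▸ List.getElem_mem _)
      | some j =>
        rw [gs, gs] at hab
        have := hinj _ _ _ _ hab
        rw [Fin.ext this]
  have gbij : Function.Bijective g := by
    rw [Fintype.bijective_iff_injective_and_card]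
    refine ⟨ginj, ?_⟩
    rw [hV, Fintype.card_option, Fintype.card_fin]
  have grel : ∀ a b, H.Adj (g a) (g b) ↔ (Wg n).Adj a b := by
    intro a b
    cases a with
    | none =>
      cases b with
      | none =>
        constructor
        · intro h'; exact absurd rfl h'.ne
        · intro h'; exact absurd rfl h'.ne
      | some j =>
        rw [g0, gs]
        exact ⟨fun _ => Wg_none j, fun _ => h4 _ (List.getElem_mem _)⟩
    | some i =>
      cases b with
      | none =>
        rw [g0, gs]
        exact ⟨fun _ => (Wg_none i).symm, fun _ => (h4 _ (List.getElem_mem _)).symm⟩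
      | some j =>
        rw [gs, gs, Wg_some (by omega)]
        have hi := i.isLt
        have hj := j.isLt
        rcases Nat.lt_trichotomy i.val j.val with hlt | heq | hgt
        · rw [hadj i.val j.val hlt (by omega)]
          omega
        · constructor
          · intro h'
            have : i = j := Fin.ext heq
            subst this
            exact absurd rfl h'.ne
          · intro h'; omega
        · rw [SimpleGraph.adj_comm, hadj j.val i.val hgt (by omega)]
          omega
  exact ⟨(⟨Equiv.ofBijective g gbij, fun {a b} => grel a b⟩ : Wg n ≃g H).symm⟩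

theorem wheel_unique (n : ℕ) (hn : 11 ≤ n) (hodd : Odd n) (V : Type*) [Fintype V]
    (H : SimpleGraph V)
    (hk : ∀ k : ℕ, Nat.card (H.Coloring (Fin k)) = Nat.card ((Wg n).Coloring (Fin k))) :
    Nonempty (H ≃g Wg n) := by
  classical
  have hP : P H univ = Q n := by rw [P_eq_of_card hk, P_Wg (by omega)]
  have hV : Fintype.card V = n + 1 := by
    rw [← natDegree_P H, P_eq_of_card hk, natDegree_P, Fintype.card_option, Fintype.card_fin]
  have hc : (univ : Finset V).card = n + 1 := by rw [card_univ, hV]
  obtain ⟨c1, c2, c3, c4⟩ := P_coeffs _ _ H univ rfl rfl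
  rw [hc] at c3 c4
  have m2 : (cl H 2 univ : ℤ) = 2 * n := by
    have := c3 n rfl
    rw [hP, Q_coeff_one hodd (by omega)] at this
    linarith
  have m3 : cl H 3 univ = n := by
    have h1 := c4 (n - 1) (by omega)
    rw [hP, Q_coeff_two hodd (by omega), m2] at h1
    have h2 : (cl H 3 univ : ℤ) = n := by linarith
    exact_mod_cast h2
  have hb : bb H univ + 1 = n := by
    unfold bb
    rw [hP, Q_deriv_one hodd, hc, (hodd.add_one).neg_one_pow]
    ring
  have hd2 : (derivative (P H univ)).eval 2 ≠ 0 := by
    rw [hP, Q_deriv_two hodd (by omega)]; norm_num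
  have hs1 : NS H univ 1 := by
    intro A B hAB
    by_contra hcon
    have hle : A.card + B.card ≤ (univ : Finset V).card := by
      rw [← card_union_of_disjoint hAB.2.2.1]; exact card_le_card (subset_univ _)
    have hU : A ∪ (B ∪ ∅) = univ := by
      rw [union_empty]
      apply eq_of_subset_of_card_le (subset_univ _)
      rw [card_union_of_disjoint hAB.2.2.1]
      omega
    have hg := P_glue _ _ H A B ∅ rfl rfl (by rw [union_empty]; exact hAB.2.2.1) hAB.2.2.2.2.2
      (fun a ha => absurd ha (notMem_empty a))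
    rw [hU, union_empty, union_empty, P_empty, one_mul] at hg
    apply Q_deriv_zero hodd (by omega)
    rw [← hP, hg, derivative_mul, eval_add, eval_mul, eval_mul, P_zero hAB.2.2.2.1,
      P_zero hAB.2.2.2.2.1]
    ring
  have hs2 : NS H univ 2 := by
    intro A B hAB
    have h1 := hs1 A B hAB
    by_contra hcon
    have := bb_cut hs1 hAB (by omega)
    rw [this] at hb
    have : (11 : ℤ) ≤ n := by exact_mod_cast hn
    linarith
  have hK : ∀ T : Finset V, T.card = 5 → ∃ p ∈ T, ∃ q ∈ T, p ≠ q ∧ ¬ H.Adj p q := by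
    intro T hT
    by_contra hcon
    push Not at hcon
    apply Q_four hodd (by omega)
    rw [← hP]
    have h4 := P_eval H univ 4
    rw [Nat.cast_ofNat] at h4
    rw [h4]
    norm_cast
    rw [card_eq_zero, eq_empty_iff_forall_notMem]
    intro f hf
    rw [mem_cols] at hf
    have hmaps : ∀ a ∈ T, f a ∈ range 4 := fun a _ => mem_range.2 (hf.1 a (mem_univ a))
    obtain ⟨a, ha, b, hb', hab, hfab⟩ := exists_ne_map_eq_of_card_lt_of_maps_to
      (by rw [card_range, hT]; norm_num) hmaps
    exact hf.2.2 a (mem_univ a) b (mem_univ b) (hcon a ha b hb' hab) hfab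
  have h3 := three_connected hn hodd hV m3 hb hd2 hs2 hK
  exact iso_of_struct hn hV (final_struct hn hV m3 hb h3)

end Pool.Agent.H62.Wh
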