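import Pool.Agent.H62.WChrom

/-!
Gluing along cliques, simplicial vertices, and the chromatic invariant at `1`.
-/

set_option linter.unusedSectionVars false
set_option linter.unusedVariables false

namespace Pool.Agent.H62.Wh

open Finset Polynomial

variable {V : Type*} [DecidableEq V]

lemma del_comm (G : SimpleGraph V) (x y : V) : del G x y = del G y x := by
  ext a b
  rw [del_adj, del_adj]
  tauto

lemma add_comm' (G : SimpleGraph V) (x y : V) : add G x y = add G y x := by
  ext a b
  rw [add_adj, add_adj]
  tauto

lemma agree_del_right {G : SimpleGraph V} {x y : V} {T : Finset V} (h : y ∉ T) :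
    Agree G (del G x y) T := by
  intro a ha b hb
  rw [del_adj]
  constructor
  · intro hab
    exact ⟨hab, fun h' => h (h'.2 ▸ hb), fun h' => h (h'.1 ▸ ha)⟩
  · exact fun h' => h'.1

lemma agree_del_left {G : SimpleGraph V} {x y : V} {T : Finset V} (h : x ∉ T) :
    Agree G (del G x y) T := by
  rw [del_comm]; exact agree_del_right h

lemma agree_add_right {G : SimpleGraph V} {x y : V} {T : Finset V} (h : y ∉ T) :
    Agree G (add G x y) T := by
  intro a ha b hb
  rw [add_adj]
  constructor
  · intro hab
    exact Or.inl hab
  · rintro (h' | ⟨_, h' | h'⟩)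
    · exact h'
    · exact absurd (h'.2 ▸ hb) h
    · exact absurd (h'.1 ▸ ha) h

lemma agree_add_left {G : SimpleGraph V} {x y : V} {T : Finset V} (h : x ∉ T) :
    Agree G (add G x y) T := by
  rw [add_comm']; exact agree_add_right h

lemma agree_con {G : SimpleGraph V} {x y : V} {T : Finset V}
    (h : x ∈ T → ∀ v ∈ T, v ≠ x → G.Adj y v → G.Adj x v) :
    Agree G (con G x y) T := by
  intro a ha b hb
  rw [con_adj]
  constructor
  · intro hab
    exact ⟨hab.ne, Or.inl hab⟩
  · rintro ⟨hne, h' | ⟨rfl, h'⟩ | ⟨rfl, h'⟩⟩
    · exact h'
    · exact h ha b hb hne.symm h'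
    · exact (h hb a ha hne h').symm

variable [Fintype V]

lemma P_edge {G : SimpleGraph V} {S : Finset V} {x y : V} (hx : x ∈ S) (hy : y ∈ S)
    (hxy : G.Adj x y) : P G S = P (del G x y) S - P (con G x y) (S.erase y) := by
  rw [P_del G hx hy hxy.ne, add_self hxy]; ring

lemma P_nonedge {G : SimpleGraph V} {S : Finset V} {x y : V} (hx : x ∈ S) (hy : y ∈ S)
    (hne : x ≠ y) (hxy : ¬ G.Adj x y) :
    P G S = P (add G x y) S + P (con G x y) (S.erase y) := by
  have := P_del G hx hy hne
  rwa [del_self hxy] at this

lemma P_con_symm {G : SimpleGraph V} {S : Finset V} {x y : V} (hx : x ∈ S) (hy : y ∈ S)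
    (hne : x ≠ y) : P (con G x y) (S.erase y) = P (con G y x) (S.erase x) := by
  have h1 := P_del G hx hy hne
  have h2 := P_del G hy hx hne.symm
  rw [del_comm, add_comm'] at h2
  rw [h1] at h2
  exact add_left_cancel h2

/-- a vertex whose neighbours form a clique -/
theorem P_simplicial : ∀ (n : ℕ) (G : SimpleGraph V) (S K : Finset V) (v : V), K.card = n →
    v ∉ S → K ⊆ S → (∀ u ∈ S, G.Adj v u ↔ u ∈ K) → (∀ a ∈ K, ∀ b ∈ K, a ≠ b → G.Adj a b) →
    P G (insert v S) = (X - C (n : ℤ)) * P G S := by
  intro n
  induction n with
  | zero =>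
    intro G S K v hK hv _ hN _
    rw [card_eq_zero] at hK
    subst hK
    rw [P_iso G (mem_insert_self v S), erase_insert hv]
    · simp
    · intro b hb
      rw [mem_insert] at hb
      rcases hb with rfl | hb
      · exact G.irrefl
      · rw [hN b hb]; exact notMem_empty b
  | succ n ih =>
    intro G S K v hK hv hKS hN hcl
    obtain ⟨u, hu⟩ : K.Nonempty := by rw [← card_pos]; omega
    have huS := hKS hu
    have hvu : G.Adj v u := (hN u huS).2 hu
    have h1 := P_edge (mem_insert_of_mem huS) (mem_insert_self v S) hvu.symm
    rw [erase_insert hv] at h1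
    have h2 : P (con G u v) S = P G S := by
      symm
      apply P_congr
      apply agree_con
      intro _ w hw hwu hvw
      exact hcl u hu w ((hN w hw).1 hvw) hwu.symm
    have h3 := ih (del G u v) S (K.erase u) v (by rw [card_erase_of_mem hu, hK]; rfl) hv
      (fun w hw => hKS (mem_of_mem_erase hw))
      (by
        intro w hw
        rw [del_adj, mem_erase, hN w hw]
        constructor
        · rintro ⟨h4, _, h6⟩
          exact ⟨fun e => h6 ⟨rfl, e⟩, h4⟩
        · rintro ⟨h4, h5⟩
          exact ⟨h5, fun e => hv (e.1 ▸ huS), fun e => h4 e.2⟩)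
      (by
        intro a ha b hb hab
        have ha' := mem_erase.1 ha
        have hb' := mem_erase.1 hb
        exact ⟨hcl a ha'.2 b hb'.2 hab, fun e => ha'.1 e.1, fun e => hb'.1 e.2⟩)
    have h4 : P (del G u v) S = P G S := (P_congr (agree_del_right hv)).symm
    rw [h1, h2, h3, h4, Nat.cast_succ, map_add, map_one]
    ring

/-- gluing along a clique -/
theorem P_glue : ∀ (n : ℕ) (m : ℕ) (G : SimpleGraph V) (A B K : Finset V), A.card = n →
    (pairs G (A ∪ (B ∪ K))).card = m → Disjoint A (B ∪ K) →
    (∀ a ∈ A, ∀ b ∈ B, ¬ G.Adj a b) → (∀ a ∈ K, ∀ b ∈ K, a ≠ b → G.Adj a b) →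
    P G K * P G (A ∪ (B ∪ K)) = P G (A ∪ K) * P G (B ∪ K) := by
  intro n
  induction n with
  | zero =>
    intro m G A B K hA _ _ _ _
    rw [card_eq_zero] at hA
    subst hA
    rw [empty_union, empty_union]
  | succ n ihn =>
    intro m
    induction m using Nat.strong_induction_on with
    | _ m ihm =>
      intro G A B K hA hm hdis hAB hK
      by_cases h : ∃ a ∈ A, ∃ z ∈ A ∪ K, G.Adj z a
      · obtain ⟨a, ha, z, hz, hza⟩ := h
        have haBK : a ∉ B ∪ K := disjoint_left.1 hdis ha
        have haK : a ∉ K := fun h => haBK (mem_union_right _ h)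
        have hzS : z ∈ A ∪ (B ∪ K) := by
          rcases mem_union.1 hz with hz | hz
          · exact mem_union_left _ hz
          · exact mem_union_right _ (mem_union_right _ hz)
        have haS : a ∈ A ∪ (B ∪ K) := mem_union_left _ ha
        have e1 := P_edge hzS haS hza
        have e2 := P_edge hz (mem_union_left _ ha) hza
        have er1 : (A ∪ (B ∪ K)).erase a = A.erase a ∪ (B ∪ K) := by
          ext w
          simp only [mem_erase, mem_union]
          constructor
          · rintro ⟨h1, h2 | h2⟩
            · exact Or.inl ⟨h1, h2⟩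
            · exact Or.inr h2
          · rintro (h1 | h1)
            · exact ⟨h1.1, Or.inl h1.2⟩
            · exact ⟨fun e => haBK (e ▸ mem_union.2 h1), Or.inr h1⟩
        have er2 : (A ∪ K).erase a = A.erase a ∪ K := by
          ext w
          simp only [mem_erase, mem_union]
          constructor
          · rintro ⟨h1, h2 | h2⟩
            · exact Or.inl ⟨h1, h2⟩
            · exact Or.inr h2
          · rintro (h1 | h1)
            · exact ⟨h1.1, Or.inl h1.2⟩
            · exact ⟨fun e => haK (e ▸ h1), Or.inr h1⟩
        rw [er1] at e1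
        rw [er2] at e2
        have hzB : z ∉ B ∨ True := Or.inr trivial
        have d1 : P (del G z a) K = P G K := (P_congr (agree_del_right haK)).symm
        have d2 : P (del G z a) (B ∪ K) = P G (B ∪ K) := (P_congr (agree_del_right haBK)).symm
        have ac : Agree G (con G z a) (B ∪ K) := by
          apply agree_con
          intro hzT v hv hvz hav
          rcases mem_union.1 hv with hv | hv
          · exact absurd hav (hAB a ha v hv)
          · have hzK : z ∈ K := by
              rcases mem_union.1 hz with hz | hz
              · exact absurd hzT (disjoint_left.1 hdis hz)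
              · exact hz
            exact hK z hzK v hv hvz.symm
        have c2 : P (con G z a) (B ∪ K) = P G (B ∪ K) := (P_congr ac).symm
        have c1 : P (con G z a) K = P G K :=
          (P_congr (ac.mono subset_union_right)).symm
        have i1 := ihm _ (hm ▸ pairs_del_lt hzS haS hza) (del G z a) A B K hA rfl hdis
          (fun u hu v hv h => hAB u hu v hv h.1)
          (fun u hu v hv huv => ⟨hK u hu v hv huv, fun e => haK (e.2 ▸ hv), fun e => haK (e.1 ▸ hu)⟩)
        have i2 := ihn _ (con G z a) (A.erase a) B K (by rw [card_erase_of_mem ha, hA]; rfl) rfl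
          (disjoint_of_subset_left (erase_subset _ _) hdis)
          (by
            intro u hu v hv huv
            have hu' := mem_erase.1 hu
            obtain ⟨hne, h' | ⟨rfl, h'⟩ | ⟨rfl, h'⟩⟩ := huv
            · exact hAB u hu'.2 v hv h'
            · exact hAB a ha v hv h'
            · -- v = z, in B
              rcases mem_union.1 hz with hz | hz
              · exact (disjoint_left.1 hdis hz) (mem_union_left _ hv)
              · exact hAB a ha v hv hza.symm)
          (by
            intro u hu v hv huv
            exact ⟨huv, Or.inl (hK u hu v hv huv)⟩)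
        rw [d1, d2] at i1
        rw [c1, c2] at i2
        rw [e1, e2, mul_sub, i1, i2]
        ring
      · push Not at h
        obtain ⟨a, ha⟩ : A.Nonempty := by rw [← card_pos]; omega
        have haBK : a ∉ B ∪ K := disjoint_left.1 hdis ha
        have haK : a ∉ K := fun h => haBK (mem_union_right _ h)
        have er1 : (A ∪ (B ∪ K)).erase a = A.erase a ∪ (B ∪ K) := by
          ext w
          simp only [mem_erase, mem_union]
          constructor
          · rintro ⟨h1, h2 | h2⟩
            · exact Or.inl ⟨h1, h2⟩
            · exact Or.inr h2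
          · rintro (h1 | h1)
            · exact ⟨h1.1, Or.inl h1.2⟩
            · exact ⟨fun e => haBK (e ▸ mem_union.2 h1), Or.inr h1⟩
        have er2 : (A ∪ K).erase a = A.erase a ∪ K := by
          ext w
          simp only [mem_erase, mem_union]
          constructor
          · rintro ⟨h1, h2 | h2⟩
            · exact Or.inl ⟨h1, h2⟩
            · exact Or.inr h2
          · rintro (h1 | h1)
            · exact ⟨h1.1, Or.inl h1.2⟩
            · exact ⟨fun e => haK (e ▸ h1), Or.inr h1⟩
        have e1 : P G (A ∪ (B ∪ K)) = X * P G (A.erase a ∪ (B ∪ K)) := by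
          rw [P_iso G (mem_union_left _ ha), er1]
          intro b hb hab
          rcases mem_union.1 hb with hb | hb
          · exact h a ha b (mem_union_left _ hb) hab.symm
          · rcases mem_union.1 hb with hb | hb
            · exact hAB a ha b hb hab
            · exact h a ha b (mem_union_right _ hb) hab.symm
        have e2 : P G (A ∪ K) = X * P G (A.erase a ∪ K) := by
          rw [P_iso G (mem_union_left _ ha), er2]
          intro b hb hab
          exact h a ha b hb hab.symm
        have i2 := ihn _ G (A.erase a) B K (by rw [card_erase_of_mem ha, hA]; rfl) rfl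
          (disjoint_of_subset_left (erase_subset _ _) hdis)
          (fun u hu v hv => hAB u (mem_of_mem_erase hu) v hv) hK
        rw [e1, e2, mul_left_comm, i2]
        ring

lemma P_singleton (G : SimpleGraph V) (v : V) : P G {v} = X := by
  have := P_iso G (mem_singleton_self v) (fun b hb => by
    rw [mem_singleton] at hb; subst hb; exact G.irrefl)
  rw [this, erase_singleton, P_empty, mul_one]

lemma P_pair {G : SimpleGraph V} {p q : V} (h : G.Adj p q) : P G {p, q} = X * (X - 1) := by
  have h1 := P_simplicial 1 G {q} {q} p (card_singleton q)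
    (fun h' => h.ne (mem_singleton.1 h')) (subset_refl _)
    (fun u hu => by
      rw [mem_singleton] at hu
      subst hu
      exact ⟨fun _ => mem_singleton_self u, fun _ => h⟩)
    (fun a ha b hb hab => by
      rw [mem_singleton] at ha hb
      exact absurd (ha.trans hb.symm) hab)
  rw [show ({p, q} : Finset V) = insert p {q} from rfl, h1, P_singleton]
  simp only [Nat.cast_one, map_one]
  ring

end Pool.Agent.H62.Wh
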