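import Pool.Agent.H62.WSetup

/-!
The number of triangles of a `3`-connected graph against its chromatic invariant.
-/

set_option linter.unusedSectionVars false
set_option linter.unusedVariables false

namespace Pool.Agent.H62.Wh

open Finset

variable {V : Type*} [DecidableEq V] [Fintype V]

namespace Setup

variable {G : SimpleGraph V} {S : Finset V} {x y : V}

lemma eN_zero (h : Setup G S x y) (hc : (nb G x (Fs S x y) ∩ nb G y (Fs S x y)).card ≤ 1) :
    cl G 2 (nb G x (Fs S x y) ∩ nb G y (Fs S x y)) = 0 := by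
  have := h.eN_le
  rw [Nat.choose_eq_zero_of_lt (by omega)] at this
  omega

lemma eN_one (h : Setup G S x y) (hc : (nb G x (Fs S x y) ∩ nb G y (Fs S x y)).card = 2) :
    cl G 2 (nb G x (Fs S x y) ∩ nb G y (Fs S x y)) ≤ 1 := by
  have := h.eN_le
  rw [hc] at this
  exact this

lemma eN_le_t (h : Setup G S x y) :
    cl G 2 (nb G x (Fs S x y) ∩ nb G y (Fs S x y)) ≤ cl (con G x y) 3 (S.erase y) := by
  have h1 := tri_con (G := G) h.hx h.hy h.hxy.ne
  have h2 : cl G 2 (nb G x (Fs S x y) ∩ nb G y (Fs S x y)) ≤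
      cl G 2 (nb G x (Fs S x y) ∪ nb G y (Fs S x y)) :=
    cl_sub (inter_subset_left.trans subset_union_left)
  omega

lemma ed2_of_del (h : Setup G S x y) (he : Ed2 (del G x y) S)
    (hc : 2 ≤ (nb G x (Fs S x y) ∩ nb G y (Fs S x y)).card) : Ed2 G S := by
  intro u hu v hv huv
  by_cases h1 : (u = x ∧ v = y) ∨ (u = y ∧ v = x)
  · rcases h1 with ⟨rfl, rfl⟩ | ⟨rfl, rfl⟩
    · rw [h.common]; exact hc
    · rw [inter_comm, h.common]; exact hc
  · push Not at h1
    have h2 := he u hu v hv ⟨huv, fun e => h1.1 e.1 e.2, fun e => h1.2 e.1 e.2⟩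
    refine h2.trans (card_le_card ?_)
    intro w hw
    rw [mem_inter, mem_nb, mem_nb] at hw
    rw [mem_inter, mem_nb, mem_nb]
    exact ⟨⟨hw.1.1, hw.1.2.1⟩, hw.2.1, hw.2.2.1⟩

lemma no_cross (h : Setup G S x y) (hcr : cr G (nb G x (Fs S x y)) (nb G y (Fs S x y)) = 0) :
    ∀ a ∈ Fs S x y, ∀ b ∈ Fs S x y, G.Adj x a → ¬ G.Adj y a → G.Adj y b → ¬ G.Adj x b →
      ¬ G.Adj a b := by
  intro a ha b hb h1 h2 h3 h4 h5
  have := cr_pos (G := G) (A := nb G x (Fs S x y)) (B := nb G y (Fs S x y))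
    (mem_nb.2 ⟨ha, h1⟩) (fun e => h2 (mem_nb.1 e).2) (mem_nb.2 ⟨hb, h3⟩)
    (fun e => h4 (mem_nb.1 e).2) h5
  omega

lemma con_x (h : Setup G S x y) : ∀ a ∈ Fs S x y,
    ((con G x y).Adj x a ↔ (G.Adj x a ∨ G.Adj y a)) := by
  intro a ha
  have hax : a ≠ x := (mem_Fs.1 ha).2.1
  rw [con_adj]
  constructor
  · rintro ⟨_, h1 | h1 | h1⟩
    · exact Or.inl h1
    · exact Or.inr h1.2
    · exact absurd h1.1 hax
  · rintro (h1 | h1)
    · exact ⟨hax.symm, Or.inl h1⟩
    · exact ⟨hax.symm, Or.inr (Or.inl ⟨rfl, h1⟩)⟩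

lemma crossx (h : Setup G S x y) (he : Ed2 (con G x y) (S.erase y))
    (hcr : cr G (nb G x (Fs S x y)) (nb G y (Fs S x y)) = 0) {a : V} (ha : a ∈ Fs S x y)
    (hxa : G.Adj x a) (hya : ¬ G.Adj y a) : 2 ≤ (nb G a (nb G x (Fs S x y))).card := by
  have ha' := mem_Fs.1 ha
  have h3 := he x (mem_erase.2 ⟨h.hxy.ne, h.hx⟩) a (mem_erase.2 ⟨ha'.1, ha'.2.2⟩)
    ((h.con_x a ha).2 (Or.inl hxa))
  refine h3.trans (card_le_card ?_)
  intro w hw
  rw [mem_inter, mem_nb, mem_nb] at hw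
  obtain ⟨⟨w1, w2⟩, _, w3⟩ := hw
  have hwF : w ∈ Fs S x y := mem_Fs.2 ⟨(mem_erase.1 w1).1, w2.ne.symm, (mem_erase.1 w1).2⟩
  rw [h.con_x w hwF] at w2
  have w3' : G.Adj a w := (agree_con_Fs (G := G) (S := S) (x := x) (y := y) a ha w hwF).2 w3
  rw [mem_nb, mem_nb]
  refine ⟨⟨hwF, ?_⟩, w3'⟩
  by_contra hxw
  rcases w2 with w2 | w2
  · exact hxw w2
  · exact h.no_cross hcr a ha w hwF hxa hya w2 hxw w3'

lemma crossy (h : Setup G S x y) (he : Ed2 (con G x y) (S.erase y))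
    (hcr : cr G (nb G x (Fs S x y)) (nb G y (Fs S x y)) = 0) {a : V} (ha : a ∈ Fs S x y)
    (hya : G.Adj y a) (hxa : ¬ G.Adj x a) : 2 ≤ (nb G a (nb G y (Fs S x y))).card := by
  have ha' := mem_Fs.1 ha
  have h3 := he x (mem_erase.2 ⟨h.hxy.ne, h.hx⟩) a (mem_erase.2 ⟨ha'.1, ha'.2.2⟩)
    ((h.con_x a ha).2 (Or.inr hya))
  refine h3.trans (card_le_card ?_)
  intro w hw
  rw [mem_inter, mem_nb, mem_nb] at hw
  obtain ⟨⟨w1, w2⟩, _, w3⟩ := hw
  have hwF : w ∈ Fs S x y := mem_Fs.2 ⟨(mem_erase.1 w1).1, w2.ne.symm, (mem_erase.1 w1).2⟩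
  rw [h.con_x w hwF] at w2
  have w3' : G.Adj a w := (agree_con_Fs (G := G) (S := S) (x := x) (y := y) a ha w hwF).2 w3
  rw [mem_nb, mem_nb]
  refine ⟨⟨hwF, ?_⟩, w3'⟩
  by_contra hyw
  rcases w2 with w2 | w2
  · exact h.no_cross hcr w hwF a ha w2 hyw hya hxa w3'.symm
  · exact hyw w2

/-- with one common neighbour and `|X| = 2`, some edge crosses -/
lemma cr_of_al (h : Setup G S x y) (he : Ed2 (con G x y) (S.erase y))
    (hc : (nb G x (Fs S x y) ∩ nb G y (Fs S x y)).card = 1)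
    (hal : (nb G x (Fs S x y)).card = 2) : 1 ≤ cr G (nb G x (Fs S x y)) (nb G y (Fs S x y)) := by
  by_contra hcon
  have hcr : cr G (nb G x (Fs S x y)) (nb G y (Fs S x y)) = 0 := by omega
  have hex : ∃ a ∈ nb G x (Fs S x y), a ∉ nb G y (Fs S x y) := by
    by_contra h'
    push Not at h'
    have : nb G x (Fs S x y) ⊆ nb G x (Fs S x y) ∩ nb G y (Fs S x y) :=
      fun a ha => mem_inter.2 ⟨ha, h' a ha⟩
    have := card_le_card this
    omega
  obtain ⟨a, ha, ha'⟩ := hex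
  have haF := nb_sub ha
  have h1 := h.crossx he hcr haF (mem_nb.1 ha).2 (fun e => ha' (mem_nb.2 ⟨haF, e⟩))
  have h2 : nb G a (nb G x (Fs S x y)) ⊆ (nb G x (Fs S x y)).erase a := by
    intro w hw
    rw [mem_nb] at hw
    exact mem_erase.2 ⟨hw.2.ne.symm, hw.1⟩
  have h3 := card_le_card h2
  rw [card_erase_of_mem ha] at h3
  omega

lemma cr_of_be (h : Setup G S x y) (he : Ed2 (con G x y) (S.erase y))
    (hc : (nb G x (Fs S x y) ∩ nb G y (Fs S x y)).card = 1)
    (hbe : (nb G y (Fs S x y)).card = 2) : 1 ≤ cr G (nb G x (Fs S x y)) (nb G y (Fs S x y)) := by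
  by_contra hcon
  have hcr : cr G (nb G x (Fs S x y)) (nb G y (Fs S x y)) = 0 := by omega
  have hex : ∃ a ∈ nb G y (Fs S x y), a ∉ nb G x (Fs S x y) := by
    by_contra h'
    push Not at h'
    have : nb G y (Fs S x y) ⊆ nb G x (Fs S x y) ∩ nb G y (Fs S x y) :=
      fun a ha => mem_inter.2 ⟨h' a ha, ha⟩
    have := card_le_card this
    omega
  obtain ⟨a, ha, ha'⟩ := hex
  have haF := nb_sub ha
  have h1 := h.crossy he hcr haF (mem_nb.1 ha).2 (fun e => ha' (mem_nb.2 ⟨haF, e⟩))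
  have h2 : nb G a (nb G y (Fs S x y)) ⊆ (nb G y (Fs S x y)).erase a := by
    intro w hw
    rw [mem_nb] at hw
    exact mem_erase.2 ⟨hw.2.ne.symm, hw.1⟩
  have h3 := card_le_card h2
  rw [card_erase_of_mem ha] at h3
  omega

/-- the exceptional case on seven vertices -/
lemma bF_two (h : Setup G S x y) (h7 : S.card = 7) (he : Ed2 (con G x y) (S.erase y))
    (hcr : cr G (nb G x (Fs S x y)) (nb G y (Fs S x y)) = 0)
    (hc : (nb G x (Fs S x y) ∩ nb G y (Fs S x y)).card = 2)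
    (hN : 1 ≤ cl G 2 (nb G x (Fs S x y) ∩ nb G y (Fs S x y)))
    (hal : (nb G x (Fs S x y)).card = 3) (hbe : (nb G y (Fs S x y)).card = 3) :
    2 ≤ bb G (Fs S x y) := by
  have hXF : nb G x (Fs S x y) ⊆ Fs S x y := nb_sub
  have hYF : nb G y (Fs S x y) ⊆ Fs S x y := nb_sub
  have hun : (nb G x (Fs S x y) ∪ nb G y (Fs S x y)).card = 4 := by
    have := h.cun; omega
  have hcF : (Fs S x y).card = 5 := by have := h.cF; omega
  -- common neighbours are adjacent
  have hcc : ∀ u ∈ nb G x (Fs S x y) ∩ nb G y (Fs S x y),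
      ∀ v ∈ nb G x (Fs S x y) ∩ nb G y (Fs S x y), u ≠ v → G.Adj u v := by
    obtain ⟨T, hT⟩ := card_pos.1 hN
    rw [mem_clset] at hT
    obtain ⟨⟨h3, h4⟩, h5⟩ := hT
    have h6 : T = nb G x (Fs S x y) ∩ nb G y (Fs S x y) :=
      eq_of_subset_of_card_le h3 (by rw [hc, h4])
    rw [← h6]
    exact h5
  have hXc : ∀ u ∈ nb G x (Fs S x y), ∀ v ∈ nb G x (Fs S x y), u ≠ v → u ∉ nb G y (Fs S x y) →
      G.Adj u v := by
    intro u hu v hv huv huY
    have h1 := h.crossx he hcr (hXF hu) (mem_nb.1 hu).2 (fun e => huY (mem_nb.2 ⟨hXF hu, e⟩))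
    have h2 : nb G u (nb G x (Fs S x y)) ⊆ (nb G x (Fs S x y)).erase u := by
      intro w hw
      rw [mem_nb] at hw
      exact mem_erase.2 ⟨hw.2.ne.symm, hw.1⟩
    have h3 := eq_of_subset_of_card_le h2 (by rw [card_erase_of_mem hu]; omega)
    have : v ∈ nb G u (nb G x (Fs S x y)) := by rw [h3]; exact mem_erase.2 ⟨huv.symm, hv⟩
    exact (mem_nb.1 this).2
  have hYc : ∀ u ∈ nb G y (Fs S x y), ∀ v ∈ nb G y (Fs S x y), u ≠ v → u ∉ nb G x (Fs S x y) →
      G.Adj u v := by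
    intro u hu v hv huv huX
    have h1 := h.crossy he hcr (hYF hu) (mem_nb.1 hu).2 (fun e => huX (mem_nb.2 ⟨hYF hu, e⟩))
    have h2 : nb G u (nb G y (Fs S x y)) ⊆ (nb G y (Fs S x y)).erase u := by
      intro w hw
      rw [mem_nb] at hw
      exact mem_erase.2 ⟨hw.2.ne.symm, hw.1⟩
    have h3 := eq_of_subset_of_card_le h2 (by rw [card_erase_of_mem hu]; omega)
    have : v ∈ nb G u (nb G y (Fs S x y)) := by rw [h3]; exact mem_erase.2 ⟨huv.symm, hv⟩
    exact (mem_nb.1 this).2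
  have hcross : ∀ u ∈ nb G x (Fs S x y) ∪ nb G y (Fs S x y),
      ∀ v ∈ nb G x (Fs S x y) ∪ nb G y (Fs S x y), u ≠ v → ¬ G.Adj u v →
      (u ∈ nb G x (Fs S x y) \ nb G y (Fs S x y) ∧ v ∈ nb G y (Fs S x y) \ nb G x (Fs S x y)) ∨
      (v ∈ nb G x (Fs S x y) \ nb G y (Fs S x y) ∧ u ∈ nb G y (Fs S x y) \ nb G x (Fs S x y)) := by
    intro u hu v hv huv hn
    have hX : ¬ (u ∈ nb G x (Fs S x y) ∧ v ∈ nb G x (Fs S x y)) := by
      rintro ⟨h1, h2⟩
      by_cases hu' : u ∈ nb G y (Fs S x y)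
      · by_cases hv' : v ∈ nb G y (Fs S x y)
        · exact hn (hcc u (mem_inter.2 ⟨h1, hu'⟩) v (mem_inter.2 ⟨h2, hv'⟩) huv)
        · exact hn (hXc v h2 u h1 huv.symm hv').symm
      · exact hn (hXc u h1 v h2 huv hu')
    have hY : ¬ (u ∈ nb G y (Fs S x y) ∧ v ∈ nb G y (Fs S x y)) := by
      rintro ⟨h1, h2⟩
      by_cases hu' : u ∈ nb G x (Fs S x y)
      · by_cases hv' : v ∈ nb G x (Fs S x y)
        · exact hn (hcc u (mem_inter.2 ⟨hu', h1⟩) v (mem_inter.2 ⟨hv', h2⟩) huv)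
        · exact hn (hYc v h2 u h1 huv.symm hv').symm
      · exact hn (hYc u h1 v h2 huv hu')
    rw [mem_union] at hu hv
    rw [mem_sdiff, mem_sdiff, mem_sdiff, mem_sdiff]
    tauto
  have hXY : (nb G x (Fs S x y) \ nb G y (Fs S x y)).card = 1 := by
    have := card_sdiff_add_card_inter (nb G x (Fs S x y)) (nb G y (Fs S x y))
    omega
  have hYX : (nb G y (Fs S x y) \ nb G x (Fs S x y)).card = 1 := by
    have := card_sdiff_add_card_inter (nb G y (Fs S x y)) (nb G x (Fs S x y))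
    rw [inter_comm] at this
    omega
  have hdXY : ∀ w, w ∈ nb G x (Fs S x y) \ nb G y (Fs S x y) →
      w ∈ nb G y (Fs S x y) \ nb G x (Fs S x y) → False := by
    intro w h1 h2
    exact (mem_sdiff.1 h1).2 (mem_sdiff.1 h2).1
  have hNS : NS G (nb G x (Fs S x y) ∪ nb G y (Fs S x y)) 2 := by
    have key : ∀ A B, Sep G (nb G x (Fs S x y) ∪ nb G y (Fs S x y)) A B →
        ∀ a0 ∈ A, ∀ b0 ∈ B, a0 ∈ nb G x (Fs S x y) \ nb G y (Fs S x y) →
        b0 ∈ nb G y (Fs S x y) \ nb G x (Fs S x y) → A.card + B.card ≤ 2 := by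
      intro A B hAB a0 ha0 b0 hb0 ha1 hb1
      obtain ⟨g1, g2, g3, g4, g5, g6⟩ := hAB
      have hA : A ⊆ nb G x (Fs S x y) \ nb G y (Fs S x y) := by
        intro a ha
        rcases hcross a (g1 ha) b0 (g2 hb0) (fun e => disjoint_left.1 g3 ha (e ▸ hb0))
          (g6 a ha b0 hb0) with h' | h'
        · exact h'.1
        · exact absurd (hdXY b0 h'.1 hb1) (fun e => e)
      have hB : B ⊆ nb G y (Fs S x y) \ nb G x (Fs S x y) := by
        intro b hb
        rcases hcross a0 (g1 ha0) b (g2 hb) (fun e => disjoint_left.1 g3 ha0 (e ▸ hb))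
          (g6 a0 ha0 b hb) with h' | h'
        · exact h'.2
        · exact absurd (hdXY a0 ha1 h'.2) (fun e => e)
      have := card_le_card hA
      have := card_le_card hB
      omega
    intro A B hAB
    rw [hun]
    obtain ⟨a0, ha0⟩ := hAB.2.2.2.1
    obtain ⟨b0, hb0⟩ := hAB.2.2.2.2.1
    rcases hcross a0 (hAB.1 ha0) b0 (hAB.2.1 hb0)
      (fun e => disjoint_left.1 hAB.2.2.1 ha0 (e ▸ hb0)) (hAB.2.2.2.2.2 a0 ha0 b0 hb0) with h' | h'
    · have := key A B hAB a0 ha0 b0 hb0 h'.1 h'.2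
      omega
    · have := key B A hAB.symm b0 hb0 a0 ha0 h'.1 h'.2
      omega
  have hb1 := bb_pos hNS (by omega)
  -- the extra vertex
  have hs : ∃ s, Fs S x y = insert s (nb G x (Fs S x y) ∪ nb G y (Fs S x y)) ∧
      s ∉ nb G x (Fs S x y) ∪ nb G y (Fs S x y) := by
    have h1 : (Fs S x y \ (nb G x (Fs S x y) ∪ nb G y (Fs S x y))).card = 1 := by
      rw [card_sdiff_of_subset (union_subset hXF hYF)]; omega
    obtain ⟨s, hs⟩ := card_eq_one.1 h1
    have hs' : s ∈ Fs S x y \ (nb G x (Fs S x y) ∪ nb G y (Fs S x y)) := by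
      rw [hs]; exact mem_singleton_self s
    rw [mem_sdiff] at hs'
    refine ⟨s, ?_, hs'.2⟩
    symm
    apply eq_of_subset_of_card_le
    · intro w hw
      rcases mem_insert.1 hw with rfl | hw
      · exact hs'.1
      · exact union_subset hXF hYF hw
    · rw [card_insert_of_notMem hs'.2, hun, hcF]
  obtain ⟨s, hs1, hs2⟩ := hs
  have hsF : s ∈ Fs S x y := by rw [hs1]; exact mem_insert_self _ _
  have hdeg : 3 ≤ (nb G s (nb G x (Fs S x y) ∪ nb G y (Fs S x y))).card := by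
    have h1 := NS_deg h.ns (mem_Fs.1 hsF).2.2 (by omega)
    refine h1.trans (card_le_card ?_)
    intro w hw
    rw [mem_nb] at hw
    rw [mem_nb]
    refine ⟨?_, hw.2⟩
    have hwx : w ≠ x := by
      rintro rfl
      exact hs2 (mem_union_left _ (mem_nb.2 ⟨hsF, hw.2.symm⟩))
    have hwy : w ≠ y := by
      rintro rfl
      exact hs2 (mem_union_right _ (mem_nb.2 ⟨hsF, hw.2.symm⟩))
    have hwF : w ∈ Fs S x y := mem_Fs.2 ⟨hwy, hwx, hw.1⟩
    rw [hs1] at hwF
    rcases mem_insert.1 hwF with e | e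
    · exact absurd e hw.2.ne.symm
    · exact e
  have hv := bb_vertex hs2 (by omega) (hNS.le (by norm_num)) (by omega)
  rw [← hs1] at hv
  have hd : (3 : ℤ) ≤ ((nb G s (nb G x (Fs S x y) ∪ nb G y (Fs S x y))).card : ℤ) := by
    exact_mod_cast hdeg
  nlinarith

end Setup

/-- the numbers of a contractible edge -/
structure Nums (N al be c un eN cr t t1 td : ℕ) (b b1 b2 bF : ℤ) : Prop where
  al2 : 2 ≤ al
  be2 : 2 ≤ be
  cal : c ≤ al
  cbe : c ≤ be
  cun : un + c = al + be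
  unN : un + 2 ≤ N
  un3 : 3 ≤ un
  hb : b = b2 + b1
  b2p : 1 ≤ b2
  b1p : (N : ℤ) - 3 ≤ b1
  bFp : 1 ≤ bF
  tc : t + cr = t1 + c + eN
  htd : t = td + c
  deg : ∀ i j : ℕ, i + 1 ≤ al → j + 1 ≤ be → (i * j : ℤ) * bF ≤ b2
  subx : c = al → ((al : ℤ) - 1) * b1 ≤ b2
  suby : c = be → ((be : ℤ) - 1) * b1 ≤ b2
  eNc : eN ≤ c.choose 2
  eNt : eN ≤ t1
  one : b2 = 1 → td + 2 ≤ N

namespace Nums

variable {N al be c un eN cr t t1 td : ℕ} {b b1 b2 bF : ℤ}

lemma eN0 (h : Nums N al be c un eN cr t t1 td b b1 b2 bF) (hc : c ≤ 1) : eN = 0 := by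
  have := h.eNc
  rw [Nat.choose_eq_zero_of_lt (by omega)] at this
  omega

lemma eN1 (h : Nums N al be c un eN cr t t1 td b b1 b2 bF) (hc : c = 2) : eN ≤ 1 := by
  have := h.eNc
  rw [hc] at this
  exact this

lemma L2 (h : Nums N al be c un eN cr t t1 td b b1 b2 bF) (hc : c = 2) : b1 ≤ b2 ∨ 4 * bF ≤ b2 := by
  have hal := h.al2
  have hbe := h.be2
  by_cases hal2 : al = 2
  · left
    have := h.subx (by omega)
    rw [hal2] at this; push_cast at this; linarith
  by_cases hbe2 : be = 2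
  · left
    have := h.suby (by omega)
    rw [hbe2] at this; push_cast at this; linarith
  right
  have := h.deg 2 2 (by omega) (by omega)
  push_cast at this; linarith

lemma six_A (h : Nums 6 al be c un eN cr t t1 td b b1 b2 bF) (hc : c ≤ 2) (ht : t1 ≤ 4) (hb : 3 ≤ b1) :
    (t : ℤ) ≤ b + 1 := by
  have h1 := h.hb
  have h2 := h.b2p
  have h3 := h.tc
  have hF := h.bFp
  by_cases hc2 : c = 2
  · have e := h.eN1 hc2
    have hl := h.L2 hc2
    omega
  · have e := h.eN0 (by omega)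
    omega

lemma six_B2 (h : Nums 6 al be c un eN cr t t1 td b b1 b2 bF) (hc : c = 2) (ht : t1 ≤ 7) (hb : 4 ≤ b1) :
    8 ≤ b ∧ (t : ℤ) ≤ b + 2 ∧ ((t : ℤ) = b + 2 → cr = 0 ∧ eN = 1) := by
  have h1 := h.hb
  have h2 := h.b2p
  have h3 := h.tc
  have hF := h.bFp
  have e := h.eN1 hc
  have hl := h.L2 hc
  refine ⟨?_, ?_, fun h' => ⟨?_, ?_⟩⟩ <;> omega

lemma six_B1 (h : Nums 6 al be c un eN cr t t1 td b b1 b2 bF) (hc : c ≤ 1) (ht : t1 ≤ 7) (hb : 4 ≤ b1)
    (hx : c = 1 → b2 = 2 → t ≤ 7) : (t : ℤ) ≤ b + 1 := by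
  have h1 := h.hb
  have h2 := h.b2p
  have h3 := h.tc
  have h4 := h.htd
  have e := h.eN0 hc
  by_cases hb1 : b2 = 1
  · have := h.one hb1
    omega
  · by_cases hc0 : c = 0
    · omega
    · by_cases hb3 : 3 ≤ b2
      · omega
      · have := hx (by omega) (by omega)
        omega

lemma six_C (h : Nums 6 al be c un eN cr t t1 td b b1 b2 bF) (hc : c ≤ 2) (ht : t1 ≤ 10) (hb : 6 ≤ b1)
    (hF : 2 ≤ bF) (hu : un = 4) (hx : c = 0 → 1 ≤ cr) : (t : ℤ) ≤ b + 1 := by
  have h1 := h.hb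
  have h2 := h.b2p
  have h3 := h.tc
  have h4 := h.htd
  have h5 := h.al2
  have h6 := h.be2
  have h7 := h.cun
  by_cases hc2 : c = 2
  · have e := h.eN1 hc2
    have hl := h.L2 hc2
    omega
  · have e := h.eN0 (by omega)
    by_cases hc0 : c = 0
    · have hd := h.deg 1 1 (by omega) (by omega)
      push_cast at hd
      have := hx hc0
      omega
    · have hd : 4 ≤ b2 := by
        by_cases g : 3 ≤ al
        · have := h.deg 2 1 (by omega) (by omega)
          push_cast at this; linarith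
        · have := h.deg 1 2 (by omega) (by omega)
          push_cast at this; linarith
      omega

lemma six_4 (h : Nums 6 al be c un eN cr t t1 td b b1 b2 bF) (hc : 4 ≤ c)
    (hcl : (3 ≤ b1 ∧ t1 ≤ 4) ∨ (4 ≤ b1 ∧ t1 ≤ 7) ∨ (6 ≤ b1 ∧ t1 ≤ 10)) : (t : ℤ) ≤ b + 1 := by
  have h1 := h.hb
  have h2 := h.b2p
  have h3 := h.tc
  have h4 := h.htd
  have h5 := h.cal
  have h6 := h.cbe
  have h7 := h.cun
  have h8 := h.unN
  have hc4 : c = 4 := by omega
  have hal4 : al = 4 := by omega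
  have hs4 := h.subx (by omega)
  rw [hal4] at hs4
  push_cast at hs4
  have e1 := h.eNc
  rw [hc4] at e1
  have c42 : Nat.choose 4 2 = 6 := rfl
  rw [c42] at e1
  have e2 := h.eNt
  rcases hcl with h' | h' | h' <;> omega

/-- the exceptional position on six vertices -/
lemma six_x (h : Nums 6 al be c un eN cr t t1 td b b1 b2 bF) (hc : c = 1) (hb2 : b2 = 2)
    {tF mX mY : ℕ} (ht : t = tF + mX + mY + c) (h1 : mX ≤ al.choose 2) (h2 : mY ≤ be.choose 2)
    (h3 : tF ≤ 4) (h4 : un = 4 → tF ≤ 2) : t ≤ 7 := by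
  have hF := h.bFp
  have hal := h.al2
  have hbe := h.be2
  have hun := h.cun
  have n1 : ¬ (3 ≤ al ∧ 3 ≤ be) := by
    rintro ⟨g1, g2⟩
    have := h.deg 2 2 (by omega) (by omega)
    push_cast at this; linarith
  have n2 : al ≤ 3 := by
    by_contra g
    have := h.deg 3 1 (by omega) (by omega)
    push_cast at this; linarith
  have n3 : be ≤ 3 := by
    by_contra g
    have := h.deg 1 3 (by omega) (by omega)
    push_cast at this; linarith
  have c22 : Nat.choose 2 2 = 1 := rfl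
  have c32 : Nat.choose 3 2 = 3 := rfl
  have m5 : al = 2 ∨ al = 3 := by omega
  have m6 : be = 2 ∨ be = 3 := by omega
  rcases m5 with m5 | m5 <;> rcases m6 with m6 | m6 <;> subst m5 <;> subst m6 <;>
    simp only [c22, c32] at h1 h2 <;> omega

end Nums

lemma Setup.nums {G : SimpleGraph V} {S : Finset V} {x y : V} (h : Setup G S x y) :
    Nums S.card (nb G x (Fs S x y)).card (nb G y (Fs S x y)).card
      (nb G x (Fs S x y) ∩ nb G y (Fs S x y)).card (nb G x (Fs S x y) ∪ nb G y (Fs S x y)).card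
      (cl G 2 (nb G x (Fs S x y) ∩ nb G y (Fs S x y)))
      (cr G (nb G x (Fs S x y)) (nb G y (Fs S x y)))
      (cl G 3 S) (cl (con G x y) 3 (S.erase y)) (cl (del G x y) 3 S)
      (bb G S) (bb (con G x y) (S.erase y)) (bb (del G x y) S) (bb G (Fs S x y)) where
  al2 := h.al
  be2 := h.be
  cal := h.cle.1
  cbe := h.cle.2
  cun := h.cun
  unN := h.cun_le
  un3 := h.cun_ge
  hb := h.bsum
  b2p := h.bd
  b1p := h.bc
  bFp := h.bF
  tc := h.tc
  htd := h.td
  deg := h.deg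
  subx := h.subx
  suby := h.suby
  eNc := h.eN_le
  eNt := h.eN_le_t
  one := h.one

/-- graphs on six vertices -/
theorem six : ∀ (m : ℕ) (G : SimpleGraph V) (S : Finset V), S.card = 6 → (pairs G S).card = m →
    NS G S 3 → (cl G 3 S : ℤ) ≤ bb G S + 2 ∧ ((cl G 3 S : ℤ) = bb G S + 2 → 8 ≤ bb G S ∧ Ed2 G S) := by
  intro m
  induction m using Nat.strong_induction_on with
  | _ m ih =>
    intro G S hS hm hs
    obtain ⟨x, hx, y, hy, hxy, hcon⟩ := exists_contractible hs (by omega)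
    have h : Setup G S x y := ⟨hx, hy, hxy, hs, hcon, by omega⟩
    have hn := h.nums
    rw [hS] at hn
    have hce : (S.erase y).card = 5 := by rw [card_erase_of_mem hy]; omega
    have hcF : (Fs S x y).card = 4 := by have := h.cF; omega
    have h5 := five hcon hce
    have fin1 : (cl G 3 S : ℤ) ≤ bb G S + 1 →
        (cl G 3 S : ℤ) ≤ bb G S + 2 ∧ ((cl G 3 S : ℤ) = bb G S + 2 → 8 ≤ bb G S ∧ Ed2 G S) := by
      intro h'
      exact ⟨by linarith, fun e => by exfalso; linarith⟩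
    rcases Nat.lt_or_ge (nb G x (Fs S x y) ∩ nb G y (Fs S x y)).card 3 with hc | hc
    · rcases h5 with ⟨a1, a2⟩ | ⟨a1, a2, a3, p, hp, q, hq, hpq, hnpq⟩ | ⟨a1, a2, a3⟩
      · exact fin1 (hn.six_A (Nat.lt_succ_iff.1 hc) a2 a1)
      · -- class B
        by_cases hc2 : (nb G x (Fs S x y) ∩ nb G y (Fs S x y)).card = 2
        · obtain ⟨f1, f2, f3⟩ := hn.six_B2 hc2 a2 a1
          refine ⟨f2, fun e => ⟨f1, h.ed2 a3 (f3 e).1 hc2 (f3 e).2.ge⟩⟩
        · have hc1 : (nb G x (Fs S x y) ∩ nb G y (Fs S x y)).card ≤ 1 := by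
            clear hn; omega
          refine fin1 (hn.six_B1 hc1 a2 a1 ?_)
          intro hc1' hb2
          have m3 := cl_le_choose G 3 (Fs S x y)
          rw [hcF] at m3
          refine hn.six_x hc1' hb2 (tri_edge hx hy hxy) (cl_le_choose _ _ _) (cl_le_choose _ _ _)
            m3 ?_
          intro hu4
          have hUF : nb G x (Fs S x y) ∪ nb G y (Fs S x y) = Fs S x y :=
            eq_of_subset_of_card_le (union_subset nb_sub nb_sub) (by rw [hcF, hu4])
          have hall : ∀ v ∈ S.erase y, v ≠ x → (con G x y).Adj x v := by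
            intro v hv hvx
            have hvF : v ∈ Fs S x y := mem_Fs.2 ⟨(mem_erase.1 hv).1, hvx, (mem_erase.1 hv).2⟩
            rw [h.con_x v hvF]
            have hvF' := hvF
            rw [← hUF, mem_union, mem_nb, mem_nb] at hvF'
            rcases hvF' with h' | h'
            · exact Or.inl h'.2
            · exact Or.inr h'.2
          have hpx : p ≠ x := by
            rintro rfl
            exact hnpq (hall q hq hpq.symm)
          have hqx : q ≠ x := by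
            rintro rfl
            exact hnpq (hall p hp hpq).symm
          have hpF : p ∈ Fs S x y := mem_Fs.2 ⟨(mem_erase.1 hp).1, hpx, (mem_erase.1 hp).2⟩
          have hqF : q ∈ Fs S x y := mem_Fs.2 ⟨(mem_erase.1 hq).1, hqx, (mem_erase.1 hq).2⟩
          have hn' : ¬ G.Adj p q := fun e =>
            hnpq ((agree_con_Fs (G := G) (S := S) (x := x) (y := y) p hpF q hqF).1 e)
          exact tri_missing_four hcF hpF hqF hpq hn'
      · -- class C
        have hFc : ∀ p ∈ Fs S x y, ∀ q ∈ Fs S x y, p ≠ q → G.Adj p q := by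
          intro p hp q hq hpq
          exact (agree_con_Fs (G := G) (S := S) (x := x) (y := y) p hp q hq).2
            (a3 p (mem_erase.2 ⟨(mem_Fs.1 hp).1, (mem_Fs.1 hp).2.2⟩) q
              (mem_erase.2 ⟨(mem_Fs.1 hq).1, (mem_Fs.1 hq).2.2⟩) hpq)
        have hbF2 : 2 ≤ bb G (Fs S x y) := by
          have := bb_three (NS_complete (k := 3) hFc) (by rw [hcF]; norm_num)
          rw [hcF] at this; push_cast at this; linarith
        have hUF : nb G x (Fs S x y) ∪ nb G y (Fs S x y) = Fs S x y := by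
          apply Subset.antisymm (union_subset nb_sub nb_sub)
          intro v hv
          have hv' := mem_Fs.1 hv
          have := a3 x (mem_erase.2 ⟨hxy.ne, hx⟩) v (mem_erase.2 ⟨hv'.1, hv'.2.2⟩) hv'.2.1.symm
          rw [h.con_x v hv] at this
          rw [mem_union, mem_nb, mem_nb]
          rcases this with h' | h'
          · exact Or.inl ⟨hv, h'⟩
          · exact Or.inr ⟨hv, h'⟩
        refine fin1 (hn.six_C (Nat.lt_succ_iff.1 hc) a2 a1 hbF2 (by rw [hUF, hcF]) ?_)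
        intro hc0
        obtain ⟨a, ha⟩ : (nb G x (Fs S x y)).Nonempty := by
          rw [← card_pos]; exact lt_of_lt_of_le (by norm_num) h.al
        obtain ⟨b, hb⟩ : (nb G y (Fs S x y)).Nonempty := by
          rw [← card_pos]; exact lt_of_lt_of_le (by norm_num) h.be
        rw [card_eq_zero] at hc0
        have haY : a ∉ nb G y (Fs S x y) := by
          intro e'
          have : a ∈ nb G x (Fs S x y) ∩ nb G y (Fs S x y) := mem_inter.2 ⟨ha, e'⟩
          rw [hc0] at this; exact notMem_empty _ this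
        have hbX : b ∉ nb G x (Fs S x y) := by
          intro e'
          have : b ∈ nb G x (Fs S x y) ∩ nb G y (Fs S x y) := mem_inter.2 ⟨e', hb⟩
          rw [hc0] at this; exact notMem_empty _ this
        exact cr_pos (G := G) ha haY hb hbX
          (hFc a (nb_sub ha) b (nb_sub hb) (fun e' => haY (e' ▸ hb)))
    · rcases Nat.lt_or_ge (nb G x (Fs S x y) ∩ nb G y (Fs S x y)).card 4 with hc' | hc'
      · -- `c = 3`: deletion
        have hc3 : (nb G x (Fs S x y) ∩ nb G y (Fs S x y)).card = 3 :=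
          le_antisymm (Nat.lt_succ_iff.1 hc') hc
        obtain ⟨i1, i2⟩ := ih _ (hm ▸ pairs_del_lt hx hy hxy) (del G x y) S hS rfl (h.nsd3 hc)
        have e1 : (cl G 3 S : ℤ) = cl (del G x y) 3 S + 3 := by
          rw [h.td, hc3]; push_cast; ring
        have e2 := h.bsum
        have e3 := hn.b1p
        push_cast at e3
        constructor
        · linarith
        · intro he
          obtain ⟨j1, j2⟩ := i2 (by linarith)
          exact ⟨by linarith, h.ed2_of_del j2 (by rw [hc3]; norm_num)⟩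
      · -- `c = 4`
        refine fin1 (hn.six_4 hc' ?_)
        rcases h5 with ⟨a1, a2⟩ | ⟨a1, a2, a3, _⟩ | ⟨a1, a2, a3⟩
        · exact Or.inl ⟨a1, a2⟩
        · exact Or.inr (Or.inl ⟨a1, a2⟩)
        · exact Or.inr (Or.inr ⟨a1, a2⟩)

end Pool.Agent.H62.Wh
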