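import Pool.Agent.H62.WTri

/-!
Graphs with chromatic invariant one: vertices of degree two, number of triangles, fans.
-/

set_option linter.unusedSectionVars false
set_option linter.unusedVariables false

namespace Pool.Agent.H62.Wh

open Finset

variable {V : Type*} [DecidableEq V] [Fintype V]

lemma eq_one_of_mul {a b : ℤ} (ha : 1 ≤ a) (hb : 1 ≤ b) (h : a * b = 1) : a = 1 ∧ b = 1 := by
  constructor <;> nlinarith

/-- a vertex of degree two away from a given edge -/
theorem exists_deg_two : ∀ (n : ℕ) (G : SimpleGraph V) (S : Finset V) (u v : V), S.card = n →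
    3 ≤ n → NS G S 2 → bb G S = 1 → u ∈ S → v ∈ S → G.Adj u v →
    ∃ w ∈ S, w ≠ u ∧ w ≠ v ∧ (nb G w S).card = 2 := by
  intro n
  induction n using Nat.strong_induction_on with
  | _ n ih =>
    intro G S u v hn hn3 hs hb hu hv huv
    rcases Nat.lt_or_ge n 4 with h4 | h4
    · -- three vertices
      have hn' : S.card = 3 := by omega
      have hvu : v ∈ S.erase u := mem_erase.2 ⟨huv.ne.symm, hv⟩
      have hc : ((S.erase u).erase v).card = 1 := by
        rw [card_erase_of_mem hvu, card_erase_of_mem hu]; omega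
      obtain ⟨w, hw⟩ := card_eq_one.1 hc
      have hw' : w ∈ (S.erase u).erase v := by rw [hw]; exact mem_singleton_self w
      rw [mem_erase, mem_erase] at hw'
      refine ⟨w, hw'.2.2, hw'.2.1, hw'.1, ?_⟩
      have h1 := NS_deg hs hw'.2.2 (by omega)
      have h2 : (nb G w S).card ≤ (S.erase w).card := by
        rw [← nb_erase_card]; exact card_le_card nb_sub
      rw [card_erase_of_mem hw'.2.2] at h2
      omega
    · have h3 : ¬ NS G S 3 := by
        intro h3
        have := bb_three h3 (by omega)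
        rw [hb, hn] at this
        have : (4 : ℤ) ≤ n := by exact_mod_cast h4
        linarith
      have key : ∀ A B p q, Two G S A B p q → u ∉ A → v ∉ A →
          ∃ w ∈ S, w ≠ u ∧ w ≠ v ∧ (nb G w S).card = 2 := by
        intro A B p q hT huA hvA
        have hbt := bb_two hT hs
        have hA1 : 1 ≤ A.card := card_pos.2 hT.sep.2.2.2.1
        have hB1 : 1 ≤ B.card := card_pos.2 hT.sep.2.2.2.2.1
        have hcA := card_pairU hT.pA hT.qA hT.hpq
        have hcB := card_pairU hT.pB hT.qB hT.hpq
        have hcS := hT.card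
        have n1 : NS (add G p q) (A ∪ {p, q}) 2 := hT.piece hs
        have n2 : NS (add G p q) (B ∪ {p, q}) 2 := hT.swap.piece hs
        have p1 := bb_pos n1 (by omega)
        have p2 := bb_pos n2 (by omega)
        rw [hb] at hbt
        obtain ⟨q1, q2⟩ := eq_one_of_mul p1 p2 hbt.symm
        obtain ⟨w, hw, hwp, hwq, hw2⟩ := ih _ (by omega) (add G p q) (A ∪ {p, q}) p q rfl
          (by omega) n1 q1 (by simp) (by simp) (Or.inr ⟨hT.hpq, Or.inl ⟨rfl, rfl⟩⟩)
        have hwA : w ∈ A := by
          rw [mem_union, mem_insert, mem_singleton] at hw; tauto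
        refine ⟨w, hT.sep.1 hwA, fun e => huA (e ▸ hwA), fun e => hvA (e ▸ hwA), ?_⟩
        rw [← hw2]
        congr 1
        ext z
        rw [mem_nb, mem_nb, add_adj]
        constructor
        · rintro ⟨h1, h2⟩
          refine ⟨?_, Or.inl h2⟩
          rw [mem_union, mem_insert, mem_singleton]
          rcases hT.cov z h1 with h | h | h | h
          · exact Or.inl h
          · exact absurd h2 (hT.sep.2.2.2.2.2 w hwA z h)
          · exact Or.inr (Or.inl h)
          · exact Or.inr (Or.inr h)
        · rintro ⟨h1, h2 | ⟨_, h2 | h2⟩⟩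
          · refine ⟨?_, h2⟩
            rw [mem_union, mem_insert, mem_singleton] at h1
            rcases h1 with h | rfl | rfl
            · exact hT.sep.1 h
            · exact hT.hp
            · exact hT.hq
          · exact absurd h2.1 hwp
          · exact absurd h2.1 hwq
      obtain ⟨A, B, p, q, hT⟩ := exists_two hs h3
      by_cases hA : u ∈ A ∨ v ∈ A
      · apply key B A p q hT.swap
        · intro huB
          rcases hA with h | h
          · exact disjoint_left.1 hT.sep.2.2.1 h huB
          · exact hT.sep.2.2.2.2.2 v h u huB huv.symm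
        · intro hvB
          rcases hA with h | h
          · exact hT.sep.2.2.2.2.2 u h v hvB huv
          · exact disjoint_left.1 hT.sep.2.2.1 h hvB
      · push Not at hA
        exact key A B p q hT hA.1 hA.2

lemma deg_two_two {G : SimpleGraph V} {S : Finset V} {w p q : V} (hc : 4 ≤ S.card) (hw : w ∈ S)
    (hnb : nb G w S = {p, q}) (hpq : p ≠ q) :
    Two G S {w} (((S.erase w).erase p).erase q) p q := by
  have hp : p ∈ nb G w S := by rw [hnb]; simp
  have hq : q ∈ nb G w S := by rw [hnb]; simp
  rw [mem_nb] at hp hq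
  have hc1 : (((S.erase w).erase p).erase q).card = S.card - 3 := by
    rw [card_erase_of_mem, card_erase_of_mem, card_erase_of_mem hw]
    · omega
    · exact mem_erase.2 ⟨hp.2.ne.symm, hp.1⟩
    · exact mem_erase.2 ⟨hpq.symm, mem_erase.2 ⟨hq.2.ne.symm, hq.1⟩⟩
  refine ⟨⟨by simpa using hw, ?_, ?_, singleton_nonempty w, ?_, ?_⟩, hp.1, hq.1, hpq, ?_, ?_, ?_, ?_, ?_⟩
  · exact (erase_subset _ _).trans ((erase_subset _ _).trans (erase_subset _ _))
  · rw [disjoint_singleton_left]
    simp only [mem_erase]; tauto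
  · rw [← card_pos]; omega
  · intro a ha b hb hab
    rw [mem_singleton] at ha
    subst ha
    simp only [mem_erase] at hb
    have : b ∈ nb G a S := mem_nb.2 ⟨hb.2.2.2, hab⟩
    rw [hnb, mem_insert, mem_singleton] at this
    tauto
  · rw [mem_singleton]; exact hp.2.ne.symm
  · simp only [mem_erase]; tauto
  · rw [mem_singleton]; exact hq.2.ne.symm
  · simp only [mem_erase]; tauto
  · intro v hv
    simp only [mem_singleton, mem_erase]
    tauto

lemma deg_two_erase {G : SimpleGraph V} {S : Finset V} {w p q : V} (hw : w ∈ S)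
    (hnb : nb G w S = {p, q}) (hpq : p ≠ q) :
    (((S.erase w).erase p).erase q) ∪ {p, q} = S.erase w := by
  have hp : p ∈ nb G w S := by rw [hnb]; simp
  have hq : q ∈ nb G w S := by rw [hnb]; simp
  rw [mem_nb] at hp hq
  ext v
  simp only [mem_union, mem_erase, mem_insert, mem_singleton]
  constructor
  · rintro (h | rfl | rfl)
    · tauto
    · exact ⟨hp.2.ne.symm, hp.1⟩
    · exact ⟨hq.2.ne.symm, hq.1⟩
  · tauto

/-- removing a vertex of degree two -/
lemma deg_two_remove {G : SimpleGraph V} {S : Finset V} {w p q : V} (hs : NS G S 2)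
    (hb : bb G S = 1) (hc : 4 ≤ S.card) (hw : w ∈ S)
    (hnb : nb G w S = {p, q}) (hpq : p ≠ q) :
    NS (add G p q) (S.erase w) 2 ∧ bb (add G p q) (S.erase w) = 1 ∧
      cl G 3 S = cl G 3 (S.erase w) + cl G 2 {p, q} := by
  have hT := deg_two_two hc hw hnb hpq
  have he := deg_two_erase hw hnb hpq
  have hbt := bb_two hT hs
  have n1 : NS (add G p q) ({w} ∪ {p, q}) 2 := hT.piece hs
  have n2 := hT.swap.piece hs
  rw [he] at n2 hbt
  have hcA := card_pairU hT.pA hT.qA hT.hpq
  have p1 := bb_pos n1 (by omega)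
  have p2 := bb_pos n2 (by rw [card_erase_of_mem hw]; omega)
  rw [hb] at hbt
  obtain ⟨q1, q2⟩ := eq_one_of_mul p1 p2 hbt.symm
  refine ⟨n2, q2, ?_⟩
  rw [cl_erase hw, nb_erase_card, hnb]

lemma cl_two_pair_adj {G : SimpleGraph V} {p q : V} (h : G.Adj p q) : cl G 2 {p, q} = 1 := by
  have h1 : 1 ≤ cl G 2 {p, q} := cl_two_pos (by simp) (by simp) h
  have h2 := cl_le_choose G 2 {p, q}
  rw [card_pair h.ne] at h2
  have : Nat.choose 2 2 = 1 := rfl
  omega

lemma cl_two_pair_not {G : SimpleGraph V} {p q : V} (hpq : p ≠ q) (h : ¬ G.Adj p q) :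
    cl G 2 {p, q} = 0 := by
  have h2 := cl_two_missing (G := G) (S := {p, q}) (by simp) (by simp) hpq h
  rw [card_pair hpq] at h2
  have : Nat.choose 2 2 = 1 := rfl
  omega

/-- graphs with invariant one have at most `|S| - 2` triangles -/
theorem tri_one : ∀ (n : ℕ) (G : SimpleGraph V) (S : Finset V), S.card = n →
    3 ≤ n → NS G S 2 → bb G S = 1 →
    cl G 3 S + 2 ≤ n ∧ (cl G 3 S + 2 = n → ∀ w ∈ S, ∀ p q, nb G w S = {p, q} → p ≠ q → G.Adj p q) := by
  intro n
  induction n with
  | zero => intro G S _ h; omega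
  | succ n ih =>
    intro G S hn hn3 hs hb
    rcases Nat.lt_or_ge n 3 with h3 | h3
    · have hn' : n = 2 := by omega
      subst hn'
      constructor
      · have := cl_le_choose G 3 S
        rw [hn] at this
        have h : Nat.choose (2 + 1) 3 = 1 := rfl
        omega
      · intro _ w hw p q hnb hpq
        have hp : p ∈ nb G w S := by rw [hnb]; simp
        have hq : q ∈ nb G w S := by rw [hnb]; simp
        exact adj_of_NS hs (by omega) (mem_nb.1 hp).1 (mem_nb.1 hq).1 hpq
    · have key : ∀ w ∈ S, ∀ p q, nb G w S = {p, q} → p ≠ q →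
          cl G 3 S + 2 ≤ n + 1 ∧ (¬ G.Adj p q → cl G 3 S + 3 ≤ n + 1) := by
        intro w hw p q hnb hpq
        obtain ⟨n1, b1, t1⟩ := deg_two_remove hs hb (by omega) hw hnb hpq
        obtain ⟨i1, _⟩ := ih (add G p q) (S.erase w) (by rw [card_erase_of_mem hw]; omega)
          (by omega) n1 b1
        have hm : cl G 3 (S.erase w) ≤ cl (add G p q) 3 (S.erase w) :=
          cl_mono (subset_refl _) (fun _ _ _ _ h => Or.inl h)
        by_cases hadj : G.Adj p q
        · rw [cl_two_pair_adj hadj] at t1
          exact ⟨by omega, fun h => absurd hadj h⟩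
        · rw [cl_two_pair_not hpq hadj] at t1
          exact ⟨by omega, fun _ => by omega⟩
      obtain ⟨x, hx⟩ : S.Nonempty := by rw [← card_pos]; omega
      obtain ⟨y, hy, hxy⟩ := exists_nb (hs.le (by norm_num)) hx (by omega)
      obtain ⟨w, hw, _, _, hw2⟩ := exists_deg_two _ G S x y hn (by omega) hs hb hx hy hxy
      obtain ⟨p, q, hpq, hnb⟩ := card_eq_two.1 hw2
      refine ⟨(key w hw p q hnb hpq).1, ?_⟩
      intro he w' hw' p' q' hnb' hpq'
      by_contra hcon
      have := (key w' hw' p' q' hnb' hpq').2 hcon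
      omega

/-- an induced path, listed from one end -/
def EP (G : SimpleGraph V) : List V → Prop
  | [] => True
  | [_] => True
  | a :: b :: l => G.Adj a b ∧ (∀ c ∈ l, ¬ G.Adj a c) ∧ EP G (b :: l)

lemma card_two_of_mem {T : Finset V} {h : V} (hT : T.card = 2) (hh : h ∈ T) :
    ∃ z, z ≠ h ∧ T = {h, z} := by
  obtain ⟨a, b, hab, rfl⟩ := card_eq_two.1 hT
  rw [mem_insert, mem_singleton] at hh
  rcases hh with rfl | rfl
  · exact ⟨b, hab.symm, rfl⟩
  · exact ⟨a, hab, pair_comm a h⟩

lemma eq_pair_of_card {T : Finset V} {h z : V} (hT : T.card = 2) (hh : h ∈ T) (hz : z ∈ T)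
    (hhz : h ≠ z) : T = {h, z} := by
  symm
  apply eq_of_subset_of_card_le
  · intro v hv
    rw [mem_insert, mem_singleton] at hv
    rcases hv with rfl | rfl <;> assumption
  · rw [hT, card_pair hhz]

/-- fans -/
theorem fan_structure : ∀ (n : ℕ) (G : SimpleGraph V) (S : Finset V) (x y h : V), S.card = n + 4 →
    NS G S 2 → bb G S = 1 → cl G 3 S + 2 = n + 4 → x ∈ S → y ∈ S → h ∈ S → x ≠ y →
    ¬ G.Adj x y → (nb G x S).card = 2 → (nb G y S).card = 2 →
    (∀ v ∈ S, v ≠ x → v ≠ y → 3 ≤ (nb G v S).card) → G.Adj x h → G.Adj y h →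
    ∃ l : List V, (x :: l).Nodup ∧ (x :: l).toFinset = S.erase h ∧ (x :: l).getLast? = some y ∧
      (∀ v ∈ x :: l, G.Adj h v) ∧ EP G (x :: l) := by
  intro n
  induction n with
  | zero =>
    intro G S x y h hS hs hb ht hx hy hh hxy hnxy hdx hdy hdeg hxh hyh
    obtain ⟨z, hzh, hz⟩ := card_two_of_mem hdx (mem_nb.2 ⟨hh, hxh⟩)
    have hzm : z ∈ nb G x S := by rw [hz]; simp
    rw [mem_nb] at hzm
    have hhz : G.Adj h z := (tri_one _ G S hS (by omega) hs hb).2 ht x hx h z hz hzh.symm
    have hzx : z ≠ x := hzm.2.ne.symm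
    have hzy : z ≠ y := fun e => hnxy (e ▸ hzm.2)
    have hhx : h ≠ x := hxh.ne.symm
    have hhy : h ≠ y := hyh.ne.symm
    have hSeq : S = {x, y, h, z} := by
      symm
      apply eq_of_subset_of_card_le
      · intro v hv
        simp only [mem_insert, mem_singleton] at hv
        rcases hv with rfl | rfl | rfl | rfl
        · exact hx
        · exact hy
        · exact hh
        · exact hzm.1
      · rw [hS]
        rw [card_insert_of_notMem, card_insert_of_notMem, card_pair hzh.symm]
        · simp only [mem_insert, mem_singleton, not_or]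
          exact ⟨hhy.symm, hzy.symm⟩
        · simp only [mem_insert, mem_singleton, not_or]
          exact ⟨hxy, hhx.symm, hzx.symm⟩
    have hyz : G.Adj z y := by
      obtain ⟨z', hz'h, hz'⟩ := card_two_of_mem hdy (mem_nb.2 ⟨hh, hyh⟩)
      have hm : z' ∈ nb G y S := by rw [hz']; simp
      rw [mem_nb, hSeq] at hm
      simp only [mem_insert, mem_singleton] at hm
      rcases hm with ⟨h1 | h1 | h1 | h1, h2⟩
      · exact absurd (h1 ▸ h2).symm hnxy
      · exact absurd h1.symm h2.ne
      · exact absurd h1 hz'h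
      · exact (h1 ▸ h2).symm
    refine ⟨[z, y], ?_, ?_, by simp, ?_, ?_⟩
    · simp only [List.nodup_cons, List.mem_cons, List.not_mem_nil, or_false, not_or, not_false_eq_true,
        List.nodup_nil, and_true]
      exact ⟨⟨hzx.symm, hxy⟩, hzy⟩
    · rw [hSeq]
      ext v
      simp only [List.mem_toFinset, List.mem_cons, List.not_mem_nil, or_false, mem_erase, mem_insert,
        mem_singleton]
      constructor
      · rintro (rfl | rfl | rfl)
        · exact ⟨hhx.symm, Or.inl rfl⟩
        · exact ⟨hzh, Or.inr (Or.inr (Or.inr rfl))⟩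
        · exact ⟨hhy.symm, Or.inr (Or.inl rfl)⟩
      · tauto
    · intro v hv
      simp only [List.mem_cons, List.not_mem_nil, or_false] at hv
      rcases hv with rfl | rfl | rfl
      · exact hxh.symm
      · exact hhz
      · exact hyh.symm
    · refine ⟨hzm.2, ?_, hyz, ?_, trivial⟩
      · intro c hc
        simp only [List.mem_cons, List.not_mem_nil, or_false] at hc
        rw [hc]; exact hnxy
      · intro c hc; simp at hc
  | succ n ih =>
    intro G S x y h hS hs hb ht hx hy hh hxy hnxy hdx hdy hdeg hxh hyh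
    obtain ⟨z, hzh, hz⟩ := card_two_of_mem hdx (mem_nb.2 ⟨hh, hxh⟩)
    have hzm : z ∈ nb G x S := by rw [hz]; simp
    rw [mem_nb] at hzm
    have hhz : G.Adj h z := (tri_one _ G S hS (by omega) hs hb).2 ht x hx h z hz hzh.symm
    have hzx : z ≠ x := hzm.2.ne.symm
    have hzy : z ≠ y := fun e => hnxy (e ▸ hzm.2)
    have hhx : h ≠ x := hxh.ne.symm
    have hhy : h ≠ y := hyh.ne.symm
    -- nonneighbours of `x`
    have hxn : ∀ v ∈ S, v ≠ h → v ≠ z → ¬ G.Adj x v := by
      intro v hv h1 h2 h3
      have : v ∈ nb G x S := mem_nb.2 ⟨hv, h3⟩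
      rw [hz, mem_insert, mem_singleton] at this
      tauto
    obtain ⟨n1, b1, t1⟩ := deg_two_remove hs hb (by omega) hx hz hzh.symm
    rw [add_self hhz] at n1 b1
    rw [cl_two_pair_adj hhz] at t1
    have hcard : (S.erase x).card = n + 4 := by rw [card_erase_of_mem hx]; omega
    have ht' : cl G 3 (S.erase x) + 2 = n + 4 := by omega
    have hyS : y ∈ S.erase x := mem_erase.2 ⟨hxy.symm, hy⟩
    have hhS : h ∈ S.erase x := mem_erase.2 ⟨hhx, hh⟩
    have hzS : z ∈ S.erase x := mem_erase.2 ⟨hzx, hzm.1⟩
    have hnbsame : ∀ v ∈ S, v ≠ h → v ≠ z → nb G v (S.erase x) = nb G v S := by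
      intro v hv h1 h2
      ext u
      rw [mem_nb, mem_nb, mem_erase]
      constructor
      · rintro ⟨⟨_, h3⟩, h4⟩; exact ⟨h3, h4⟩
      · rintro ⟨h3, h4⟩
        exact ⟨⟨fun e => hxn v hv h1 h2 (e ▸ h4).symm, h3⟩, h4⟩
    have hdz : (nb G z (S.erase x)).card = 2 := by
      obtain ⟨w, hw, hwy, hwh, hw2⟩ := exists_deg_two _ G (S.erase x) y h hcard (by omega) n1 b1
        hyS hhS hyh
      by_cases hwz : w = z
      · rw [← hwz]; exact hw2
      · rw [mem_erase] at hw
        rw [hnbsame w hw.2 hwh hwz] at hw2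
        have := hdeg w hw.2 hw.1 hwy
        omega
    have hnzy : ¬ G.Adj z y := by
      intro hzy'
      have e1 : nb G y S = {h, z} :=
        eq_pair_of_card hdy (mem_nb.2 ⟨hh, hyh⟩) (mem_nb.2 ⟨hzm.1, hzy'.symm⟩) hzh.symm
      have e2 : nb G z (S.erase x) = {h, y} :=
        eq_pair_of_card hdz (mem_nb.2 ⟨hhS, hhz.symm⟩) (mem_nb.2 ⟨hyS, hzy'⟩) hhy
      have hcr : (S \ {x, y, z, h}).card = n + 1 := by
        rw [card_sdiff_of_subset]
        · rw [card_insert_of_notMem, card_insert_of_notMem, card_pair hzh]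
          · omega
          · simp only [mem_insert, mem_singleton, not_or]
            exact ⟨hzy.symm, hhy.symm⟩
          · simp only [mem_insert, mem_singleton, not_or]
            exact ⟨hxy, hzx.symm, hhx.symm⟩
        · intro v hv
          simp only [mem_insert, mem_singleton] at hv
          rcases hv with rfl | rfl | rfl | rfl
          · exact hx
          · exact hy
          · exact hzm.1
          · exact hh
      have hsep : Sep G S {x, y, z} (S \ {x, y, z, h}) := by
        refine ⟨?_, sdiff_subset, ?_, ⟨x, by simp⟩, ?_, ?_⟩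
        · intro v hv
          simp only [mem_insert, mem_singleton] at hv
          rcases hv with rfl | rfl | rfl
          · exact hx
          · exact hy
          · exact hzm.1
        · rw [disjoint_left]
          intro v hv hv'
          simp only [mem_insert, mem_singleton, mem_sdiff] at hv hv'
          tauto
        · rw [← card_pos]; omega
        · intro a ha b hb hab
          simp only [mem_insert, mem_singleton, mem_sdiff, not_or] at ha hb
          rcases ha with rfl | rfl | rfl
          · exact hxn b hb.1 hb.2.2.2.2 hb.2.2.2.1 hab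
          · have : b ∈ nb G a S := mem_nb.2 ⟨hb.1, hab⟩
            rw [e1, mem_insert, mem_singleton] at this
            tauto
          · have : b ∈ nb G a (S.erase x) := mem_nb.2 ⟨mem_erase.2 ⟨hb.2.1, hb.1⟩, hab⟩
            rw [e2, mem_insert, mem_singleton] at this
            tauto
      have := hs _ _ hsep
      rw [hcr, card_insert_of_notMem, card_pair hzy.symm] at this
      · omega
      · simp only [mem_insert, mem_singleton, not_or]
        exact ⟨hxy, hzx.symm⟩
    have hdy' : (nb G y (S.erase x)).card = 2 := by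
      rw [hnbsame y hy hhy.symm hzy.symm]; exact hdy
    have hdeg' : ∀ v ∈ S.erase x, v ≠ z → v ≠ y → 3 ≤ (nb G v (S.erase x)).card := by
      intro v hv hvz hvy
      have hv' := mem_erase.1 hv
      by_cases hvh : v = h
      · subst hvh
        by_contra hcon
        have h2 := NS_deg n1 hv (by omega)
        have e3 : nb G v (S.erase x) = {z, y} :=
          eq_pair_of_card (by omega) (mem_nb.2 ⟨hzS, hhz⟩) (mem_nb.2 ⟨hyS, hyh.symm⟩) hzy
        exact hnzy ((tri_one _ G (S.erase x) hcard (by omega) n1 b1).2 ht' v hv z y e3 hzy)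
      · rw [hnbsame v hv'.2 hvh hvz]
        exact hdeg v hv'.2 hv'.1 hvy
    obtain ⟨l, l1, l2, l3, l4, l5⟩ := ih G (S.erase x) z y h hcard n1 b1 ht' hzS hyS hhS hzy hnzy
      hdz hdy' hdeg' hhz.symm hyh
    refine ⟨z :: l, ?_, ?_, ?_, ?_, ?_⟩
    · rw [List.nodup_cons]
      refine ⟨fun hmem => ?_, l1⟩
      rw [← List.mem_toFinset, l2, mem_erase, mem_erase] at hmem
      exact hmem.2.1 rfl
    · rw [List.toFinset_cons, l2]
      ext v
      simp only [mem_insert, mem_erase]
      constructor
      · rintro (rfl | h')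
        · exact ⟨hhx.symm, hx⟩
        · exact ⟨h'.1, h'.2.2⟩
      · rintro ⟨h1, h2⟩
        by_cases hvx : v = x
        · exact Or.inl hvx
        · exact Or.inr ⟨h1, hvx, h2⟩
    · rw [List.getLast?_cons_cons]; exact l3
    · intro v hv
      rcases List.mem_cons.1 hv with rfl | hv
      · exact hxh.symm
      · exact l4 v hv
    · refine ⟨hzm.2, ?_, l5⟩
      intro c hc
      have hcm : c ∈ (z :: l).toFinset := List.mem_toFinset.2 (List.mem_cons_of_mem _ hc)
      rw [l2, mem_erase, mem_erase] at hcm
      apply hxn c hcm.2.2 hcm.1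
      intro e
      rw [List.nodup_cons] at l1
      exact l1.1 (e ▸ hc)

end Pool.Agent.H62.Wh
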