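import Pool.Agent.H62.WGlue

/-!
Separations and connectivity.
-/

set_option linter.unusedSectionVars false
set_option linter.unusedVariables false

namespace Pool.Agent.H62.Wh

open Finset

variable {V : Type*} [DecidableEq V]

/-- `A` and `B` are nonempty disjoint subsets of `S` with no edge between them -/
def Sep (G : SimpleGraph V) (S A B : Finset V) : Prop :=
  A ⊆ S ∧ B ⊆ S ∧ Disjoint A B ∧ A.Nonempty ∧ B.Nonempty ∧ ∀ a ∈ A, ∀ b ∈ B, ¬ G.Adj a b

/-- every separation leaves out at least `k` vertices -/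
def NS (G : SimpleGraph V) (S : Finset V) (k : ℕ) : Prop :=
  ∀ A B, Sep G S A B → A.card + B.card + k ≤ S.card

/-- neighbours in `S` -/
noncomputable def nb (G : SimpleGraph V) (v : V) (S : Finset V) : Finset V :=
  @Finset.filter _ (fun u => G.Adj v u) (Classical.decPred _) S

lemma mem_nb {G : SimpleGraph V} {v u : V} {S : Finset V} :
    u ∈ nb G v S ↔ u ∈ S ∧ G.Adj v u := by
  unfold nb
  rw [@Finset.mem_filter _ _ (Classical.decPred _)]

lemma nb_sub {G : SimpleGraph V} {v : V} {S : Finset V} : nb G v S ⊆ S :=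
  fun u hu => (mem_nb.1 hu).1

lemma Sep.symm {G : SimpleGraph V} {S A B : Finset V} (h : Sep G S A B) : Sep G S B A :=
  ⟨h.2.1, h.1, h.2.2.1.symm, h.2.2.2.2.1, h.2.2.2.1, fun b hb a ha hab => h.2.2.2.2.2 a ha b hb hab.symm⟩

lemma Sep.mono {G G' : SimpleGraph V} {S A B : Finset V}
    (h : ∀ a ∈ S, ∀ b ∈ S, G.Adj a b → G'.Adj a b) (hs : Sep G' S A B) : Sep G S A B :=
  ⟨hs.1, hs.2.1, hs.2.2.1, hs.2.2.2.1, hs.2.2.2.2.1,
    fun a ha b hb hab => hs.2.2.2.2.2 a ha b hb (h a (hs.1 ha) b (hs.2.1 hb) hab)⟩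

lemma NS.mono {G G' : SimpleGraph V} {S : Finset V} {k : ℕ}
    (h : ∀ a ∈ S, ∀ b ∈ S, G.Adj a b → G'.Adj a b) (hs : NS G S k) : NS G' S k :=
  fun A B hAB => hs A B (hAB.mono h)

lemma NS.congr {G G' : SimpleGraph V} {S : Finset V} {k : ℕ}
    (h : Agree G G' S) (hs : NS G S k) : NS G' S k :=
  hs.mono (fun a ha b hb hab => (h a ha b hb).1 hab)

lemma NS.le {G : SimpleGraph V} {S : Finset V} {k j : ℕ} (hs : NS G S k) (h : j ≤ k) : NS G S j :=
  fun A B hAB => by have := hs A B hAB; omega

lemma NS.erase {G : SimpleGraph V} {S : Finset V} {k : ℕ} (hs : NS G S (k + 1)) {v : V} (hv : v ∈ S) :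
    NS G (S.erase v) k := by
  intro A B hAB
  have h1 : Sep G S A B := ⟨hAB.1.trans (erase_subset _ _), hAB.2.1.trans (erase_subset _ _), hAB.2.2⟩
  have h2 := hs A B h1
  rw [card_erase_of_mem hv]
  omega

lemma add_le {G : SimpleGraph V} {x y : V} {S : Finset V} :
    ∀ a ∈ S, ∀ b ∈ S, G.Adj a b → (add G x y).Adj a b := fun a _ b _ h => Or.inl h

lemma NS_con {G : SimpleGraph V} {S : Finset V} {k : ℕ} {x y : V} (hx : x ∈ S) (hy : y ∈ S)
    (hxy : x ≠ y) (hs : NS G S k)
    (h : ∀ A B, Sep G S A B → x ∉ A → y ∉ A → x ∉ B → y ∉ B → A.card + B.card + k + 1 ≤ S.card) :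
    NS (con G x y) (S.erase y) k := by
  have key : ∀ A B, Sep (con G x y) (S.erase y) A B → x ∈ A → A.card + B.card + k ≤ (S.erase y).card := by
    intro A B hAB hxA
    obtain ⟨h1, h2, h3, h4, h5, h6⟩ := hAB
    have hyA : y ∉ A := fun h' => (mem_erase.1 (h1 h')).1 rfl
    have hyB : y ∉ B := fun h' => (mem_erase.1 (h2 h')).1 rfl
    have h7 : Sep G S (insert y A) B := by
      refine ⟨?_, h2.trans (erase_subset _ _), ?_, insert_nonempty _ _, h5, ?_⟩
      · intro v hv
        rcases mem_insert.1 hv with rfl | hv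
        · exact hy
        · exact mem_of_mem_erase (h1 hv)
      · rw [disjoint_insert_left]; exact ⟨hyB, h3⟩
      · intro a ha b hb hab
        have hbx : b ≠ x := fun e => disjoint_left.1 h3 hxA (e ▸ hb)
        rcases mem_insert.1 ha with rfl | ha
        · exact h6 x hxA b hb ⟨hbx.symm, Or.inr (Or.inl ⟨rfl, hab⟩)⟩
        · exact h6 a ha b hb ⟨hab.ne, Or.inl hab⟩
    have h8 := hs _ _ h7
    rw [card_insert_of_notMem hyA] at h8
    rw [card_erase_of_mem hy]
    omega
  intro A B hAB
  by_cases hxA : x ∈ A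
  · exact key A B hAB hxA
  by_cases hxB : x ∈ B
  · have := key B A hAB.symm hxB
    omega
  obtain ⟨h1, h2, h3, h4, h5, h6⟩ := hAB
  have hyA : y ∉ A := fun h' => (mem_erase.1 (h1 h')).1 rfl
  have hyB : y ∉ B := fun h' => (mem_erase.1 (h2 h')).1 rfl
  have h7 : Sep G S A B := ⟨h1.trans (erase_subset _ _), h2.trans (erase_subset _ _), h3, h4, h5,
    fun a ha b hb hab => h6 a ha b hb ⟨hab.ne, Or.inl hab⟩⟩
  have h8 := h A B h7 hxA hyA hxB hyB
  rw [card_erase_of_mem hy]
  omega

/-- a failure of `NS` for the contraction comes from a separation avoiding both ends -/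
lemma exists_sep_of_con {G : SimpleGraph V} {S : Finset V} {k : ℕ} {x y : V} (hx : x ∈ S) (hy : y ∈ S)
    (hxy : x ≠ y) (hs : NS G S k) (h : ¬ NS (con G x y) (S.erase y) k) :
    ∃ A B, Sep G S A B ∧ x ∉ A ∧ y ∉ A ∧ x ∉ B ∧ y ∉ B ∧ A.card + B.card + k = S.card := by
  by_contra hcon
  push Not at hcon
  apply h
  apply NS_con hx hy hxy hs
  intro A B h1 h2 h3 h4 h5
  have h6 := hcon A B h1 h2 h3 h4 h5
  have h7 := hs A B h1
  omega

lemma NS_con_one {G : SimpleGraph V} {S : Finset V} {x y : V} (hx : x ∈ S) (hy : y ∈ S)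
    (hxy : x ≠ y) (hs : NS G S 1) : NS (con G x y) (S.erase y) 1 := by
  apply NS_con hx hy hxy hs
  intro A B hAB h2 h3 h4 h5
  have h6 : A ∪ B ⊆ (S.erase x).erase y := by
    intro v hv
    rw [mem_erase, mem_erase]
    rcases mem_union.1 hv with hv | hv
    · exact ⟨fun e => h3 (e ▸ hv), fun e => h2 (e ▸ hv), hAB.1 hv⟩
    · exact ⟨fun e => h5 (e ▸ hv), fun e => h4 (e ▸ hv), hAB.2.1 hv⟩
  have h7 := card_le_card h6
  rw [card_union_of_disjoint hAB.2.2.1, card_erase_of_mem (mem_erase.2 ⟨hxy.symm, hy⟩),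
    card_erase_of_mem hx] at h7
  have h8 : 2 ≤ S.card := by
    rw [← card_pair hxy]
    exact card_le_card (by intro v hv; rw [mem_insert, mem_singleton] at hv; rcases hv with rfl | rfl <;> assumption)
  omega

lemma two_le_card {S : Finset V} {x y : V} (hx : x ∈ S) (hy : y ∈ S) (hxy : x ≠ y) : 2 ≤ S.card := by
  rw [← card_pair hxy]
  exact card_le_card (by intro v hv; rw [mem_insert, mem_singleton] at hv; rcases hv with rfl | rfl <;> assumption)

/-- a separation after deleting an edge is a separation before, unless it separates the ends -/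
lemma Sep.of_del {G : SimpleGraph V} {S A B : Finset V} {x y : V} (h : Sep (del G x y) S A B) :
    Sep G S A B ∨ (x ∈ A ∧ y ∈ B) ∨ (y ∈ A ∧ x ∈ B) := by
  by_cases h1 : x ∈ A ∧ y ∈ B
  · exact Or.inr (Or.inl h1)
  by_cases h2 : y ∈ A ∧ x ∈ B
  · exact Or.inr (Or.inr h2)
  left
  refine ⟨h.1, h.2.1, h.2.2.1, h.2.2.2.1, h.2.2.2.2.1, fun a ha b hb hab => ?_⟩
  exact h.2.2.2.2.2 a ha b hb ⟨hab, fun e => h1 ⟨e.1 ▸ ha, e.2 ▸ hb⟩, fun e => h2 ⟨e.1 ▸ ha, e.2 ▸ hb⟩⟩

lemma NS_del {G : SimpleGraph V} {S : Finset V} {k : ℕ} {x y : V}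
    (hs : NS G S (k + 1)) (hc : k + 2 ≤ S.card) : NS (del G x y) S k := by
  have key : ∀ A B, Sep (del G x y) S A B → x ∈ A → y ∈ B → 2 ≤ A.card → A.card + B.card + k ≤ S.card := by
    intro A B hAB hxA hyB h2
    obtain ⟨h1, h2', h3, h4, h5, h6⟩ := hAB
    have h7 : Sep G S (A.erase x) B := by
      refine ⟨(erase_subset _ _).trans h1, h2', disjoint_of_subset_left (erase_subset _ _) h3, ?_, h5, ?_⟩
      · rw [← card_pos, card_erase_of_mem hxA]; omega
      · intro a ha b hb hab
        rw [mem_erase] at ha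
        exact h6 a ha.2 b hb ⟨hab, fun e => ha.1 e.1,
          fun e => disjoint_left.1 h3 hxA (e.2 ▸ hb)⟩
    have h8 := hs _ _ h7
    rw [card_erase_of_mem hxA] at h8
    omega
  have key2 : ∀ A B, Sep (del G x y) S A B → y ∈ A → x ∈ B → 2 ≤ A.card → A.card + B.card + k ≤ S.card := by
    intro A B hAB hxA hyB h2
    obtain ⟨h1, h2', h3, h4, h5, h6⟩ := hAB
    have h7 : Sep G S (A.erase y) B := by
      refine ⟨(erase_subset _ _).trans h1, h2', disjoint_of_subset_left (erase_subset _ _) h3, ?_, h5, ?_⟩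
      · rw [← card_pos, card_erase_of_mem hxA]; omega
      · intro a ha b hb hab
        rw [mem_erase] at ha
        exact h6 a ha.2 b hb ⟨hab, 
          fun e => disjoint_left.1 h3 hxA (e.2 ▸ hb), fun e => ha.1 e.1⟩
    have h8 := hs _ _ h7
    rw [card_erase_of_mem hxA] at h8
    omega
  intro A B hAB
  rcases hAB.of_del with h | ⟨h1, h2⟩ | ⟨h1, h2⟩
  · have := hs A B h; omega
  · by_cases h3 : 2 ≤ A.card
    · exact key A B hAB h1 h2 h3
    · by_cases h4 : 2 ≤ B.card
      · have := key2 B A hAB.symm h2 h1 h4; omega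
      · omega
  · by_cases h3 : 2 ≤ A.card
    · exact key2 A B hAB h1 h2 h3
    · by_cases h4 : 2 ≤ B.card
      · have := key B A hAB.symm h2 h1 h4; omega
      · omega

/-- deletion keeps `NS k` when the ends have `k` common neighbours -/
lemma NS_del_common {G : SimpleGraph V} {S : Finset V} {k : ℕ} {x y : V}
    (hs : NS G S k) (hc : k ≤ (nb G x S ∩ nb G y S).card) : NS (del G x y) S k := by
  have key : ∀ A B, Disjoint A B → A ⊆ S → B ⊆ S → (∀ z ∈ nb G x S ∩ nb G y S, z ∉ A ∧ z ∉ B) →
      A.card + B.card + k ≤ S.card := by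
    intro A B h1 h2 h3 h4
    have h5 : Disjoint (A ∪ B) (nb G x S ∩ nb G y S) := by
      rw [disjoint_right]
      intro z hz hz'
      rcases mem_union.1 hz' with h | h
      · exact (h4 z hz).1 h
      · exact (h4 z hz).2 h
    have h6 : (A ∪ B) ∪ (nb G x S ∩ nb G y S) ⊆ S := by
      intro z hz
      rcases mem_union.1 hz with hz | hz
      · rcases mem_union.1 hz with hz | hz
        · exact h2 hz
        · exact h3 hz
      · exact nb_sub (mem_inter.1 hz).1
    have h7 := card_le_card h6
    rw [card_union_of_disjoint h5, card_union_of_disjoint h1] at h7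
    omega
  intro A B hAB
  have hh := hAB
  obtain ⟨h1, h2, h3, h4, h5, h6⟩ := hAB
  rcases hh.of_del with h | ⟨hx, hy⟩ | ⟨hy, hx⟩
  · exact hs A B h
  · apply key A B h3 h1 h2
    intro z hz
    rw [mem_inter, mem_nb, mem_nb] at hz
    refine ⟨fun hzA => ?_, fun hzB => ?_⟩
    · exact h6 z hzA y hy ⟨hz.2.2.symm, fun e => hz.1.2.ne e.1.symm, fun e => hz.2.2.ne e.1.symm⟩
    · exact h6 x hx z hzB ⟨hz.1.2, fun e => hz.2.2.ne e.2.symm, fun e => hz.1.2.ne e.2.symm⟩
  · apply key A B h3 h1 h2
    intro z hz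
    rw [mem_inter, mem_nb, mem_nb] at hz
    refine ⟨fun hzA => ?_, fun hzB => ?_⟩
    · exact h6 z hzA x hx ⟨hz.1.2.symm, fun e => hz.1.2.ne e.1.symm, fun e => hz.2.2.ne e.1.symm⟩
    · exact h6 y hy z hzB ⟨hz.2.2, fun e => hz.2.2.ne e.2.symm, fun e => hz.1.2.ne e.2.symm⟩

lemma NS_deg {G : SimpleGraph V} {S : Finset V} {k : ℕ} {v : V}
    (hs : NS G S k) (hv : v ∈ S) (hc : k + 1 ≤ S.card) : k ≤ (nb G v S).card := by
  by_contra hcon
  push Not at hcon
  have h1 : nb G v S ⊆ S.erase v := by
    intro u hu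
    rw [mem_nb] at hu
    rw [mem_erase]
    exact ⟨hu.2.ne.symm, hu.1⟩
  have h2 : ((S.erase v) \ nb G v S).card = S.card - 1 - (nb G v S).card := by
    rw [card_sdiff_of_subset h1, card_erase_of_mem hv]
  have h3 : Sep G S {v} ((S.erase v) \ nb G v S) := by
    refine ⟨by simpa using hv, sdiff_subset.trans (erase_subset _ _), ?_, singleton_nonempty v, ?_, ?_⟩
    · rw [disjoint_singleton_left, mem_sdiff, mem_erase]
      tauto
    · rw [← card_pos]; omega
    · intro a ha b hb hab
      rw [mem_singleton] at ha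
      subst ha
      rw [mem_sdiff, mem_erase] at hb
      exact hb.2 (mem_nb.2 ⟨hb.1.2, hab⟩)
  have h4 := hs _ _ h3
  rw [card_singleton] at h4
  omega

lemma adj_of_NS {G : SimpleGraph V} {S : Finset V} {k : ℕ} (hs : NS G S k) (hc : S.card < k + 2)
    {p q : V} (hp : p ∈ S) (hq : q ∈ S) (hpq : p ≠ q) : G.Adj p q := by
  by_contra hcon
  have h3 : Sep G S {p} {q} := by
    refine ⟨by simpa using hp, by simpa using hq, by simpa using hpq, singleton_nonempty p,
      singleton_nonempty q, ?_⟩
    intro a ha b hb hab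
    rw [mem_singleton] at ha hb
    subst ha; subst hb
    exact hcon hab
  have h4 := hs _ _ h3
  rw [card_singleton, card_singleton] at h4
  omega

lemma NS_complete {G : SimpleGraph V} {S : Finset V} {k : ℕ}
    (h : ∀ p ∈ S, ∀ q ∈ S, p ≠ q → G.Adj p q) : NS G S k := by
  intro A B hAB
  obtain ⟨h1, h2, h3, ⟨a, ha⟩, ⟨b, hb⟩, h6⟩ := hAB
  exact absurd (h a (h1 ha) b (h2 hb) (fun e => disjoint_left.1 h3 ha (e ▸ hb))) (h6 a ha b hb)

lemma exists_nb {G : SimpleGraph V} {S : Finset V} {v : V}
    (hs : NS G S 1) (hv : v ∈ S) (hc : 2 ≤ S.card) : ∃ u ∈ S, G.Adj v u := by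
  have := NS_deg hs hv hc
  obtain ⟨u, hu⟩ : (nb G v S).Nonempty := by rw [← card_pos]; omega
  exact ⟨u, (mem_nb.1 hu).1, (mem_nb.1 hu).2⟩

/-- Every graph with `NS 3` on at least five vertices has a contractible edge. -/
theorem exists_contractible {G : SimpleGraph V} {S : Finset V} (hs : NS G S 3) (hc : 5 ≤ S.card) :
    ∃ x ∈ S, ∃ y ∈ S, G.Adj x y ∧ NS (con G x y) (S.erase y) 3 := by
  by_contra hcon
  push Not at hcon
  have H : ∀ x ∈ S, ∀ y ∈ S, G.Adj x y → ∃ A B, Sep G S A B ∧ x ∉ A ∧ y ∉ A ∧ x ∉ B ∧ y ∉ B ∧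
      A.card + B.card + 3 = S.card := fun x hx y hy hxy =>
    exists_sep_of_con hx hy hxy.ne hs (hcon x hx y hy hxy)
  have main : ∀ n, ∀ x ∈ S, ∀ y ∈ S, ∀ A B, G.Adj x y → Sep G S A B → x ∉ A → y ∉ A → x ∉ B → y ∉ B →
      A.card + B.card + 3 = S.card → B.card = n → False := by
    intro n
    induction n using Nat.strong_induction_on with
    | _ n ih =>
      intro x hx y hy A B hxy hAB hxA hyA hxB hyB hcard hBn
      obtain ⟨h1, h2, h3, h4, h5, h6⟩ := hAB
      -- the third vertex
      have hz : ∃ z ∈ S, z ∉ A ∧ z ∉ B ∧ z ≠ x ∧ z ≠ y ∧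
          ∀ v ∈ S, v ∈ A ∨ v ∈ B ∨ v = x ∨ v = y ∨ v = z := by
        have hsub : A ∪ B ⊆ S := union_subset h1 h2
        have hx' : x ∈ S \ (A ∪ B) := by
          rw [mem_sdiff, mem_union]; tauto
        have hy' : y ∈ (S \ (A ∪ B)).erase x := by
          rw [mem_erase, mem_sdiff, mem_union]; exact ⟨hxy.ne.symm, hy, by tauto⟩
        have hc1 : (((S \ (A ∪ B)).erase x).erase y).card = 1 := by
          rw [card_erase_of_mem hy', card_erase_of_mem hx', card_sdiff_of_subset hsub,
            card_union_of_disjoint h3]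
          omega
        obtain ⟨z, hz⟩ := card_eq_one.1 hc1
        have hz' : z ∈ ((S \ (A ∪ B)).erase x).erase y := by rw [hz]; exact mem_singleton_self z
        simp only [mem_erase, mem_sdiff, mem_union, not_or] at hz'
        refine ⟨z, hz'.2.2.1, hz'.2.2.2.1, hz'.2.2.2.2, hz'.2.1, hz'.1, fun v hv => ?_⟩
        by_contra hc'
        push Not at hc'
        have : v ∈ ((S \ (A ∪ B)).erase x).erase y := by
          simp only [mem_erase, mem_sdiff, mem_union, not_or]
          exact ⟨hc'.2.2.2.1, hc'.2.2.1, hv, hc'.1, hc'.2.1⟩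
        rw [hz, mem_singleton] at this
        exact hc'.2.2.2.2 this
      obtain ⟨z, hzS, hzA, hzB, hzx, hzy, hcov⟩ := hz
      -- a neighbour of `z` in `B`
      have hu : ∃ u ∈ B, G.Adj z u := by
        by_contra hc'
        push Not at hc'
        have h7 : Sep G S (insert z A) B := by
          refine ⟨?_, h2, ?_, insert_nonempty _ _, h5, ?_⟩
          · intro v hv
            rcases mem_insert.1 hv with rfl | hv
            · exact hzS
            · exact h1 hv
          · rw [disjoint_insert_left]; exact ⟨hzB, h3⟩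
          · intro a ha b hb
            rcases mem_insert.1 ha with rfl | ha
            · exact hc' b hb
            · exact h6 a ha b hb
        have h8 := hs _ _ h7
        rw [card_insert_of_notMem hzA] at h8
        omega
      obtain ⟨u, huB, hzu⟩ := hu
      -- the heart
      have key : ∀ A' B', Sep G S A' B' → z ∉ A' → u ∉ A' → z ∉ B' → u ∉ B' →
          A'.card + B'.card + 3 = S.card → x ∉ B' → y ∉ B' → False := by
        intro A' B' hAB' hzA' huA' hzB' huB' hcard' hxB' hyB'
        obtain ⟨g1, g2, g3, g4, g5, g6⟩ := hAB'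
        have hv : ∃ v ∈ B', G.Adj u v := by
          by_contra hc'
          push Not at hc'
          have h7 : Sep G S (insert u A') B' := by
            refine ⟨?_, g2, ?_, insert_nonempty _ _, g5, ?_⟩
            · intro v hv
              rcases mem_insert.1 hv with rfl | hv
              · exact h2 huB
              · exact g1 hv
            · rw [disjoint_insert_left]; exact ⟨huB', g3⟩
            · intro a ha b hb
              rcases mem_insert.1 ha with rfl | ha
              · exact hc' b hb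
              · exact g6 a ha b hb
          have h8 := hs _ _ h7
          rw [card_insert_of_notMem huA'] at h8
          omega
        obtain ⟨v, hvB', huv⟩ := hv
        have hvB : v ∈ B := by
          rcases hcov v (g2 hvB') with h | h | h | h | h
          · exact absurd huv.symm (h6 v h u huB)
          · exact h
          · exact absurd (h ▸ hvB') hxB'
          · exact absurd (h ▸ hvB') hyB'
          · exact absurd (h ▸ hvB') hzB'
        have hd : Disjoint (A' ∪ (B' \ B)) (B ∩ B') := by
          rw [disjoint_left]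
          intro w hw hw'
          rw [mem_inter] at hw'
          rcases mem_union.1 hw with hw | hw
          · exact disjoint_left.1 g3 hw hw'.2
          · exact (mem_sdiff.1 hw).2 hw'.1
        have hd2 : Disjoint A' (B' \ B) := disjoint_of_subset_right sdiff_subset g3
        apply ih (B ∩ B').card ?_ z hzS u (h2 huB) (A' ∪ (B' \ B)) (B ∩ B') hzu ?_ ?_ ?_ ?_ ?_ ?_ rfl
        · rw [← hBn]
          apply card_lt_card
          exact ⟨inter_subset_left, fun h => huB' (mem_inter.1 (h huB)).2⟩
        · refine ⟨union_subset g1 (sdiff_subset.trans g2), inter_subset_left.trans h2, hd, ?_, ?_, ?_⟩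
          · obtain ⟨a, ha⟩ := g4
            exact ⟨a, mem_union_left _ ha⟩
          · exact ⟨v, mem_inter.2 ⟨hvB, hvB'⟩⟩
          · intro a ha b hb
            rw [mem_inter] at hb
            rcases mem_union.1 ha with ha | ha
            · exact g6 a ha b hb.2
            · rw [mem_sdiff] at ha
              rcases hcov a (g2 ha.1) with h | h | h | h | h
              · exact h6 a h b hb.1
              · exact absurd h ha.2
              · exact absurd (h ▸ ha.1) hxB'
              · exact absurd (h ▸ ha.1) hyB'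
              · exact absurd (h ▸ ha.1) hzB'
        · rw [mem_union, mem_sdiff]; tauto
        · rw [mem_union, mem_sdiff]; tauto
        · rw [mem_inter]; tauto
        · rw [mem_inter]; tauto
        · rw [card_union_of_disjoint hd2]
          have : (B' \ B).card + (B ∩ B').card = B'.card := by
            rw [inter_comm, add_comm]
            exact card_inter_add_card_sdiff B' B
          omega
      obtain ⟨A', B', hAB', hzA', huA', hzB', huB', hcard'⟩ := H z hzS u (h2 huB) hzu
      by_cases hB' : x ∈ B' ∨ y ∈ B'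
      · apply key B' A' hAB'.symm hzB' huB' hzA' huA' (by omega)
        · intro hxA'
          rcases hB' with h | h
          · exact disjoint_left.1 hAB'.2.2.1 hxA' h
          · exact hAB'.2.2.2.2.2 x hxA' y h hxy
        · intro hyA'
          rcases hB' with h | h
          · exact hAB'.2.2.2.2.2 y hyA' x h hxy.symm
          · exact disjoint_left.1 hAB'.2.2.1 hyA' h
      · push Not at hB'
        exact key A' B' hAB' hzA' huA' hzB' huB' hcard' hB'.1 hB'.2
  -- an edge exists
  obtain ⟨x, hx⟩ : S.Nonempty := by rw [← card_pos]; omega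
  obtain ⟨y, hy, hxy⟩ := exists_nb (hs.le (by norm_num)) hx (by omega)
  obtain ⟨A, B, h1, h2, h3, h4, h5, h6⟩ := H x hx y hy hxy
  exact main _ x hx y hy A B hxy h1 h2 h3 h4 h5 h6 rfl

/-- deletion or contraction keeps `NS 2` -/
theorem NS_two_dichotomy {G : SimpleGraph V} {S : Finset V} {x y : V} (hx : x ∈ S) (hy : y ∈ S)
    (hxy : G.Adj x y) (hs : NS G S 2) (hc : 3 ≤ S.card) :
    NS (del G x y) S 2 ∨ NS (con G x y) (S.erase y) 2 := by
  by_contra hcon
  push Not at hcon
  obtain ⟨hd, hcn⟩ := hcon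
  obtain ⟨A, B, hAB, hxA, hyA, hxB, hyB, hcard⟩ := exists_sep_of_con hx hy hxy.ne hs hcn
  have hcov : ∀ v ∈ S, v ∈ A ∨ v ∈ B ∨ v = x ∨ v = y := by
    intro v hv
    by_contra hc'
    push Not at hc'
    have hsub : insert v (A ∪ B) ⊆ (S.erase x).erase y := by
      intro w hw
      rw [mem_erase, mem_erase]
      rcases mem_insert.1 hw with rfl | hw
      · exact ⟨hc'.2.2.2, hc'.2.2.1, hv⟩
      · rcases mem_union.1 hw with hw | hw
        · exact ⟨fun e => hyA (e ▸ hw), fun e => hxA (e ▸ hw), hAB.1 hw⟩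
        · exact ⟨fun e => hyB (e ▸ hw), fun e => hxB (e ▸ hw), hAB.2.1 hw⟩
    have h7 := card_le_card hsub
    rw [card_insert_of_notMem (by rw [mem_union]; tauto), card_union_of_disjoint hAB.2.2.1,
      card_erase_of_mem (mem_erase.2 ⟨hxy.ne.symm, hy⟩), card_erase_of_mem hx] at h7
    omega
  -- the other failure
  unfold NS at hd
  push Not at hd
  obtain ⟨A', B', hAB', hcard'⟩ := hd
  have key : ∀ A' B', Sep (del G x y) S A' B' → S.card < A'.card + B'.card + 2 → x ∈ A' → y ∈ B' → False := by
    intro A' B' hAB' hcard' hxA' hyB'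
    obtain ⟨g1, g2, g3, g4, g5, g6⟩ := hAB'
    -- a side `Z` contained in `A' ∪ B'`
    have side : ∀ Z W, Sep G S Z W → (∀ v ∈ S, v ∈ Z ∨ v ∈ W ∨ v = x ∨ v = y) → x ∉ Z → y ∉ Z →
        (∀ v ∈ Z, v ∈ A' ∨ v ∈ B') → False := by
      intro Z W hZW hcovZ hxZ hyZ hZ
      obtain ⟨f1, f2, f3, f4, f5, f6⟩ := hZW
      have e1 : Z ∩ A' = ∅ := by
        by_contra hne
        have hsep : Sep G S (Z ∩ A') ((S.erase x) \ (Z ∩ A')) := by
          refine ⟨inter_subset_left.trans f1, sdiff_subset.trans (erase_subset _ _),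
            disjoint_sdiff, nonempty_iff_ne_empty.2 hne, ?_, ?_⟩
          · refine ⟨y, ?_⟩
            rw [mem_sdiff, mem_erase, mem_inter]
            exact ⟨⟨hxy.ne.symm, hy⟩, fun h => hyZ h.1⟩
          · intro u hu v hv huv
            rw [mem_inter] at hu
            rw [mem_sdiff, mem_erase, mem_inter] at hv
            have hux : u ≠ x := fun e => hxZ (e ▸ hu.1)
            have huy : u ≠ y := fun e => hyZ (e ▸ hu.1)
            by_cases hvB' : v ∈ B'
            · exact g6 u hu.2 v hvB' ⟨huv, fun e => hux e.1, fun e => huy e.1⟩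
            · rcases hcovZ v hv.1.2 with h | h | h | h
              · rcases hZ v h with h' | h'
                · exact hv.2 ⟨h, h'⟩
                · exact hvB' h'
              · exact f6 u hu.1 v h huv
              · exact hv.1.1 h
              · exact hvB' (h ▸ hyB')
        have h7 := hs _ _ hsep
        have hsub : Z ∩ A' ⊆ S.erase x := by
          intro u hu
          rw [mem_inter] at hu
          exact mem_erase.2 ⟨fun e => hxZ (e ▸ hu.1), f1 hu.1⟩
        have h8 := card_le_card hsub
        rw [card_sdiff_of_subset hsub, card_erase_of_mem hx] at h7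
        rw [card_erase_of_mem hx] at h8
        omega
      have e2 : Z ∩ B' = ∅ := by
        by_contra hne
        have hsep : Sep G S (Z ∩ B') ((S.erase y) \ (Z ∩ B')) := by
          refine ⟨inter_subset_left.trans f1, sdiff_subset.trans (erase_subset _ _),
            disjoint_sdiff, nonempty_iff_ne_empty.2 hne, ?_, ?_⟩
          · refine ⟨x, ?_⟩
            rw [mem_sdiff, mem_erase, mem_inter]
            exact ⟨⟨hxy.ne, hx⟩, fun h => hxZ h.1⟩
          · intro u hu v hv huv
            rw [mem_inter] at hu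
            rw [mem_sdiff, mem_erase, mem_inter] at hv
            have hux : u ≠ x := fun e => hxZ (e ▸ hu.1)
            have huy : u ≠ y := fun e => hyZ (e ▸ hu.1)
            by_cases hvA' : v ∈ A'
            · exact g6 v hvA' u hu.2 ⟨huv.symm, fun e => huy e.2, fun e => hux e.2⟩
            · rcases hcovZ v hv.1.2 with h | h | h | h
              · rcases hZ v h with h' | h'
                · exact hvA' h'
                · exact hv.2 ⟨h, h'⟩
              · exact f6 u hu.1 v h huv
              · exact hvA' (h ▸ hxA')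
              · exact hv.1.1 h
        have h7 := hs _ _ hsep
        have hsub : Z ∩ B' ⊆ S.erase y := by
          intro u hu
          rw [mem_inter] at hu
          exact mem_erase.2 ⟨fun e => hyZ (e ▸ hu.1), f1 hu.1⟩
        have h8 := card_le_card hsub
        rw [card_sdiff_of_subset hsub, card_erase_of_mem hy] at h7
        rw [card_erase_of_mem hy] at h8
        omega
      obtain ⟨w, hw⟩ := f4
      rcases hZ w hw with h | h
      · have : w ∈ Z ∩ A' := mem_inter.2 ⟨hw, h⟩
        rw [e1] at this; exact notMem_empty _ this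
      · have : w ∈ Z ∩ B' := mem_inter.2 ⟨hw, h⟩
        rw [e2] at this; exact notMem_empty _ this
    -- at most one vertex is outside
    have hone : ∀ v ∈ S, ∀ w ∈ S, v ∉ A' → v ∉ B' → w ∉ A' → w ∉ B' → v = w := by
      intro v hv w hw h1 h2 h3 h4
      by_contra hvw
      have hsub : insert v (insert w (A' ∪ B')) ⊆ S := by
        intro u hu
        rcases mem_insert.1 hu with rfl | hu
        · exact hv
        · rcases mem_insert.1 hu with rfl | hu
          · exact hw
          · rcases mem_union.1 hu with hu | hu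
            · exact g1 hu
            · exact g2 hu
      have h7 := card_le_card hsub
      rw [card_insert_of_notMem (by rw [mem_insert, mem_union]; tauto),
        card_insert_of_notMem (by rw [mem_union]; tauto), card_union_of_disjoint g3] at h7
      omega
    by_cases hA : ∀ v ∈ A, v ∈ A' ∨ v ∈ B'
    · exact side A B hAB hcov hxA hyA hA
    · push Not at hA
      obtain ⟨w, hwA, hw1, hw2⟩ := hA
      apply side B A hAB.symm (fun v hv => by have := hcov v hv; tauto) hxB hyB
      intro v hvB
      by_contra hc'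
      push Not at hc'
      have := hone v (hAB.2.1 hvB) w (hAB.1 hwA) hc'.1 hc'.2 hw1 hw2
      exact disjoint_left.1 hAB.2.2.1 hwA (this ▸ hvB)
  rcases hAB'.of_del with h | ⟨h1, h2⟩ | ⟨h1, h2⟩
  · have := hs _ _ h; omega
  · exact key A' B' hAB' hcard' h1 h2
  · exact key B' A' hAB'.symm (by omega) h2 h1

/-- a separation with exactly two vertices left out -/
structure Two (G : SimpleGraph V) (S A B : Finset V) (p q : V) : Prop where
  sep : Sep G S A B
  hp : p ∈ S
  hq : q ∈ S
  hpq : p ≠ q
  pA : p ∉ A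
  pB : p ∉ B
  qA : q ∉ A
  qB : q ∉ B
  cov : ∀ v ∈ S, v ∈ A ∨ v ∈ B ∨ v = p ∨ v = q

lemma Two.swap {G : SimpleGraph V} {S A B : Finset V} {p q : V} (h : Two G S A B p q) :
    Two G S B A p q :=
  ⟨h.sep.symm, h.hp, h.hq, h.hpq, h.pB, h.pA, h.qB, h.qA, fun v hv => by have := h.cov v hv; tauto⟩

lemma Two.flip {G : SimpleGraph V} {S A B : Finset V} {p q : V} (h : Two G S A B p q) :
    Two G S A B q p :=
  ⟨h.sep, h.hq, h.hp, h.hpq.symm, h.qA, h.qB, h.pA, h.pB, fun v hv => by have := h.cov v hv; tauto⟩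

lemma Two.eq {G : SimpleGraph V} {S A B : Finset V} {p q : V} (h : Two G S A B p q) :
    S = A ∪ (B ∪ {p, q}) := by
  ext v
  simp only [mem_union, mem_insert, mem_singleton]
  constructor
  · exact h.cov v
  · rintro (h' | h' | rfl | rfl)
    · exact h.sep.1 h'
    · exact h.sep.2.1 h'
    · exact h.hp
    · exact h.hq

lemma Two.disj {G : SimpleGraph V} {S A B : Finset V} {p q : V} (h : Two G S A B p q) :
    Disjoint A (B ∪ {p, q}) := by
  rw [disjoint_left]
  intro v hv hv'
  simp only [mem_union, mem_insert, mem_singleton] at hv'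
  rcases hv' with h' | rfl | rfl
  · exact disjoint_left.1 h.sep.2.2.1 hv h'
  · exact h.pA hv
  · exact h.qA hv

lemma card_pairU {A : Finset V} {p q : V} (hp : p ∉ A) (hq : q ∉ A) (hpq : p ≠ q) :
    (A ∪ {p, q}).card = A.card + 2 := by
  rw [card_union_of_disjoint, card_pair hpq]
  rw [disjoint_left]
  intro v hv hv'
  simp only [mem_insert, mem_singleton] at hv'
  rcases hv' with rfl | rfl
  · exact hp hv
  · exact hq hv

lemma Two.card {G : SimpleGraph V} {S A B : Finset V} {p q : V} (h : Two G S A B p q) :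
    S.card = A.card + B.card + 2 := by
  rw [h.eq, card_union_of_disjoint h.disj, card_pairU h.pB h.qB h.hpq]
  omega

lemma two_of_sep {G : SimpleGraph V} {S A B : Finset V} (h : Sep G S A B)
    (hc : A.card + B.card + 2 = S.card) : ∃ p q, Two G S A B p q := by
  have hsub : A ∪ B ⊆ S := union_subset h.1 h.2.1
  have hc2 : (S \ (A ∪ B)).card = 2 := by
    rw [card_sdiff_of_subset hsub, card_union_of_disjoint h.2.2.1]; omega
  obtain ⟨p, q, hpq, he⟩ := card_eq_two.1 hc2
  have hp : p ∈ S \ (A ∪ B) := by rw [he]; simp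
  have hq : q ∈ S \ (A ∪ B) := by rw [he]; simp
  simp only [mem_sdiff, mem_union, not_or] at hp hq
  refine ⟨p, q, h, hp.1, hq.1, hpq, hp.2.1, hp.2.2, hq.2.1, hq.2.2, fun v hv => ?_⟩
  by_cases hvA : v ∈ A
  · exact Or.inl hvA
  by_cases hvB : v ∈ B
  · exact Or.inr (Or.inl hvB)
  have : v ∈ S \ (A ∪ B) := by rw [mem_sdiff, mem_union]; tauto
  rw [he, mem_insert, mem_singleton] at this
  tauto

lemma exists_two {G : SimpleGraph V} {S : Finset V} (h2 : NS G S 2) (h3 : ¬ NS G S 3) :
    ∃ A B p q, Two G S A B p q := by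
  unfold NS at h3
  push Not at h3
  obtain ⟨A, B, hAB, hc⟩ := h3
  have := h2 A B hAB
  obtain ⟨p, q, h⟩ := two_of_sep hAB (by omega)
  exact ⟨A, B, p, q, h⟩

/-- a piece of a `2`-separation, with the virtual edge, is again `2`-connected -/
lemma Two.piece {G : SimpleGraph V} {S A B : Finset V} {p q : V} (h : Two G S A B p q)
    (hs : NS G S 2) : NS (add G p q) (A ∪ {p, q}) 2 := by
  have hcard := h.card
  have key : ∀ A1 B1, Sep (add G p q) (A ∪ {p, q}) A1 B1 → p ∉ B1 → q ∉ B1 →
      A1.card + B1.card + 2 ≤ (A ∪ {p, q}).card := by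
    intro A1 B1 h1 hpB1 hqB1
    obtain ⟨g1, g2, g3, g4, g5, g6⟩ := h1
    have hB1 : B1 ⊆ A := by
      intro v hv
      have := g2 hv
      simp only [mem_union, mem_insert, mem_singleton] at this
      rcases this with h' | rfl | rfl
      · exact h'
      · exact absurd hv hpB1
      · exact absurd hv hqB1
    have hdB : Disjoint A1 B := by
      rw [disjoint_left]
      intro v hv hvB
      have := g1 hv
      simp only [mem_union, mem_insert, mem_singleton] at this
      rcases this with h' | rfl | rfl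
      · exact disjoint_left.1 h.sep.2.2.1 h' hvB
      · exact h.pB hvB
      · exact h.qB hvB
    have hsep : Sep G S (A1 ∪ B) B1 := by
      refine ⟨?_, hB1.trans h.sep.1, ?_, ?_, g5, ?_⟩
      · intro v hv
        rcases mem_union.1 hv with hv | hv
        · rw [h.eq]
          have := g1 hv
          simp only [mem_union, mem_insert, mem_singleton] at this ⊢
          tauto
        · exact h.sep.2.1 hv
      · rw [disjoint_left]
        intro v hv hvB1
        rcases mem_union.1 hv with hv | hv
        · exact disjoint_left.1 g3 hv hvB1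
        · exact disjoint_left.1 h.sep.2.2.1 (hB1 hvB1) hv
      · obtain ⟨a, ha⟩ := g4
        exact ⟨a, mem_union_left _ ha⟩
      · intro a ha b hb hab
        rcases mem_union.1 ha with ha | ha
        · exact g6 a ha b hb (Or.inl hab)
        · exact h.sep.2.2.2.2.2 b (hB1 hb) a ha hab.symm
    have h7 := hs _ _ hsep
    rw [card_union_of_disjoint hdB] at h7
    rw [card_pairU h.pA h.qA h.hpq]
    omega
  intro A1 B1 h1
  by_cases hB : p ∈ B1 ∨ q ∈ B1
  · have h1' := h1
    obtain ⟨g1, g2, g3, g4, g5, g6⟩ := h1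
    have hpA : p ∉ A1 := by
      intro hp
      rcases hB with h' | h'
      · exact disjoint_left.1 g3 hp h'
      · exact g6 p hp q h' (Or.inr ⟨h.hpq, Or.inl ⟨rfl, rfl⟩⟩)
    have hqA : q ∉ A1 := by
      intro hq
      rcases hB with h' | h'
      · exact g6 q hq p h' (Or.inr ⟨h.hpq.symm, Or.inr ⟨rfl, rfl⟩⟩)
      · exact disjoint_left.1 g3 hq h'
    have := key B1 A1 h1'.symm hpA hqA
    omega
  · push Not at hB
    exact key A1 B1 h1 hB.1 hB.2

end Pool.Agent.H62.Wh
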