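import Pool.Agent.H62.WSP

/-!
Numbers attached to a contractible edge, and graphs on five vertices.
-/

set_option linter.unusedSectionVars false
set_option linter.unusedVariables false

namespace Pool.Agent.H62.Wh

open Finset

variable {V : Type*} [DecidableEq V] [Fintype V]

/-- every edge lies in two triangles -/
def Ed2 (G : SimpleGraph V) (S : Finset V) : Prop :=
  ∀ u ∈ S, ∀ v ∈ S, G.Adj u v → 2 ≤ (nb G u S ∩ nb G v S).card

/-- facts about a contractible edge -/
structure Setup (G : SimpleGraph V) (S : Finset V) (x y : V) : Prop where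
  hx : x ∈ S
  hy : y ∈ S
  hxy : G.Adj x y
  ns : NS G S 3
  nsc : NS (con G x y) (S.erase y) 3
  hc : 5 ≤ S.card

namespace Setup

variable {G : SimpleGraph V} {S : Finset V} {x y : V}

lemma symm_ns (h : Setup G S x y) : NS G (Fs S x y) 2 := by
  have h1 : NS (con G x y) ((S.erase y).erase x) 2 := h.nsc.erase (mem_erase.2 ⟨h.hxy.ne, h.hx⟩)
  have h2 : (S.erase y).erase x = Fs S x y := by unfold Fs; rw [erase_right_comm]
  rw [h2] at h1
  exact h1.congr (agree_con_Fs (G := G) (S := S) (x := x) (y := y)).symm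

lemma cF (h : Setup G S x y) : (Fs S x y).card + 2 = S.card := by
  rw [Fs_card h.hx h.hy h.hxy.ne]; have := h.hc; omega

lemma bF (h : Setup G S x y) : 1 ≤ bb G (Fs S x y) :=
  bb_pos h.symm_ns (by have := h.cF; have := h.hc; omega)

lemma nb_card_x (h : Setup G S x y) : (nb G x S).card = (nb G x (Fs S x y)).card + 1 := by
  rw [← nb_erase_card, nb_edge h.hx h.hy h.hxy, card_insert_of_notMem (fun e => y_notMem_Fs (nb_sub e))]

lemma nb_card_y (h : Setup G S x y) : (nb G y S).card = (nb G y (Fs S x y)).card + 1 := by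
  have e : nb G y S = insert x (nb G y (Fs S x y)) := by
    ext u
    rw [mem_insert, mem_nb, mem_nb, mem_Fs]
    constructor
    · rintro ⟨h1, h2⟩
      by_cases h3 : u = x
      · exact Or.inl h3
      · exact Or.inr ⟨⟨h2.ne.symm, h3, h1⟩, h2⟩
    · rintro (rfl | ⟨⟨_, _, h1⟩, h2⟩)
      · exact ⟨h.hx, h.hxy.symm⟩
      · exact ⟨h1, h2⟩
  rw [e, card_insert_of_notMem (fun e => x_notMem_Fs (nb_sub e))]

lemma al (h : Setup G S x y) : 2 ≤ (nb G x (Fs S x y)).card := by
  have := NS_deg h.ns h.hx (by have := h.hc; omega)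
  have := h.nb_card_x
  omega

lemma be (h : Setup G S x y) : 2 ≤ (nb G y (Fs S x y)).card := by
  have := NS_deg h.ns h.hy (by have := h.hc; omega)
  have := h.nb_card_y
  omega

lemma bsum (h : Setup G S x y) : bb G S = bb (del G x y) S + bb (con G x y) (S.erase y) :=
  bb_edge h.hx h.hy h.hxy

lemma nsd (h : Setup G S x y) : NS (del G x y) S 2 := NS_del h.ns (by have := h.hc; omega)

lemma bd (h : Setup G S x y) : 1 ≤ bb (del G x y) S := bb_pos h.nsd (by have := h.hc; omega)

lemma bc (h : Setup G S x y) : (S.card : ℤ) - 3 ≤ bb (con G x y) (S.erase y) := by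
  have h1 := bb_three h.nsc (by rw [card_erase_of_mem h.hy]; have := h.hc; omega)
  rw [card_erase_of_mem h.hy, Nat.cast_sub (by have := h.hc; omega)] at h1
  push_cast at h1
  linarith

lemma tc (h : Setup G S x y) :
    cl G 3 S + cr G (nb G x (Fs S x y)) (nb G y (Fs S x y)) =
      cl (con G x y) 3 (S.erase y) + (nb G x (Fs S x y) ∩ nb G y (Fs S x y)).card +
      cl G 2 (nb G x (Fs S x y) ∩ nb G y (Fs S x y)) := by
  have h1 := tri_edge h.hx h.hy h.hxy
  have h2 := tri_con (G := G) h.hx h.hy h.hxy.ne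
  have h3 := cl_union G (nb G x (Fs S x y)) (nb G y (Fs S x y))
  omega

lemma td (h : Setup G S x y) :
    cl G 3 S = cl (del G x y) 3 S + (nb G x (Fs S x y) ∩ nb G y (Fs S x y)).card := by
  have h1 := tri_edge h.hx h.hy h.hxy
  have h2 := tri_del (G := G) h.hx h.hy h.hxy.ne
  omega

lemma deg (h : Setup G S x y) (i j : ℕ) (hi : i + 1 ≤ (nb G x (Fs S x y)).card)
    (hj : j + 1 ≤ (nb G y (Fs S x y)).card) :
    (i * j : ℤ) * bb G (Fs S x y) ≤ bb (del G x y) S := by
  have h1 := bb_degs h.hx h.hy h.hxy.ne (h.symm_ns.le (by norm_num)) (by have := h.hc; omega)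
    (by have := h.al; unfold Fs at this; omega) (by have := h.be; unfold Fs at this; omega)
  refine le_trans ?_ h1
  have hb := h.bF
  have hi' : (i : ℤ) ≤ ((nb G x (Fs S x y)).card : ℤ) - 1 := by
    have : ((i + 1 : ℕ) : ℤ) ≤ ((nb G x (Fs S x y)).card : ℤ) := by exact_mod_cast hi
    push_cast at this; linarith
  have hj' : (j : ℤ) ≤ ((nb G y (Fs S x y)).card : ℤ) - 1 := by
    have : ((j + 1 : ℕ) : ℤ) ≤ ((nb G y (Fs S x y)).card : ℤ) := by exact_mod_cast hj
    push_cast at this; linarith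
  have hi0 : (0 : ℤ) ≤ i := by positivity
  have hj0 : (0 : ℤ) ≤ j := by positivity
  rw [mul_assoc]
  show (i : ℤ) * (j * bb G (Fs S x y)) ≤ ((nb G x (Fs S x y)).card - 1 : ℤ) *
    (((nb G y (Fs S x y)).card - 1 : ℤ) * bb G (Fs S x y))
  apply mul_le_mul hi' _ (by positivity) (by linarith)
  exact mul_le_mul hj' (le_refl _) (by linarith) (by linarith)

lemma subx (h : Setup G S x y)
    (hc : (nb G x (Fs S x y) ∩ nb G y (Fs S x y)).card = (nb G x (Fs S x y)).card) :
    ((nb G x (Fs S x y)).card - 1 : ℤ) * bb (con G x y) (S.erase y) ≤ bb (del G x y) S := by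
  have hsub : nb G x (Fs S x y) ⊆ nb G y (Fs S x y) := by
    rw [← inter_eq_left]
    exact eq_of_subset_of_card_le inter_subset_left (by rw [hc])
  apply bb_subset h.hx h.hy h.hxy.ne
  · exact (h.ns.erase h.hx).le (by norm_num)
  · have := h.hc; omega
  · have := h.al; unfold Fs at this; omega
  · intro v hv hxv
    exact (mem_nb.1 (hsub (mem_nb.2 ⟨hv, hxv⟩))).2

lemma suby (h : Setup G S x y)
    (hc : (nb G x (Fs S x y) ∩ nb G y (Fs S x y)).card = (nb G y (Fs S x y)).card) :
    ((nb G y (Fs S x y)).card - 1 : ℤ) * bb (con G x y) (S.erase y) ≤ bb (del G x y) S := by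
  have hsub : nb G y (Fs S x y) ⊆ nb G x (Fs S x y) := by
    rw [← inter_eq_right]
    exact eq_of_subset_of_card_le inter_subset_right (by rw [hc])
  have hF : (S.erase y).erase x = Fs S x y := by unfold Fs; rw [erase_right_comm]
  have := bb_subset h.hy h.hx h.hxy.ne.symm ((h.ns.erase h.hy).le (by norm_num))
    (by have := h.hc; omega) (by rw [hF]; have := h.be; omega) (by
    rw [hF]
    intro v hv hyv
    exact (mem_nb.1 (hsub (mem_nb.2 ⟨hv, hyv⟩))).2)
  rw [hF, bb_con_symm h.hy h.hx h.hxy.ne.symm, del_comm] at this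
  exact this

lemma cle (h : Setup G S x y) :
    (nb G x (Fs S x y) ∩ nb G y (Fs S x y)).card ≤ (nb G x (Fs S x y)).card ∧
    (nb G x (Fs S x y) ∩ nb G y (Fs S x y)).card ≤ (nb G y (Fs S x y)).card :=
  ⟨card_le_card inter_subset_left, card_le_card inter_subset_right⟩

lemma cun (h : Setup G S x y) :
    (nb G x (Fs S x y) ∪ nb G y (Fs S x y)).card + (nb G x (Fs S x y) ∩ nb G y (Fs S x y)).card =
      (nb G x (Fs S x y)).card + (nb G y (Fs S x y)).card := card_union_add_card_inter _ _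

lemma cun_le (h : Setup G S x y) :
    (nb G x (Fs S x y) ∪ nb G y (Fs S x y)).card + 2 ≤ S.card := by
  have := h.cF
  have := card_le_card (union_subset (nb_sub (G := G) (v := x) (S := Fs S x y))
    (nb_sub (G := G) (v := y) (S := Fs S x y)))
  omega

lemma cun_ge (h : Setup G S x y) :
    3 ≤ (nb G x (Fs S x y) ∪ nb G y (Fs S x y)).card := by
  have hxe : x ∈ S.erase y := mem_erase.2 ⟨h.hxy.ne, h.hx⟩
  have h1 := NS_deg h.nsc hxe (by rw [card_erase_of_mem h.hy]; have := h.hc; omega)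
  rw [← nb_erase_card] at h1
  have h2 : (S.erase y).erase x = Fs S x y := by unfold Fs; rw [erase_right_comm]
  rw [h2, nb_con h.hx h.hy h.hxy.ne] at h1
  exact h1

lemma one (h : Setup G S x y) (hb : bb (del G x y) S = 1) :
    cl (del G x y) 3 S + 2 ≤ S.card :=
  (tri_one _ (del G x y) S rfl (by have := h.hc; omega) h.nsd hb).1

lemma common (h : Setup G S x y) :
    nb G x S ∩ nb G y S = nb G x (Fs S x y) ∩ nb G y (Fs S x y) := by
  ext u
  rw [mem_inter, mem_inter, mem_nb, mem_nb, mem_nb, mem_nb, mem_Fs]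
  constructor
  · rintro ⟨⟨h1, h2⟩, h3, h4⟩
    exact ⟨⟨⟨h4.ne.symm, h2.ne.symm, h1⟩, h2⟩, ⟨h4.ne.symm, h2.ne.symm, h1⟩, h4⟩
  · rintro ⟨⟨⟨_, _, h1⟩, h2⟩, _, h4⟩
    exact ⟨⟨h1, h2⟩, h1, h4⟩

lemma nsd3 (h : Setup G S x y) (hc : 3 ≤ (nb G x (Fs S x y) ∩ nb G y (Fs S x y)).card) :
    NS (del G x y) S 3 := NS_del_common h.ns (by rw [h.common]; exact hc)

lemma eN_le (h : Setup G S x y) : cl G 2 (nb G x (Fs S x y) ∩ nb G y (Fs S x y)) ≤
    ((nb G x (Fs S x y) ∩ nb G y (Fs S x y)).card).choose 2 := cl_le_choose _ _ _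

/-- edges in two triangles, from the contraction -/
lemma ed2 (h : Setup G S x y) (he : Ed2 (con G x y) (S.erase y))
    (hcr : cr G (nb G x (Fs S x y)) (nb G y (Fs S x y)) = 0)
    (hc : (nb G x (Fs S x y) ∩ nb G y (Fs S x y)).card = 2)
    (hN : 1 ≤ cl G 2 (nb G x (Fs S x y) ∩ nb G y (Fs S x y))) : Ed2 G S := by
  have hxe : x ∈ S.erase y := mem_erase.2 ⟨h.hxy.ne, h.hx⟩
  -- no crossing edges
  have hno : ∀ a ∈ Fs S x y, ∀ b ∈ Fs S x y, G.Adj x a → ¬ G.Adj y a → G.Adj y b → ¬ G.Adj x b →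
      ¬ G.Adj a b := by
    intro a ha b hb h1 h2 h3 h4 h5
    have := cr_pos (G := G) (A := nb G x (Fs S x y)) (B := nb G y (Fs S x y))
      (mem_nb.2 ⟨ha, h1⟩) (fun e => h2 (mem_nb.1 e).2) (mem_nb.2 ⟨hb, h3⟩)
      (fun e => h4 (mem_nb.1 e).2) h5
    omega
  -- the two common neighbours are adjacent
  have hcom : ∀ v ∈ Fs S x y, G.Adj x v → G.Adj y v →
      ∃ w ∈ Fs S x y, G.Adj x w ∧ G.Adj y w ∧ G.Adj v w := by
    intro v hv h1 h2
    obtain ⟨T, hT⟩ := card_pos.1 hN
    rw [mem_clset] at hT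
    obtain ⟨⟨h3, h4⟩, h5⟩ := hT
    have h6 : T = nb G x (Fs S x y) ∩ nb G y (Fs S x y) :=
      eq_of_subset_of_card_le h3 (by rw [hc, h4])
    have hvT : v ∈ T := by
      rw [h6, mem_inter, mem_nb, mem_nb]; exact ⟨⟨hv, h1⟩, hv, h2⟩
    obtain ⟨w, hwv, hTw⟩ := card_two_of_mem h4 hvT
    have hwT : w ∈ T := by rw [hTw]; simp
    have hw := hwT
    rw [h6, mem_inter, mem_nb, mem_nb] at hw
    exact ⟨w, hw.1.1, hw.1.2, hw.2.2, h5 v hvT w hwT hwv.symm⟩
  have hconF : ∀ a ∈ Fs S x y, ∀ b ∈ Fs S x y, ((con G x y).Adj a b ↔ G.Adj a b) := fun a ha b hb =>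
    (agree_con_Fs (G := G) (S := S) (x := x) (y := y) a ha b hb).symm
  have hconx : ∀ a ∈ Fs S x y, ((con G x y).Adj x a ↔ (G.Adj x a ∨ G.Adj y a)) := by
    intro a ha
    have hax : a ≠ x := (mem_Fs.1 ha).2.1
    rw [con_adj]
    constructor
    · rintro ⟨_, h1 | h1 | h1⟩
      · exact Or.inl h1
      · exact Or.inr h1.2
      · exact absurd h1.1 hax
    · rintro (h1 | h1)
      · exact ⟨hax.symm, Or.inl h1⟩
      · exact ⟨hax.symm, Or.inr (Or.inl ⟨rfl, h1⟩)⟩
  have hFsub : ∀ a ∈ Fs S x y, a ∈ S.erase y := fun a ha =>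
    mem_erase.2 ⟨(mem_Fs.1 ha).1, (mem_Fs.1 ha).2.2⟩
  have hmemF : ∀ a ∈ S.erase y, a ≠ x → a ∈ Fs S x y := fun a ha hax =>
    mem_Fs.2 ⟨(mem_erase.1 ha).1, hax, (mem_erase.1 ha).2⟩
  -- edges at `x`
  have hxv : ∀ v ∈ Fs S x y, G.Adj x v → 2 ≤ (nb G x S ∩ nb G v S).card := by
    intro v hv h1
    by_cases h2 : G.Adj y v
    · obtain ⟨w, hw, w1, w2, w3⟩ := hcom v hv h1 h2
      have hsub : {y, w} ⊆ nb G x S ∩ nb G v S := by
        intro z hz
        rw [mem_insert, mem_singleton] at hz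
        rw [mem_inter, mem_nb, mem_nb]
        rcases hz with rfl | rfl
        · exact ⟨⟨h.hy, h.hxy⟩, h.hy, h2.symm⟩
        · exact ⟨⟨(mem_Fs.1 hw).2.2, w1⟩, (mem_Fs.1 hw).2.2, w3⟩
      have := card_le_card hsub
      rwa [card_pair w2.ne] at this
    · have h3 := he x hxe v (hFsub v hv) ((hconx v hv).2 (Or.inl h1))
      refine h3.trans (card_le_card ?_)
      intro w hw
      rw [mem_inter, mem_nb, mem_nb] at hw
      obtain ⟨⟨w1, w2⟩, _, w3⟩ := hw
      have hwF := hmemF w w1 w2.ne.symm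
      rw [hconx w hwF] at w2
      rw [hconF v hv w hwF] at w3
      have hxw : G.Adj x w := by
        by_contra hxw
        rcases w2 with w2 | w2
        · exact hxw w2
        · exact hno v hv w hwF h1 h2 w2 hxw w3
      rw [mem_inter, mem_nb, mem_nb]
      exact ⟨⟨(mem_erase.1 w1).2, hxw⟩, (mem_erase.1 w1).2, w3⟩
  have hyv : ∀ v ∈ Fs S x y, G.Adj y v → 2 ≤ (nb G y S ∩ nb G v S).card := by
    intro v hv h1
    by_cases h2 : G.Adj x v
    · obtain ⟨w, hw, w1, w2, w3⟩ := hcom v hv h2 h1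
      have hsub : {x, w} ⊆ nb G y S ∩ nb G v S := by
        intro z hz
        rw [mem_insert, mem_singleton] at hz
        rw [mem_inter, mem_nb, mem_nb]
        rcases hz with rfl | rfl
        · exact ⟨⟨h.hx, h.hxy.symm⟩, h.hx, h2.symm⟩
        · exact ⟨⟨(mem_Fs.1 hw).2.2, w2⟩, (mem_Fs.1 hw).2.2, w3⟩
      have := card_le_card hsub
      rwa [card_pair w1.ne] at this
    · have h3 := he x hxe v (hFsub v hv) ((hconx v hv).2 (Or.inr h1))
      refine h3.trans (card_le_card ?_)
      intro w hw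
      rw [mem_inter, mem_nb, mem_nb] at hw
      obtain ⟨⟨w1, w2⟩, _, w3⟩ := hw
      have hwF := hmemF w w1 w2.ne.symm
      rw [hconx w hwF] at w2
      rw [hconF v hv w hwF] at w3
      have hyw : G.Adj y w := by
        by_contra hyw
        rcases w2 with w2 | w2
        · exact hno w hwF v hv w2 hyw h1 h2 w3.symm
        · exact hyw w2
      rw [mem_inter, mem_nb, mem_nb]
      exact ⟨⟨(mem_erase.1 w1).2, hyw⟩, (mem_erase.1 w1).2, w3⟩
  have hFF : ∀ u ∈ Fs S x y, ∀ v ∈ Fs S x y, G.Adj u v → 2 ≤ (nb G u S ∩ nb G v S).card := by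
    intro u hu v hv huv
    have h3 := he u (hFsub u hu) v (hFsub v hv) ((hconF u hu v hv).2 huv)
    refine h3.trans ?_
    have hsub1 : (nb (con G x y) u (S.erase y) ∩ nb (con G x y) v (S.erase y)).erase x ⊆
        nb G u (Fs S x y) ∩ nb G v (Fs S x y) := by
      intro w hw
      rw [mem_erase, mem_inter, mem_nb, mem_nb] at hw
      obtain ⟨hwx, ⟨w1, w2⟩, _, w3⟩ := hw
      have hwF := hmemF w w1 hwx
      rw [hconF _ hu _ hwF] at w2
      rw [hconF _ hv _ hwF] at w3
      rw [mem_inter, mem_nb, mem_nb]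
      exact ⟨⟨hwF, w2⟩, hwF, w3⟩
    have hsub2 : nb G u (Fs S x y) ∩ nb G v (Fs S x y) ⊆ nb G u S ∩ nb G v S := by
      intro w hw
      rw [mem_inter, mem_nb, mem_nb] at hw
      rw [mem_inter, mem_nb, mem_nb]
      exact ⟨⟨(mem_Fs.1 hw.1.1).2.2, hw.1.2⟩, (mem_Fs.1 hw.1.1).2.2, hw.2.2⟩
    by_cases hxm : x ∈ nb (con G x y) u (S.erase y) ∩ nb (con G x y) v (S.erase y)
    · have hc1 := card_erase_of_mem hxm
      have hc2 := card_pos.2 ⟨x, hxm⟩
      have hc3 := card_le_card hsub1
      rw [mem_inter, mem_nb, mem_nb] at hxm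
      obtain ⟨⟨_, x2⟩, _, x3⟩ := hxm
      have x2' := (hconx u hu).1 x2.symm
      have x3' := (hconx v hv).1 x3.symm
      have hz : ∃ z ∈ nb G u S ∩ nb G v S, z ∉ Fs S x y := by
        by_cases hX : G.Adj x u ∧ G.Adj x v
        · refine ⟨x, ?_, x_notMem_Fs⟩
          rw [mem_inter, mem_nb, mem_nb]
          exact ⟨⟨h.hx, hX.1.symm⟩, h.hx, hX.2.symm⟩
        · by_cases hY : G.Adj y u ∧ G.Adj y v
          · refine ⟨y, ?_, y_notMem_Fs⟩
            rw [mem_inter, mem_nb, mem_nb]
            exact ⟨⟨h.hy, hY.1.symm⟩, h.hy, hY.2.symm⟩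
          · exfalso
            by_cases h4 : G.Adj x u
            · have h5 : ¬ G.Adj x v := fun e => hX ⟨h4, e⟩
              have h6 : G.Adj y v := by tauto
              have h7 : ¬ G.Adj y u := fun e => hY ⟨e, h6⟩
              exact hno u hu v hv h4 h7 h6 h5 huv
            · have h5 : G.Adj y u := by tauto
              have h6 : ¬ G.Adj y v := fun e => hY ⟨h5, e⟩
              have h7 : G.Adj x v := by tauto
              exact hno v hv u hu h7 h6 h5 h4 huv.symm
      obtain ⟨z, hz1, hz2⟩ := hz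
      have hzn : z ∉ nb G u (Fs S x y) ∩ nb G v (Fs S x y) := by
        intro e
        rw [mem_inter, mem_nb] at e
        exact hz2 e.1.1
      have hsub3 : insert z (nb G u (Fs S x y) ∩ nb G v (Fs S x y)) ⊆ nb G u S ∩ nb G v S := by
        intro w hw
        rcases mem_insert.1 hw with rfl | hw
        · exact hz1
        · exact hsub2 hw
      have hc4 := card_le_card hsub3
      rw [card_insert_of_notMem hzn] at hc4
      omega
    · rw [erase_eq_of_notMem hxm] at hsub1
      exact card_le_card (hsub1.trans hsub2)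
  intro u hu v hv huv
  by_cases hux : u = x
  · subst hux
    by_cases hvy : v = y
    · subst hvy
      rw [h.common, hc]
    · exact hxv v (mem_Fs.2 ⟨hvy, huv.ne.symm, hv⟩) huv
  · by_cases huy : u = y
    · subst huy
      by_cases hvx : v = x
      · subst hvx
        rw [inter_comm, h.common, hc]
      · exact hyv v (mem_Fs.2 ⟨huv.ne.symm, hvx, hv⟩) huv
    · have huF := mem_Fs.2 ⟨huy, hux, hu⟩
      by_cases hvx : v = x
      · subst hvx
        rw [inter_comm]; exact hxv u huF huv.symm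
      · by_cases hvy : v = y
        · subst hvy
          rw [inter_comm]; exact hyv u huF huv.symm
        · exact hFF u huF v (mem_Fs.2 ⟨hvy, hvx, hv⟩) huv

end Setup

lemma tri_erase {G : SimpleGraph V} {S : Finset V} {v : V} (hv : v ∈ S) :
    cl G 3 S = cl G 3 (S.erase v) + cl G 2 (nb G v (S.erase v)) := cl_erase hv

lemma tri_missing_four {G : SimpleGraph V} {S : Finset V} (hc : S.card = 4) {p q : V} (hp : p ∈ S)
    (hq : q ∈ S) (hpq : p ≠ q) (h : ¬ G.Adj p q) : cl G 3 S ≤ 2 := by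
  have h1 : (nb G p (S.erase p)).card ≤ 2 := by
    have : nb G p (S.erase p) ⊆ (S.erase p).erase q := by
      intro u hu
      rw [mem_nb] at hu
      exact mem_erase.2 ⟨fun e => h (e ▸ hu.2), hu.1⟩
    have h2 := card_le_card this
    rw [card_erase_of_mem (mem_erase.2 ⟨hpq.symm, hq⟩), card_erase_of_mem hp] at h2
    omega
  have h2 := cl_le_choose G 3 (S.erase p)
  have h3 := cl_le_choose G 2 (nb G p (S.erase p))
  have h4 : (S.erase p).card = 3 := by rw [card_erase_of_mem hp]; omega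
  rw [h4] at h2
  have h5 : Nat.choose (nb G p (S.erase p)).card 2 ≤ Nat.choose 2 2 := Nat.choose_le_choose 2 h1
  have h6 : Nat.choose 3 3 = 1 := rfl
  have h7 : Nat.choose 2 2 = 1 := rfl
  rw [tri_erase hp]
  omega

/-- graphs on five vertices -/
theorem five {G : SimpleGraph V} {S : Finset V} (hs : NS G S 3) (hc : S.card = 5) :
    (3 ≤ bb G S ∧ cl G 3 S ≤ 4) ∨
    (4 ≤ bb G S ∧ cl G 3 S ≤ 7 ∧ Ed2 G S ∧ ∃ p ∈ S, ∃ q ∈ S, p ≠ q ∧ ¬ G.Adj p q) ∨
    (6 ≤ bb G S ∧ cl G 3 S ≤ 10 ∧ ∀ p ∈ S, ∀ q ∈ S, p ≠ q → G.Adj p q) := by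
  have hdeg : ∀ v ∈ S, 3 ≤ (nb G v S).card := fun v hv => NS_deg hs hv (by omega)
  have h3 := bb_three hs (by omega)
  rw [hc] at h3
  by_cases hcomp : ∀ p ∈ S, ∀ q ∈ S, p ≠ q → G.Adj p q
  · right; right
    refine ⟨?_, ?_, hcomp⟩
    · obtain ⟨p, hp⟩ : S.Nonempty := by rw [← card_pos]; omega
      have hnb : nb G p (S.erase p) = S.erase p := by
        ext u
        rw [mem_nb, mem_erase]
        constructor
        · exact fun h => h.1
        · exact fun h => ⟨h, hcomp p hp u h.2 h.1.symm⟩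
      have hcK : (S.erase p).card = 4 := by rw [card_erase_of_mem hp]; omega
      have hK : NS G (S.erase p) 3 :=
        NS_complete (fun a ha b hb => hcomp a (mem_of_mem_erase ha) b (mem_of_mem_erase hb))
      have h1 := bb_three hK (by omega)
      have h2 := bb_vertex (notMem_erase p S) (by omega) (hK.le (by norm_num))
        (by rw [hnb]; omega)
      rw [hnb, insert_erase hp, hcK] at h2
      rw [hcK] at h1
      push_cast at h1 h2
      linarith
    · have := cl_le_choose G 3 S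
      rw [hc] at this
      exact this
  · push Not at hcomp
    obtain ⟨p, hp, q, hq, hpq, hnpq⟩ := hcomp
    -- nonneighbours are unique
    have huniq : ∀ u ∈ S, ∀ a ∈ S, ∀ b ∈ S, a ≠ u → b ≠ u → ¬ G.Adj u a → ¬ G.Adj u b → a = b := by
      intro u hu a ha b hb hau hbu hna hnb
      by_contra hab
      have hsub : nb G u S ⊆ ((S.erase u).erase a).erase b := by
        intro w hw
        rw [mem_nb] at hw
        simp only [mem_erase]
        exact ⟨fun e => hnb (e ▸ hw.2), fun e => hna (e ▸ hw.2), hw.2.ne.symm, hw.1⟩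
      have h1 := card_le_card hsub
      rw [card_erase_of_mem (mem_erase.2 ⟨fun e => hab e.symm, mem_erase.2 ⟨hbu, hb⟩⟩),
        card_erase_of_mem (mem_erase.2 ⟨hau, ha⟩), card_erase_of_mem hu] at h1
      have := hdeg u hu
      omega
    have hnbp : (nb G p (S.erase p)).card = 3 := by
      have h1 : nb G p (S.erase p) ⊆ (S.erase p).erase q := by
        intro u hu
        rw [mem_nb] at hu
        exact mem_erase.2 ⟨fun e => hnpq (e ▸ hu.2), hu.1⟩
      have h2 := card_le_card h1
      rw [card_erase_of_mem (mem_erase.2 ⟨hpq.symm, hq⟩), card_erase_of_mem hp] at h2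
      have h3 := hdeg p hp
      rw [← nb_erase_card] at h3
      omega
    have hcK : (S.erase p).card = 4 := by rw [card_erase_of_mem hp]; omega
    by_cases hother : ∃ r ∈ S, ∃ s ∈ S, r ≠ s ∧ ¬ G.Adj r s ∧ r ≠ p ∧ s ≠ p
    · left
      refine ⟨by push_cast at h3; linarith, ?_⟩
      obtain ⟨r, hr, s, hs', hrs, hnrs, hrp, hsp⟩ := hother
      have hrq : r ≠ q := by
        rintro rfl
        exact hsp (huniq r hr s hs' p hp hrs.symm hpq hnrs (fun e => hnpq e.symm))
      have hsq : s ≠ q := by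
        rintro rfl
        exact hrp (huniq s hs' r hr p hp hrs hpq (fun e => hnrs e.symm) (fun e => hnpq e.symm))
      have hpr : G.Adj p r := by
        by_contra hc'
        exact hrq (huniq p hp r hr q hq hrp hpq.symm hc' hnpq)
      have hps : G.Adj p s := by
        by_contra hc'
        exact hsq (huniq p hp s hs' q hq hsp hpq.symm hc' hnpq)
      have h1 := tri_missing_four (G := G) hcK (mem_erase.2 ⟨hrp, hr⟩) (mem_erase.2 ⟨hsp, hs'⟩) hrs hnrs
      have h2 := cl_two_missing (G := G) (S := nb G p (S.erase p))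
        (mem_nb.2 ⟨mem_erase.2 ⟨hrp, hr⟩, hpr⟩) (mem_nb.2 ⟨mem_erase.2 ⟨hsp, hs'⟩, hps⟩) hrs hnrs
      rw [hnbp] at h2
      have h4 : Nat.choose 3 2 = 3 := rfl
      rw [tri_erase hp]
      omega
    · right; left
      push Not at hother
      have hrest : ∀ r ∈ S, ∀ s ∈ S, r ≠ s → r ≠ p → s ≠ p → G.Adj r s := by
        intro r hr s hs' hrs hrp hsp
        by_contra hc'
        exact hsp (hother r hr s hs' hrs hc' hrp)
      have hadj : ∀ r ∈ S, ∀ s ∈ S, r ≠ s → r ≠ p → r ≠ q → G.Adj r s := by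
        intro r hr s hs' hrs hrp hrq
        by_cases hsp : s = p
        · subst hsp
          by_contra hc'
          exact hrq (huniq s hs' r hr q hq hrp hpq.symm (fun e => hc' e.symm) hnpq)
        · exact hrest r hr s hs' hrs hrp hsp
      refine ⟨?_, ?_, ?_, p, hp, q, hq, hpq, hnpq⟩
      · have hK : NS G (S.erase p) 3 := NS_complete (fun a ha b hb hab => by
          rw [mem_erase] at ha hb
          exact hrest a ha.2 b hb.2 hab ha.1 hb.1)
        have h1 := bb_three hK (by omega)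
        have h2 := bb_vertex (notMem_erase p S) (by omega) (hK.le (by norm_num))
          (by rw [hnbp]; omega)
        rw [hnbp, insert_erase hp] at h2
        rw [hcK] at h1
        push_cast at h1 h2
        linarith
      · have h1 := cl_le_choose G 3 (S.erase p)
        have h2 := cl_le_choose G 2 (nb G p (S.erase p))
        rw [hnbp] at h2
        rw [hcK] at h1
        have h4 : Nat.choose 3 2 = 3 := rfl
        have h5 : Nat.choose 4 3 = 4 := rfl
        rw [tri_erase hp]
        omega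
      · -- every edge in two triangles
        have hfull : ∀ r ∈ S, r ≠ p → r ≠ q → (nb G r S).card = 4 := by
          intro r hr hrp hrq
          have : nb G r S = S.erase r := by
            ext w
            rw [mem_nb, mem_erase]
            constructor
            · rintro ⟨h1, h2⟩; exact ⟨h2.ne.symm, h1⟩
            · rintro ⟨h1, h2⟩; exact ⟨h2, hadj r hr w h2 h1.symm hrp hrq⟩
          rw [this, card_erase_of_mem hr]; omega
        intro u hu v hv huv
        have h1 := card_union_add_card_inter (nb G u S) (nb G v S)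
        have h2 := card_le_card (union_subset (nb_sub (G := G) (v := u) (S := S))
          (nb_sub (G := G) (v := v) (S := S)))
        have h5 := hdeg u hu
        have h6 := hdeg v hv
        by_cases hu' : u = p ∨ u = q
        · have hv1 : v ≠ p := by
            rintro rfl
            rcases hu' with rfl | rfl
            · exact huv.ne rfl
            · exact hnpq huv.symm
          have hv2 : v ≠ q := by
            rintro rfl
            rcases hu' with rfl | rfl
            · exact hnpq huv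
            · exact huv.ne rfl
          have := hfull v hv hv1 hv2
          omega
        · push Not at hu'
          have := hfull u hu hu'.1 hu'.2
          omega

end Pool.Agent.H62.Wh
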