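import Pool.Agent.H62.WMain

/-!
Triangles against the chromatic invariant on at least seven vertices.
-/

set_option linter.unusedSectionVars false
set_option linter.unusedVariables false

namespace Pool.Agent.H62.Wh

open Finset

variable {V : Type*} [DecidableEq V] [Fintype V]

namespace Nums

variable {n al be c un eN cr t t1 td : ℕ} {b b1 b2 bF : ℤ}

lemma seven_one (h : Nums (n + 7) al be c un eN cr t t1 td b b1 b2 bF) (hb2 : b2 = 1) :
    (t : ℤ) ≤ b ∨ ((t : ℤ) = b + 1 ∧ b = n + 5) := by
  have h1 := h.one hb2
  have h2 := h.al2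
  have h3 := h.be2
  have h4 := h.bFp
  have h5 := h.b1p
  have h6 := h.htd
  have h7 := h.cun
  have h8 := h.un3
  have h9 := h.hb
  have n1 : al ≤ 2 := by
    by_contra g
    have := h.deg 2 1 (by omega) (by omega)
    push_cast at this; linarith
  have n2 : be ≤ 2 := by
    by_contra g
    have := h.deg 1 2 (by omega) (by omega)
    push_cast at this; linarith
  push_cast at h5
  omega

lemma seven_top (h : Nums (n + 7) al be c un eN cr t t1 td b b1 b2 bF) (hc : c = n + 5)
    (ht : (t1 : ℤ) ≤ b1 + 2) : (t : ℤ) ≤ b := by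
  have h2 := h.cal
  have h3 := h.cbe
  have h5 := h.b1p
  have h7 := h.cun
  have h8 := h.unN
  have h9 := h.hb
  have h10 := h.tc
  have h11 := h.eNt
  have hal : al = n + 5 := by omega
  have hs := h.subx (by omega)
  rw [hal] at hs
  push_cast at hs h5
  have e1 : (t : ℤ) ≤ 2 * t1 + (n + 5) := by omega
  have hn : (0 : ℤ) ≤ n := by positivity
  have e2 : ((n : ℤ) + 3) * (n + 4) ≤ (n + 3) * b1 := by
    apply mul_le_mul_of_nonneg_left _ (by linarith)
    linarith
  nlinarith

lemma seven_del (h : Nums (n + 7) al be c un eN cr t t1 td b b1 b2 bF) (hc : 3 ≤ c) (hc' : c ≤ n + 4)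
    (hd : (td : ℤ) ≤ b2 ∨ ((td : ℤ) = b2 + 1 ∧ b2 = n + 5)) : (t : ℤ) ≤ b := by
  have h2 := h.cal
  have h3 := h.cbe
  have h4 := h.bFp
  have h5 := h.b1p
  have h6 := h.htd
  have h9 := h.hb
  push_cast at h5
  rcases hd with hd | ⟨hd, hb2⟩
  · omega
  · by_cases hb1 : (c : ℤ) + 1 ≤ b1
    · omega
    · exfalso
      have hcn : c = n + 4 := by omega
      have := h.deg (n + 3) (n + 3) (by omega) (by omega)
      push_cast at this
      have hn : (0 : ℤ) ≤ n := by positivity
      nlinarith

lemma seven_low (h : Nums (n + 7) al be c un eN cr t t1 td b b1 b2 bF) (hc : c ≤ 2) (hb2 : 2 ≤ b2)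
    (hcon : (t1 : ℤ) ≤ b1 + 1) : (t : ℤ) ≤ b := by
  have h4 := h.bFp
  have h5 := h.b1p
  have h9 := h.hb
  have h10 := h.tc
  push_cast at h5
  by_cases hc2 : c = 2
  · have e := h.eN1 hc2
    have hl := h.L2 hc2
    omega
  · have e := h.eN0 (by omega)
    omega

lemma seven_exc (h : Nums 7 al be c un eN cr t t1 td b b1 b2 bF) (hc : c ≤ 2) (hb2 : 2 ≤ b2)
    (ht1 : (t1 : ℤ) ≤ b1 + 2) (hb1 : 8 ≤ b1)
    (x1 : c = 1 → al = 2 → 1 ≤ cr) (x2 : c = 1 → be = 2 → 1 ≤ cr)
    (x3 : cr = 0 → c = 2 → 1 ≤ eN → al = 3 → be = 3 → 2 ≤ bF) : (t : ℤ) ≤ b := by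
  have hal := h.al2
  have hbe := h.be2
  have h4 := h.bFp
  have h9 := h.hb
  have h10 := h.tc
  by_cases hc2 : c = 2
  · have e := h.eN1 hc2
    by_cases a2 : al = 2
    · have := h.subx (by omega)
      rw [a2] at this; push_cast at this; omega
    by_cases b2' : be = 2
    · have := h.suby (by omega)
      rw [b2'] at this; push_cast at this; omega
    by_cases a4 : 4 ≤ al
    · have := h.deg 3 2 (by omega) (by omega)
      push_cast at this; omega
    by_cases b4 : 4 ≤ be
    · have := h.deg 2 3 (by omega) (by omega)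
      push_cast at this; omega
    have hd := h.deg 2 2 (by omega) (by omega)
    push_cast at hd
    by_cases hcr : cr = 0
    · by_cases he : eN = 0
      · omega
      · have := x3 hcr hc2 (by omega) (by omega) (by omega)
        omega
    · omega
  · have e := h.eN0 (by omega)
    by_cases hc0 : c = 0
    · omega
    · have hc1 : c = 1 := by omega
      by_cases a2 : al = 2
      · have := x1 hc1 a2
        omega
      by_cases b2' : be = 2
      · have := x2 hc1 b2'
        omega
      have := h.deg 2 2 (by omega) (by omega)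
      push_cast at this; omega

end Nums

/-- graphs on at least seven vertices -/
theorem seven : ∀ (n m : ℕ) (G : SimpleGraph V) (S : Finset V), S.card = n + 7 →
    (pairs G S).card = m → NS G S 3 →
    (cl G 3 S : ℤ) ≤ bb G S ∨ ((cl G 3 S : ℤ) = bb G S + 1 ∧ bb G S = n + 5) := by
  intro n
  induction n with
  | zero =>
    intro m
    induction m using Nat.strong_induction_on with
    | _ m ih =>
      intro G S hS hm hs
      obtain ⟨x, hx, y, hy, hxy, hcon⟩ := exists_contractible hs (by omega)
      have h : Setup G S x y := ⟨hx, hy, hxy, hs, hcon, by omega⟩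
      have hn := h.nums
      rw [hS] at hn
      have h6 := six _ (con G x y) (S.erase y) (by rw [card_erase_of_mem hy]; omega) rfl hcon
      by_cases hb2 : bb (del G x y) S = 1
      · exact hn.seven_one hb2
      have hb2' : 2 ≤ bb (del G x y) S := by
        have := h.bd
        clear hn
        omega
      left
      rcases Nat.lt_or_ge (nb G x (Fs S x y) ∩ nb G y (Fs S x y)).card 3 with hc | hc
      · by_cases he : (cl (con G x y) 3 (S.erase y) : ℤ) = bb (con G x y) (S.erase y) + 2
        · obtain ⟨f1, f2⟩ := h6.2 he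
          exact hn.seven_exc (Nat.lt_succ_iff.1 hc) hb2' h6.1 f1 (h.cr_of_al f2) (h.cr_of_be f2)
            (h.bF_two hS f2)
        · exact hn.seven_low (Nat.lt_succ_iff.1 hc) hb2'
            (by have h6' := h6.1; clear hn; omega)
      · have hle : (nb G x (Fs S x y) ∩ nb G y (Fs S x y)).card ≤ 5 := by
          have e1 := h.cle.1
          have e2 := h.cle.2
          have e3 := h.cun
          have e4 := h.cun_le
          clear hn
          omega
        rcases Nat.lt_or_ge (nb G x (Fs S x y) ∩ nb G y (Fs S x y)).card 5 with hc' | hc'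
        · exact hn.seven_del hc (Nat.lt_succ_iff.1 hc')
            (ih _ (hm ▸ pairs_del_lt hx hy hxy) (del G x y) S hS rfl (h.nsd3 hc))
        · exact hn.seven_top (le_antisymm hle hc') h6.1
  | succ n ihn =>
    intro m
    induction m using Nat.strong_induction_on with
    | _ m ih =>
      intro G S hS hm hs
      obtain ⟨x, hx, y, hy, hxy, hcon⟩ := exists_contractible hs (by omega)
      have h : Setup G S x y := ⟨hx, hy, hxy, hs, hcon, by omega⟩
      have hn := h.nums
      rw [hS] at hn
      have h6 := ihn _ (con G x y) (S.erase y) (by rw [card_erase_of_mem hy]; omega) rfl hcon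
      have h6' : (cl (con G x y) 3 (S.erase y) : ℤ) ≤ bb (con G x y) (S.erase y) + 1 := by
        rcases h6 with h6 | ⟨h6, _⟩
        · linarith
        · exact h6.le
      by_cases hb2 : bb (del G x y) S = 1
      · exact hn.seven_one hb2
      have hb2' : 2 ≤ bb (del G x y) S := by
        have := h.bd
        clear hn
        omega
      left
      rcases Nat.lt_or_ge (nb G x (Fs S x y) ∩ nb G y (Fs S x y)).card 3 with hc | hc
      · exact hn.seven_low (Nat.lt_succ_iff.1 hc) hb2' h6'
      · have hle : (nb G x (Fs S x y) ∩ nb G y (Fs S x y)).card ≤ (n + 1) + 5 := by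
          have e1 := h.cle.1
          have e2 := h.cle.2
          have e3 := h.cun
          have e4 := h.cun_le
          clear hn
          omega
        rcases Nat.lt_or_ge (nb G x (Fs S x y) ∩ nb G y (Fs S x y)).card ((n + 1) + 5) with hc' | hc'
        · exact hn.seven_del hc (Nat.lt_succ_iff.1 hc')
            (ih _ (hm ▸ pairs_del_lt hx hy hxy) (del G x y) S hS rfl (h.nsd3 hc))
        · exact hn.seven_top (le_antisymm hle hc') (by linarith)

end Pool.Agent.H62.Wh
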