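import Pool.Agent.H62.WSeven

/-!
Reduction to a `3`-connected torso.
-/

set_option linter.unusedSectionVars false
set_option linter.unusedVariables false

namespace Pool.Agent.H62.Wh

open Finset Polynomial

variable {V : Type*} [DecidableEq V] [Fintype V]

lemma exists_triangle {G : SimpleGraph V} {S : Finset V} (h : 1 ≤ cl G 3 S) :
    ∃ a ∈ S, ∃ b ∈ S, ∃ c ∈ S, G.Adj a b ∧ G.Adj b c ∧ G.Adj a c := by
  obtain ⟨T, hT⟩ := card_pos.1 h
  rw [mem_clset] at hT
  obtain ⟨a, b, c, hab, hac, hbc, rfl⟩ := card_eq_three.1 hT.1.2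
  exact ⟨a, hT.1.1 (by simp), b, hT.1.1 (by simp), c, hT.1.1 (by simp),
    hT.2 a (by simp) b (by simp) hab, hT.2 b (by simp) c (by simp) hbc,
    hT.2 a (by simp) c (by simp) hac⟩

lemma deriv_at_two {F P1 P2 : ℤ[X]} (h : X * (X - 1) * F = P1 * P2) (h1 : P1.eval 2 = 0)
    (h2 : P2.eval 2 = 0) : (derivative F).eval 2 = 0 := by
  have h0 := congrArg (fun p => p.eval 2) h
  simp only [eval_mul, eval_X, eval_sub, eval_one, h1, h2] at h0
  have h3 := congrArg (fun p => (derivative p).eval 2) h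
  simp only [derivative_mul, derivative_X, derivative_sub, derivative_one, eval_add, eval_mul,
    eval_X, eval_one, eval_sub, eval_zero, h1, h2] at h3
  linarith

lemma deriv_at_two' {F P1 P2 : ℤ[X]} (h : X * F = P1 * P2) (h1 : P1.eval 2 = 0)
    (h2 : P2.eval 2 = 0) : (derivative F).eval 2 = 0 := by
  have h0 := congrArg (fun p => p.eval 2) h
  simp only [eval_mul, eval_X, h1, h2] at h0
  have h3 := congrArg (fun p => (derivative p).eval 2) h
  simp only [derivative_mul, derivative_X, eval_add, eval_mul, eval_X, eval_one, h1, h2] at h3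
  linarith

/-- two triangle sides force a double zero at `2` -/
theorem deriv_two_zero {G : SimpleGraph V} {S A B : Finset V} {p q : V} (h : Two G S A B p q)
    (hA : 1 ≤ cl G 3 (A ∪ {p, q})) (hB : 1 ≤ cl G 3 (B ∪ {p, q})) :
    (derivative (P G S)).eval 2 = 0 := by
  have side : ∀ T : Finset V, 1 ≤ cl G 3 (T ∪ {p, q}) → (P (add G p q) (T ∪ {p, q})).eval 2 = 0 := by
    intro T hT
    obtain ⟨a, ha, b, hb, c, hc, hab, hbc, hac⟩ := exists_triangle hT
    exact P_two ha hb hc (Or.inl hab) (Or.inl hbc) (Or.inl hac)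
  have e1 := deriv_at_two (P_glue_two h) (side A hA) (side B hB)
  by_cases hadj : G.Adj p q
  · rwa [add_self hadj] at e1
  · rw [P_nonedge h.hp h.hq h.hpq hadj, derivative_add, eval_add, e1, zero_add]
    -- the contraction
    have hpd : Disjoint A (B ∪ {p}) := by
      rw [disjoint_left]
      intro v hv hv'
      rw [mem_union, mem_singleton] at hv'
      rcases hv' with h' | rfl
      · exact disjoint_left.1 h.sep.2.2.1 hv h'
      · exact h.pA hv
    have hS : S.erase q = A ∪ (B ∪ {p}) := by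
      ext v
      simp only [mem_erase, mem_union, mem_singleton]
      constructor
      · rintro ⟨h1, h2⟩
        have := h.cov v h2
        tauto
      · rintro (h' | h' | rfl)
        · exact ⟨fun e => h.qA (e ▸ h'), h.sep.1 h'⟩
        · exact ⟨fun e => h.qB (e ▸ h'), h.sep.2.1 h'⟩
        · exact ⟨h.hpq, h.hp⟩
    have hg := P_glue _ _ (con G p q) A B {p} rfl rfl hpd h.sep_con.2.2.2.2.2 (by
      intro c hc d hd hcd
      rw [mem_singleton] at hc hd
      exact absurd (hc.trans hd.symm) hcd)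
    rw [P_singleton, ← hS] at hg
    have side2 : ∀ T : Finset V, p ∉ T → q ∉ T → 1 ≤ cl G 3 (T ∪ {p, q}) →
        (P (con G p q) (T ∪ {p})).eval 2 = 0 := by
      intro T hpT hqT hT
      obtain ⟨a, ha, b, hb, c, hc, hab, hbc, hac⟩ := exists_triangle hT
      -- replace `q` by `p`
      have hf : ∀ u ∈ T ∪ {p, q}, u ≠ q → u ∈ T ∪ {p} := by
        intro u hu huq
        simp only [mem_union, mem_insert, mem_singleton] at hu ⊢
        tauto
      have hcc : ∀ u v, G.Adj u v → (con G p q).Adj u v := fun u v huv => ⟨huv.ne, Or.inl huv⟩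
      have hqq : ∀ v, G.Adj q v → (con G p q).Adj p v := fun v hv =>
        ⟨fun e => hadj (e ▸ hv.symm), Or.inr (Or.inl ⟨rfl, hv⟩)⟩
      have hpm : p ∈ T ∪ {p} := by simp
      by_cases haq : a = q
      · subst haq
        exact P_two hpm (hf b hb hab.ne.symm) (hf c hc hac.ne.symm) (hqq b hab) (hcc b c hbc)
          (hqq c hac)
      · by_cases hbq : b = q
        · subst hbq
          exact P_two hpm (hf a ha haq) (hf c hc hbc.ne.symm) (hqq a hab.symm) (hcc a c hac)
            (hqq c hbc)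
        · by_cases hcq : c = q
          · subst hcq
            exact P_two hpm (hf a ha haq) (hf b hb hbq) (hqq a hac.symm) (hcc a b hab)
              (hqq b hbc.symm)
          · exact P_two (hf a ha haq) (hf b hb hbq) (hf c hc hcq) (hcc a b hab) (hcc b c hbc)
              (hcc a c hac)
    exact deriv_at_two' hg (side2 A h.pA h.qA hA) (side2 B h.pB h.qB hB)

/-- the state of the reduction -/
structure TS (H G : SimpleGraph V) (S : Finset V) (n : ℕ) : Prop where
  ns : NS G S 2
  c3 : 3 ≤ S.card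
  b : bb G S + 1 ≤ n
  t : cl H 3 S = n
  pi : ∀ A B p q, Two G S A B p q → cl H 3 (A ∪ {p, q}) = 0 ∨ cl H 3 (B ∪ {p, q}) = 0
  le : ∀ a ∈ S, ∀ b ∈ S, H.Adj a b → G.Adj a b
  sz : S.card < Fintype.card V ∨ (S = univ ∧ G = H)

lemma TS.step {H G : SimpleGraph V} {S : Finset V} {n : ℕ} (h : TS H G S n) {A B : Finset V} {p q : V}
    (hT : Two G S A B p q) (hB : cl H 3 (B ∪ {p, q}) = 0) :
    TS H (add G p q) (A ∪ {p, q}) n ∧ (A ∪ {p, q}).card < S.card := by
  have hcS := hT.card
  have hcA := card_pairU hT.pA hT.qA hT.hpq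
  have hcB := card_pairU hT.pB hT.qB hT.hpq
  have hA1 := card_pos.2 hT.sep.2.2.2.1
  have hB1 := card_pos.2 hT.sep.2.2.2.2.1
  have hsub : A ∪ {p, q} ⊆ S := by
    rw [hT.eq]
    intro v hv
    simp only [mem_union, mem_insert, mem_singleton] at hv ⊢
    tauto
  have hlt : (A ∪ {p, q}).card < S.card := by omega
  refine ⟨⟨hT.piece h.ns, by omega, ?_, ?_, ?_, ?_, ?_⟩, hlt⟩
  · -- invariant
    have e := bb_two hT h.ns
    have p1 := bb_pos (hT.piece h.ns) (by omega)
    have p2 := bb_pos (hT.swap.piece h.ns) (by omega)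
    have hb := h.b
    nlinarith
  · -- triangles
    apply le_antisymm
    · rw [← h.t]; exact cl_sub hsub
    · rw [← h.t]
      apply card_le_card
      intro T hTm
      rw [mem_clset] at hTm ⊢
      refine ⟨⟨?_, hTm.1.2⟩, hTm.2⟩
      by_cases hTB : ∃ b ∈ T, b ∈ B
      · exfalso
        obtain ⟨b, hb, hbB⟩ := hTB
        have : T ∈ clset H 3 (B ∪ {p, q}) := by
          rw [mem_clset]
          refine ⟨⟨?_, hTm.1.2⟩, hTm.2⟩
          intro v hv
          have hv' := hT.cov v (hTm.1.1 hv)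
          rw [mem_union, mem_insert, mem_singleton]
          rcases hv' with h' | h' | h' | h'
          · exfalso
            have hne : v ≠ b := fun e => disjoint_left.1 hT.sep.2.2.1 h' (e ▸ hbB)
            exact hT.sep.2.2.2.2.2 v h' b hbB (h.le v (hTm.1.1 hv) b (hTm.1.1 hb) (hTm.2 v hv b hb hne))
          · exact Or.inl h'
          · exact Or.inr (Or.inl h')
          · exact Or.inr (Or.inr h')
        unfold cl at hB
        rw [card_eq_zero] at hB
        rw [hB] at this
        exact notMem_empty _ this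
      · push Not at hTB
        intro v hv
        have hv' := hT.cov v (hTm.1.1 hv)
        rw [mem_union, mem_insert, mem_singleton]
        rcases hv' with h' | h' | h' | h'
        · exact Or.inl h'
        · exact absurd h' (hTB v hv)
        · exact Or.inr (Or.inl h')
        · exact Or.inr (Or.inr h')
  · -- every 2-separation of the piece
    have key : ∀ A1 B1 p1 q1, Two (add G p q) (A ∪ {p, q}) A1 B1 p1 q1 → p ∉ B1 → q ∉ B1 →
        cl H 3 (A1 ∪ {p1, q1}) = 0 ∨ cl H 3 (B1 ∪ {p1, q1}) = 0 := by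
      intro A1 B1 p1 q1 h1 hpB1 hqB1
      have hB1A : B1 ⊆ A := by
        intro v hv
        have := h1.sep.2.1 hv
        simp only [mem_union, mem_insert, mem_singleton] at this
        rcases this with h' | rfl | rfl
        · exact h'
        · exact absurd hv hpB1
        · exact absurd hv hqB1
      have hnB : ∀ v ∈ A ∪ {p, q}, v ∉ B := by
        intro v hv hvB
        simp only [mem_union, mem_insert, mem_singleton] at hv
        rcases hv with h' | rfl | rfl
        · exact disjoint_left.1 hT.sep.2.2.1 h' hvB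
        · exact hT.pB hvB
        · exact hT.qB hvB
      have h2 : Two G S (A1 ∪ B) B1 p1 q1 := by
        refine ⟨⟨?_, hB1A.trans hT.sep.1, ?_, ?_, h1.sep.2.2.2.2.1, ?_⟩, hsub h1.hp, hsub h1.hq,
          h1.hpq, ?_, h1.pB, ?_, h1.qB, ?_⟩
        · exact union_subset (h1.sep.1.trans hsub) hT.sep.2.1
        · rw [disjoint_left]
          intro v hv hv'
          rcases mem_union.1 hv with hv | hv
          · exact disjoint_left.1 h1.sep.2.2.1 hv hv'
          · exact disjoint_left.1 hT.sep.2.2.1 (hB1A hv') hv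
        · obtain ⟨a, ha⟩ := h1.sep.2.2.2.1
          exact ⟨a, mem_union_left _ ha⟩
        · intro a ha b hb hab
          rcases mem_union.1 ha with ha | ha
          · exact h1.sep.2.2.2.2.2 a ha b hb (Or.inl hab)
          · exact hT.sep.2.2.2.2.2 b (hB1A hb) a ha hab.symm
        · rw [mem_union, not_or]; exact ⟨h1.pA, hnB p1 h1.hp⟩
        · rw [mem_union, not_or]; exact ⟨h1.qA, hnB q1 h1.hq⟩
        · intro v hv
          by_cases hvB : v ∈ B
          · exact Or.inl (mem_union_right _ hvB)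
          · have hv1 : v ∈ A ∪ {p, q} := by
              have := hT.cov v hv
              simp only [mem_union, mem_insert, mem_singleton]
              tauto
            have := h1.cov v hv1
            rw [mem_union]
            tauto
      rcases h.pi _ _ _ _ h2 with h3 | h3
      · left
        have : cl H 3 (A1 ∪ {p1, q1}) ≤ cl H 3 (A1 ∪ B ∪ {p1, q1}) := by
          apply cl_sub
          intro v hv
          simp only [mem_union, mem_insert, mem_singleton] at hv ⊢
          tauto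
        omega
      · right; exact h3
    intro A1 B1 p1 q1 h1
    by_cases hB' : p ∈ B1 ∨ q ∈ B1
    · have hpA : p ∉ A1 := by
        intro hp
        rcases hB' with h' | h'
        · exact disjoint_left.1 h1.sep.2.2.1 hp h'
        · exact h1.sep.2.2.2.2.2 p hp q h' (Or.inr ⟨hT.hpq, Or.inl ⟨rfl, rfl⟩⟩)
      have hqA : q ∉ A1 := by
        intro hq
        rcases hB' with h' | h'
        · exact h1.sep.2.2.2.2.2 q hq p h' (Or.inr ⟨hT.hpq.symm, Or.inr ⟨rfl, rfl⟩⟩)
        · exact disjoint_left.1 h1.sep.2.2.1 hq h'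
      exact (key B1 A1 p1 q1 h1.swap hpA hqA).symm
    · push Not at hB'
      exact key A1 B1 p1 q1 h1 hB'.1 hB'.2
  · intro a ha b hb hab
    exact Or.inl (h.le a (hsub ha) b (hsub hb) hab)
  · left
    exact lt_of_lt_of_le hlt (card_le_univ S)

/-- the reduction ends in a `3`-connected state -/
theorem TS.reduce {H : SimpleGraph V} {n : ℕ} : ∀ (k : ℕ) (G : SimpleGraph V) (S : Finset V),
    S.card = k → TS H G S n → ∃ (G' : SimpleGraph V) (S' : Finset V), TS H G' S' n ∧ NS G' S' 3 := by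
  intro k
  induction k using Nat.strong_induction_on with
  | _ k ih =>
    intro G S hS h
    by_cases h3 : NS G S 3
    · exact ⟨G, S, h, h3⟩
    · obtain ⟨A, B, p, q, hT⟩ := exists_two h.ns h3
      rcases h.pi A B p q hT with h0 | h0
      · obtain ⟨h1, h2⟩ := h.step hT.swap h0
        exact ih _ (hS ▸ h2) _ _ rfl h1
      · obtain ⟨h1, h2⟩ := h.step hT h0
        exact ih _ (hS ▸ h2) _ _ rfl h1

/-- six vertices with two disjoint missing pairs -/
lemma six_pairs {G : SimpleGraph V} {S : Finset V} (hc : S.card = 6) {a b c d : V} (ha : a ∈ S)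
    (hb : b ∈ S) (hcS : c ∈ S) (hd : d ∈ S) (hab : a ≠ b) (hac : a ≠ c) (had : a ≠ d) (hbc : b ≠ c)
    (hbd : b ≠ d) (hcd : c ≠ d) (n1 : ¬ G.Adj a b) (n2 : ¬ G.Adj c d) :
    cl G 3 S ≤ 10 ∨ (cl G 3 S ≤ 12 ∧ Even (cl G 3 S)) := by
  -- first half, usable for both pairs
  have half : ∀ a b c d, a ∈ S → b ∈ S → c ∈ S → d ∈ S → a ≠ b → a ≠ c → a ≠ d → b ≠ c → b ≠ d →
      c ≠ d → ¬ G.Adj a b → ¬ G.Adj c d → cl G 3 S ≤ 10 ∨
      ((∀ v ∈ Fs S a b, G.Adj a v ∧ G.Adj b v) ∧
        cl G 3 S = cl G 3 (Fs S a b) + 2 * cl G 2 (Fs S a b)) := by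
    intro a b c d ha hb hc' hd hab hac had hbc hbd hcd n1 n2
    have hcQ : c ∈ Fs S a b := mem_Fs.2 ⟨hbc.symm, hac.symm, hc'⟩
    have hdQ : d ∈ Fs S a b := mem_Fs.2 ⟨hbd.symm, had.symm, hd⟩
    have hQ : (Fs S a b).card = 4 := by rw [Fs_card ha hb hab, hc]
    have e1 := tri_erase (G := G) ha
    have e2 := tri_erase (G := G) (mem_erase.2 ⟨hab.symm, hb⟩ : b ∈ S.erase a)
    have e3 : nb G a (S.erase a) = nb G a (Fs S a b) := by
      ext v
      rw [mem_nb, mem_nb, mem_Fs, mem_erase]
      constructor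
      · rintro ⟨⟨h1, h2⟩, h3⟩
        exact ⟨⟨fun e => n1 (e ▸ h3), h1, h2⟩, h3⟩
      · rintro ⟨⟨h1, h2, h3⟩, h4⟩
        exact ⟨⟨h2, h3⟩, h4⟩
    rw [e3] at e1
    have e4 : (S.erase a).erase b = Fs S a b := rfl
    rw [e4] at e2
    have m1 := cl_two_missing (G := G) hcQ hdQ hcd n2
    have m2 := tri_missing_four (G := G) hQ hcQ hdQ hcd n2
    rw [hQ] at m1
    have c42 : Nat.choose 4 2 = 6 := rfl
    have c32 : Nat.choose 3 2 = 3 := rfl
    have m3 : cl G 2 (nb G a (Fs S a b)) ≤ cl G 2 (Fs S a b) := cl_sub nb_sub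
    have m4 : cl G 2 (nb G b (Fs S a b)) ≤ cl G 2 (Fs S a b) := cl_sub nb_sub
    by_cases g1 : (nb G a (Fs S a b)).card ≤ 3
    · left
      have := cl_le_choose G 2 (nb G a (Fs S a b))
      have h5 : Nat.choose (nb G a (Fs S a b)).card 2 ≤ Nat.choose 3 2 := Nat.choose_le_choose 2 g1
      omega
    by_cases g2 : (nb G b (Fs S a b)).card ≤ 3
    · left
      have := cl_le_choose G 2 (nb G b (Fs S a b))
      have h5 : Nat.choose (nb G b (Fs S a b)).card 2 ≤ Nat.choose 3 2 := Nat.choose_le_choose 2 g2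
      omega
    right
    have q1 : nb G a (Fs S a b) = Fs S a b := eq_of_subset_of_card_le nb_sub (by omega)
    have q2 : nb G b (Fs S a b) = Fs S a b := eq_of_subset_of_card_le nb_sub (by omega)
    constructor
    · intro v hv
      constructor
      · have : v ∈ nb G a (Fs S a b) := by rw [q1]; exact hv
        exact (mem_nb.1 this).2
      · have : v ∈ nb G b (Fs S a b) := by rw [q2]; exact hv
        exact (mem_nb.1 this).2
    · rw [q1] at e1
      rw [q2] at e2
      omega
  rcases half a b c d ha hb hcS hd hab hac had hbc hbd hcd n1 n2 with h | ⟨h1, h2⟩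
  · exact Or.inl h
  rcases half c d a b hcS hd ha hb hcd hac.symm hbc.symm had.symm hbd.symm hab n2 n1 with h | ⟨h3, h4⟩
  · exact Or.inl h
  right
  have hcQ : c ∈ Fs S a b := mem_Fs.2 ⟨hbc.symm, hac.symm, hcS⟩
  have hdQ : d ∈ Fs S a b := mem_Fs.2 ⟨hbd.symm, had.symm, hd⟩
  have hQ : (Fs S a b).card = 4 := by rw [Fs_card ha hb hab, hc]
  have hR : (Fs (Fs S a b) c d).card = 2 := by rw [Fs_card hcQ hdQ hcd, hQ]
  have e1 := tri_erase (G := G) hcQ
  have e2 := tri_erase (G := G) (mem_erase.2 ⟨hcd.symm, hdQ⟩ : d ∈ (Fs S a b).erase c)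
  have e4 : ((Fs S a b).erase c).erase d = Fs (Fs S a b) c d := rfl
  rw [e4] at e2
  have hcd' : ∀ v ∈ Fs (Fs S a b) c d, G.Adj c v ∧ G.Adj d v := by
    intro v hv
    have hv' := mem_Fs.1 hv
    exact h3 v (mem_Fs.2 ⟨hv'.1, hv'.2.1, (mem_Fs.1 hv'.2.2).2.2⟩)
  have e3 : nb G c ((Fs S a b).erase c) = Fs (Fs S a b) c d := by
    ext v
    rw [mem_nb, mem_erase]
    constructor
    · rintro ⟨⟨g1, g2⟩, g3⟩
      exact mem_Fs.2 ⟨fun e => n2 (e ▸ g3), g1, g2⟩
    · intro hv
      have hv' := mem_Fs.1 hv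
      exact ⟨⟨hv'.2.1, hv'.2.2⟩, (hcd' v hv).1⟩
  have e5 : nb G d (Fs (Fs S a b) c d) = Fs (Fs S a b) c d := by
    ext v
    rw [mem_nb]
    exact ⟨fun h => h.1, fun h => ⟨h, (hcd' v h).2⟩⟩
  rw [e3] at e1
  rw [e5] at e2
  have m5 := cl_le_choose G 3 (Fs (Fs S a b) c d)
  rw [hR] at m5
  have c23 : Nat.choose 2 3 = 0 := rfl
  have m6 := cl_le_choose G 2 (Fs (Fs S a b) c d)
  rw [hR] at m6
  have c22 : Nat.choose 2 2 = 1 := rfl
  have m1 := cl_two_missing (G := G) hcQ hdQ hcd n2
  rw [hQ] at m1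
  have c42 : Nat.choose 4 2 = 6 := rfl
  constructor
  · omega
  · exact ⟨cl G 2 (Fs (Fs S a b) c d) + cl G 2 (Fs S a b), by omega⟩

/-- six vertices with a missing triangle -/
lemma six_tri {G : SimpleGraph V} {S : Finset V} (hc : S.card = 6) {a b c : V} (ha : a ∈ S)
    (hb : b ∈ S) (hcS : c ∈ S) (hab : a ≠ b) (hac : a ≠ c) (hbc : b ≠ c)
    (n1 : ¬ G.Adj a b) (n2 : ¬ G.Adj a c) (n3 : ¬ G.Adj b c) : cl G 3 S ≤ 10 := by
  have e1 := tri_erase (G := G) ha
  have e2 := tri_erase (G := G) (mem_erase.2 ⟨hab.symm, hb⟩ : b ∈ S.erase a)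
  have h1 : (nb G a (S.erase a)).card ≤ 3 := by
    have : nb G a (S.erase a) ⊆ ((S.erase a).erase b).erase c := by
      intro v hv
      rw [mem_nb] at hv
      exact mem_erase.2 ⟨fun e => n2 (e ▸ hv.2), mem_erase.2 ⟨fun e => n1 (e ▸ hv.2), hv.1⟩⟩
    have := card_le_card this
    rw [card_erase_of_mem, card_erase_of_mem, card_erase_of_mem ha] at this
    · omega
    · exact mem_erase.2 ⟨hab.symm, hb⟩
    · exact mem_erase.2 ⟨hbc.symm, mem_erase.2 ⟨hac.symm, hcS⟩⟩
  have hcc : ((S.erase a).erase b).card = 4 := by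
    rw [card_erase_of_mem (mem_erase.2 ⟨hab.symm, hb⟩), card_erase_of_mem ha]; omega
  have h2 : (nb G b ((S.erase a).erase b)).card ≤ 3 := by
    have : nb G b ((S.erase a).erase b) ⊆ ((S.erase a).erase b).erase c := by
      intro v hv
      rw [mem_nb] at hv
      exact mem_erase.2 ⟨fun e => n3 (e ▸ hv.2), hv.1⟩
    have := card_le_card this
    rw [card_erase_of_mem] at this
    · omega
    · exact mem_erase.2 ⟨hbc.symm, mem_erase.2 ⟨hac.symm, hcS⟩⟩
  have m1 := cl_le_choose G 2 (nb G a (S.erase a))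
  have m2 := cl_le_choose G 2 (nb G b ((S.erase a).erase b))
  have m3 := cl_le_choose G 3 ((S.erase a).erase b)
  rw [hcc] at m3
  have c43 : Nat.choose 4 3 = 4 := rfl
  have c32 : Nat.choose 3 2 = 3 := rfl
  have m4 : Nat.choose (nb G a (S.erase a)).card 2 ≤ Nat.choose 3 2 := Nat.choose_le_choose 2 h1
  have m5 : Nat.choose (nb G b ((S.erase a).erase b)).card 2 ≤ Nat.choose 3 2 :=
    Nat.choose_le_choose 2 h2
  omega

/-- six vertices without a clique of size five -/
theorem six_free {G : SimpleGraph V} {S : Finset V} (hc : S.card = 6)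
    (hK : ∀ T ⊆ S, T.card = 5 → ∃ p ∈ T, ∃ q ∈ T, p ≠ q ∧ ¬ G.Adj p q) :
    cl G 3 S ≤ 10 ∨ (cl G 3 S ≤ 12 ∧ Even (cl G 3 S)) := by
  have hE : ∀ v ∈ S, ∃ p ∈ S, ∃ q ∈ S, p ≠ v ∧ q ≠ v ∧ p ≠ q ∧ ¬ G.Adj p q := by
    intro v hv
    obtain ⟨p, hp, q, hq, h1, h2⟩ := hK (S.erase v) (erase_subset _ _)
      (by rw [card_erase_of_mem hv, hc])
    exact ⟨p, mem_of_mem_erase hp, q, mem_of_mem_erase hq, (mem_erase.1 hp).1, (mem_erase.1 hq).1,
      h1, h2⟩
  obtain ⟨v, hv⟩ : S.Nonempty := by rw [← card_pos]; omega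
  obtain ⟨a, ha, b, hb, _, _, hab, nab⟩ := hE v hv
  -- a missing pair sharing at most `b`
  have main : ∀ a b d, a ∈ S → b ∈ S → d ∈ S → a ≠ b → b ≠ d → d ≠ a → ¬ G.Adj a b → ¬ G.Adj b d →
      cl G 3 S ≤ 10 ∨ (cl G 3 S ≤ 12 ∧ Even (cl G 3 S)) := by
    intro a b d ha hb hd hab hbd hda nab nbd
    obtain ⟨e, he, f, hf, heb, hfb, hef, nef⟩ := hE b hb
    by_cases h1 : e ≠ a ∧ f ≠ a
    · exact six_pairs hc ha hb he hf hab h1.1.symm h1.2.symm heb.symm hfb.symm hef nab nef
    · by_cases h2 : e ≠ d ∧ f ≠ d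
      · exact six_pairs hc hb hd he hf hbd heb.symm hfb.symm h2.1.symm h2.2.symm hef nbd nef
      · left
        have hda' : ¬ G.Adj a d := by
          by_cases g1 : e = a
          · by_cases g2 : f = d
            · rw [g1, g2] at nef; exact nef
            · have g3 : e = d := by
                by_contra g3
                exact h2 ⟨g3, g2⟩
              exact absurd (g3.symm.trans g1) hda
          · have g2 : f = a := by
              by_contra g2
              exact h1 ⟨g1, g2⟩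
            by_cases g3 : e = d
            · rw [g2, g3] at nef; exact fun h => nef h.symm
            · have g4 : f = d := by
                by_contra g4
                exact h2 ⟨g3, g4⟩
              exact absurd (g4.symm.trans g2) hda
        exact six_tri hc ha hb hd hab hda.symm hbd nab hda' nbd
  obtain ⟨c, hcS, d, hd, hca, hda, hcd, ncd⟩ := hE a ha
  by_cases h1 : c = b
  · subst h1
    exact main a c d ha hcS hd hab hcd hda nab ncd
  · by_cases h2 : d = b
    · subst h2
      exact main a d c ha hd hcS hab hcd.symm hca nab (fun h => ncd h.symm)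
    · exact six_pairs hc ha hb hcS hd hab hca.symm hda.symm (fun e => h1 e.symm) (fun e => h2 e.symm)
        hcd nab ncd

/-- the graph is `3`-connected -/
theorem three_connected {H : SimpleGraph V} {n : ℕ} (hn : 11 ≤ n) (hodd : Odd n)
    (hV : Fintype.card V = n + 1) (ht : cl H 3 univ = n) (hb : bb H univ + 1 = n)
    (hd : (derivative (P H univ)).eval 2 ≠ 0) (hs : NS H univ 2)
    (hK : ∀ T : Finset V, T.card = 5 → ∃ p ∈ T, ∃ q ∈ T, p ≠ q ∧ ¬ H.Adj p q) :
    NS H univ 3 := by
  have h0 : TS H H univ n := by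
    refine ⟨hs, by rw [card_univ, hV]; omega, hb.le, ht, ?_, fun _ _ _ _ h => h, Or.inr ⟨rfl, rfl⟩⟩
    intro A B p q hT
    by_contra hcon
    push Not at hcon
    exact hd (deriv_two_zero hT (by omega) (by omega))
  obtain ⟨G, S, h, h3⟩ := TS.reduce _ H univ rfl h0
  have htG : n ≤ cl G 3 S := by rw [← h.t]; exact cl_mono (subset_refl _) h.le
  rcases Nat.lt_or_ge S.card 6 with h6 | h6
  · exfalso
    have h1 := cl_le_choose H 3 S
    have h2 : S.card.choose 3 ≤ Nat.choose 5 3 := Nat.choose_le_choose 3 (by omega)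
    have h4 : Nat.choose 5 3 = 10 := rfl
    have := h.t
    omega
  rcases Nat.lt_or_ge S.card 7 with h7 | h7
  · exfalso
    have h1 := six_free (G := H) (S := S) (by omega) (fun T _ hT => hK T hT)
    rw [h.t] at h1
    rcases h1 with h1 | ⟨h1, h2⟩
    · omega
    · exact (Nat.not_even_iff_odd.2 hodd) h2
  have h8 := seven (S.card - 7) _ G S (by omega) rfl h3
  have hbG := h.b
  have hz : (((S.card - 7 : ℕ) : ℤ)) = (S.card : ℤ) - 7 := by push_cast [Nat.cast_sub h7]; ring
  rcases h8 with h8 | ⟨h8, h9⟩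
  · exfalso; omega
  · have hSc : S.card = n + 1 := by
      rw [hz] at h9
      omega
    rcases h.sz with h' | ⟨h', h''⟩
    · omega
    · rw [← h', ← h'']; exact h3

end Pool.Agent.H62.Wh
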