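import Pool.Agent.H62.WB

/-!
Counting edges and triangles; the first coefficients of the chromatic polynomial.
-/

set_option linter.unusedSectionVars false
set_option linter.unusedVariables false

namespace Pool.Agent.H62.Wh

open Finset Polynomial

variable {V : Type*} [DecidableEq V] [Fintype V]

/-- the `r`-cliques in `S` -/
noncomputable def clset (G : SimpleGraph V) (r : ℕ) (S : Finset V) : Finset (Finset V) :=
  @Finset.filter _ (fun T => ∀ a ∈ T, ∀ b ∈ T, a ≠ b → G.Adj a b) (Classical.decPred _)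
    (S.powersetCard r)

/-- the number of `r`-cliques in `S` -/
noncomputable def cl (G : SimpleGraph V) (r : ℕ) (S : Finset V) : ℕ := (clset G r S).card

lemma mem_clset {G : SimpleGraph V} {r : ℕ} {S T : Finset V} :
    T ∈ clset G r S ↔ (T ⊆ S ∧ T.card = r) ∧ ∀ a ∈ T, ∀ b ∈ T, a ≠ b → G.Adj a b := by
  unfold clset
  rw [@Finset.mem_filter _ _ (Classical.decPred _), mem_powersetCard]

lemma cl_zero (G : SimpleGraph V) (S : Finset V) : cl G 0 S = 1 := by
  unfold cl
  rw [card_eq_one]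
  refine ⟨∅, ?_⟩
  ext T
  rw [mem_clset, mem_singleton]
  constructor
  · rintro ⟨⟨_, h⟩, _⟩; exact card_eq_zero.1 h
  · rintro rfl; simp

lemma cl_one (G : SimpleGraph V) (S : Finset V) : cl G 1 S = S.card := by
  unfold cl
  have : clset G 1 S = S.image (fun v => {v}) := by
    ext T
    rw [mem_clset, mem_image]
    constructor
    · rintro ⟨⟨h1, h2⟩, _⟩
      obtain ⟨v, rfl⟩ := card_eq_one.1 h2
      exact ⟨v, h1 (mem_singleton_self v), rfl⟩
    · rintro ⟨v, hv, rfl⟩
      refine ⟨⟨by simpa using hv, card_singleton v⟩, ?_⟩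
      intro a ha b hb hab
      rw [mem_singleton] at ha hb
      exact absurd (ha.trans hb.symm) hab
  rw [this, card_image_of_injective _ singleton_injective]

lemma cl_insert {G : SimpleGraph V} {r : ℕ} {K : Finset V} {v : V} (hv : v ∉ K) :
    cl G (r + 1) (insert v K) = cl G (r + 1) K + cl G r (nb G v K) := by
  have h : clset G (r + 1) (insert v K) =
      clset G (r + 1) K ∪ (clset G r (nb G v K)).image (insert v) := by
    ext T
    rw [mem_union, mem_image, mem_clset, mem_clset]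
    constructor
    · rintro ⟨⟨h1, h2⟩, h3⟩
      by_cases hT : v ∈ T
      · right
        refine ⟨T.erase v, ?_, insert_erase hT⟩
        rw [mem_clset]
        refine ⟨⟨?_, by rw [card_erase_of_mem hT, h2]; rfl⟩, ?_⟩
        · intro u hu
          rw [mem_erase] at hu
          rw [mem_nb]
          rcases mem_insert.1 (h1 hu.2) with h' | h'
          · exact absurd h' hu.1
          · exact ⟨h', h3 v hT u hu.2 hu.1.symm⟩
        · intro a ha b hb hab
          exact h3 a (mem_of_mem_erase ha) b (mem_of_mem_erase hb) hab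
      · left
        refine ⟨⟨?_, h2⟩, h3⟩
        intro u hu
        rcases mem_insert.1 (h1 hu) with h' | h'
        · exact absurd (h' ▸ hu) hT
        · exact h'
    · rintro (⟨⟨h1, h2⟩, h3⟩ | ⟨T', hT', rfl⟩)
      · exact ⟨⟨h1.trans (subset_insert _ _), h2⟩, h3⟩
      · rw [mem_clset] at hT'
        obtain ⟨⟨h1, h2⟩, h3⟩ := hT'
        have hvT : v ∉ T' := fun h => hv (nb_sub (h1 h))
        refine ⟨⟨insert_subset_insert _ (h1.trans nb_sub), by rw [card_insert_of_notMem hvT, h2]⟩, ?_⟩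
        intro a ha b hb hab
        rcases mem_insert.1 ha with ea | ha'
        · rcases mem_insert.1 hb with eb | hb'
          · exact absurd (ea.trans eb.symm) hab
          · rw [ea]; exact (mem_nb.1 (h1 hb')).2
        · rcases mem_insert.1 hb with eb | hb'
          · rw [eb]; exact (mem_nb.1 (h1 ha')).2.symm
          · exact h3 a ha' b hb' hab
  unfold cl
  rw [h, card_union_of_disjoint, card_image_of_injOn]
  · intro A hA B hB hAB
    have hA' := (mem_clset.1 (mem_coe.1 hA)).1.1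
    have hB' := (mem_clset.1 (mem_coe.1 hB)).1.1
    have h1 : v ∉ A := fun h => hv (nb_sub (hA' h))
    have h2 : v ∉ B := fun h => hv (nb_sub (hB' h))
    have hAB' : insert v A = insert v B := hAB
    rw [← erase_insert h1, ← erase_insert h2, hAB']
  · rw [disjoint_left]
    intro T hT hT'
    rw [mem_clset] at hT
    rw [mem_image] at hT'
    obtain ⟨T', _, rfl⟩ := hT'
    exact hv (hT.1.1 (mem_insert_self _ _))

lemma cl_erase {G : SimpleGraph V} {r : ℕ} {S : Finset V} {v : V} (hv : v ∈ S) :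
    cl G (r + 1) S = cl G (r + 1) (S.erase v) + cl G r (nb G v (S.erase v)) := by
  conv_lhs => rw [← insert_erase hv]
  exact cl_insert (notMem_erase v S)

lemma clset_mono {G G' : SimpleGraph V} {r : ℕ} {S S' : Finset V} (h : S ⊆ S')
    (hG : ∀ a ∈ S, ∀ b ∈ S, G.Adj a b → G'.Adj a b) : clset G r S ⊆ clset G' r S' := by
  intro T hT
  rw [mem_clset] at hT ⊢
  exact ⟨⟨hT.1.1.trans h, hT.1.2⟩,
    fun a ha b hb hab => hG a (hT.1.1 ha) b (hT.1.1 hb) (hT.2 a ha b hb hab)⟩

lemma cl_mono {G G' : SimpleGraph V} {r : ℕ} {S S' : Finset V} (h : S ⊆ S')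
    (hG : ∀ a ∈ S, ∀ b ∈ S, G.Adj a b → G'.Adj a b) : cl G r S ≤ cl G' r S' :=
  card_le_card (clset_mono h hG)

lemma cl_sub {G : SimpleGraph V} {r : ℕ} {S S' : Finset V} (h : S ⊆ S') : cl G r S ≤ cl G r S' :=
  cl_mono h (fun _ _ _ _ h => h)

lemma cl_congr {G G' : SimpleGraph V} {r : ℕ} {S : Finset V} (h : Agree G G' S) :
    cl G r S = cl G' r S :=
  le_antisymm (cl_mono (subset_refl _) (fun a ha b hb => (h a ha b hb).1))
    (cl_mono (subset_refl _) (fun a ha b hb => (h a ha b hb).2))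

lemma clset_sub {G : SimpleGraph V} {r : ℕ} {S : Finset V} : clset G r S ⊆ S.powersetCard r :=
  fun T hT => mem_powersetCard.2 (mem_clset.1 hT).1

lemma cl_le_choose (G : SimpleGraph V) (r : ℕ) (S : Finset V) : cl G r S ≤ S.card.choose r := by
  rw [← card_powersetCard]
  exact card_le_card clset_sub

lemma cl_two_missing {G : SimpleGraph V} {S : Finset V} {p q : V} (hp : p ∈ S) (hq : q ∈ S)
    (hpq : p ≠ q) (h : ¬ G.Adj p q) : cl G 2 S + 1 ≤ S.card.choose 2 := by
  have h1 : {p, q} ∉ clset G 2 S := by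
    intro h'
    rw [mem_clset] at h'
    exact h (h'.2 p (by simp) q (by simp) hpq)
  have h2 : insert {p, q} (clset G 2 S) ⊆ S.powersetCard 2 := by
    intro T hT
    rcases mem_insert.1 hT with rfl | hT
    · rw [mem_powersetCard]
      refine ⟨?_, card_pair hpq⟩
      intro v hv
      rw [mem_insert, mem_singleton] at hv
      rcases hv with rfl | rfl <;> assumption
    · exact clset_sub hT
  have h3 := card_le_card h2
  rw [card_insert_of_notMem h1, card_powersetCard] at h3
  exact h3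

lemma cl_two_pos {G : SimpleGraph V} {S : Finset V} {p q : V} (hp : p ∈ S) (hq : q ∈ S)
    (h : G.Adj p q) : 1 ≤ cl G 2 S := by
  apply card_pos.2
  refine ⟨{p, q}, ?_⟩
  rw [mem_clset]
  refine ⟨⟨?_, card_pair h.ne⟩, ?_⟩
  · intro v hv
    rw [mem_insert, mem_singleton] at hv
    rcases hv with rfl | rfl <;> assumption
  · intro a ha b hb hab
    rw [mem_insert, mem_singleton] at ha hb
    rcases ha with rfl | rfl <;> rcases hb with rfl | rfl
    · exact absurd rfl hab
    · exact h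
    · exact h.symm
    · exact absurd rfl hab

lemma cl_two_zero {G : SimpleGraph V} {S : Finset V} (h : ∀ a ∈ S, ∀ b ∈ S, ¬ G.Adj a b) :
    cl G 2 S = 0 := by
  unfold cl
  rw [card_eq_zero, eq_empty_iff_forall_notMem]
  intro T hT
  rw [mem_clset] at hT
  obtain ⟨a, b, hab, rfl⟩ := card_eq_two.1 hT.1.2
  exact h a (hT.1.1 (by simp)) b (hT.1.1 (by simp)) (hT.2 a (by simp) b (by simp) hab)

lemma cl_three_zero {G : SimpleGraph V} {S : Finset V} (h : ∀ a ∈ S, ∀ b ∈ S, ¬ G.Adj a b) :
    cl G 3 S = 0 := by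
  unfold cl
  rw [card_eq_zero, eq_empty_iff_forall_notMem]
  intro T hT
  rw [mem_clset] at hT
  obtain ⟨a, b, c, hab, hac, hbc, rfl⟩ := card_eq_three.1 hT.1.2
  exact h a (hT.1.1 (by simp)) b (hT.1.1 (by simp)) (hT.2 a (by simp) b (by simp) hab)

/-- crossing edges -/
noncomputable def cr (G : SimpleGraph V) (A B : Finset V) : ℕ :=
  (clset G 2 (A ∪ B) \ (clset G 2 A ∪ clset G 2 B)).card

lemma cl_union (G : SimpleGraph V) (A B : Finset V) :
    cl G 2 (A ∪ B) + cl G 2 (A ∩ B) = cl G 2 A + cl G 2 B + cr G A B := by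
  have h1 : clset G 2 A ∪ clset G 2 B ⊆ clset G 2 (A ∪ B) :=
    union_subset (clset_mono subset_union_left (fun _ _ _ _ h => h))
      (clset_mono subset_union_right (fun _ _ _ _ h => h))
  have h2 : clset G 2 A ∩ clset G 2 B = clset G 2 (A ∩ B) := by
    ext T
    rw [mem_inter, mem_clset, mem_clset, mem_clset, subset_inter_iff]
    tauto
  have h3 := card_union_add_card_inter (clset G 2 A) (clset G 2 B)
  rw [h2] at h3
  have h4 := card_sdiff_add_card_eq_card h1
  unfold cl cr
  omega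

lemma cr_pos {G : SimpleGraph V} {A B : Finset V} {a b : V} (ha : a ∈ A) (ha' : a ∉ B)
    (hb : b ∈ B) (hb' : b ∉ A) (hab : G.Adj a b) : 1 ≤ cr G A B := by
  apply card_pos.2
  refine ⟨{a, b}, ?_⟩
  rw [mem_sdiff, mem_union, mem_clset, mem_clset, mem_clset]
  refine ⟨⟨⟨?_, card_pair hab.ne⟩, ?_⟩, ?_⟩
  · intro v hv
    rw [mem_insert, mem_singleton] at hv
    rcases hv with rfl | rfl
    · exact mem_union_left _ ha
    · exact mem_union_right _ hb
  · intro u hu v hv huv
    rw [mem_insert, mem_singleton] at hu hv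
    rcases hu with rfl | rfl <;> rcases hv with rfl | rfl
    · exact absurd rfl huv
    · exact hab
    · exact hab.symm
    · exact absurd rfl huv
  · rintro (⟨⟨h, _⟩, _⟩ | ⟨⟨h, _⟩, _⟩)
    · exact hb' (h (by simp))
    · exact ha' (h (by simp))

/-- the vertices other than `x, y` -/
def Fs (S : Finset V) (x y : V) : Finset V := (S.erase x).erase y

lemma mem_Fs {S : Finset V} {x y v : V} : v ∈ Fs S x y ↔ v ≠ y ∧ v ≠ x ∧ v ∈ S := by
  unfold Fs; rw [mem_erase, mem_erase]

section edge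

variable {G : SimpleGraph V} {S : Finset V} {x y : V}

lemma Fs_card (hx : x ∈ S) (hy : y ∈ S) (hxy : x ≠ y) : (Fs S x y).card = S.card - 2 := by
  unfold Fs
  rw [card_erase_of_mem (mem_erase.2 ⟨hxy.symm, hy⟩), card_erase_of_mem hx]; omega

lemma Fs_insert_right (hx : x ∈ S) (hy : y ∈ S) (hxy : x ≠ y) : insert y (Fs S x y) = S.erase x :=
  insert_erase (mem_erase.2 ⟨hxy.symm, hy⟩)

lemma Fs_insert_left (hx : x ∈ S) (hy : y ∈ S) (hxy : x ≠ y) : insert x (Fs S x y) = S.erase y := by
  unfold Fs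
  rw [erase_right_comm]
  exact insert_erase (mem_erase.2 ⟨hxy, hx⟩)

lemma x_notMem_Fs : x ∉ Fs S x y := fun h => (mem_Fs.1 h).2.1 rfl

lemma y_notMem_Fs : y ∉ Fs S x y := fun h => (mem_Fs.1 h).1 rfl

lemma nb_edge (hx : x ∈ S) (hy : y ∈ S) (hxy : G.Adj x y) :
    nb G x (S.erase x) = insert y (nb G x (Fs S x y)) := by
  ext u
  rw [mem_insert, mem_nb, mem_nb, mem_erase, mem_Fs]
  constructor
  · rintro ⟨⟨h1, h2⟩, h3⟩
    by_cases h : u = y
    · exact Or.inl h
    · exact Or.inr ⟨⟨h, h1, h2⟩, h3⟩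
  · rintro (rfl | ⟨⟨h1, h2, h3⟩, h4⟩)
    · exact ⟨⟨hxy.ne.symm, hy⟩, hxy⟩
    · exact ⟨⟨h2, h3⟩, h4⟩

lemma nb_nb (T : Finset V) (hT : T ⊆ S) : nb G y T = T ∩ nb G y S := by
  ext u
  rw [mem_inter, mem_nb, mem_nb]
  constructor
  · rintro ⟨h1, h2⟩; exact ⟨h1, hT h1, h2⟩
  · rintro ⟨h1, h2, h3⟩; exact ⟨h1, h3⟩

lemma nb_con (hx : x ∈ S) (hy : y ∈ S) (hxy : x ≠ y) :
    nb (con G x y) x (Fs S x y) = nb G x (Fs S x y) ∪ nb G y (Fs S x y) := by
  ext u
  rw [mem_union, mem_nb, mem_nb, mem_nb, con_adj]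
  constructor
  · rintro ⟨h1, h2, h3 | h3 | h3⟩
    · exact Or.inl ⟨h1, h3⟩
    · exact Or.inr ⟨h1, h3.2⟩
    · exact absurd h3.1.symm h2
  · rintro (⟨h1, h2⟩ | ⟨h1, h2⟩)
    · exact ⟨h1, h2.ne, Or.inl h2⟩
    · exact ⟨h1, fun e => (mem_Fs.1 h1).2.1 e.symm, Or.inr (Or.inl ⟨rfl, h2⟩)⟩

lemma agree_con_Fs : Agree G (con G x y) (Fs S x y) :=
  agree_con (fun h => absurd h x_notMem_Fs)

/-- triangles through an edge -/
lemma tri_edge (hx : x ∈ S) (hy : y ∈ S) (hxy : G.Adj x y) :
    cl G 3 S = cl G 3 (Fs S x y) + cl G 2 (nb G x (Fs S x y)) + cl G 2 (nb G y (Fs S x y)) +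
      (nb G x (Fs S x y) ∩ nb G y (Fs S x y)).card := by
  have hyX : y ∉ nb G x (Fs S x y) := fun h => y_notMem_Fs (nb_sub h)
  rw [cl_erase hx, nb_edge hx hy hxy, cl_insert hyX, ← Fs_insert_right hx hy hxy.ne,
    cl_insert y_notMem_Fs, cl_one, nb_nb (S := Fs S x y) _ nb_sub]
  ring

lemma tri_del (hx : x ∈ S) (hy : y ∈ S) (hxy : x ≠ y) :
    cl (del G x y) 3 S = cl G 3 (Fs S x y) + cl G 2 (nb G x (Fs S x y)) +
      cl G 2 (nb G y (Fs S x y)) := by
  have h1 : cl (del G x y) 2 (nb G x (Fs S x y)) = cl G 2 (nb G x (Fs S x y)) :=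
    (cl_congr (agree_del_left (fun h => x_notMem_Fs (nb_sub h)))).symm
  have h2 : cl (del G x y) 3 (S.erase x) = cl G 3 (S.erase x) :=
    (cl_congr (agree_del_left (notMem_erase x S))).symm
  rw [cl_erase hx, nb_del_self hy hxy, h2, show (S.erase x).erase y = Fs S x y from rfl, h1,
    ← Fs_insert_right hx hy hxy, cl_insert y_notMem_Fs]
  ring

lemma tri_con (hx : x ∈ S) (hy : y ∈ S) (hxy : x ≠ y) :
    cl (con G x y) 3 (S.erase y) = cl G 3 (Fs S x y) +
      cl G 2 (nb G x (Fs S x y) ∪ nb G y (Fs S x y)) := by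
  rw [← Fs_insert_left hx hy hxy, cl_insert x_notMem_Fs, nb_con hx hy hxy,
    ← cl_congr (agree_con_Fs (G := G) (S := S) (x := x) (y := y)),
    ← cl_congr ((agree_con_Fs (G := G) (S := S) (x := x) (y := y)).mono (union_subset nb_sub nb_sub))]

lemma edg_edge (hx : x ∈ S) (hy : y ∈ S) (hxy : G.Adj x y) :
    cl G 2 S = cl G 2 (Fs S x y) + (nb G x (Fs S x y)).card + (nb G y (Fs S x y)).card + 1 := by
  have hyX : y ∉ nb G x (Fs S x y) := fun h => y_notMem_Fs (nb_sub h)
  rw [cl_erase hx, nb_edge hx hy hxy, cl_one, card_insert_of_notMem hyX,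
    ← Fs_insert_right hx hy hxy.ne, cl_insert y_notMem_Fs, cl_one]
  ring

lemma edg_del (hx : x ∈ S) (hy : y ∈ S) (hxy : x ≠ y) :
    cl (del G x y) 2 S = cl G 2 (Fs S x y) + (nb G x (Fs S x y)).card + (nb G y (Fs S x y)).card := by
  have h2 : cl (del G x y) 2 (S.erase x) = cl G 2 (S.erase x) :=
    (cl_congr (agree_del_left (notMem_erase x S))).symm
  rw [cl_erase hx, nb_del_self hy hxy, h2, show (S.erase x).erase y = Fs S x y from rfl, cl_one,
    ← Fs_insert_right hx hy hxy, cl_insert y_notMem_Fs, cl_one]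
  ring

lemma edg_con (hx : x ∈ S) (hy : y ∈ S) (hxy : x ≠ y) :
    cl (con G x y) 2 (S.erase y) = cl G 2 (Fs S x y) +
      (nb G x (Fs S x y) ∪ nb G y (Fs S x y)).card := by
  rw [← Fs_insert_left hx hy hxy, cl_insert x_notMem_Fs, nb_con hx hy hxy, cl_one,
    ← cl_congr (agree_con_Fs (G := G) (S := S) (x := x) (y := y))]

end edge

lemma P_edgeless (G : SimpleGraph V) : ∀ (n : ℕ) (S : Finset V), S.card = n →
    (∀ a ∈ S, ∀ b ∈ S, ¬ G.Adj a b) → P G S = X ^ n := by
  intro n
  induction n with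
  | zero =>
    intro S hS _
    rw [card_eq_zero] at hS
    subst hS
    rw [P_empty, pow_zero]
  | succ n ih =>
    intro S hS h
    obtain ⟨a, ha⟩ : S.Nonempty := by rw [← card_pos]; omega
    rw [P_iso G ha (h a ha), ih (S.erase a) (by rw [card_erase_of_mem ha, hS]; rfl)
      (fun b hb c hc => h b (mem_of_mem_erase hb) c (mem_of_mem_erase hc)), pow_succ]
    ring

/-- the first coefficients -/
theorem P_coeffs : ∀ (n m : ℕ) (G : SimpleGraph V) (S : Finset V), S.card = n →
    (pairs G S).card = m →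
    (P G S).coeff n = 1 ∧ (∀ j, n < j → (P G S).coeff j = 0) ∧
    (∀ k, k + 1 = n → (P G S).coeff k = - (cl G 2 S : ℤ)) ∧
    (∀ k, k + 2 = n → 2 * (P G S).coeff k = (cl G 2 S : ℤ) * ((cl G 2 S : ℤ) - 1) - 2 * cl G 3 S) := by
  intro n
  induction n with
  | zero =>
    intro m G S hS _
    rw [card_eq_zero] at hS
    subst hS
    rw [P_empty]
    refine ⟨by simp, fun j hj => ?_, fun k hk => by omega, fun k hk => by omega⟩
    rw [coeff_one, if_neg (by omega)]
  | succ n ihn =>
    intro m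
    induction m using Nat.strong_induction_on with
    | _ m ihm =>
      intro G S hS hm
      by_cases h : ∃ x ∈ S, ∃ y ∈ S, G.Adj x y
      · obtain ⟨x, hx, y, hy, hxy⟩ := h
        obtain ⟨a1, a2, a3, a4⟩ := ihm _ (hm ▸ pairs_del_lt hx hy hxy) (del G x y) S hS rfl
        obtain ⟨b1, b2, b3, b4⟩ := ihn _ (con G x y) (S.erase y)
          (by rw [card_erase_of_mem hy, hS]; rfl) rfl
        rw [P_edge hx hy hxy]
        simp only [coeff_sub]
        have e1 := edg_edge hx hy hxy
        have e2 := edg_del (G := G) hx hy hxy.ne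
        have e3 := edg_con (G := G) hx hy hxy.ne
        have e4 := tri_edge hx hy hxy
        have e5 := tri_del (G := G) hx hy hxy.ne
        have e6 := card_union_add_card_inter (nb G x (Fs S x y)) (nb G y (Fs S x y))
        refine ⟨?_, fun j hj => ?_, fun k hk => ?_, fun k hk => ?_⟩
        · rw [a1, b2 _ (by omega)]; ring
        · rw [a2 _ hj, b2 _ (by omega)]; ring
        · have hk' : k = n := by omega
          subst hk'
          rw [a3 _ rfl, b1, e1, e2]; push_cast; ring
        · have h1 := a4 k hk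
          have h2 := b3 k (by omega)
          rw [mul_sub, h1, h2]
          have f1 : (cl G 2 S : ℤ) = cl (del G x y) 2 S + 1 := by rw [e1, e2]; push_cast; ring
          have f2 : (cl G 3 S : ℤ) = cl (del G x y) 3 S +
              (nb G x (Fs S x y) ∩ nb G y (Fs S x y)).card := by rw [e4, e5]; push_cast; ring
          have f3 : (cl (del G x y) 2 S : ℤ) = cl (con G x y) 2 (S.erase y) +
              (nb G x (Fs S x y) ∩ nb G y (Fs S x y)).card := by
            rw [e2, e3]; push_cast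
            have : ((nb G x (Fs S x y) ∪ nb G y (Fs S x y)).card : ℤ) +
              (nb G x (Fs S x y) ∩ nb G y (Fs S x y)).card =
              (nb G x (Fs S x y)).card + (nb G y (Fs S x y)).card := by exact_mod_cast e6
            linarith
          rw [f1, f2]
          linear_combination (-2) * f3
      · push Not at h
        rw [P_edgeless G (n + 1) S hS h, cl_two_zero h, cl_three_zero h]
        refine ⟨by simp, fun j hj => ?_, fun k hk => ?_, fun k hk => ?_⟩
        · rw [coeff_X_pow, if_neg (by omega)]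
        · rw [coeff_X_pow, if_neg (by omega)]; simp
        · rw [coeff_X_pow, if_neg (by omega)]; simp

end Pool.Agent.H62.Wh
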