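import Pool.Agent.H62.WTorso

/-!
The chromatic polynomial of a wheel.
-/

set_option linter.unusedSectionVars false
set_option linter.unusedVariables false

namespace Pool.Agent.H62.Wh

open Finset Polynomial

variable {V : Type*} [DecidableEq V] [Fintype V]

/-- index form of `EP` -/
theorem EP_iff (G : SimpleGraph V) : ∀ L : List V, EP G L ↔
    ∀ i j : ℕ, ∀ (hij : i < j) (hj : j < L.length), (G.Adj (L[i]'(by omega)) L[j] ↔ j = i + 1) := by
  intro L
  induction L with
  | nil => simp [EP]
  | cons a t ih =>
    cases t with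
    | nil =>
      constructor
      · intro _ i j hij hj
        simp only [List.length_cons, List.length_nil] at hj
        omega
      · intro _; trivial
    | cons b l =>
      constructor
      · rintro ⟨h1, h2, h3⟩ i j hij hj
        rw [ih] at h3
        cases i with
        | zero =>
          obtain ⟨j', rfl⟩ : ∃ j', j = j' + 1 := ⟨j - 1, by omega⟩
          cases j' with
          | zero => simpa using h1
          | succ j'' =>
            simp only [List.getElem_cons_zero, List.getElem_cons_succ]
            constructor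
            · intro h
              exact absurd h (h2 _ (List.getElem_mem _))
            · intro h; omega
        | succ i' =>
          obtain ⟨j', rfl⟩ : ∃ j', j = j' + 1 := ⟨j - 1, by omega⟩
          have := h3 i' j' (by omega) (by simpa using hj)
          simp only [List.getElem_cons_succ]
          rw [this]
          omega
      · intro h
        refine ⟨?_, ?_, ?_⟩
        · have := h 0 1 (by omega) (by simp)
          simpa using this
        · intro c hc
          obtain ⟨k, hk, rfl⟩ := List.getElem_of_mem hc
          have := h 0 (k + 2) (by omega) (by simpa using hk)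
          simp only [List.getElem_cons_zero, List.getElem_cons_succ] at this
          rw [this]
          omega
        · rw [ih]
          intro i j hij hj
          have := h (i + 1) (j + 1) (by omega) (by simpa using hj)
          simp only [List.getElem_cons_succ] at this
          rw [this]
          omega

/-- the chromatic polynomial of a fan -/
theorem fanP (G : SimpleGraph V) (h : V) : ∀ (a : V) (l : List V), (a :: l).Nodup → h ∉ a :: l →
    (∀ v ∈ a :: l, G.Adj h v) → EP G (a :: l) →
    P G (insert h (a :: l).toFinset) = X * (X - 1) * (X - 2) ^ l.length := by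
  intro a l
  induction l generalizing a with
  | nil =>
    intro _ _ hadj _
    have := P_pair (hadj a (by simp))
    simpa using this
  | cons b l ih =>
    intro hnd hh hadj hEP
    obtain ⟨e1, e2, e3⟩ := hEP
    have hab : a ∉ b :: l := (List.nodup_cons.1 hnd).1
    have hah : a ≠ h := fun e => hh (e ▸ List.mem_cons_self)
    have hbh : b ≠ h := fun e => hh (e ▸ List.mem_cons_of_mem _ List.mem_cons_self)
    have hS : insert h (a :: b :: l).toFinset = insert a (insert h (b :: l).toFinset) := by
      rw [List.toFinset_cons, insert_comm]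
    have haS : a ∉ insert h (b :: l).toFinset := by
      rw [mem_insert, List.mem_toFinset]; tauto
    have hcl : (X - C ((2 : ℕ) : ℤ)) * P G (insert h (b :: l).toFinset) =
        P G (insert a (insert h (b :: l).toFinset)) := by
      symm
      apply P_simplicial 2 G _ {h, b} a (card_pair hbh.symm) haS
      · intro v hv
        rw [mem_insert, mem_singleton] at hv
        rw [mem_insert, List.mem_toFinset]
        rcases hv with rfl | rfl
        · exact Or.inl rfl
        · exact Or.inr List.mem_cons_self
      · intro u hu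
        rw [mem_insert, List.mem_toFinset] at hu
        rw [mem_insert, mem_singleton]
        constructor
        · intro hau
          rcases hu with rfl | hu
          · exact Or.inl rfl
          · rcases List.mem_cons.1 hu with rfl | hu
            · exact Or.inr rfl
            · exact absurd hau (e2 u hu)
        · rintro (rfl | rfl)
          · exact (hadj a List.mem_cons_self).symm
          · exact e1
      · intro u hu v hv huv
        rw [mem_insert, mem_singleton] at hu hv
        have hb := hadj b (List.mem_cons_of_mem _ List.mem_cons_self)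
        rcases hu with rfl | rfl <;> rcases hv with rfl | rfl
        · exact absurd rfl huv
        · exact hb
        · exact hb.symm
        · exact absurd rfl huv
    rw [hS, ← hcl, ih b (List.nodup_cons.1 hnd).2 (fun e => hh (List.mem_cons_of_mem _ e))
      (fun v hv => hadj v (List.mem_cons_of_mem _ hv)) e3]
    rw [List.length_cons, pow_succ]
    have : (C ((2 : ℕ) : ℤ) : ℤ[X]) = 2 := by simp
    rw [this]
    ring

/-- the chromatic polynomial of a wheel -/
theorem wheelP (G : SimpleGraph V) (h : V) : ∀ (l : List V) (a b z : V), (a :: b :: l).Nodup →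
    h ∉ a :: b :: l → (∀ v ∈ a :: b :: l, G.Adj h v) → EP G (a :: b :: l) →
    (b :: l).getLast? = some z →
    P (add G a z) (insert h (a :: b :: l).toFinset) =
      X * ((X - 2) ^ (l.length + 2) + (-1) ^ (l.length + 2) * (X - 2)) := by
  intro l
  induction l with
  | nil =>
    intro a b z hnd hh hadj hEP hz
    have hbz : b = z := by simpa using hz
    subst hbz
    rw [add_self hEP.1, fanP G h a [b] hnd hh hadj hEP]
    simp only [List.length_cons, List.length_nil]
    ring
  | cons c l ih =>
    intro a b z hnd hh hadj hEP hz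
    obtain ⟨e1, e2, e3⟩ := hEP
    have hnd' := List.nodup_cons.1 hnd
    rw [List.getLast?_cons_cons] at hz
    have hzm : z ∈ c :: l := List.mem_of_getLast? hz
    have hzb : z ∈ b :: c :: l := List.mem_cons_of_mem _ hzm
    have hza : z ≠ a := fun e => hnd'.1 (e ▸ hzb)
    have hzb' : z ≠ b := fun e => (List.nodup_cons.1 hnd'.2).1 (e ▸ hzm)
    have hnaz : ¬ G.Adj a z := e2 z hzm
    have hzS : z ∈ insert h (a :: b :: c :: l).toFinset := by
      rw [mem_insert, List.mem_toFinset]
      exact Or.inr (List.mem_cons_of_mem _ hzb)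
    have haS : a ∈ insert h (a :: b :: c :: l).toFinset := by
      rw [mem_insert, List.mem_toFinset]
      exact Or.inr List.mem_cons_self
    have hah : a ≠ h := fun e => hh (e ▸ List.mem_cons_self)
    have hSe : (insert h (a :: b :: c :: l).toFinset).erase a = insert h (b :: c :: l).toFinset := by
      have h1 : insert h (a :: b :: c :: l).toFinset = insert a (insert h (b :: c :: l).toFinset) := by
        rw [List.toFinset_cons, insert_comm]
      rw [h1, erase_insert]
      rw [mem_insert, List.mem_toFinset]; tauto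
    have hP := P_nonedge hzS haS hza (fun e => hnaz e.symm)
    rw [hSe, add_comm' G z a] at hP
    have hag : P (con G z a) (insert h (b :: c :: l).toFinset) =
        P (add G b z) (insert h (b :: c :: l).toFinset) := by
      apply P_congr
      intro u hu v hv
      rw [mem_insert, List.mem_toFinset] at hu hv
      -- neighbours of `a`
      have hna : ∀ w, (w = h ∨ w ∈ b :: c :: l) → G.Adj a w → w = h ∨ w = b := by
        intro w hw haw
        rcases hw with rfl | hw
        · exact Or.inl rfl
        · rcases List.mem_cons.1 hw with rfl | hw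
          · exact Or.inr rfl
          · exact absurd haw (e2 w hw)
      have hhz : G.Adj h z := hadj z (List.mem_cons_of_mem _ hzb)
      rw [con_adj, add_adj]
      constructor
      · rintro ⟨hne, h1 | ⟨h1, h2⟩ | ⟨h1, h2⟩⟩
        · exact Or.inl h1
        · rcases hna v hv h2 with h3 | h3
          · left; rw [h1, h3]; exact hhz.symm
          · right; exact ⟨hne, Or.inr ⟨h1, h3⟩⟩
        · rcases hna u hu h2 with h3 | h3
          · left; rw [h1, h3]; exact hhz
          · right; exact ⟨hne, Or.inl ⟨h3, h1⟩⟩
      · rintro (h1 | ⟨hne, ⟨h1, h2⟩ | ⟨h1, h2⟩⟩)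
        · exact ⟨h1.ne, Or.inl h1⟩
        · exact ⟨hne, Or.inr (Or.inr ⟨h2, h1 ▸ e1⟩)⟩
        · exact ⟨hne, Or.inr (Or.inl ⟨h1, h2 ▸ e1⟩)⟩
    have hfan := fanP G h a (b :: c :: l) hnd hh hadj ⟨e1, e2, e3⟩
    have hwh := ih b c z hnd'.2 (fun e => hh (List.mem_cons_of_mem _ e))
      (fun v hv => hadj v (List.mem_cons_of_mem _ hv)) e3 hz
    rw [hag, hwh, hfan] at hP
    have : P (add G a z) (insert h (a :: b :: c :: l).toFinset) =
        X * (X - 1) * (X - 2) ^ (b :: c :: l).length -
        X * ((X - 2) ^ (l.length + 2) + (-1) ^ (l.length + 2) * (X - 2)) := by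
      rw [hP]; ring
    rw [this]
    simp only [List.length_cons]
    ring

/-- colourings and colour functions -/
lemma card_coloring (H : SimpleGraph V) (k : ℕ) :
    Nat.card (H.Coloring (Fin k)) = (cols H univ k).card := by
  rw [← Fintype.card_coe, ← Nat.card_eq_fintype_card]
  apply Nat.card_congr
  refine ⟨fun C => ⟨fun v => (C v).val, ?_⟩, fun f => SimpleGraph.Coloring.mk
    (fun v => ⟨f.1 v, (mem_cols.1 f.2).1 v (mem_univ v)⟩) ?_, ?_, ?_⟩
  · rw [mem_cols]
    refine ⟨fun v _ => (C v).isLt, fun v hv => absurd (mem_univ v) hv, fun a _ b _ hab h => ?_⟩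
    exact C.valid hab (Fin.ext h)
  · intro v w hvw h
    exact (mem_cols.1 f.2).2.2 v (mem_univ v) w (mem_univ w) hvw (by simpa using h)
  · intro C
    ext v
    rfl
  · intro f
    apply Subtype.ext
    funext v
    rfl

/-- two graphs with the same numbers of colourings have the same polynomial -/
lemma P_eq_of_card {W : Type*} [DecidableEq W] [Fintype W] {H : SimpleGraph V} {G : SimpleGraph W}
    (h : ∀ k : ℕ, Nat.card (H.Coloring (Fin k)) = Nat.card (G.Coloring (Fin k))) :
    P H univ = P G univ := by
  apply poly_eq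
  intro k
  rw [P_eval, P_eval, ← card_coloring, ← card_coloring, h k]

lemma natDegree_P (H : SimpleGraph V) : (P H univ).natDegree = Fintype.card V := by
  obtain ⟨h1, h2, _, _⟩ := P_coeffs _ _ H univ rfl rfl
  rw [card_univ] at h1 h2
  apply natDegree_eq_of_le_of_coeff_ne_zero
  · rw [natDegree_le_iff_coeff_eq_zero]
    exact h2
  · rw [h1]; exact one_ne_zero

/-- the target polynomial -/
noncomputable def Q (n : ℕ) : ℤ[X] := X * ((X - 2) ^ n + (-1) ^ n * (X - 2))

lemma Q_odd {n : ℕ} (h : Odd n) : Q n = X * ((X - 2) ^ n - (X - 2)) := by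
  unfold Q
  rw [h.neg_one_pow]; ring

lemma Q_deriv {n : ℕ} (h : Odd n) : derivative (Q n) =
    ((X - 2) ^ n - (X - 2)) + X * ((n : ℤ[X]) * (X - 2) ^ (n - 1) - 1) := by
  rw [Q_odd h, derivative_mul, derivative_X, one_mul, derivative_sub, derivative_pow,
    derivative_sub, derivative_X, derivative_ofNat, sub_zero, mul_one]
  simp

lemma Q_deriv_one {n : ℕ} (h : Odd n) : (derivative (Q n)).eval 1 = (n : ℤ) - 1 := by
  rw [Q_deriv h]
  have h1 : (-1 : ℤ) ^ n = -1 := h.neg_one_pow
  have h2 : (-1 : ℤ) ^ (n - 1) = 1 := by
    apply Even.neg_one_pow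
    obtain ⟨m, rfl⟩ := h
    exact ⟨m, by omega⟩
  simp only [eval_add, eval_sub, eval_mul, eval_pow, eval_X, eval_ofNat, eval_natCast, eval_one]
  norm_num
  rw [h1, h2]; ring

lemma Q_deriv_two {n : ℕ} (h : Odd n) (hn : 2 ≤ n) : (derivative (Q n)).eval 2 = -2 := by
  rw [Q_deriv h]
  simp only [eval_add, eval_sub, eval_mul, eval_pow, eval_X, eval_ofNat, eval_natCast, eval_one,
    sub_self]
  rw [zero_pow (by omega), zero_pow (by omega)]
  ring

lemma Q_deriv_zero {n : ℕ} (h : Odd n) (hn : 2 ≤ n) : (derivative (Q n)).eval 0 ≠ 0 := by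
  rw [Q_deriv h]
  simp only [eval_add, eval_sub, eval_mul, eval_pow, eval_X, eval_ofNat, eval_natCast, eval_one,
    zero_mul, add_zero, zero_sub]
  rw [h.neg_pow]
  have h1 : (2 : ℤ) ^ 2 ≤ 2 ^ n := pow_le_pow_right₀ (by norm_num) hn
  intro h2
  linarith

lemma Q_four {n : ℕ} (h : Odd n) (hn : 2 ≤ n) : (Q n).eval 4 ≠ 0 := by
  rw [Q_odd h]
  simp only [eval_sub, eval_mul, eval_pow, eval_X, eval_ofNat]
  have h1 : (2 : ℤ) ^ 2 ≤ 2 ^ n := pow_le_pow_right₀ (by norm_num) hn
  norm_num
  intro h2
  linarith

lemma Q_coeff_one {n : ℕ} (h : Odd n) (hn : 3 ≤ n) : (Q n).coeff n = - (2 * n : ℤ) := by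
  rw [Q_odd h]
  obtain ⟨m, rfl⟩ : ∃ m, n = m + 1 := ⟨n - 1, by omega⟩
  rw [coeff_X_mul, coeff_sub]
  have e : (X - 2 : ℤ[X]) = X + C (-2) := by simp [sub_eq_add_neg]
  rw [e, coeff_X_add_C_pow, coeff_add, coeff_X_of_ne_one (by omega), coeff_C_of_ne_zero (by omega)]
  have : m + 1 - m = 1 := by omega
  rw [this, pow_one, Nat.choose_succ_self_right]
  push_cast; ring

lemma Q_coeff_two {n : ℕ} (h : Odd n) (hn : 5 ≤ n) :
    (Q n).coeff (n - 1) = 2 * ((n : ℤ) * (n - 1)) := by
  rw [Q_odd h]
  obtain ⟨m, rfl⟩ : ∃ m, n = m + 2 := ⟨n - 2, by omega⟩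
  rw [show m + 2 - 1 = m + 1 by omega, coeff_X_mul, coeff_sub]
  have e : (X - 2 : ℤ[X]) = X + C (-2) := by simp [sub_eq_add_neg]
  rw [e, coeff_X_add_C_pow, coeff_add, coeff_X_of_ne_one (by omega), coeff_C_of_ne_zero (by omega)]
  have h1 : m + 2 - m = 2 := by omega
  have h2 : (m + 2).choose m = (m + 2).choose 2 := by
    rw [← Nat.choose_symm (show 2 ≤ m + 2 by omega)]; rfl
  have h3 : 2 * (m + 2).choose 2 = (m + 2) * (m + 1) := by
    rw [Nat.choose_two_right]
    have : 2 ∣ (m + 2) * (m + 2 - 1) := by
      have := Nat.even_mul_succ_self (m + 1)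
      rw [show m + 2 - 1 = m + 1 by omega, mul_comm]
      exact this.two_dvd
    rw [Nat.mul_div_cancel' this]
    rfl
  have h4 : (2 : ℤ) * ((m + 2).choose 2 : ℤ) = (m + 2) * (m + 1) := by exact_mod_cast h3
  rw [h1, h2]
  push_cast
  linarith

end Pool.Agent.H62.Wh
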